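import Pool.Agent.Work.MP_4eca41_an.F.FDefs2

/-!
# F5: values and expansions of `w2` at `S3`, closeness to `W`

PROOFS.  `y ∈ S3`: `rh y = 0`, `r y.1 = 0` (`y.1 ∈ P`), so `w2 y = W1 y = W y` (`∫ ker = 1`).
`w2_exp`: `y ∈ S3`, `z = y + v`, `r z.1 ≤ infDist z.1 P ≤ |v.1|`, `rh z ≤ infDist z S3 ≤ |v|_∞` (`RA.le`, `RB.le`), so all points `u = (z.1 + r z.1 s, z.2 + rh z s')` satisfy `|(u - y).i| ≤ 2 |v|_∞`, `sq (u - y) ≤ 8 sq v`; `|W u - W y - J.q y (u-y)| ≤ κ' 8 sq v` for small `v` (`Sm.con`, uniform in `y ∈ S`), and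
the double average of `J.q y (u - y)` is `J.q y v + J.a y (r z.1)^2/18` (`J.c y = 0`; odd terms vanish), `(r z.1)^2 ≤ κ'' sq v` (`RA.lim0`: `r x ≤ κ (infDist x P)`), `|J.a| ` bounded on `S`.
`Exp2`: continuity of the coefficients on `S3 ⊆ S` (fields of `Sm`; `J.c = 0` on `S3`: continuous).
`w2_close`: `|W1 z - W z| ≤ C σ^2` (`w1_sub`), `|w2 z - W1 z| = |∫ (W1 (z.1, z.2 + rh s) - W1 z - Dt1 z rh s) ker| ≤ L σ^2` (`w1_lip`).  So `≤ (C + L) σ^2 ≤ η` for `σ ≤ σ0`.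
-/

set_option autoImplicit false

open Set MeasureTheory Filter Topology

namespace Pool.Agent.MP_4eca41

private theorem avg_quad (φ : ℝ → ℝ) (hφ : Continuous φ) (c0 c1 c2 E : ℝ)
    (h : ∀ s : ℝ, -1 ≤ s → s ≤ 1 → |φ s - (c0 + c1 * s + c2 * s ^ 2)| ≤ E) :
    |(∫ s in (-1 : ℝ)..1, φ s * ker s) - (c0 + c2 / 9)| ≤ E := by
  have hk := ker_continuous
  have e1 : ∫ s in (-1 : ℝ)..1, (c0 + c1 * s + c2 * s ^ 2) * ker s = c0 + c2 / 9 := by
    have i0 : IntervalIntegrable (fun s : ℝ => c0 * ker s) volume (-1) 1 :=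
      (continuous_const.mul hk).intervalIntegrable _ _
    have i1 : IntervalIntegrable (fun s : ℝ => c1 * (s * ker s)) volume (-1) 1 :=
      (continuous_const.mul (continuous_id.mul hk)).intervalIntegrable _ _
    have i2 : IntervalIntegrable (fun s : ℝ => c2 * (s ^ 2 * ker s)) volume (-1) 1 :=
      (continuous_const.mul ((continuous_pow 2).mul hk)).intervalIntegrable _ _
    have e2 : (fun s : ℝ => (c0 + c1 * s + c2 * s ^ 2) * ker s) =
        fun s => c0 * ker s + c1 * (s * ker s) + c2 * (s ^ 2 * ker s) := by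
      funext s
      ring
    rw [e2, intervalIntegral.integral_add (i0.add i1) i2, intervalIntegral.integral_add i0 i1,
      intervalIntegral.integral_const_mul, intervalIntegral.integral_const_mul,
      intervalIntegral.integral_const_mul, ker_int, ker_int1, ker_int2]
    ring
  have j1 : IntervalIntegrable (fun s : ℝ => φ s * ker s) volume (-1) 1 :=
    (hφ.mul hk).intervalIntegrable _ _
  have j2 : IntervalIntegrable (fun s : ℝ => (c0 + c1 * s + c2 * s ^ 2) * ker s) volume (-1) 1 := by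
    have : Continuous (fun s : ℝ => (c0 + c1 * s + c2 * s ^ 2) * ker s) := by fun_prop
    exact this.intervalIntegrable _ _
  rw [← e1, ← intervalIntegral.integral_sub j1 j2]
  have h3 : ‖∫ s in (-1 : ℝ)..1, (φ s * ker s - (c0 + c1 * s + c2 * s ^ 2) * ker s)‖ ≤
      ∫ s in (-1 : ℝ)..1, E * ker s := by
    refine intervalIntegral.norm_integral_le_of_norm_le (by norm_num) ?_
      ((continuous_const.mul hk).intervalIntegrable _ _)
    refine Filter.Eventually.of_forall fun s hs => ?_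
    rw [← sub_mul, Real.norm_eq_abs, abs_mul, abs_of_nonneg (ker_nonneg s)]
    exact mul_le_mul_of_nonneg_right (h s hs.1.le hs.2) (ker_nonneg s)
  rw [intervalIntegral.integral_const_mul, ker_int, mul_one, Real.norm_eq_abs] at h3
  exact h3

private theorem r_nonneg' {g : ℝ × ℝ → ℝ} {P : Set ℝ} {r r1 r2 : ℝ → ℝ} {σ : ℝ}
    (h : RA g P r r1 r2 σ) (x : ℝ) : 0 ≤ r x := by
  by_cases hx : x ∈ P
  · exact (h.zero x hx).1.ge
  · exact (h.pos x hx).le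

private theorem rh_nonneg' {W : ℝ × ℝ → ℝ} {J : Jets} {S3 : Set (ℝ × ℝ)}
    {rh rp rt rpp rpt rtt : ℝ × ℝ → ℝ} {σ : ℝ}
    (h : RB W J S3 rh rp rt rpp rpt rtt σ) (x : ℝ × ℝ) : 0 ≤ rh x := by
  by_cases hx : x ∈ S3
  · exact (h.zero x hx).ge
  · exact (h.pos x hx).le

theorem w2_eqOn (D : FData) (h : D.Ok) (y : ℝ × ℝ) (hy : y ∈ D.S3) : D.w2 y = D.W y := by
  have h1 : D.rh y = 0 := h.rb.zero y hy
  have h2 : D.r y.1 = 0 := (h.ra.zero y.1 (h.s3P y hy)).1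
  have h3 : W1 D.r D.W y = D.W y := by
    unfold W1
    rw [h2]
    simp only [zero_mul, add_zero, Prod.mk.eta]
    rw [intervalIntegral.integral_const_mul, ker_int, mul_one]
  unfold FData.w2 W2
  rw [h1]
  simp only [zero_mul, add_zero, Prod.mk.eta]
  rw [intervalIntegral.integral_const_mul, ker_int, mul_one, h3]

theorem w2_exp (D : FData) (h : D.Ok) : Exp2 D.w2 D.S3 D.J := by
  refine ⟨h.sm.cp.mono h.s3, h.sm.cs.mono h.s3, h.sm.ca.mono h.s3, h.sm.cb.mono h.s3,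
    (continuousOn_const (c := (0 : ℝ))).congr fun y hy => h.sm.tt y (h.s3 hy), ?_⟩
  intro ε hε
  obtain ⟨A, hA⟩ := h.c3.exists_bound_of_continuousOn (h.sm.ca.mono h.s3)
  obtain ⟨δ1, hδ1, hcon⟩ := h.sm.con (ε / 12) (by positivity)
  rcases D.S3.eq_empty_or_nonempty with hem | hne
  · exact ⟨1, one_pos, fun z hz => by rw [hem] at hz; exact absurd hz (notMem_empty z)⟩
  obtain ⟨y00, hy00⟩ := hne
  have hPne : D.P.Nonempty := ⟨y00.1, h.s3P y00 hy00⟩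
  have hA0 : 0 ≤ A := le_trans (norm_nonneg _) (hA y00 hy00)
  set κ2 : ℝ := min 1 (ε / (A + 1)) with hκ2
  have hκ2p : 0 < κ2 := lt_min one_pos (by positivity)
  have hκ21 : κ2 ≤ 1 := min_le_left _ _
  have hκ2A : A * κ2 ^ 2 ≤ ε := by
    have h1 : κ2 ≤ ε / (A + 1) := min_le_right _ _
    rw [le_div_iff₀ (by positivity)] at h1
    have h2 : κ2 ^ 2 ≤ κ2 := by nlinarith
    nlinarith
  obtain ⟨δ2, hδ2, hr0⟩ := h.ra.lim0 hPne κ2 hκ2p
  refine ⟨min (δ1 / 3) δ2, lt_min (by positivity) hδ2, ?_⟩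
  intro y hy v hv
  have hd1 : min (δ1 / 3) δ2 ≤ δ1 / 3 := min_le_left _ _
  have hd2 : min (δ1 / 3) δ2 ≤ δ2 := min_le_right _ _
  have hd0 : 0 < min (δ1 / 3) δ2 := lt_min (by positivity) hδ2
  set d : ℝ := min (δ1 / 3) δ2 with hd
  have hyP := h.s3P y hy
  have hsq1 : v.1 ^ 2 ≤ sq v := by unfold sq; nlinarith [sq_nonneg v.2]
  have hsq2 : v.2 ^ 2 ≤ sq v := by unfold sq; nlinarith [sq_nonneg v.1]
  have hv1 : |v.1| ≤ d := by
    apply abs_le_of_sq_le_sq _ hd0.le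
    linarith
  have hv2 : |v.2| ≤ d := by
    apply abs_le_of_sq_le_sq _ hd0.le
    linarith
  have hinf : Metric.infDist (y.1 + v.1) D.P ≤ |v.1| := by
    have := Metric.infDist_le_dist_of_mem (x := y.1 + v.1) hyP
    rwa [Real.dist_eq, add_sub_cancel_left] at this
  set ρ : ℝ := D.r (y.1 + v.1) with hρ
  set ρh : ℝ := D.rh (y + v) with hρh
  have hρ0 : 0 ≤ ρ := r_nonneg' h.ra _
  have hρh0 : 0 ≤ ρh := rh_nonneg' h.rb _
  have hρ1 : ρ ≤ κ2 * |v.1| :=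
    le_trans (hr0 (y.1 + v.1) (by linarith)) (mul_le_mul_of_nonneg_left hinf hκ2p.le)
  have hρ2 : ρ ^ 2 ≤ κ2 ^ 2 * sq v := by
    calc ρ ^ 2 ≤ (κ2 * |v.1|) ^ 2 := pow_le_pow_left₀ hρ0 hρ1 2
      _ = κ2 ^ 2 * v.1 ^ 2 := by rw [mul_pow, sq_abs]
      _ ≤ κ2 ^ 2 * sq v := mul_le_mul_of_nonneg_left hsq1 (by positivity)
  have hsq0 : 0 ≤ sq v := by unfold sq; positivity
  have hρ3 : ρ ^ 2 ≤ sq v := by
    have : κ2 ^ 2 ≤ 1 := pow_le_one₀ hκ2p.le hκ21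
    nlinarith
  have hρh2 : ρh ^ 2 ≤ sq v := by
    have h1 : ρh ≤ dist (y + v) y :=
      le_trans (h.rb.le ⟨y, hy⟩ (y + v)) (Metric.infDist_le_dist_of_mem hy)
    have h2 : dist (y + v) y = max |v.1| |v.2| := by
      rw [dist_eq_norm, add_sub_cancel_left, Prod.norm_def, Real.norm_eq_abs, Real.norm_eq_abs]
    rw [h2] at h1
    rcases le_total |v.1| |v.2| with h3 | h3
    · rw [max_eq_right h3] at h1
      calc ρh ^ 2 ≤ |v.2| ^ 2 := pow_le_pow_left₀ hρh0 h1 2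
        _ = v.2 ^ 2 := sq_abs _
        _ ≤ sq v := hsq2
    · rw [max_eq_left h3] at h1
      calc ρh ^ 2 ≤ |v.1| ^ 2 := pow_le_pow_left₀ hρh0 h1 2
        _ = v.1 ^ 2 := sq_abs _
        _ ≤ sq v := hsq1
  have hc0 : D.J.c y = 0 := h.sm.tt y (h.s3 hy)
  have hWc : Continuous D.W := h.c11.cont
  have hrc : Continuous D.r := h.ra.cont
  have hW1c : Continuous (W1 D.r D.W) := w1_continuous D.r hrc D.W hWc
  -- the pointwise estimate
  have hpt : ∀ s s' : ℝ, -1 ≤ s → s ≤ 1 → -1 ≤ s' → s' ≤ 1 →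
      |D.W (y.1 + v.1 + ρ * s, y.2 + v.2 + ρh * s') - D.W y -
        D.J.q y (v.1 + ρ * s, v.2 + ρh * s')| ≤ ε / 2 * sq v := by
    intro s s' hs1 hs2 hs1' hs2'
    have k1 : s ^ 2 ≤ 1 := by nlinarith
    have k2 : s' ^ 2 ≤ 1 := by nlinarith
    have k3 : (ρ * s) ^ 2 ≤ sq v := by
      rw [mul_pow]
      nlinarith [sq_nonneg ρ]
    have k4 : (ρh * s') ^ 2 ≤ sq v := by
      rw [mul_pow]
      nlinarith [sq_nonneg ρh]
    have k5 : sq (v.1 + ρ * s, v.2 + ρh * s') ≤ 6 * sq v := by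
      have : sq (v.1 + ρ * s, v.2 + ρh * s') = (v.1 + ρ * s) ^ 2 + (v.2 + ρh * s') ^ 2 := rfl
      rw [this]
      have k6 : (v.1 + ρ * s) ^ 2 ≤ 2 * v.1 ^ 2 + 2 * (ρ * s) ^ 2 := by
        nlinarith [sq_nonneg (v.1 - ρ * s)]
      have k7 : (v.2 + ρh * s') ^ 2 ≤ 2 * v.2 ^ 2 + 2 * (ρh * s') ^ 2 := by
        nlinarith [sq_nonneg (v.2 - ρh * s')]
      have k8 : sq v = v.1 ^ 2 + v.2 ^ 2 := rfl
      linarith
    have k9 : sq (v.1 + ρ * s, v.2 + ρh * s') ≤ δ1 ^ 2 := by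
      have : d ^ 2 ≤ (δ1 / 3) ^ 2 := pow_le_pow_left₀ hd0.le hd1 2
      nlinarith
    have k10 := hcon y (h.s3 hy) (v.1 + ρ * s, v.2 + ρh * s') k9
    have e : y + (v.1 + ρ * s, v.2 + ρh * s') = (y.1 + v.1 + ρ * s, y.2 + v.2 + ρh * s') := by
      ext <;> simp only [Prod.fst_add, Prod.snd_add] <;> ring
    rw [e] at k10
    refine le_trans k10 ?_
    have := mul_le_mul_of_nonneg_left k5 (show 0 ≤ ε / 12 by positivity)
    linarith
  have hW1 : ∀ s' : ℝ, -1 ≤ s' → s' ≤ 1 →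
      |W1 D.r D.W (y.1 + v.1, y.2 + v.2 + ρh * s') -
        ((D.W y + D.J.q y v + D.J.a y * ρ ^ 2 / 18) + (D.J.s y + D.J.b y * v.1) * ρh * s' +
          0 * s' ^ 2)| ≤ ε / 2 * sq v := by
    intro s' hs1' hs2'
    have h1 := avg_quad (fun s => D.W (y.1 + v.1 + ρ * s, y.2 + v.2 + ρh * s')) (by fun_prop)
      (D.W y + D.J.q y (v.1, v.2 + ρh * s'))
      ((D.J.p y + D.J.a y * v.1 + D.J.b y * (v.2 + ρh * s')) * ρ) (D.J.a y * ρ ^ 2 / 2)
      (ε / 2 * sq v) (by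
        intro s hs1 hs2
        have h2 := hpt s s' hs1 hs2 hs1' hs2'
        have e : D.W (y.1 + v.1 + ρ * s, y.2 + v.2 + ρh * s') - (D.W y + D.J.q y (v.1, v.2 + ρh * s') +
            (D.J.p y + D.J.a y * v.1 + D.J.b y * (v.2 + ρh * s')) * ρ * s + D.J.a y * ρ ^ 2 / 2 * s ^ 2) =
            D.W (y.1 + v.1 + ρ * s, y.2 + v.2 + ρh * s') - D.W y -
              D.J.q y (v.1 + ρ * s, v.2 + ρh * s') := by
          simp only [Jets.q]
          ring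
        rw [e]
        exact h2)
    have e2 : W1 D.r D.W (y.1 + v.1, y.2 + v.2 + ρh * s') =
        ∫ s in (-1 : ℝ)..1, D.W (y.1 + v.1 + ρ * s, y.2 + v.2 + ρh * s') * ker s := rfl
    rw [e2]
    have e3 : (D.W y + D.J.q y v + D.J.a y * ρ ^ 2 / 18) + (D.J.s y + D.J.b y * v.1) * ρh * s' +
          0 * s' ^ 2 = D.W y + D.J.q y (v.1, v.2 + ρh * s') + D.J.a y * ρ ^ 2 / 2 / 9 := by
      simp only [Jets.q, hc0]
      ring
    rw [e3]
    exact h1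
  have h4 := avg_quad (fun s' => W1 D.r D.W (y.1 + v.1, y.2 + v.2 + ρh * s')) (by fun_prop)
    (D.W y + D.J.q y v + D.J.a y * ρ ^ 2 / 18) ((D.J.s y + D.J.b y * v.1) * ρh) 0 (ε / 2 * sq v) hW1
  have e4 : D.w2 (y + v) =
      ∫ s in (-1 : ℝ)..1, W1 D.r D.W (y.1 + v.1, y.2 + v.2 + ρh * s) * ker s := rfl
  rw [e4, w2_eqOn D h y hy]
  have hAy : |D.J.a y| ≤ A := hA y hy
  have h5 : |D.J.a y * ρ ^ 2 / 18| ≤ ε / 18 * sq v := by
    rw [abs_div, abs_mul, abs_of_nonneg (sq_nonneg ρ), abs_of_pos (show (0 : ℝ) < 18 by norm_num)]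
    have h6 : |D.J.a y| * ρ ^ 2 ≤ A * (κ2 ^ 2 * sq v) :=
      mul_le_mul hAy hρ2 (sq_nonneg _) hA0
    have h7 : A * (κ2 ^ 2 * sq v) ≤ ε * sq v := by
      rw [← mul_assoc]
      exact mul_le_mul_of_nonneg_right hκ2A hsq0
    linarith
  rw [abs_le] at h4 h5 ⊢
  have h8 : 0 ≤ ε * sq v := by positivity
  constructor
  · linarith [h4.1, h4.2, h5.1, h5.2]
  · linarith [h4.1, h4.2, h5.1, h5.2]

theorem w2_close (C : ℝ) (W : ℝ × ℝ → ℝ) (hC : C11 C W) (η : ℝ) (hη : 0 < η) :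
    ∃ σ0 : ℝ, 0 < σ0 ∧ ∀ D : FData, D.Ok → D.W = W → D.C = C → D.σ ≤ σ0 →
      ∀ z, |D.w2 z - D.W z| ≤ η := by
  obtain ⟨L, hL0, hL⟩ := w1_lip C W hC
  have hC0 : 0 ≤ C := hC.nn
  refine ⟨min 1 (η / (C + L + 1)), lt_min one_pos (by positivity), ?_⟩
  intro D h hW hCC hσ z
  subst hW
  have hσ1 : D.σ ≤ 1 := le_trans hσ (min_le_left _ _)
  have hσ2 : D.σ * (C + L + 1) ≤ η := by
    have := le_trans hσ (min_le_right _ _)
    rwa [le_div_iff₀ (by positivity)] at this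
  have hσ0 : 0 < D.σ := h.σ0
  have hσ3 : (C + L) * D.σ ^ 2 ≤ η := by
    have h1 : D.σ ^ 2 ≤ D.σ := by nlinarith
    nlinarith
  have hWc : Continuous D.W := hC.cont
  have hrc : Continuous D.r := h.ra.cont
  have hW1c : Continuous (W1 D.r D.W) := w1_continuous D.r hrc D.W hWc
  have h1 : |W1 D.r D.W z - D.W z| ≤ C * D.σ ^ 2 := by
    refine le_trans (w1_sub C D.W hC D.r z) (mul_le_mul_of_nonneg_left ?_ hC0)
    exact pow_le_pow_left₀ (r_nonneg' h.ra _) (h.ra.b0 _) 2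
  have h2 : |D.w2 z - W1 D.r D.W z| ≤ L * D.σ ^ 2 := by
    have h3 := avg_quad (fun s => W1 D.r D.W (z.1, z.2 + D.rh z * s)) (by fun_prop)
      (W1 D.r D.W z) (Dt1 D.r D.W z * D.rh z) 0 (L * D.σ ^ 2) (by
        intro s hs1 hs2
        have h4 := (hL D.r D.r1 hrc h.ra.c1 (fun x => le_trans (h.ra.b1 x) (by linarith [h.σ4]))
          z.1 z.2 (z.2 + D.rh z * s)).2.2
        have e : W1 D.r D.W (z.1, z.2 + D.rh z * s) - (W1 D.r D.W z + Dt1 D.r D.W z * D.rh z * s +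
            0 * s ^ 2) = W1 D.r D.W (z.1, z.2 + D.rh z * s) - W1 D.r D.W (z.1, z.2) -
              Dt1 D.r D.W (z.1, z.2) * (z.2 + D.rh z * s - z.2) := by
          simp only [Prod.mk.eta]
          ring
        rw [e]
        refine le_trans h4 (mul_le_mul_of_nonneg_left ?_ hL0)
        have k1 : s ^ 2 ≤ 1 := by nlinarith
        have k2 : D.rh z ^ 2 ≤ D.σ ^ 2 := pow_le_pow_left₀ (rh_nonneg' h.rb z) (h.rb.b0 z) 2
        have k3 : (z.2 + D.rh z * s - z.2) ^ 2 = D.rh z ^ 2 * s ^ 2 := by ring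
        rw [k3]
        nlinarith [sq_nonneg (D.rh z)])
    have e5 : D.w2 z = ∫ s in (-1 : ℝ)..1, W1 D.r D.W (z.1, z.2 + D.rh z * s) * ker s := rfl
    rw [e5]
    simpa using h3
  rw [abs_le] at h1 h2 ⊢
  constructor
  · linarith [h1.1, h1.2, h2.1, h2.2]
  · linarith [h1.1, h1.2, h2.1, h2.2]

end Pool.Agent.MP_4eca41
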