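import Pool.Agent.Work.MP_4eca41_an.F.FDefs2

/-!
# F5: limits of `H12`, `H22` and of the error part of `H11` at `S3`

PROOF.  `y0 ∈ S3`, `κ'` small, `z = (p,t) ∉ S3` near `y0`; `d = infDist z S3`; `y ∈ S3` from `RB.near`.  `r p ≤ infDist p P ≤ d` (`RA.le`, `y.1 ∈ P`, `|p - y.1| ≤ dist z y ≤ d`), `rh z ≤ d` (`RB.le`).  For `|τ - t| ≤ rh z`, `|s| ≤ 1`: `u = (p + r p s, τ)` has `dist u z ≤ d`.  With `E u = W u - W y - J.q y (u - y)` and
`Ep u = Dp W u - J.p y - (J.a y (u-y).1 + J.b y (u-y).2)`: `|E u| ≤ κ' rh^2`, `|Ep u| ≤ κ' rh`.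
`W1 (p,τ) = α + b τ + E1 τ`, `E1 τ = ∫ E (p + r s, τ) ker s`, `|E1| ≤ κ' rh^2`: `J.q y (·)` is affine in the second variable (`J.c y = 0`, `Sm.tt`), its average in `p` is too (for fixed `p`), with `τ`-slope `b = J.s y + J.b y (p - y.1)`.
`D1 (p,τ) = α' + J.b y τ + e1 τ`, `|e1| ≤ 2 κ' rh` (average of `J.p y + J.a y (u-y).1 + J.b y (u-y).2` against `(1 + r1 s) ker s`: `τ`-slope exactly `J.b y`, as `∫ (1 + r1 s) ker = 1`).
`kd_moments`: `H22 = ∫ W1 Ktt = ∫ E1 Ktt`, `|H22| ≤ κ' rh^2 CK/rh^3 2 rh = 2 CK κ'`.  `H12 = ∫ (D1 Kt + W1 Kpt) = J.b y + ∫ (e1 Kt + E1 Kpt)`, `|H12 - J.b y| ≤ 2κ' rh CK/rh^2 2rh + κ' rh^2 CK/rh^3 2 rh ≤ 6 CK κ'`; `J.b y → J.b y0` (continuous on `S`, `dist y y0 ≤ 2 dist z y0`).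
`H11 - GK = ∫ (2 D1 Kp + W1 Kpp)`: as in `h11_neg` its absolute value is `≤ 4 L CK |rp| + 2 L CK (rp^2 + rh|rpp|)`, which tends to `0` by `RB.lim`.
-/

set_option autoImplicit false

open Set MeasureTheory Filter Topology

namespace Pool.Agent.MP_4eca41

private theorem avg_aff (g A B k : ℝ → ℝ) (e τ : ℝ) (hg : Continuous g) (hA : Continuous A)
    (hB : Continuous B) (hk : Continuous k)
    (hb : ∀ s, |s| ≤ 1 → |g s - (A s + B s * τ)| * |k s| ≤ e * ker s) :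
    |(∫ s in (-1 : ℝ)..1, g s * k s) - ((∫ s in (-1 : ℝ)..1, A s * k s) +
      (∫ s in (-1 : ℝ)..1, B s * k s) * τ)| ≤ e := by
  have i1 : IntervalIntegrable (fun s => g s * k s) volume (-1) 1 :=
    (hg.mul hk).intervalIntegrable _ _
  have i2 : IntervalIntegrable (fun s => A s * k s) volume (-1) 1 :=
    (hA.mul hk).intervalIntegrable _ _
  have i3 : IntervalIntegrable (fun s => B s * k s * τ) volume (-1) 1 :=
    ((hB.mul hk).mul continuous_const).intervalIntegrable _ _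
  have e1 : (∫ s in (-1 : ℝ)..1, g s * k s) - ((∫ s in (-1 : ℝ)..1, A s * k s) +
      (∫ s in (-1 : ℝ)..1, B s * k s) * τ) =
      ∫ s in (-1 : ℝ)..1, (g s - (A s + B s * τ)) * k s := by
    rw [← intervalIntegral.integral_mul_const, ← intervalIntegral.integral_add i2 i3,
      ← intervalIntegral.integral_sub i1 (i2.add i3)]
    refine intervalIntegral.integral_congr fun s _ => ?_
    ring
  rw [e1]
  have h2 : ∫ s in (-1 : ℝ)..1, e * ker s = e := by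
    rw [intervalIntegral.integral_const_mul, ker_int, mul_one]
  have h3 := intervalIntegral.norm_integral_le_of_norm_le (μ := volume) (a := -1) (b := 1)
    (f := fun s => (g s - (A s + B s * τ)) * k s) (g := fun s => e * ker s)
    (by norm_num) (Filter.Eventually.of_forall fun s hs => by
      rw [Real.norm_eq_abs, abs_mul]
      exact hb s (abs_le.2 ⟨hs.1.le, hs.2⟩))
    ((continuous_const.mul ker_continuous).intervalIntegrable _ _)
  rw [h2] at h3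
  exact h3

private theorem supp_int {K : ℝ → ℝ} (hK : Continuous K) {t ρ : ℝ}
    (h0 : ∀ τ, ρ ≤ |τ - t| → K τ = 0) {φ : ℝ → ℝ} (hφ : Continuous φ) :
    Integrable (fun τ => φ τ * K τ) := by
  have h1 : HasCompactSupport K := by
    refine HasCompactSupport.intro (isCompact_Icc (a := t - ρ) (b := t + ρ)) fun τ hτ => h0 τ ?_
    by_contra hcon
    rw [not_le, abs_lt] at hcon
    exact hτ ⟨by linarith [hcon.1], by linarith [hcon.2]⟩
  exact (hφ.mul hK).integrable_of_hasCompactSupport h1.mul_left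

private theorem aff_sub {K φ : ℝ → ℝ} (hK : Continuous K) (hφ : Continuous φ) {t ρ k e α β m0 m1 : ℝ}
    (hρ : 0 < ρ) (h0 : ∀ τ, ρ ≤ |τ - t| → K τ = 0) (hk : ∀ τ, |K τ| ≤ k)
    (he : ∀ τ, |τ - t| ≤ ρ → |φ τ - (α + β * τ)| ≤ e)
    (hm0 : ∫ τ, K τ = m0) (hm1 : ∫ τ, τ * K τ = m1) :
    |(∫ τ, φ τ * K τ) - (α * m0 + β * m1)| ≤ e * k * (2 * ρ) := by
  have i1 := supp_int hK h0 hφ
  have i2 : Integrable (fun τ => α * K τ) := supp_int hK h0 continuous_const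
  have i3 : Integrable (fun τ => β * (τ * K τ)) := (supp_int hK h0 continuous_id).const_mul β
  have i4 : Integrable (fun τ => α * K τ + β * (τ * K τ)) := i2.add i3
  have e1 : (∫ τ, φ τ * K τ) - (α * m0 + β * m1) = ∫ τ, (φ τ - (α + β * τ)) * K τ := by
    rw [← hm0, ← hm1, ← integral_const_mul, ← integral_const_mul, ← integral_add i2 i3,
      ← integral_sub i1 i4]
    refine integral_congr_ae (Filter.Eventually.of_forall fun τ => ?_)
    simp only
    ring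
  have hk0 : 0 ≤ k := (abs_nonneg _).trans (hk t)
  have he0 : 0 ≤ e := (abs_nonneg _).trans (he t (by rw [sub_self, abs_zero]; exact hρ.le))
  have hsupp : Function.support (fun τ => (φ τ - (α + β * τ)) * K τ) ⊆ Ioc (t - ρ) (t + ρ) := by
    intro τ hτ
    by_contra hcon
    apply hτ
    have : K τ = 0 := by
      refine h0 τ ?_
      by_contra hc2
      rw [not_le, abs_lt] at hc2
      exact hcon ⟨by linarith [hc2.1], by linarith [hc2.2]⟩
    simp only [this, mul_zero]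
  rw [e1, ← intervalIntegral.integral_eq_integral_of_support_subset hsupp]
  have h3 := intervalIntegral.norm_integral_le_of_norm_le_const (a := t - ρ) (b := t + ρ)
    (f := fun τ => (φ τ - (α + β * τ)) * K τ) (C := e * k) (by
      intro τ hτ
      rw [uIoc_of_le (by linarith)] at hτ
      rw [Real.norm_eq_abs, abs_mul]
      exact mul_le_mul (he τ (abs_le.2 ⟨by linarith [hτ.1], by linarith [hτ.2]⟩)) (hk τ)
        (abs_nonneg _) he0)
  have h4 : |t + ρ - (t - ρ)| = 2 * ρ := by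
    have : t + ρ - (t - ρ) = 2 * ρ := by ring
    rw [this, abs_of_pos (by linarith)]
  rw [h4] at h3
  exact h3

theorem f_lim (D : FData) (h : D.Ok) (y0 : ℝ × ℝ) (hy : y0 ∈ D.S3) (κ : ℝ) (hκ : 0 < κ) :
    ∃ δ : ℝ, 0 < δ ∧ ∀ z, z ∉ D.S3 → dist z y0 ≤ δ →
      |D.H22 z| ≤ κ ∧ |D.H12 z - D.J.b y0| ≤ κ ∧ |D.H11 z - D.GK z| ≤ κ := by
  have hC0 := h.kd.C0
  obtain ⟨L, hL0, hL⟩ := w1_lip D.C D.W h.c11
  have hr1 : ∀ x, |D.r1 x| ≤ 1 / 4 := fun x => (h.ra.b1 x).trans h.σ4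
  have hLr := hL D.r D.r1 h.ra.cont h.ra.c1 (fun x => (hr1 x).trans (by norm_num))
  -- constants
  obtain ⟨κ1, hκ1, hκ1e⟩ : ∃ κ1 : ℝ, 0 < κ1 ∧ 6 * κ1 * D.CK ≤ κ / 2 := by
    refine ⟨κ / (12 * D.CK), by positivity, le_of_eq ?_⟩
    field_simp
    ring
  obtain ⟨κ2, hκ2, hκ21, hκ2e⟩ : ∃ κ2 : ℝ, 0 < κ2 ∧ κ2 ≤ 1 ∧ 8 * L * D.CK * κ2 ≤ κ := by
    have hX : 0 < 8 * L * D.CK + 1 := by positivity
    refine ⟨min 1 (κ / (8 * L * D.CK + 1)), by positivity, min_le_left _ _, ?_⟩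
    calc 8 * L * D.CK * min 1 (κ / (8 * L * D.CK + 1)) ≤
        (8 * L * D.CK + 1) * (κ / (8 * L * D.CK + 1)) := by
          refine mul_le_mul (by linarith) (min_le_right _ _) (by positivity) hX.le
      _ = κ := by field_simp
  obtain ⟨δ1, hδ1, hnear⟩ := h.rb.near y0 hy κ1 hκ1
  obtain ⟨δ2, hδ2, hlim⟩ := h.rb.lim y0 hy κ2 hκ2
  obtain ⟨δ3, hδ3, hcb⟩ := Metric.continuousOn_iff.1 h.sm.cb y0 (h.s3 hy) (κ / 2) (by positivity)
  refine ⟨min (min δ1 δ2) (δ3 / 3), by positivity, fun z hz hzd => ?_⟩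
  have hz1 : dist z y0 ≤ δ1 := hzd.trans ((min_le_left _ _).trans (min_le_left _ _))
  have hz2 : dist z y0 ≤ δ2 := hzd.trans ((min_le_left _ _).trans (min_le_right _ _))
  have hz3 : dist z y0 ≤ δ3 / 3 := hzd.trans (min_le_right _ _)
  have hρ : 0 < D.rh z := h.rb.pos z hz
  have hS3 : D.S3.Nonempty := ⟨y0, hy⟩
  have hP : D.P.Nonempty := ⟨y0.1, h.s3P y0 hy⟩
  obtain ⟨y, hyS, hyz, hu⟩ := hnear z hz hz1
  have hinf : Metric.infDist z D.S3 ≤ dist z y0 := Metric.infDist_le_dist_of_mem hy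
  have hyy0 : dist y y0 < δ3 := by
    calc dist y y0 ≤ dist y z + dist z y0 := dist_triangle _ _ _
      _ ≤ dist z y0 + dist z y0 := by rw [dist_comm y z]; linarith
      _ < δ3 := by linarith
  have hJb : |D.J.b y - D.J.b y0| < κ / 2 := by
    have := hcb y (h.s3 hyS) hyy0
    rwa [Real.dist_eq] at this
  have hrP : D.r z.1 ≤ Metric.infDist z D.S3 := by
    refine (h.ra.le hP z.1).trans ?_
    rw [Metric.le_infDist hS3]
    intro w hw
    calc Metric.infDist z.1 D.P ≤ dist z.1 w.1 := Metric.infDist_le_dist_of_mem (h.s3P w hw)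
      _ ≤ dist z w := by rw [Prod.dist_eq]; exact le_max_left _ _
  have hr0 : 0 ≤ D.r z.1 := by
    by_cases hzp : z.1 ∈ D.P
    · rw [(h.ra.zero _ hzp).1]
    · exact (h.ra.pos _ hzp).le
  have hρle : D.rh z ≤ Metric.infDist z D.S3 := h.rb.le hS3 z
  have hdist : ∀ s τ : ℝ, |s| ≤ 1 → |τ - z.2| ≤ D.rh z →
      dist ((z.1 + D.r z.1 * s, τ) : ℝ × ℝ) z ≤ Metric.infDist z D.S3 := by
    intro s τ hs hτ
    rw [Prod.dist_eq, Real.dist_eq, Real.dist_eq]
    refine max_le ?_ (hτ.trans hρle)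
    have : z.1 + D.r z.1 * s - z.1 = D.r z.1 * s := by ring
    rw [this, abs_mul, abs_of_nonneg hr0]
    calc D.r z.1 * |s| ≤ D.r z.1 * 1 := mul_le_mul_of_nonneg_left hs hr0
      _ ≤ Metric.infDist z D.S3 := by rw [mul_one]; exact hrP
  have hJc : D.J.c y = 0 := h.sm.tt y (h.s3 hyS)
  -- continuity
  have hW1 : Continuous fun τ => W1 D.r D.W (z.1, τ) :=
    (w1_continuous D.r h.ra.cont D.W h.c11.cont).comp (by fun_prop)
  have hD1 : Continuous fun τ => D1 D.r D.r1 D.W (z.1, τ) :=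
    (d1_continuous D.C D.W h.c11 D.r D.r1 h.ra.cont h.ra.c1).comp (by fun_prop)
  have hmem : ∀ τ : ℝ, ((z, τ) : (ℝ × ℝ) × ℝ) ∈ (D.S3ᶜ ×ˢ univ : Set ((ℝ × ℝ) × ℝ)) :=
    fun τ => ⟨hz, mem_univ _⟩
  have hpair : Continuous fun τ : ℝ => ((z, τ) : (ℝ × ℝ) × ℝ) := by fun_prop
  have cKp : Continuous (D.Kp z) := h.kd.cp.comp_continuous hpair hmem
  have cKt : Continuous (D.Kt z) := h.kd.ct.comp_continuous hpair hmem
  have cKpp : Continuous (D.Kpp z) := h.kd.cpp.comp_continuous hpair hmem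
  have cKpt : Continuous (D.Kpt z) := h.kd.cpt.comp_continuous hpair hmem
  have cKtt : Continuous (D.Ktt z) := h.kd.ctt.comp_continuous hpair hmem
  have hsupp := h.kd.supp z hz
  obtain ⟨m1, m2, m3, m4, m5, n1, n2, n3, n4, n5⟩ := kd_moments D.S3 h.c3.isClosed D.rh D.rp D.rt
    D.rpp D.rpt D.rtt h.rb.cont h.rb.pos D.Kp D.Kt D.Kpp D.Kpt D.Ktt D.CK h.kd z hz
  -- first mollification is nearly affine
  have hWaff : ∃ α β : ℝ, ∀ τ, |τ - z.2| ≤ D.rh z →
      |W1 D.r D.W (z.1, τ) - (α + β * τ)| ≤ κ1 * D.rh z ^ 2 := by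
    refine ⟨∫ s in (-1 : ℝ)..1, (D.W y + D.J.p y * (z.1 + D.r z.1 * s - y.1) - D.J.s y * y.2 +
      D.J.a y * (z.1 + D.r z.1 * s - y.1) ^ 2 / 2 -
      D.J.b y * (z.1 + D.r z.1 * s - y.1) * y.2) * ker s,
      ∫ s in (-1 : ℝ)..1, (D.J.s y + D.J.b y * (z.1 + D.r z.1 * s - y.1)) * ker s,
      fun τ hτ => ?_⟩
    refine avg_aff (fun s => D.W (z.1 + D.r z.1 * s, τ)) _ _ ker (κ1 * D.rh z ^ 2) τ
      (h.c11.cont.comp (by fun_prop)) (by fun_prop) (by fun_prop) ker_continuous ?_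
    intro s hs
    rw [abs_of_nonneg (ker_nonneg s)]
    refine mul_le_mul_of_nonneg_right ?_ (ker_nonneg s)
    have h5 := (hu _ (hdist s τ hs hτ)).1
    refine le_of_eq_of_le ?_ h5
    congr 1
    simp only [Jets.q, hJc, Prod.fst_sub, Prod.snd_sub]
    ring
  have hDaff : ∃ α : ℝ, ∀ τ, |τ - z.2| ≤ D.rh z →
      |D1 D.r D.r1 D.W (z.1, τ) - (α + D.J.b y * τ)| ≤ 2 * κ1 * D.rh z := by
    have hint : ∫ s in (-1 : ℝ)..1, D.J.b y * ((1 + D.r1 z.1 * s) * ker s) = D.J.b y := by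
      have e2 : ∀ s : ℝ, D.J.b y * ((1 + D.r1 z.1 * s) * ker s) =
          D.J.b y * ker s + D.J.b y * D.r1 z.1 * (s * ker s) := fun s => by ring
      simp only [e2]
      have j1 : IntervalIntegrable (fun s => D.J.b y * ker s) volume (-1) 1 :=
        (continuous_const.mul ker_continuous).intervalIntegrable _ _
      have j2 : IntervalIntegrable (fun s => D.J.b y * D.r1 z.1 * (s * ker s)) volume (-1) 1 :=
        (continuous_const.mul (continuous_id.mul ker_continuous)).intervalIntegrable _ _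
      rw [intervalIntegral.integral_add j1 j2, intervalIntegral.integral_const_mul, intervalIntegral.integral_const_mul, ker_int, ker_int1]
      ring
    refine ⟨∫ s in (-1 : ℝ)..1, (D.J.p y + D.J.a y * (z.1 + D.r z.1 * s - y.1) -
      D.J.b y * y.2) * ((1 + D.r1 z.1 * s) * ker s), fun τ hτ => ?_⟩
    have h6 := avg_aff (fun s => Dp D.W (z.1 + D.r z.1 * s, τ))
      (fun s => D.J.p y + D.J.a y * (z.1 + D.r z.1 * s - y.1) - D.J.b y * y.2)
      (fun _ => D.J.b y) (fun s => (1 + D.r1 z.1 * s) * ker s)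
      (2 * κ1 * D.rh z) τ
      ((dp_continuous D.C D.W h.c11).comp (by fun_prop)) (by fun_prop) (by fun_prop)
      ((by fun_prop : Continuous fun s : ℝ => 1 + D.r1 z.1 * s).mul ker_continuous) ?_
    · rw [hint] at h6
      exact h6
    · intro s hs
      rw [abs_mul, abs_of_nonneg (ker_nonneg s), ← mul_assoc]
      refine mul_le_mul_of_nonneg_right ?_ (ker_nonneg s)
      have h5 := (hu _ (hdist s τ hs hτ)).2
      have h7 : |1 + D.r1 z.1 * s| ≤ 2 := by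
        have h8 : |D.r1 z.1 * s| ≤ 1 := by
          rw [abs_mul]
          exact mul_le_one₀ ((hr1 _).trans (by norm_num)) (abs_nonneg _) hs
        calc |1 + D.r1 z.1 * s| ≤ |(1 : ℝ)| + |D.r1 z.1 * s| := abs_add_le _ _
          _ ≤ 2 := by rw [abs_one]; linarith
      have h9 : |Dp D.W (z.1 + D.r z.1 * s, τ) - (D.J.p y + D.J.a y * (z.1 + D.r z.1 * s - y.1) -
          D.J.b y * y.2 + D.J.b y * τ)| ≤ κ1 * D.rh z := by
        refine le_of_eq_of_le ?_ h5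
        congr 1
        ring
      calc _ ≤ κ1 * D.rh z * 2 := mul_le_mul h9 h7 (abs_nonneg _) (by positivity)
        _ = 2 * κ1 * D.rh z := by ring
  obtain ⟨α, β, hW⟩ := hWaff
  obtain ⟨α', hD⟩ := hDaff
  have hρ' : D.rh z ≠ 0 := hρ.ne'
  have hsp : ∀ τ, D.rh z ≤ |τ - z.2| → D.Kp z τ = 0 := fun τ hτ => (hsupp τ hτ).2.1
  have hst : ∀ τ, D.rh z ≤ |τ - z.2| → D.Kt z τ = 0 := fun τ hτ => (hsupp τ hτ).2.2.1
  have hspp : ∀ τ, D.rh z ≤ |τ - z.2| → D.Kpp z τ = 0 := fun τ hτ => (hsupp τ hτ).2.2.2.1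
  have hspt : ∀ τ, D.rh z ≤ |τ - z.2| → D.Kpt z τ = 0 := fun τ hτ => (hsupp τ hτ).2.2.2.2.1
  have hstt : ∀ τ, D.rh z ≤ |τ - z.2| → D.Ktt z τ = 0 := fun τ hτ => (hsupp τ hτ).2.2.2.2.2
  refine ⟨?_, ?_, ?_⟩
  · have h8 := aff_sub cKtt hW1 hρ hstt (h.kd.btt z hz) hW m5 n5
    have h9 : |D.H22 z| ≤ κ1 * D.rh z ^ 2 * (D.CK / D.rh z ^ 3) * (2 * D.rh z) := by
      simpa [FData.H22] using h8
    have h10 : κ1 * D.rh z ^ 2 * (D.CK / D.rh z ^ 3) * (2 * D.rh z) = 2 * κ1 * D.CK := by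
      field_simp
    rw [h10] at h9
    have h11 : 0 < κ1 * D.CK := by positivity
    linarith
  · have h8 := aff_sub cKt hD1 hρ hst (h.kd.bt z hz) hD m2 n2
    have h9 := aff_sub cKpt hW1 hρ hspt (h.kd.bpt z hz) hW m4 n4
    have h10 : 2 * κ1 * D.rh z * (D.CK / D.rh z ^ 2) * (2 * D.rh z) = 4 * κ1 * D.CK := by
      field_simp
      ring
    have h11 : κ1 * D.rh z ^ 2 * (D.CK / D.rh z ^ 3) * (2 * D.rh z) = 2 * κ1 * D.CK := by
      field_simp
    rw [h10] at h8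
    rw [h11] at h9
    have h12 : D.H12 z = (∫ τ, D1 D.r D.r1 D.W (z.1, τ) * D.Kt z τ) +
        ∫ τ, W1 D.r D.W (z.1, τ) * D.Kpt z τ := by
      unfold FData.H12
      exact integral_add (supp_int cKt hst hD1) (supp_int cKpt hspt hW1)
    rw [h12]
    rw [abs_le] at h8 h9 ⊢
    rw [abs_lt] at hJb
    constructor <;> linarith [h8.1, h8.2, h9.1, h9.2, hJb.1, hJb.2]
  · obtain ⟨l1, -, l2, -, -⟩ := hlim z hz hz2
    have h8 := aff_sub (e := L * D.rh z) (α := D1 D.r D.r1 D.W (z.1, z.2)) (β := 0) cKp hD1 hρ hsp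
      (h.kd.bp z hz) (by
        intro τ hτ
        rw [zero_mul, add_zero]
        exact ((hLr z.1 τ z.2).1).trans (mul_le_mul_of_nonneg_left hτ hL0)) m1 n1
    have h9 := aff_sub (e := L * D.rh z ^ 2)
      (α := W1 D.r D.W (z.1, z.2) - Dt1 D.r D.W (z.1, z.2) * z.2)
      (β := Dt1 D.r D.W (z.1, z.2)) cKpp hW1 hρ hspp (h.kd.bpp z hz) (by
        intro τ hτ
        have h5 := (hLr z.1 z.2 τ).2.2
        have h6 : W1 D.r D.W (z.1, τ) - (W1 D.r D.W (z.1, z.2) - Dt1 D.r D.W (z.1, z.2) * z.2 +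
            Dt1 D.r D.W (z.1, z.2) * τ) =
            W1 D.r D.W (z.1, τ) - W1 D.r D.W (z.1, z.2) - Dt1 D.r D.W (z.1, z.2) * (τ - z.2) := by
          ring
        rw [h6]
        refine h5.trans (mul_le_mul_of_nonneg_left ?_ hL0)
        rw [← sq_abs]
        exact pow_le_pow_left₀ (abs_nonneg _) hτ 2) m3 n3
    have h10 : L * D.rh z * (D.CK * |D.rp z| / D.rh z ^ 2) * (2 * D.rh z) =
        2 * L * D.CK * |D.rp z| := by
      field_simp
    have h11 : L * D.rh z ^ 2 * (D.CK * (D.rp z ^ 2 + D.rh z * |D.rpp z|) / D.rh z ^ 3) *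
        (2 * D.rh z) = 2 * L * D.CK * (D.rp z ^ 2 + D.rh z * |D.rpp z|) := by
      field_simp
    rw [h10] at h8
    rw [h11] at h9
    have h12 : D.H11 z - D.GK z = 2 * (∫ τ, D1 D.r D.r1 D.W (z.1, τ) * D.Kp z τ) +
        ∫ τ, W1 D.r D.W (z.1, τ) * D.Kpp z τ := by
      unfold FData.H11
      rw [add_sub_cancel_left, integral_add ((supp_int cKp hsp hD1).const_mul 2)
        (supp_int cKpp hspp hW1), integral_const_mul]
    rw [h12]
    have h13 : D.rp z ^ 2 ≤ κ2 := by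
      rw [← sq_abs]
      calc |D.rp z| ^ 2 = |D.rp z| * |D.rp z| := by ring
        _ ≤ κ2 * 1 := mul_le_mul l1 (l1.trans hκ21) (abs_nonneg _) hκ2.le
        _ = κ2 := mul_one _
    have hLC : 0 ≤ L * D.CK := by positivity
    have h14 : 2 * L * D.CK * |D.rp z| ≤ 2 * L * D.CK * κ2 :=
      mul_le_mul_of_nonneg_left l1 (by linarith)
    have h15 : 2 * L * D.CK * (D.rp z ^ 2 + D.rh z * |D.rpp z|) ≤ 2 * L * D.CK * (κ2 + κ2) :=
      mul_le_mul_of_nonneg_left (add_le_add h13 l2) (by linarith)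
    rw [mul_zero, zero_mul, add_zero, sub_zero] at h8
    rw [mul_zero, mul_zero, add_zero, sub_zero] at h9
    rw [abs_le] at h8 h9 ⊢
    constructor <;> linarith [h8.1, h8.2, h9.1, h9.2]

end Pool.Agent.MP_4eca41
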