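import Pool.Agent.Work.MP_4eca41_an.F.FDefs2

/-!
# F5: lower bound of the main part at `S3`

PROOF.  `y0 ∈ S3`, `β` continuous, `β y0 = J.a y0` (`Sm.eqβ`, `S3 ⊆ S`), so `β ≥ J.a y0 - κ/2 =: m` on a ball of (sup) radius `2 δ0` around `y0`.  For `z ∉ S3`, `dist z y0 ≤ δ ≤ δ0/2` and `r z.1, rh z ≤ δ0` (`r`, `rh` are continuous and vanish at `y0.1`, `y0`): `g1_lower` with `a = z.2 - rh z`, `b = z.2 + rh z`:
for a.e. `τ` in the support of `KK`: `G1 (z.1,τ) ≥ m (1 + (r1^2 + r r2)/9)`, and `|r1^2 + r r2| ≤ κ''` (`RA.lim`), so `≥ m - |m| κ'' ≥ J.a y0 - κ`.  Integrate against `KK ≥ 0`, `∫ KK = 1` (`kk_one`, `kk_nonneg`; `|G1| ≤ 2 C`, measurable: integrable).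
-/

set_option autoImplicit false

open Set MeasureTheory Filter Topology

namespace Pool.Agent.MP_4eca41

theorem f_low (D : FData) (h : D.Ok) (y0 : ℝ × ℝ) (hy : y0 ∈ D.S3) (κ : ℝ) (hκ : 0 < κ) :
    ∃ δ : ℝ, 0 < δ ∧ ∀ z, z ∉ D.S3 → dist z y0 ≤ δ → D.J.a y0 - κ ≤ D.GK z := by
  have hP := h.s3P y0 hy
  have hβ0 : D.β y0 = D.J.a y0 := h.sm.eqβ y0 (h.s3 hy)
  obtain ⟨η, hη, hβη⟩ := Metric.continuous_iff.1 h.sm.contβ y0 (κ / 2) (by positivity)
  have hr0 : D.r y0.1 = 0 := (h.ra.zero _ hP).1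
  obtain ⟨δ1, hδ1, hr⟩ := Metric.continuous_iff.1 h.ra.cont y0.1 (η / 2) (by positivity)
  have hrh0 : D.rh y0 = 0 := h.rb.zero y0 hy
  obtain ⟨δ2, hδ2, hrh⟩ := Metric.continuous_iff.1 h.rb.cont y0 (η / 2) (by positivity)
  obtain ⟨m, hm⟩ : ∃ m, m = D.J.a y0 - κ / 2 := ⟨_, rfl⟩
  obtain ⟨κ1, hκ1⟩ : ∃ κ1, κ1 = min 1 (κ / (2 * (1 + |m|))) := ⟨_, rfl⟩
  have hκ1p : 0 < κ1 := by
    rw [hκ1]
    exact lt_min one_pos (by positivity)
  have hκ11 : κ1 ≤ 1 := by rw [hκ1]; exact min_le_left _ _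
  have hκ12 : κ1 * (2 * (1 + |m|)) ≤ κ := by
    have h1 : κ1 ≤ κ / (2 * (1 + |m|)) := by rw [hκ1]; exact min_le_right _ _
    rwa [le_div_iff₀ (by positivity)] at h1
  obtain ⟨δ3, hδ3, hlim⟩ := h.ra.lim y0.1 hP κ1 hκ1p
  refine ⟨min (min (δ1 / 2) (δ2 / 2)) (min δ3 (η / 4)), by positivity, fun z hz hd => ?_⟩
  have hd1 : dist z y0 < δ1 := by
    have := hd.trans ((min_le_left _ _).trans (min_le_left _ _))
    linarith
  have hd2 : dist z y0 < δ2 := by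
    have := hd.trans ((min_le_left _ _).trans (min_le_right _ _))
    linarith
  have hd3 : dist z y0 ≤ δ3 := hd.trans ((min_le_right _ _).trans (min_le_left _ _))
  have hd4 : dist z y0 ≤ η / 4 := hd.trans ((min_le_right _ _).trans (min_le_right _ _))
  have hz1 : |z.1 - y0.1| ≤ dist z y0 := by
    rw [Prod.dist_eq, ← Real.dist_eq]
    exact le_max_left _ _
  have hz2 : |z.2 - y0.2| ≤ dist z y0 := by
    rw [Prod.dist_eq, ← Real.dist_eq]
    exact le_max_right _ _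
  have hrz : D.r z.1 < η / 2 := by
    have h1 := hr z.1 (by rw [Real.dist_eq]; exact lt_of_le_of_lt hz1 hd1)
    rw [hr0, Real.dist_eq, sub_zero] at h1
    exact (abs_lt.1 h1).2
  have hrhz : D.rh z < η / 2 := by
    have h1 := hrh z hd2
    rw [hrh0, Real.dist_eq, sub_zero] at h1
    exact (abs_lt.1 h1).2
  have hrn : 0 ≤ D.r z.1 := by
    by_cases hp : z.1 ∈ D.P
    · rw [(h.ra.zero _ hp).1]
    · exact (h.ra.pos _ hp).le
  obtain ⟨hl1, hl2⟩ := hlim z.1 (hz1.trans hd3)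
  have hpos : 0 < D.rh z := h.rb.pos z hz
  have hlow := g1_lower D.C D.W D.β h.c11 h.sm.contβ h.sm.cls D.P h.gl h.pd D.r D.r1 D.r2 D.σ h.σ4
    h.ra z.1 m (z.2 - D.rh z) (z.2 + D.rh z) (by
      intro p' t hp' ht1 ht2
      have h1 : dist (p', t) y0 < η := by
        rw [Prod.dist_eq, max_lt_iff, Real.dist_eq, Real.dist_eq]
        have a1 := abs_le.1 hp'
        have a2 := abs_le.1 (hz1.trans hd4)
        have a3 := abs_le.1 (hz2.trans hd4)
        refine ⟨abs_lt.2 ⟨?_, ?_⟩, abs_lt.2 ⟨?_, ?_⟩⟩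
        · show -η < p' - y0.1
          linarith [a1.1, a2.1]
        · show p' - y0.1 < η
          linarith [a1.2, a2.2]
        · show -η < t - y0.2
          linarith [a3.1]
        · show t - y0.2 < η
          linarith [a3.2]
      have h2 := hβη (p', t) h1
      rw [Real.dist_eq, hβ0] at h2
      have h3 := (abs_lt.1 h2).1
      rw [hm]
      linarith)
  have hKint : Integrable (fun τ => KK D.rh z τ) := by
    by_contra hcon
    have h1 := kk_one D.rh z hpos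
    rw [integral_undef hcon] at h1
    exact zero_ne_one h1
  have hGm : Measurable (fun τ => G1 D.r D.r1 D.r2 D.W (z.1, τ)) :=
    (g1_meas D.C D.W h.c11 D.P h.gl D.r D.r1 D.r2 D.σ h.σ4 h.ra).comp measurable_prodMk_left
  have hGint : Integrable (fun τ => G1 D.r D.r1 D.r2 D.W (z.1, τ) * KK D.rh z τ) := by
    refine hKint.bdd_mul (c := 2 * D.C) hGm.aestronglyMeasurable (ae_of_all _ fun τ => ?_)
    rw [Real.norm_eq_abs]
    exact g1_bd D.C D.W h.c11 D.P h.gl D.r D.r1 D.r2 D.σ h.σ4 h.ra (z.1, τ)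
  have hE : D.J.a y0 - κ ≤ m * (1 + (D.r1 z.1 ^ 2 + D.r z.1 * D.r2 z.1) / 9) := by
    have h1 : |D.r1 z.1 ^ 2 + D.r z.1 * D.r2 z.1| ≤ 2 * κ1 := by
      have b1 : D.r1 z.1 ^ 2 ≤ κ1 := by
        have := abs_nonneg (D.r1 z.1)
        rw [← sq_abs]
        nlinarith
      have b2 : |D.r z.1 * D.r2 z.1| ≤ κ1 := by
        rw [abs_mul, abs_of_nonneg hrn]
        exact hl2
      have b3 : |D.r1 z.1 ^ 2| ≤ κ1 := by
        rw [abs_of_nonneg (sq_nonneg _)]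
        exact b1
      exact (abs_add_le _ _).trans (by linarith)
    have h2 : |m * (D.r1 z.1 ^ 2 + D.r z.1 * D.r2 z.1)| ≤ κ := by
      rw [abs_mul]
      have h3 := abs_nonneg m
      calc |m| * |D.r1 z.1 ^ 2 + D.r z.1 * D.r2 z.1| ≤ |m| * (2 * κ1) :=
            mul_le_mul_of_nonneg_left h1 h3
        _ ≤ κ1 * (2 * (1 + |m|)) := by nlinarith
        _ ≤ κ := hκ12
    have h4 := (abs_le.1 h2).1
    have h5 : m * (1 + (D.r1 z.1 ^ 2 + D.r z.1 * D.r2 z.1) / 9) =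
        m + m * (D.r1 z.1 ^ 2 + D.r z.1 * D.r2 z.1) / 9 := by ring
    rw [h5, hm] at *
    linarith
  have hmono : ∫ τ, (D.J.a y0 - κ) * KK D.rh z τ ≤
      ∫ τ, G1 D.r D.r1 D.r2 D.W (z.1, τ) * KK D.rh z τ := by
    refine integral_mono_ae (hKint.const_mul _) hGint ?_
    filter_upwards [hlow] with τ hτ
    by_cases hc : D.rh z ≤ |τ - z.2|
    · have h1 := (h.kd.supp z hz τ hc).1
      show (D.J.a y0 - κ) * KK D.rh z τ ≤ G1 D.r D.r1 D.r2 D.W (z.1, τ) * KK D.rh z τ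
      rw [h1, mul_zero, mul_zero]
    · push Not at hc
      have h1 := abs_lt.1 hc
      have h2 := hτ (by linarith [h1.1]) (by linarith [h1.2])
      exact mul_le_mul_of_nonneg_right (hE.trans h2) (kk_nonneg D.rh z hpos τ)
  rw [integral_const_mul, kk_one D.rh z hpos, mul_one] at hmono
  exact hmono

end Pool.Agent.MP_4eca41
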