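import Pool.Agent.Work.MP_4eca41_an.F.FLines
import Pool.Agent.Work.MP_4eca41_an.T.RadR
import Pool.Agent.Work.MP_4eca41_an.T.Seq

/-!
# F2a: the radius function in `p`

PROOF.  `P` empty: `r = min σ 1/2` constant, `r1 = r2 = 0`.  Let `P` be nonempty, `C ≥ 1` the constant of `T.radiusR`, `d x = infDist x P`.  By `T.slow_seq` there is an antitone positive sequence `e k → 0` with `e 0 ≤ c` (`c` small: `c ≤ 1/16`, `C c ≤ σ`, `4 C c^2 ≤ σ`, `2 c ≤ σ`) such that for
`k ≥ k0`: for all `p ∈ P` and `0 < ρ ≤ 2^(2-k)`: `∫_{p-ρ}^{p+ρ} wn (g (q,·) - g (p,·)) dq ≤ (e (k+1))^2 ρ` (the predicate `M k ε'`: for all `p ∈ P`, `0 < ρ ≤ 2^(2-k)`: `... ≤ ε' ρ`, holds for large `k` by `GoodL.av`; `ψ e = e^2`).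
`r` from `T.radiusR`; `r1 = deriv r` (and `0` on `P`), `r2 = deriv (deriv r)`.  For `2^(-k-1) ≤ d ≤ 2^(-k)`: `(e (k+1)/2) d ≤ r ≤ 4 e k d ≤ d/4`, `|r1| ≤ C e k ≤ σ`, `r |r2| ≤ 4 e k d C e k 2^k ≤ 4 C (e k)^2 ≤ σ`; for `d ≥ 1`: `r ≤ 2 e 0 ≤ 1/8 ≤ d`, derivatives `0`.
At `x ∈ P`: `r x = 0`, `0 ≤ r y ≤ 4 e k |y - x|` for `|y-x| ≤ 2^(-k)`, so `HasDerivAt r 0 x`.  `r1` is continuous (at `P` because `|r1| ≤ C e k → 0`).  `lim0`, `lim`: `e k → 0`.
`av`: `x0 ∈ P`, `κ`.  `x ∉ P` close to `x0`, `p ∈ P` with `|x - p| = d x` (compact), `2^(-k-1) ≤ d x ≤ 2^(-k)`, `k` large.  `[x - r x, x + r x] ⊆ [p - 2 d x, p + 2 d x]`, and `2 d x ≤ 2^(1-k)`.  `∫_{x-r}^{x+r} wn (g(q) - g(x0)) dq ≤ ∫_{p - 2d}^{p+2d} wn (g(q) - g(p)) dq + 2 r x wn (g(p) - g(x0))`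
`≤ (e (k+1))^2 2 d x + 2 r x κ/4`, by `GoodL.co` (`|p - x0| ≤ 2 |x - x0|`), and `(e (k+1))^2 2 d x ≤ 4 e (k+1) r x ≤ (κ/2) r x` for `k` large.
-/

set_option autoImplicit false

open Set MeasureTheory

namespace Pool.Agent.MP_4eca41

open Metric in
private theorem ra_scale {P : Set ℝ} {x : ℝ} (K : ℕ) (h0 : 0 < infDist x P)
    (h1 : infDist x P ≤ (1 / 2 : ℝ) ^ (K + 1)) :
    ∃ k, K ≤ k ∧ (1 / 2 : ℝ) ^ (k + 1) ≤ infDist x P ∧ infDist x P ≤ (1 / 2 : ℝ) ^ k := by
  have h2 : (1 / 2 : ℝ) ^ (K + 1) ≤ 1 := pow_le_one₀ (by norm_num) (by norm_num)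
  obtain ⟨n, hn1, hn2⟩ := exists_nat_pow_near_of_lt_one h0 (h1.trans h2)
    (by norm_num : (0 : ℝ) < 1 / 2) (by norm_num : (1 / 2 : ℝ) < 1)
  refine ⟨n, ?_, hn1.le, hn2⟩
  have h3 : (1 / 2 : ℝ) ^ (n + 1) < (1 / 2 : ℝ) ^ (K + 1) := lt_of_lt_of_le hn1 h1
  have h4 := (pow_lt_pow_iff_right_of_lt_one₀ (by norm_num : (0 : ℝ) < 1 / 2)
    (by norm_num : (1 / 2 : ℝ) < 1)).1 h3
  omega

private theorem ra_int {g : ℝ × ℝ → ℝ} (hg : Measurable g) {B : ℝ} (hB : ∀ z, |g z| ≤ B)
    (p a b : ℝ) : IntervalIntegrable (fun q => wn (fun t => g (q, t) - g (p, t))) volume a b := by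
  refine IntervalIntegrable.mono_fun' (g := fun _ => Real.pi * (2 * B)) ?_ ?_ ?_
  · exact intervalIntegrable_const
  · exact (wn_measurable g hg p).aestronglyMeasurable
  · refine Filter.Eventually.of_forall fun q => ?_
    dsimp only
    rw [Real.norm_eq_abs, abs_of_nonneg (wn_nonneg _)]
    refine wn_le _ ?_ _ ?_
    · exact (hg.comp (measurable_const.prodMk measurable_id)).sub
        (hg.comp (measurable_const.prodMk measurable_id))
    · intro t
      have h1 := hB (q, t)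
      have h2 := hB (p, t)
      rw [abs_le] at h1 h2 ⊢
      constructor <;> linarith [h1.1, h1.2, h2.1, h2.2]

private theorem ra_wn_tri {g : ℝ × ℝ → ℝ} (hg : Measurable g) {B : ℝ} (hB : ∀ z, |g z| ≤ B)
    (q p x : ℝ) : wn (fun t => g (q, t) - g (x, t)) ≤
      wn (fun t => g (q, t) - g (p, t)) + wn (fun t => g (p, t) - g (x, t)) := by
  have hm : ∀ u v : ℝ, Measurable fun t => g (u, t) - g (v, t) := fun u v =>
    (hg.comp (measurable_const.prodMk measurable_id)).sub
        (hg.comp (measurable_const.prodMk measurable_id))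
  have hb : ∀ u v t : ℝ, |g (u, t) - g (v, t)| ≤ 2 * B := by
    intro u v t
    have h1 := hB (u, t)
    have h2 := hB (v, t)
    rw [abs_le] at h1 h2 ⊢
    constructor <;> linarith [h1.1, h1.2, h2.1, h2.2]
  have h := wn_add (fun t => g (q, t) - g (p, t)) (fun t => g (p, t) - g (x, t)) (hm q p) (hm p x)
    (2 * B) (hb q p) (hb p x)
  have e : (fun t => g (q, t) - g (p, t) + (g (p, t) - g (x, t))) =
      fun t => g (q, t) - g (x, t) := by
    funext t
    ring
  rw [e] at h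
  exact h

private theorem ra_av {g : ℝ × ℝ → ℝ} (hg : Measurable g) {B : ℝ} (hB : ∀ z, |g z| ≤ B)
    {p x x0 d r E κ : ℝ} (hr : 0 < r) (hrd : r ≤ d) (hxp : |x - p| = d) (hE : 0 ≤ E)
    (h1 : ∫ q in (p - 2 * d)..(p + 2 * d), wn (fun t => g (q, t) - g (p, t)) ≤
      E ^ 2 * (2 * d)) (h2 : E / 2 * d ≤ r) (h3 : E ≤ κ / 8)
    (h4 : wn (fun t => g (p, t) - g (x0, t)) ≤ κ / 4) :
    ∫ q in (x - r)..(x + r), wn (fun t => g (q, t) - g (x0, t)) ≤ κ * r := by
  have hd := abs_le.1 hxp.le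
  have e1 : ∫ q in (x - r)..(x + r), wn (fun t => g (q, t) - g (x0, t)) ≤
      ∫ q in (x - r)..(x + r), (wn (fun t => g (q, t) - g (p, t)) +
        wn (fun t => g (p, t) - g (x0, t))) := by
    refine intervalIntegral.integral_mono_on (by linarith) (ra_int hg hB x0 _ _)
      ((ra_int hg hB p _ _).add intervalIntegrable_const) ?_
    intro q _
    exact ra_wn_tri hg hB q p x0
  have e2 : ∫ q in (x - r)..(x + r), (wn (fun t => g (q, t) - g (p, t)) +
        wn (fun t => g (p, t) - g (x0, t))) =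
      (∫ q in (x - r)..(x + r), wn (fun t => g (q, t) - g (p, t))) +
        2 * r * wn (fun t => g (p, t) - g (x0, t)) := by
    rw [intervalIntegral.integral_add (ra_int hg hB p _ _) intervalIntegrable_const,
      intervalIntegral.integral_const]
    simp only [smul_eq_mul]
    ring
  have e3 : ∫ q in (x - r)..(x + r), wn (fun t => g (q, t) - g (p, t)) ≤
      ∫ q in (p - 2 * d)..(p + 2 * d), wn (fun t => g (q, t) - g (p, t)) := by
    refine intervalIntegral.integral_mono_interval (by linarith [hd.1]) (by linarith)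
      (by linarith [hd.2]) (Filter.Eventually.of_forall fun q => wn_nonneg _) (ra_int hg hB p _ _)
  have e4 : E ^ 2 * (2 * d) ≤ κ / 2 * r := by
    have a1 : E ^ 2 * (2 * d) = 4 * E * (E / 2 * d) := by ring
    have a2 : 4 * E * (E / 2 * d) ≤ 4 * E * r := mul_le_mul_of_nonneg_left h2 (by linarith)
    have a3 : 4 * E * r ≤ κ / 2 * r := mul_le_mul_of_nonneg_right (by linarith) hr.le
    linarith
  have e5 : 2 * r * wn (fun t => g (p, t) - g (x0, t)) ≤ 2 * r * (κ / 4) :=
    mul_le_mul_of_nonneg_left h4 (by linarith)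
  linarith

theorem exists_RA (g : ℝ × ℝ → ℝ) (hg : Measurable g) (B : ℝ) (hB : ∀ z, |g z| ≤ B) (P : Set ℝ)
    (hP : GoodL g P) (σ : ℝ) (hσ : 0 < σ) : ∃ r r1 r2 : ℝ → ℝ, RA g P r r1 r2 σ := by
  rcases P.eq_empty_or_nonempty with hPe | hPn
  · subst hPe
    refine ⟨fun _ => min σ (1 / 2), fun _ => 0, fun _ => 0, ?_⟩
    have hm : 0 < min σ (1 / 2 : ℝ) := lt_min hσ (by norm_num)
    exact
      { cont := continuous_const
        zero := fun x hx => absurd hx (notMem_empty x)
        pos := fun _ _ => hm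
        d1 := fun x => hasDerivAt_const x _
        d2 := fun x _ => hasDerivAt_const x _
        c1 := continuous_const
        c2 := continuousOn_const
        b0 := fun _ => min_le_left _ _
        b1 := fun _ => by simpa using hσ.le
        b2 := fun _ => by simpa using hσ.le
        le := fun h => absurd h not_nonempty_empty
        lim0 := fun h => absurd h not_nonempty_empty
        lim := fun x hx => absurd hx (notMem_empty x)
        av := fun x hx => absurd hx (notMem_empty x) }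
  obtain ⟨C, hC, HC⟩ := T.radiusR
  have hPc : IsClosed P := hP.cP.isClosed
  set c : ℝ := min (1 / 16) (min (σ / C) (σ / 2)) with hcdef
  have hc0 : 0 < c := lt_min (by norm_num) (lt_min (div_pos hσ hC) (by linarith))
  have hc1 : c ≤ 1 / 16 := min_le_left _ _
  have hc2 : C * c ≤ σ := by
    have h1 : c ≤ σ / C := (min_le_right _ _).trans (min_le_left _ _)
    have h2 := mul_le_mul_of_nonneg_left h1 hC.le
    rwa [mul_div_cancel₀ _ hC.ne'] at h2
  have hc3 : 2 * c ≤ σ := by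
    have h1 : c ≤ σ / 2 := (min_le_right _ _).trans (min_le_right _ _)
    linarith
  obtain ⟨e, he, hep, he0, het, k0, hk0⟩ := T.slow_seq
    (fun k ε => ∀ p ∈ P, ∀ ρ : ℝ, 0 < ρ → ρ ≤ 4 * (1 / 2 : ℝ) ^ k →
      ∫ q in (p - ρ)..(p + ρ), wn (fun t => g (q, t) - g (p, t)) ≤ ε * ρ)
    (by
      intro ε hε
      obtain ⟨δ, hδ, hav⟩ := hP.av ε hε
      obtain ⟨N, hN⟩ := exists_pow_lt_of_lt_one (by linarith : 0 < δ / 4)
        (by norm_num : (1 / 2 : ℝ) < 1)
      refine ⟨N, fun k hk p hp ρ hρ hρ2 => hav p hp ρ hρ ?_⟩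
      have h1 : (1 / 2 : ℝ) ^ k ≤ (1 / 2 : ℝ) ^ N :=
        pow_le_pow_of_le_one (by norm_num) (by norm_num) hk
      linarith)
    (fun t => t ^ 2) (fun t ht => by positivity) c hc0
  have hek : ∀ k, e k ≤ c := fun k => (he (Nat.zero_le k)).trans he0
  obtain ⟨r, hrc, hrs, hrz, hrp, hr2, hrk, hr1⟩ := HC P hPc hPn e he hep (by linarith)
  have hop : IsOpen Pᶜ := hPc.isOpen_compl
  have hdpos : ∀ x, x ∉ P → 0 < Metric.infDist x P := fun x hx =>
    (hPc.notMem_iff_infDist_pos hPn).1 hx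
  have hd0 : ∀ x, 0 ≤ Metric.infDist x P := fun x => Metric.infDist_nonneg
  have hsmall : ∀ ε : ℝ, 0 < ε → ∃ K, ∀ k, K ≤ k → e k ≤ ε := by
    intro ε hε
    obtain ⟨K, hK⟩ := Filter.eventually_atTop.1 (het.eventually (ge_mem_nhds hε))
    exact ⟨K, hK⟩
  -- alternatives for a point outside `P`
  have halt : ∀ x, x ∉ P → (1 ≤ Metric.infDist x P ∧ deriv r x = 0 ∧ deriv (deriv r) x = 0) ∨
      ∃ k, (1 / 2 : ℝ) ^ (k + 1) ≤ Metric.infDist x P ∧ Metric.infDist x P ≤ (1 / 2 : ℝ) ^ k := by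
    intro x hx
    rcases le_total 1 (Metric.infDist x P) with h | h
    · exact Or.inl ⟨h, (hr1 x h).2.1, (hr1 x h).2.2⟩
    · obtain ⟨n, hn1, hn2⟩ := exists_nat_pow_near_of_lt_one (hdpos x hx) h
        (by norm_num : (0 : ℝ) < 1 / 2) (by norm_num : (1 / 2 : ℝ) < 1)
      exact Or.inr ⟨n, hn1.le, hn2⟩
  have hkey : ∀ x k, (1 / 2 : ℝ) ^ (k + 1) ≤ Metric.infDist x P →
      Metric.infDist x P ≤ (1 / 2 : ℝ) ^ k → 0 ≤ r x →
      r x * |deriv (deriv r) x| ≤ 4 * C * e k ^ 2 := by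
    intro x k h1 h2 h3
    obtain ⟨a1, a2, a3, a4⟩ := hrk k x h1 h2
    have hekp := hep k
    have b1 : r x * |deriv (deriv r) x| ≤ (4 * e k * Metric.infDist x P) * (C * e k * 2 ^ k) :=
      mul_le_mul a2 a4 (abs_nonneg _) (by have := hd0 x; positivity)
    have b2 : Metric.infDist x P * 2 ^ k ≤ 1 := by
      have := mul_le_mul_of_nonneg_right h2 (by positivity : (0 : ℝ) ≤ 2 ^ k)
      rwa [← mul_pow, (by norm_num : (1 / 2 : ℝ) * 2 = 1), one_pow] at this
    have b3 : (4 * e k * Metric.infDist x P) * (C * e k * 2 ^ k) =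
        4 * C * e k ^ 2 * (Metric.infDist x P * 2 ^ k) := by ring
    have b4 : 4 * C * e k ^ 2 * (Metric.infDist x P * 2 ^ k) ≤ 4 * C * e k ^ 2 * 1 :=
      mul_le_mul_of_nonneg_left b2 (by positivity)
    linarith
  have hrn : ∀ x, 0 ≤ r x := fun x => by
    by_cases hx : x ∈ P
    · rw [hrz x hx]
    · exact (hrp x hx).le
  have hlim0 : ∀ κ : ℝ, 0 < κ → ∃ δ : ℝ, 0 < δ ∧ ∀ x, Metric.infDist x P ≤ δ →
      r x ≤ κ * Metric.infDist x P := by
    intro κ hκ
    obtain ⟨K, hK⟩ := hsmall (κ / 4) (by linarith)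
    refine ⟨(1 / 2 : ℝ) ^ (K + 1), by positivity, fun x hx => ?_⟩
    by_cases hxP : x ∈ P
    · rw [hrz x hxP]
      exact mul_nonneg hκ.le (hd0 x)
    · obtain ⟨k, hk, h1, h2⟩ := ra_scale K (hdpos x hxP) hx
      have a2 := (hrk k x h1 h2).2.1
      have a3 : 4 * e k * Metric.infDist x P ≤ κ * Metric.infDist x P :=
        mul_le_mul_of_nonneg_right (by have := hK k hk; linarith) (hd0 x)
      linarith
  have hder0 : ∀ x ∈ P, HasDerivAt r 0 x := by
    intro x hx
    rw [hasDerivAt_iff_isLittleO, Asymptotics.isLittleO_iff]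
    intro κ hκ
    obtain ⟨δ, hδ, h⟩ := hlim0 κ hκ
    filter_upwards [Metric.ball_mem_nhds x hδ] with y hy
    have h1 : Metric.infDist y P ≤ dist y x := Metric.infDist_le_dist_of_mem hx
    have h2 : dist y x < δ := hy
    have h3 := h y (h1.trans h2.le)
    rw [hrz x hx, sub_zero, smul_zero, sub_zero, Real.norm_eq_abs, abs_of_nonneg (hrn y),
      Real.norm_eq_abs, ← Real.dist_eq]
    exact h3.trans (mul_le_mul_of_nonneg_left h1 hκ.le)
  have hd1 : ∀ x, HasDerivAt r (deriv r x) x := by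
    intro x
    by_cases hx : x ∈ P
    · rw [(hder0 x hx).deriv]
      exact hder0 x hx
    · have h1 : ContDiffAt ℝ _ r x := hrs.contDiffAt (hop.mem_nhds hx)
      exact (h1.differentiableAt (by simp)).hasDerivAt
  have hs1 : ContDiffOn ℝ 2 (deriv r) Pᶜ := by
    refine (hrs.of_le ?_).deriv_of_isOpen (m := 2) (n := 3) hop (by norm_num)
    exact WithTop.coe_le_coe.2 (le_top : (3 : ℕ∞) ≤ ⊤)
  have hs2 : ContDiffOn ℝ 1 (deriv (deriv r)) Pᶜ :=
    hs1.deriv_of_isOpen (m := 1) (n := 2) hop (by norm_num)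
  have hb1 : ∀ x, |deriv r x| ≤ σ := by
    intro x
    by_cases hx : x ∈ P
    · rw [(hder0 x hx).deriv, abs_zero]
      exact hσ.le
    · rcases halt x hx with h | ⟨k, h1, h2⟩
      · rw [h.2.1, abs_zero]
        exact hσ.le
      · have a3 := (hrk k x h1 h2).2.2.1
        have a4 := mul_le_mul_of_nonneg_left (hek k) hC.le
        linarith
  have hb2 : ∀ x, r x * |deriv (deriv r) x| ≤ σ := by
    intro x
    by_cases hx : x ∈ P
    · rw [hrz x hx, zero_mul]
      exact hσ.le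
    · rcases halt x hx with h | ⟨k, h1, h2⟩
      · rw [h.2.2, abs_zero, mul_zero]
        exact hσ.le
      · have a1 := hkey x k h1 h2 (hrn x)
        have hekp := hep k
        have hekc := hek k
        have a2 : e k ^ 2 ≤ c * (1 / 16) := by
          rw [pow_two]
          exact mul_le_mul hekc (hekc.trans hc1) hekp.le hc0.le
        have a3 : 4 * C * e k ^ 2 ≤ 4 * C * (c * (1 / 16)) :=
          mul_le_mul_of_nonneg_left a2 (by linarith)
        nlinarith
  have hle : ∀ x, r x ≤ Metric.infDist x P := by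
    intro x
    by_cases hx : x ∈ P
    · rw [hrz x hx]
      exact hd0 x
    · rcases halt x hx with h | ⟨k, h1, h2⟩
      · have := hr2 x
        linarith
      · have a2 := (hrk k x h1 h2).2.1
        have a3 : 4 * e k * Metric.infDist x P ≤ 1 * Metric.infDist x P :=
          mul_le_mul_of_nonneg_right (by have := hek k; linarith) (hd0 x)
        linarith
  have hlim : ∀ x0 ∈ P, ∀ κ : ℝ, 0 < κ → ∃ δ : ℝ, 0 < δ ∧ ∀ x, |x - x0| ≤ δ →
      |deriv r x| ≤ κ ∧ r x * |deriv (deriv r) x| ≤ κ := by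
    intro x0 hx0 κ hκ
    obtain ⟨K, hK⟩ := hsmall (min (1 / 4) (κ / C)) (lt_min (by norm_num) (div_pos hκ hC))
    refine ⟨(1 / 2 : ℝ) ^ (K + 1), by positivity, fun x hx => ?_⟩
    by_cases hxP : x ∈ P
    · rw [(hder0 x hxP).deriv, hrz x hxP, abs_zero, zero_mul]
      exact ⟨hκ.le, hκ.le⟩
    · have h0 : Metric.infDist x P ≤ (1 / 2 : ℝ) ^ (K + 1) := by
        refine le_trans (Metric.infDist_le_dist_of_mem hx0) ?_
        rw [Real.dist_eq]
        exact hx
      obtain ⟨k, hk, h1, h2⟩ := ra_scale K (hdpos x hxP) h0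
      have a3 := (hrk k x h1 h2).2.2.1
      have a1 := hkey x k h1 h2 (hrn x)
      have hekp := hep k
      have b1 : e k ≤ 1 / 4 := (hK k hk).trans (min_le_left _ _)
      have b2 : C * e k ≤ κ := by
        have := mul_le_mul_of_nonneg_left ((hK k hk).trans (min_le_right _ _)) hC.le
        rwa [mul_div_cancel₀ _ hC.ne'] at this
      refine ⟨by linarith, ?_⟩
      have b3 : 4 * C * e k ^ 2 = C * e k * (4 * e k) := by ring
      have b4 : C * e k * (4 * e k) ≤ C * e k * 1 :=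
        mul_le_mul_of_nonneg_left (by linarith) (by positivity)
      linarith
  have hc1' : Continuous (deriv r) := by
    rw [continuous_iff_continuousAt]
    intro x
    by_cases hx : x ∈ P
    · rw [Metric.continuousAt_iff]
      intro ε hε
      obtain ⟨δ, hδ, h⟩ := hlim x hx (ε / 2) (by linarith)
      refine ⟨δ, hδ, fun {y} hy => ?_⟩
      rw [Real.dist_eq] at hy ⊢
      rw [(hder0 x hx).deriv, sub_zero]
      have := (h y hy.le).1
      linarith
    · exact hs1.continuousOn.continuousAt (hop.mem_nhds hx)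
  refine ⟨r, deriv r, deriv (deriv r), ?_⟩
  exact
    { cont := hrc
      zero := fun x hx => ⟨hrz x hx, (hder0 x hx).deriv⟩
      pos := hrp
      d1 := hd1
      d2 := fun x hx => ((hs1.contDiffAt (hop.mem_nhds hx)).differentiableAt
        (by norm_num)).hasDerivAt
      c1 := hc1'
      c2 := hs2.continuousOn
      b0 := fun x => by have := hr2 x; linarith
      b1 := hb1
      b2 := hb2
      le := fun _ => hle
      lim0 := fun _ => hlim0
      lim := hlim
      av := by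
        intro x0 hx0 κ hκ
        obtain ⟨δ1, hδ1, hco⟩ := hP.co (κ / 4) (by linarith)
        obtain ⟨K, hK⟩ := hsmall (κ / 8) (by linarith)
        refine ⟨min (δ1 / 2) ((1 / 2 : ℝ) ^ (max K k0 + 1)), lt_min (by linarith) (by positivity),
          fun x hxP hx => ?_⟩
        have h0 : Metric.infDist x P ≤ (1 / 2 : ℝ) ^ (max K k0 + 1) := by
          refine le_trans (Metric.infDist_le_dist_of_mem hx0) ?_
          rw [Real.dist_eq]
          exact hx.trans (min_le_right _ _)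
        obtain ⟨k, hk, h1, h2⟩ := ra_scale _ (hdpos x hxP) h0
        obtain ⟨p, hp, hpd⟩ := hP.cP.exists_infDist_eq_dist hPn x
        have hxp : |x - p| = Metric.infDist x P := by
          rw [hpd, Real.dist_eq]
        have hdx : Metric.infDist x P ≤ |x - x0| := by
          have := Metric.infDist_le_dist_of_mem hx0 (x := x)
          rwa [Real.dist_eq] at this
        have a1 := (hrk k x h1 h2).1
        refine ra_av hg hB (p := p) (d := Metric.infDist x P) (E := e (k + 1)) (hrp x hxP) (hle x)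
          hxp (hep _).le ?_ a1 (hK _ ((le_max_left K k0).trans (by omega))) ?_
        · exact hk0 k ((le_max_right K k0).trans hk) p hp (2 * Metric.infDist x P)
            (by have := hdpos x hxP; linarith)
            (by have : (0 : ℝ) < (1 / 2) ^ k := by positivity
                linarith)
        · refine hco p hp x0 hx0 ?_
          have b1 : |p - x0| ≤ |x - p| + |x - x0| := by
            have e1 : p - x0 = (x - x0) - (x - p) := by ring
            rw [e1]
            have := abs_sub (x - x0) (x - p)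
            linarith
          have b2 : |x - x0| ≤ δ1 / 2 := hx.trans (min_le_left _ _)
          linarith }

end Pool.Agent.MP_4eca41
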