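import Pool.Agent.Work.MP_4eca41_an.F.FDefs
import Pool.Agent.Work.MP_4eca41_an.T.Rad
import Pool.Agent.Work.MP_4eca41_an.T.Seq

/-!
# F2b: the radius function in `t`

PROOF.  `S3` empty: `rh = σ` constant.  Let `S3` be nonempty, `d z = infDist z S3` (sup norm of `ℝ × ℝ`), `C ≥ 1` the constant of `T.radius (ℝ × ℝ)`.  Modulus: predicate `M k ε'`: for all `y ∈ S3` and `v` with `sq v ≤ (2^(3-k))^2`: `|W (y+v) - W y - J.q y v| ≤ ε' sq v`; it holds for large `k`
(`Sm.con`).  `T.slow_seq` with `ψ e = e^4`: antitone positive `e k → 0`, `e 0 ≤ c` small, `M k ((e (k+1))^4)` for `k ≥ k0`.  `rh` from `T.radius`; `rp z = fderiv ℝ rh z (1,0)`, `rt z = fderiv ℝ rh z (0,1)`, `rpp, rpt, rtt` the values of `iteratedFDeriv ℝ 2 rh z` at the basis vectors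
(symmetric: `rh` is smooth off `S3`), with absolute values `≤ C e k`, `≤ C e k 2^k` for `2^(-k-1) ≤ d z ≤ 2^(-k)`, and `0` for `d z ≥ 1`.  So `rh |rpp| ≤ 4 e k d C e k 2^k ≤ 4 C (e k)^2`, etc.: `b1, b2, lim`; `le`: `4 e k ≤ 1`, and for `d ≥ 1`: `rh ≤ 2 e 0 ≤ d`.
`near`: `z ∉ S3` near `y0`, `y ∈ S3` with `dist z y = d z` (compact), `2^(-k-1) ≤ d z ≤ 2^(-k)`, `k ≥ k0` large.  For `dist u z ≤ d z`: `dist u y ≤ 2 d z`, `sq (u - y) ≤ 8 (d z)^2 ≤ (2^(3-k))^2`: `|E u| ≤ (e (k+1))^4 8 (d z)^2` where `E u = W u - W y - J.q y (u - y)`, and `rh z ≥ e (k+1) d z/2`, so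
`|E u| ≤ 32 (e (k+1))^2 (rh z)^2`.  Gradient: `Dp W u - J.p y - (J.a y (u-y).1 + J.b y (u-y).2) =: E_p u` is the `p`-derivative of `E`; `E (·, u.2)` has second differences bounded by `C' k^2` (`C11` for `W`, `J.a` bounded), so with step `η = (e (k+1))^2 d z`:
`|E_p u| ≤ |E (u + (η,0)) - E (u - (η,0))|/(2η) + C' η ≤ (e (k+1))^4 C'' (d z)^2/η + C' η ≤ C''' (e (k+1))^2 d z ≤ 2 C''' e (k+1) rh z` (the points `u ± (η,0)` are within `3 d z` of `y`, still in the range of the modulus).  (`J.c y = 0`.)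
-/

set_option autoImplicit false

open Set MeasureTheory

namespace Pool.Agent.MP_4eca41

private theorem frb_line {F : Type*} [NormedAddCommGroup F] [NormedSpace ℝ F] {g : ℝ × ℝ → F}
    {z : ℝ × ℝ} (hg : DifferentiableAt ℝ g z) :
    HasDerivAt (fun p => g (p, z.2)) (fderiv ℝ g z (1, 0)) z.1 ∧
      HasDerivAt (fun t => g (z.1, t)) (fderiv ℝ g z (0, 1)) z.2 := by
  have h := hg.hasFDerivAt
  have h1 : HasDerivAt (fun p : ℝ => (p, z.2)) ((1, 0) : ℝ × ℝ) z.1 :=
    (hasDerivAt_id z.1).prodMk (hasDerivAt_const z.1 z.2)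
  have h2 : HasDerivAt (fun t : ℝ => (z.1, t)) ((0, 1) : ℝ × ℝ) z.2 :=
    (hasDerivAt_const z.2 z.1).prodMk (hasDerivAt_id z.2)
  exact ⟨HasFDerivAt.comp_hasDerivAt z.1 h h1, HasFDerivAt.comp_hasDerivAt z.2 h h2⟩

private theorem frb_app {G : ℝ × ℝ → (ℝ × ℝ →L[ℝ] ℝ)} {z : ℝ × ℝ} (hG : DifferentiableAt ℝ G z)
    (v : ℝ × ℝ) :
    HasDerivAt (fun p => G (p, z.2) v) (fderiv ℝ G z (1, 0) v) z.1 ∧
      HasDerivAt (fun t => G (z.1, t) v) (fderiv ℝ G z (0, 1) v) z.2 := by
  obtain ⟨h1, h2⟩ := frb_line hG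
  have h3 := h1.clm_apply (hasDerivAt_const z.1 v)
  have h4 := h2.clm_apply (hasDerivAt_const z.2 v)
  rw [map_zero, add_zero] at h3 h4
  exact ⟨h3, h4⟩

private theorem frb_norm2 (f : ℝ × ℝ → ℝ) (z : ℝ × ℝ) :
    ‖fderiv ℝ (fderiv ℝ f) z‖ = ‖iteratedFDeriv ℝ 2 f z‖ := by
  rw [← norm_iteratedFDeriv_one, norm_iteratedFDeriv_fderiv]

private theorem frb_v1 : ‖((1, 0) : ℝ × ℝ)‖ = 1 := by simp [Prod.norm_def]

private theorem frb_v2 : ‖((0, 1) : ℝ × ℝ)‖ = 1 := by simp [Prod.norm_def]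

private theorem frb_E (C : ℝ) (W : ℝ × ℝ → ℝ) (hC : C11 C W) (J : Jets) (y u : ℝ × ℝ) (d e : ℝ)
    (hd : 0 < d) (he : 0 < e) (he1 : e ≤ 1)
    (hE : ∀ v : ℝ × ℝ, sq v ≤ 18 * d ^ 2 → |W (y + v) - W y - J.q y v| ≤ e ^ 4 * sq v)
    (h1 : |u.1 - y.1| ≤ 2 * d) (h2 : |u.2 - y.2| ≤ 2 * d) :
    |W u - W y - J.q y (u - y)| ≤ 8 * e ^ 4 * d ^ 2 ∧
    |Dp W u - J.p y - (J.a y * (u.1 - y.1) + J.b y * (u.2 - y.2))| ≤ (18 + C) * e ^ 2 * d := by
  obtain ⟨-, -, hexp, -⟩ := c11_grad C W hC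
  have hCn := hC.nn
  obtain ⟨a1, a2⟩ := abs_le.1 h1
  obtain ⟨b1, b2⟩ := abs_le.1 h2
  have e4 : 0 < e ^ 4 := by positivity
  have q2 : (u.2 - y.2) ^ 2 ≤ 4 * d ^ 2 := by nlinarith
  have q1 : (u.1 - y.1) ^ 2 ≤ 4 * d ^ 2 := by nlinarith
  have hd2 : 0 < d ^ 2 := by positivity
  have s0 : sq (u - y) ≤ 8 * d ^ 2 := by
    show (u.1 - y.1) ^ 2 + (u.2 - y.2) ^ 2 ≤ 8 * d ^ 2
    linarith
  constructor
  · have h3 := hE (u - y) (by linarith)
    rw [add_sub_cancel] at h3
    refine h3.trans ?_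
    nlinarith
  · obtain ⟨η, hη⟩ : ∃ η : ℝ, η = e ^ 2 * d := ⟨_, rfl⟩
    have hηp : 0 < η := by rw [hη]; positivity
    have he2 : e ^ 2 ≤ 1 := pow_le_one₀ he.le he1
    have hηd : η ≤ d := by rw [hη]; nlinarith
    have sp : sq (u - y + (η, 0)) ≤ 18 * d ^ 2 := by
      show (u.1 - y.1 + η) ^ 2 + (u.2 - y.2 + 0) ^ 2 ≤ 18 * d ^ 2
      have : (u.1 - y.1 + η) ^ 2 ≤ 9 * d ^ 2 := by nlinarith
      nlinarith
    have sm : sq (u - y + (-η, 0)) ≤ 18 * d ^ 2 := by
      show (u.1 - y.1 + -η) ^ 2 + (u.2 - y.2 + 0) ^ 2 ≤ 18 * d ^ 2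
      have : (u.1 - y.1 + -η) ^ 2 ≤ 9 * d ^ 2 := by nlinarith
      nlinarith
    have Ap := hE _ sp
    have Am := hE _ sm
    have ep : y + (u - y + (η, 0)) = u + (η, 0) := by abel
    have em : y + (u - y + (-η, 0)) = u + (-η, 0) := by abel
    rw [ep] at Ap
    rw [em] at Am
    have Bp := hexp u (η, 0)
    have Bm := hexp u (-η, 0)
    have sqp : sq ((η, 0) : ℝ × ℝ) = η ^ 2 := by unfold sq; simp
    have sqm : sq ((-η, 0) : ℝ × ℝ) = η ^ 2 := by unfold sq; simp
    rw [sqp] at Bp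
    rw [sqm] at Bm
    simp only [mul_zero, add_zero] at Bp Bm
    have Ap' := Ap.trans (mul_le_mul_of_nonneg_left sp e4.le)
    have Am' := Am.trans (mul_le_mul_of_nonneg_left sm e4.le)
    have qd : J.q y (u - y + (η, 0)) - J.q y (u - y + (-η, 0)) =
        2 * η * (J.p y + (J.a y * (u.1 - y.1) + J.b y * (u.2 - y.2))) := by
      simp only [Jets.q, Prod.fst_add, Prod.snd_add, Prod.fst_sub, Prod.snd_sub]
      ring
    have key : 2 * η * |Dp W u - J.p y - (J.a y * (u.1 - y.1) + J.b y * (u.2 - y.2))| ≤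
        36 * e ^ 4 * d ^ 2 + 2 * C * η ^ 2 := by
      rw [← abs_of_pos (show 0 < 2 * η by linarith), ← abs_mul]
      have hX : 2 * η * (Dp W u - J.p y - (J.a y * (u.1 - y.1) + J.b y * (u.2 - y.2))) =
          ((W (u + (η, 0)) - W y - J.q y (u - y + (η, 0))) -
            (W (u + (-η, 0)) - W y - J.q y (u - y + (-η, 0)))) -
          ((W (u + (η, 0)) - W u - Dp W u * η) - (W (u + (-η, 0)) - W u - Dp W u * -η)) := by
        have : 2 * η * (Dp W u - J.p y - (J.a y * (u.1 - y.1) + J.b y * (u.2 - y.2))) =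
          2 * η * Dp W u -
            2 * η * (J.p y + (J.a y * (u.1 - y.1) + J.b y * (u.2 - y.2))) := by ring
        rw [this, ← qd]
        ring
      rw [hX]
      obtain ⟨p1, p2⟩ := abs_le.1 Ap'
      obtain ⟨p3, p4⟩ := abs_le.1 Am'
      obtain ⟨p5, p6⟩ := abs_le.1 Bp
      obtain ⟨p7, p8⟩ := abs_le.1 Bm
      rw [abs_le]
      constructor <;> linarith
    have k1 : 36 * e ^ 4 * d ^ 2 + 2 * C * η ^ 2 = 2 * η * ((18 + C) * e ^ 2 * d) := by
      rw [hη]; ring
    rw [k1] at key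
    exact le_of_mul_le_mul_left key (by linarith)

theorem exists_RB (W β : ℝ × ℝ → ℝ) (S S3 : Set (ℝ × ℝ)) (J : Jets) (h : Sm W β S J)
    (h3 : IsCompact S3) (hs : S3 ⊆ S) (σ : ℝ) (hσ : 0 < σ) :
    ∃ rh rp rt rpp rpt rtt : ℝ × ℝ → ℝ, RB W J S3 rh rp rt rpp rpt rtt σ := by
  classical
  obtain ⟨Cb, c0, hc0, hbd⟩ := h.bdβ
  obtain ⟨C, hC⟩ := c11_of_ext W β h.cont h.contβ ⟨Cb, fun y => (hbd y).1⟩ h.cls h.upp
  rcases S3.eq_empty_or_nonempty with hem | hne
  · subst hem
    refine ⟨fun _ => σ, fun _ => 0, fun _ => 0, fun _ => 0, fun _ => 0, fun _ => 0, ?_⟩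
    exact
      { cont := continuous_const
        zero := fun z hz => absurd hz (Set.notMem_empty z)
        pos := fun _ _ => hσ
        dp := fun z _ => hasDerivAt_const _ _
        dt := fun z _ => hasDerivAt_const _ _
        dpp := fun z _ => hasDerivAt_const _ _
        dpt := fun z _ => hasDerivAt_const _ _
        dtp := fun z _ => hasDerivAt_const _ _
        dtt := fun z _ => hasDerivAt_const _ _
        cp := continuousOn_const
        ct := continuousOn_const
        cpp := continuousOn_const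
        cpt := continuousOn_const
        ctt := continuousOn_const
        b0 := fun _ => le_refl _
        b1 := fun _ _ => by simp [hσ.le]
        b2 := fun _ _ => by simp [hσ.le]
        le := fun hn => absurd hn Set.not_nonempty_empty
        lim := fun y hy => absurd hy (Set.notMem_empty y)
        near := fun y hy => absurd hy (Set.notMem_empty y) }
  · obtain ⟨Cr, hCr, hrad⟩ := T.radius (ℝ × ℝ)
    obtain ⟨c, hcp, hc1, hc2, hc3⟩ : ∃ c : ℝ, 0 < c ∧ c ≤ 1 / 4 ∧ 2 * c ≤ σ ∧ 4 * Cr * c ≤ σ := by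
      refine ⟨min (1 / 4) (min (σ / 2) (σ / (4 * Cr))),
        lt_min (by norm_num) (lt_min (by linarith) (by positivity)), min_le_left _ _, ?_, ?_⟩
      · have : min (1 / 4) (min (σ / 2) (σ / (4 * Cr))) ≤ σ / 2 :=
          (min_le_right _ _).trans (min_le_left _ _)
        linarith
      · have h1 : min (1 / 4) (min (σ / 2) (σ / (4 * Cr))) ≤ σ / (4 * Cr) :=
          (min_le_right _ _).trans (min_le_right _ _)
        have h2 := mul_le_mul_of_nonneg_left h1 (show 0 ≤ 4 * Cr by linarith)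
        have h4 : 4 * Cr * (σ / (4 * Cr)) = σ := by field_simp
        rw [h4] at h2
        exact h2
    -- the modulus
    let M : ℕ → ℝ → Prop := fun k ε' => ∀ y ∈ S3, ∀ v : ℝ × ℝ, sq v ≤ (8 * (1 / 2) ^ k) ^ 2 →
      |W (y + v) - W y - J.q y v| ≤ ε' * sq v
    have hM : ∀ ε' : ℝ, 0 < ε' → ∃ N : ℕ, ∀ k, N ≤ k → M k ε' := by
      intro ε' hε'
      obtain ⟨δ, hδ, h1⟩ := h.con ε' hε'
      obtain ⟨N, hN⟩ := exists_pow_lt_of_lt_one (show 0 < δ / 8 by positivity)
        (show (1 / 2 : ℝ) < 1 by norm_num)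
      refine ⟨N, fun k hk y hy v hv => ?_⟩
      have h4 : (1 / 2 : ℝ) ^ k ≤ (1 / 2) ^ N :=
        pow_le_pow_of_le_one (by norm_num) (by norm_num) hk
      have h5 : sq v ≤ δ ^ 2 :=
        hv.trans (pow_le_pow_left₀ (by positivity) (by linarith) 2)
      have h6 := h1 y (hs hy) v h5
      exact h6
    obtain ⟨e, hea, hep, he0, het, k0, hk0⟩ := T.slow_seq M hM (fun t => t ^ 4)
      (fun t ht => by positivity) c hcp
    obtain ⟨rh, hrc, hrs, hrz, hrp, hr2, hrk, hrf⟩ :=
      hrad S3 h3.isClosed hne e hea hep (by linarith)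
    have hek : ∀ k, e k ≤ c := fun k => (hea (Nat.zero_le k)).trans he0
    have hcd : ∀ z, z ∉ S3 → ContDiffAt ℝ (⊤ : ℕ∞) rh z := fun z hz =>
      hrs.contDiffAt (h3.isClosed.isOpen_compl.mem_nhds hz)
    have hcd1 : ∀ z, z ∉ S3 → ContDiffAt ℝ (⊤ : ℕ∞) (fderiv ℝ rh) z := fun z hz =>
      (hcd z hz).fderiv_right (m := (⊤ : ℕ∞)) (by simp)
    have hcd2 : ∀ z, z ∉ S3 → ContDiffAt ℝ (⊤ : ℕ∞) (fderiv ℝ (fderiv ℝ rh)) z := fun z hz =>
      (hcd1 z hz).fderiv_right (m := (⊤ : ℕ∞)) (by simp)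
    have hdf : ∀ z, z ∉ S3 → DifferentiableAt ℝ rh z := fun z hz =>
      (hcd z hz).differentiableAt (by simp)
    have hdf1 : ∀ z, z ∉ S3 → DifferentiableAt ℝ (fderiv ℝ rh) z := fun z hz =>
      (hcd1 z hz).differentiableAt (by simp)
    have hsym : ∀ z, z ∉ S3 → ∀ v w, fderiv ℝ (fderiv ℝ rh) z v w =
        fderiv ℝ (fderiv ℝ rh) z w v := by
      intro z hz v w
      have h1 : IsSymmSndFDerivAt ℝ rh z := (hcd z hz).isSymmSndFDerivAt (by
        rw [minSmoothness_of_isRCLikeNormedField]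
        exact WithTop.coe_le_coe.2 (le_top : (2 : ℕ∞) ≤ ⊤))
      exact h1 v w
    have hshell : ∀ z, z ∉ S3 → Metric.infDist z S3 < 1 → ∃ k : ℕ,
        (1 / 2 : ℝ) ^ (k + 1) ≤ Metric.infDist z S3 ∧ Metric.infDist z S3 ≤ (1 / 2 : ℝ) ^ k := by
      intro z hz hz1
      have hpos : 0 < Metric.infDist z S3 := (h3.isClosed.notMem_iff_infDist_pos hne).1 hz
      obtain ⟨k, hk1, hk2⟩ := exists_nat_pow_near_of_lt_one hpos hz1.le
        (by norm_num : (0 : ℝ) < 1 / 2) (by norm_num : (1 / 2 : ℝ) < 1)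
      exact ⟨k, hk1.le, hk2⟩
    have hnn : ∀ z, 0 ≤ rh z := by
      intro z
      by_cases hz : z ∈ S3
      · rw [hrz z hz]
      · exact (hrp z hz).le
    have hest : ∀ (k : ℕ) (z : ℝ × ℝ), (1 / 2 : ℝ) ^ (k + 1) ≤ Metric.infDist z S3 →
        Metric.infDist z S3 ≤ (1 / 2 : ℝ) ^ k →
        ‖fderiv ℝ rh z‖ ≤ Cr * e k ∧ rh z * ‖fderiv ℝ (fderiv ℝ rh) z‖ ≤ 4 * Cr * e k * e k := by
      intro k z hz1 hz2
      obtain ⟨f1, f2, f3, f4⟩ := hrk k z hz1 hz2
      refine ⟨f3, ?_⟩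
      rw [frb_norm2]
      have hk := hep k
      have hd := Metric.infDist_nonneg (x := z) (s := S3)
      have h5 : (1 / 2 : ℝ) ^ k * 2 ^ k = 1 := by
        rw [← mul_pow]; norm_num
      have h6 : Metric.infDist z S3 * 2 ^ k ≤ 1 := by
        rw [← h5]
        exact mul_le_mul_of_nonneg_right hz2 (by positivity)
      calc rh z * ‖iteratedFDeriv ℝ 2 rh z‖
          ≤ (4 * e k * Metric.infDist z S3) * (Cr * e k * 2 ^ k) :=
            mul_le_mul f2 f4 (norm_nonneg _) (by positivity)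
        _ = 4 * Cr * e k * e k * (Metric.infDist z S3 * 2 ^ k) := by ring
        _ ≤ 4 * Cr * e k * e k * 1 := mul_le_mul_of_nonneg_left h6 (by positivity)
        _ = 4 * Cr * e k * e k := mul_one _
    have happ : ∀ (z : ℝ × ℝ) (A B : ℝ), ‖fderiv ℝ rh z‖ ≤ A →
        rh z * ‖fderiv ℝ (fderiv ℝ rh) z‖ ≤ B →
        |fderiv ℝ rh z (1, 0)| ≤ A ∧ |fderiv ℝ rh z (0, 1)| ≤ A ∧
        rh z * |fderiv ℝ (fderiv ℝ rh) z (1, 0) (1, 0)| ≤ B ∧
        rh z * |fderiv ℝ (fderiv ℝ rh) z (0, 1) (1, 0)| ≤ B ∧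
        rh z * |fderiv ℝ (fderiv ℝ rh) z (0, 1) (0, 1)| ≤ B := by
      intro z A B hA hB
      have g1 : ∀ v : ℝ × ℝ, ‖v‖ = 1 → |fderiv ℝ rh z v| ≤ A := by
        intro v hv
        have := (fderiv ℝ rh z).le_opNorm v
        rw [hv, mul_one, Real.norm_eq_abs] at this
        exact this.trans hA
      have g2 : ∀ v w : ℝ × ℝ, ‖v‖ = 1 → ‖w‖ = 1 →
          rh z * |fderiv ℝ (fderiv ℝ rh) z v w| ≤ B := by
        intro v w hv hw
        have := (fderiv ℝ (fderiv ℝ rh) z).le_opNorm₂ v w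
        rw [hv, hw, mul_one, mul_one, Real.norm_eq_abs] at this
        exact (mul_le_mul_of_nonneg_left this (hnn z)).trans hB
      exact ⟨g1 _ frb_v1, g1 _ frb_v2, g2 _ _ frb_v1 frb_v1, g2 _ _ frb_v2 frb_v1,
        g2 _ _ frb_v2 frb_v2⟩
    have hall : ∀ z, z ∉ S3 → ‖fderiv ℝ rh z‖ ≤ σ ∧
        rh z * ‖fderiv ℝ (fderiv ℝ rh) z‖ ≤ σ := by
      intro z hz
      rcases lt_or_ge (Metric.infDist z S3) 1 with hd | hd
      · obtain ⟨k, hk1, hk2⟩ := hshell z hz hd
        obtain ⟨f1, f2⟩ := hest k z hk1 hk2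
        have hk := hep k
        have hkc := hek k
        constructor
        · refine f1.trans ?_
          have : Cr * e k ≤ Cr * c := mul_le_mul_of_nonneg_left hkc hCr.le
          have : 0 < Cr * c := by positivity
          linarith
        · refine f2.trans ?_
          have h5 : 4 * Cr * e k * e k ≤ 4 * Cr * c * 1 :=
            mul_le_mul (mul_le_mul_of_nonneg_left hkc (by linarith)) (by linarith) hk.le
              (by positivity)
          linarith
      · obtain ⟨-, f1, f2⟩ := hrf z hd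
        rw [frb_norm2, f1, f2]
        simp [hσ.le]
    have hlarge : ∀ k1 : ℕ, ∃ δ : ℝ, 0 < δ ∧ ∀ y0 ∈ S3, ∀ z, z ∉ S3 → dist z y0 ≤ δ →
        ∃ k, k1 ≤ k ∧ (1 / 2 : ℝ) ^ (k + 1) ≤ Metric.infDist z S3 ∧
          Metric.infDist z S3 ≤ (1 / 2 : ℝ) ^ k := by
      intro k1
      refine ⟨(1 / 2) ^ (k1 + 2), by positivity, fun y0 hy0 z hz hd => ?_⟩
      have h4 : Metric.infDist z S3 ≤ (1 / 2) ^ (k1 + 2) :=
        (Metric.infDist_le_dist_of_mem hy0).trans hd
      have h5 : (1 / 2 : ℝ) ^ (k1 + 2) < 1 := pow_lt_one₀ (by norm_num) (by norm_num) (by omega)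
      obtain ⟨k, hk1, hk2⟩ := hshell z hz (lt_of_le_of_lt h4 h5)
      refine ⟨k, ?_, hk1, hk2⟩
      by_contra hcon
      push Not at hcon
      have h6 : (1 / 2 : ℝ) ^ (k1 + 2) < (1 / 2) ^ (k + 1) :=
        pow_lt_pow_right_of_lt_one₀ (by norm_num) (by norm_num) (by omega)
      linarith
    have hsmall : ∀ κ : ℝ, 0 < κ → ∃ k1 : ℕ, ∀ k, k1 ≤ k → e k ≤ κ := by
      intro κ hκ
      have h4 := het.eventually (gt_mem_nhds hκ)
      obtain ⟨k1, hk1⟩ := Filter.eventually_atTop.1 h4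
      exact ⟨k1, fun k hk => (hk1 k hk).le⟩
    refine ⟨rh, fun z => fderiv ℝ rh z (1, 0), fun z => fderiv ℝ rh z (0, 1),
      fun z => fderiv ℝ (fderiv ℝ rh) z (1, 0) (1, 0),
      fun z => fderiv ℝ (fderiv ℝ rh) z (0, 1) (1, 0),
      fun z => fderiv ℝ (fderiv ℝ rh) z (0, 1) (0, 1), ?_⟩
    exact
      { cont := hrc
        zero := hrz
        pos := hrp
        dp := fun z hz => (frb_line (hdf z hz)).1
        dt := fun z hz => (frb_line (hdf z hz)).2
        dpp := fun z hz => (frb_app (hdf1 z hz) (1, 0)).1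
        dpt := fun z hz => (frb_app (hdf1 z hz) (1, 0)).2
        dtp := fun z hz => by
          have h4 := (frb_app (hdf1 z hz) (0, 1)).1
          rw [hsym z hz (1, 0) (0, 1)] at h4
          exact h4
        dtt := fun z hz => (frb_app (hdf1 z hz) (0, 1)).2
        cp := fun z hz => ((hcd1 z hz).continuousAt.clm_apply
          continuousAt_const).continuousWithinAt
        ct := fun z hz => ((hcd1 z hz).continuousAt.clm_apply
          continuousAt_const).continuousWithinAt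
        cpp := fun z hz => (((hcd2 z hz).continuousAt.clm_apply
          continuousAt_const).clm_apply continuousAt_const).continuousWithinAt
        cpt := fun z hz => (((hcd2 z hz).continuousAt.clm_apply
          continuousAt_const).clm_apply continuousAt_const).continuousWithinAt
        ctt := fun z hz => (((hcd2 z hz).continuousAt.clm_apply
          continuousAt_const).clm_apply continuousAt_const).continuousWithinAt
        b0 := fun z => (hr2 z).trans (by linarith)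
        b1 := fun z hz => by
          obtain ⟨f1, f2⟩ := hall z hz
          obtain ⟨g1, g2, -⟩ := happ z σ σ f1 f2
          exact ⟨g1, g2⟩
        b2 := fun z hz => by
          obtain ⟨f1, f2⟩ := hall z hz
          obtain ⟨-, -, g⟩ := happ z σ σ f1 f2
          exact g
        le := fun _ z => by
          by_cases hz : z ∈ S3
          · rw [hrz z hz]; exact Metric.infDist_nonneg
          · rcases lt_or_ge (Metric.infDist z S3) 1 with hd | hd
            · obtain ⟨k, hk1, hk2⟩ := hshell z hz hd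
              obtain ⟨-, f2, -⟩ := hrk k z hk1 hk2
              refine f2.trans ?_
              have h4 := hek k
              have h5 := Metric.infDist_nonneg (x := z) (s := S3)
              nlinarith
            · exact (hr2 z).trans (by linarith)
        lim := fun y0 hy0 κ hκ => by
          obtain ⟨k1, hk1⟩ := hsmall (min 1 (κ / (4 * Cr))) (lt_min one_pos (by positivity))
          obtain ⟨δ, hδ, hl⟩ := hlarge k1
          refine ⟨δ, hδ, fun z hz hd => ?_⟩
          obtain ⟨k, hk, hz1, hz2⟩ := hl y0 hy0 z hz hd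
          obtain ⟨f1, f2⟩ := hest k z hz1 hz2
          have h4 := (hk1 k hk).trans (min_le_left _ _)
          have h5 := (hk1 k hk).trans (min_le_right _ _)
          have h6 := hep k
          have h7 : 4 * Cr * e k ≤ κ := by
            have h8 := mul_le_mul_of_nonneg_left h5 (show 0 ≤ 4 * Cr by linarith)
            have h9 : 4 * Cr * (κ / (4 * Cr)) = κ := by field_simp
            rw [h9] at h8
            exact h8
          refine happ z κ κ (f1.trans ?_) (f2.trans ?_)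
          · have : 0 < Cr * e k := by positivity
            linarith
          · have : 4 * Cr * e k * e k ≤ 4 * Cr * e k * 1 :=
              mul_le_mul_of_nonneg_left h4 (by positivity)
            linarith
        near := fun y0 hy0 κ hκ => by
          have hCn := hC.nn
          obtain ⟨k1, hk1⟩ := hsmall (min 1 (min (κ / 32) (κ / (2 * (18 + C)))))
            (lt_min one_pos (lt_min (by positivity) (by positivity)))
          obtain ⟨δ, hδ, hl⟩ := hlarge (max k0 k1)
          refine ⟨δ, hδ, fun z hz hd => ?_⟩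
          obtain ⟨k, hk, hz1, hz2⟩ := hl y0 hy0 z hz hd
          obtain ⟨y, hy, hyd⟩ := h3.exists_infDist_eq_dist hne z
          refine ⟨y, hy, hyd.ge, fun u hu => ?_⟩
          have hdp : 0 < Metric.infDist z S3 := (h3.isClosed.notMem_iff_infDist_pos hne).1 hz
          have hkk0 : k0 ≤ k := (le_max_left _ _).trans hk
          have hkk1 : k1 ≤ k + 1 := ((le_max_right _ _).trans hk).trans (Nat.le_succ k)
          have h4 := hk1 (k + 1) hkk1
          have e1 : e (k + 1) ≤ 1 := h4.trans (min_le_left _ _)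
          have e2 : e (k + 1) ≤ κ / 32 :=
            h4.trans ((min_le_right _ _).trans (min_le_left _ _))
          have e3 : e (k + 1) ≤ κ / (2 * (18 + C)) :=
            h4.trans ((min_le_right _ _).trans (min_le_right _ _))
          have hep1 := hep (k + 1)
          obtain ⟨f1, -⟩ := hrk k z hz1 hz2
          have hMk := hk0 k hkk0
          have hduy : dist u y ≤ 2 * Metric.infDist z S3 := by
            have := dist_triangle u z y
            rw [← hyd] at this
            linarith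
          have c1 : |u.1 - y.1| ≤ 2 * Metric.infDist z S3 := by
            refine le_trans ?_ hduy
            rw [Prod.dist_eq, ← Real.dist_eq]; exact le_max_left _ _
          have c2 : |u.2 - y.2| ≤ 2 * Metric.infDist z S3 := by
            refine le_trans ?_ hduy
            rw [Prod.dist_eq, ← Real.dist_eq]; exact le_max_right _ _
          obtain ⟨g1, g2⟩ := frb_E C W hC J y u (Metric.infDist z S3) (e (k + 1)) hdp hep1 e1
            (fun v hv => hMk y hy v (hv.trans (by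
              have : (Metric.infDist z S3) ^ 2 ≤ ((1 / 2) ^ k) ^ 2 :=
                pow_le_pow_left₀ hdp.le hz2 2
              have h5 : 0 ≤ ((1 / 2 : ℝ) ^ k) ^ 2 := by positivity
              have h6 : (8 * (1 / 2 : ℝ) ^ k) ^ 2 = 64 * ((1 / 2 : ℝ) ^ k) ^ 2 := by ring
              rw [h6]
              linarith))) c1 c2
          constructor
          · refine g1.trans ?_
            have h5 : (e (k + 1) / 2 * Metric.infDist z S3) ^ 2 ≤ rh z ^ 2 :=
              pow_le_pow_left₀ (by positivity) f1 2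
            have h6 : 8 * e (k + 1) ^ 4 * Metric.infDist z S3 ^ 2 =
                32 * e (k + 1) ^ 2 * (e (k + 1) / 2 * Metric.infDist z S3) ^ 2 := by ring
            rw [h6]
            have h7 : 32 * e (k + 1) ^ 2 ≤ κ := by nlinarith
            exact mul_le_mul h7 h5 (by positivity) hκ.le
          · refine g2.trans ?_
            have h6 : (18 + C) * e (k + 1) ^ 2 * Metric.infDist z S3 =
                2 * (18 + C) * e (k + 1) * (e (k + 1) / 2 * Metric.infDist z S3) := by ring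
            rw [h6]
            have h7 : 2 * (18 + C) * e (k + 1) ≤ κ := by
              have h8 := mul_le_mul_of_nonneg_left e3 (show 0 ≤ 2 * (18 + C) by positivity)
              have h9 : 2 * (18 + C) * (κ / (2 * (18 + C))) = κ := by field_simp
              rw [h9] at h8
              exact h8
            exact mul_le_mul h7 f1 (by positivity) hκ.le }

end Pool.Agent.MP_4eca41
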