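import Pool.Agent.Work.MP_4eca41_an.T.Mol

/-!
# F: the variable radius average with kernel `ker` preserves convexity exactly (pure one variable)

First let `g` be C^2 (convex).  `mol ρ g x = ∫ g (x + ρ x s) ker s`; `(mol ρ g)' = ∫ g' (x + ρ s)(1 + ρ1 s) ker`, `(mol ρ g)'' = ∫ g'' (x+ρ s)(1+ρ1 s)^2 ker s + ρ2 ∫ g' (x + ρ s) s ker s`, and by parts (`psi' = - s ker`, `psi (±1) = 0`)
`∫ g' (x+ρ s) s ker s ds = ρ ∫ g'' (x + ρ s) psi s ds`.  So `(mol ρ g)'' = ∫ g'' (x + ρ s) [(1+ρ1 s)^2 ker s + ρ ρ2 psi s] ds ≥ 0`, as `(1 + ρ1 s)^2 ≥ (3/4)^2` and `|ρ ρ2| psi ≤ (1/4)(ker/8)`.  Hence `mol ρ g` is convex on the interval.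
General convex `g`: approximation by the averages `h^(-2) (G2 (x + 2h) - 2 G2 (x + h) + G2 x)`, `G2'' = g`, which are convex of class C^2 because their second derivative is
`h^(-2) (g (x + 2h) - 2 g (x + h) + g x) ≥ 0`.
-/

set_option autoImplicit false

open Set MeasureTheory Filter Topology

namespace Pool.Agent.MP_4eca41

private theorem param_deriv {F F' : ℝ → ℝ → ℝ} {a b : ℝ}
    (hF : ∀ x ∈ Ioo a b, Continuous (F x))
    (hd : ∀ x ∈ Ioo a b, ∀ s : ℝ, HasDerivAt (fun x => F x s) (F' x s) x)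
    (hc : ContinuousOn (fun p : ℝ × ℝ => F' p.1 p.2) (Ioo a b ×ˢ univ)) {x0 : ℝ}
    (hx0 : x0 ∈ Ioo a b) :
    HasDerivAt (fun x => ∫ s in (-1 : ℝ)..1, F x s) (∫ s in (-1 : ℝ)..1, F' x0 s) x0 := by
  obtain ⟨δ, hδ, hsub⟩ : ∃ δ : ℝ, 0 < δ ∧ Icc (x0 - δ) (x0 + δ) ⊆ Ioo a b := by
    refine ⟨min (x0 - a) (b - x0) / 2, ?_, ?_⟩
    · have h1 : 0 < x0 - a := by linarith [hx0.1]
      have h2 : 0 < b - x0 := by linarith [hx0.2]
      have := lt_min h1 h2
      linarith
    · intro y hy
      have h1 := min_le_left (x0 - a) (b - x0)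
      have h2 := min_le_right (x0 - a) (b - x0)
      have h3 : 0 < x0 - a := by linarith [hx0.1]
      have h4 : 0 < b - x0 := by linarith [hx0.2]
      have h5 := lt_min h3 h4
      constructor
      · linarith [hy.1]
      · linarith [hy.2]
  have hcomp : IsCompact (Icc (x0 - δ) (x0 + δ) ×ˢ Icc (-1 : ℝ) 1) :=
    isCompact_Icc.prod isCompact_Icc
  have hcon : ContinuousOn (fun p : ℝ × ℝ => F' p.1 p.2)
      (Icc (x0 - δ) (x0 + δ) ×ˢ Icc (-1 : ℝ) 1) :=
    hc.mono (prod_mono hsub (subset_univ _))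
  obtain ⟨B, hB⟩ := hcomp.exists_bound_of_continuousOn hcon
  have hnh : Icc (x0 - δ) (x0 + δ) ∈ 𝓝 x0 := Icc_mem_nhds (by linarith) (by linarith)
  have hF'c : ∀ x ∈ Ioo a b, Continuous (F' x) := by
    intro x hx
    rw [← continuousOn_univ]
    exact hc.comp (f := fun s : ℝ => ((x, s) : ℝ × ℝ)) (by fun_prop)
      (fun s _ => ⟨hx, mem_univ _⟩)
  have h := intervalIntegral.hasDerivAt_integral_of_dominated_loc_of_deriv_le
    (μ := volume) (F := F) (F' := F') (x₀ := x0) (a := -1) (b := 1) (bound := fun _ => B)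
    (s := Icc (x0 - δ) (x0 + δ)) hnh ?_ ?_ ?_ ?_ ?_ ?_
  · exact h.2
  · filter_upwards [hnh] with x hx
    exact (hF x (hsub hx)).aestronglyMeasurable
  · exact (hF x0 hx0).intervalIntegrable _ _
  · exact (hF'c x0 hx0).aestronglyMeasurable
  · refine ae_of_all _ fun s hs x hx => ?_
    rw [uIoc_of_le (by norm_num)] at hs
    exact hB (x, s) ⟨hx, ⟨hs.1.le, hs.2⟩⟩
  · exact intervalIntegrable_const
  · refine ae_of_all _ fun s _ x hx => ?_
    exact hd x (hsub hx) s

private theorem mol_convex_smooth (g g1 g2 : ℝ → ℝ) (hg1 : ∀ x, HasDerivAt g (g1 x) x)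
    (hg2 : ∀ x, HasDerivAt g1 (g2 x) x) (hc2 : Continuous g2) (hpos : ∀ x, 0 ≤ g2 x)
    (ρ ρ1 ρ2 : ℝ → ℝ) (a b : ℝ)
    (h0 : ∀ x ∈ Ioo a b, 0 < ρ x) (h1 : ∀ x ∈ Ioo a b, HasDerivAt ρ (ρ1 x) x)
    (h2 : ∀ x ∈ Ioo a b, HasDerivAt ρ1 (ρ2 x) x) (hc : ContinuousOn ρ2 (Ioo a b))
    (hb1 : ∀ x ∈ Ioo a b, |ρ1 x| ≤ 1 / 4) (hb2 : ∀ x ∈ Ioo a b, ρ x * |ρ2 x| ≤ 1 / 4) :
    ConvexOn ℝ (Ioo a b) (mol ρ g) := by
  have hgc : Continuous g := by
    rw [continuous_iff_continuousAt]
    exact fun x => (hg1 x).continuousAt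
  have hg1c : Continuous g1 := by
    rw [continuous_iff_continuousAt]
    exact fun x => (hg2 x).continuousAt
  have hkc := ker_continuous
  have hρc : ContinuousOn ρ (Ioo a b) := fun x hx => (h1 x hx).continuousAt.continuousWithinAt
  have hρ1c : ContinuousOn ρ1 (Ioo a b) := fun x hx => (h2 x hx).continuousAt.continuousWithinAt
  have hpsic : Continuous psi := by
    rw [continuous_iff_continuousAt]
    exact fun x => (psi_hasDerivAt x).continuousAt
  -- continuity of the inner functions on the strip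
  have cfst : ContinuousOn (fun p : ℝ × ℝ => p.1) (Ioo a b ×ˢ univ) := continuous_fst.continuousOn
  have csnd : ContinuousOn (fun p : ℝ × ℝ => p.2) (Ioo a b ×ˢ univ) := continuous_snd.continuousOn
  have cρ : ContinuousOn (fun p : ℝ × ℝ => ρ p.1) (Ioo a b ×ˢ univ) :=
    hρc.comp cfst fun p hp => hp.1
  have cρ1 : ContinuousOn (fun p : ℝ × ℝ => ρ1 p.1) (Ioo a b ×ˢ univ) :=
    hρ1c.comp cfst fun p hp => hp.1
  have cρ2 : ContinuousOn (fun p : ℝ × ℝ => ρ2 p.1) (Ioo a b ×ˢ univ) :=
    hc.comp cfst fun p hp => hp.1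
  have cin : ContinuousOn (fun p : ℝ × ℝ => p.1 + ρ p.1 * p.2) (Ioo a b ×ˢ univ) :=
    cfst.add (cρ.mul csnd)
  have ck : ContinuousOn (fun p : ℝ × ℝ => ker p.2) (Ioo a b ×ˢ univ) :=
    hkc.comp_continuousOn csnd
  have hin : ∀ x ∈ Ioo a b, ∀ s : ℝ, HasDerivAt (fun x => x + ρ x * s) (1 + ρ1 x * s) x := by
    intro x hx s
    exact (hasDerivAt_id x).add ((h1 x hx).mul_const s)
  -- first derivative
  set m1 : ℝ → ℝ := fun x => ∫ s in (-1 : ℝ)..1, g1 (x + ρ x * s) * ((1 + ρ1 x * s) * ker s)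
    with hm1
  have hd1 : ∀ x ∈ Ioo a b, HasDerivAt (mol ρ g) (m1 x) x := by
    intro x hx
    refine param_deriv (F := fun x s => g (x + ρ x * s) * ker s)
      (F' := fun x s => g1 (x + ρ x * s) * ((1 + ρ1 x * s) * ker s)) (a := a) (b := b) ?_ ?_ ?_ hx
    · intro y _
      exact (hgc.comp (by fun_prop)).mul hkc
    · intro y hy s
      have e := ((hg1 (y + ρ y * s)).comp y (hin y hy s)).mul_const (ker s)
      refine e.congr_deriv ?_
      ring
    · exact (hg1c.comp_continuousOn cin).mul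
        ((continuousOn_const.add (cρ1.mul csnd)).mul ck)
  set m2 : ℝ → ℝ := fun x => ∫ s in (-1 : ℝ)..1,
    (g2 (x + ρ x * s) * ((1 + ρ1 x * s) ^ 2 * ker s) + ρ2 x * (g1 (x + ρ x * s) * (s * ker s)))
    with hm2
  have hd2 : ∀ x ∈ Ioo a b, HasDerivAt m1 (m2 x) x := by
    intro x hx
    refine param_deriv (F := fun x s => g1 (x + ρ x * s) * ((1 + ρ1 x * s) * ker s))
      (F' := fun x s => g2 (x + ρ x * s) * ((1 + ρ1 x * s) ^ 2 * ker s) +
        ρ2 x * (g1 (x + ρ x * s) * (s * ker s))) (a := a) (b := b) ?_ ?_ ?_ hx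
    · intro y _
      exact (hg1c.comp (by fun_prop)).mul (by fun_prop)
    · intro y hy s
      have e1 := (hg2 (y + ρ y * s)).comp y (hin y hy s)
      have e2 : HasDerivAt (fun x => (1 + ρ1 x * s) * ker s) (ρ2 y * s * ker s) y := by
        have e3 := (((h2 y hy).mul_const s).const_add 1).mul_const (ker s)
        exact e3
      refine (e1.mul e2).congr_deriv ?_
      simp only [Function.comp_apply]
      ring
    · exact ((hc2.comp_continuousOn cin).mul
        (((continuousOn_const.add (cρ1.mul csnd)).pow 2).mul ck)).add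
        (cρ2.mul ((hg1c.comp_continuousOn cin).mul (csnd.mul ck)))
  have hm2pos : ∀ x ∈ Ioo a b, 0 ≤ m2 x := by
    intro x hx
    -- integration by parts
    have hparts : ∫ s in (-1 : ℝ)..1, g1 (x + ρ x * s) * (s * ker s) =
        ρ x * ∫ s in (-1 : ℝ)..1, g2 (x + ρ x * s) * psi s := by
      have hder : ∀ s ∈ uIcc (-1 : ℝ) 1, HasDerivAt (fun s => g1 (x + ρ x * s) * psi s)
          (ρ x * (g2 (x + ρ x * s) * psi s) - g1 (x + ρ x * s) * (s * ker s)) s := by
        intro s _
        have e1 : HasDerivAt (fun s => x + ρ x * s) (ρ x) s := by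
          have := ((hasDerivAt_id s).const_mul (ρ x)).const_add x
          simpa using this
        have e2 := ((hg2 (x + ρ x * s)).comp s e1).mul (psi_hasDerivAt s)
        refine e2.congr_deriv ?_
        simp only [Function.comp_apply]
        ring
      have hci : Continuous fun s => ρ x * (g2 (x + ρ x * s) * psi s) :=
        continuous_const.mul ((hc2.comp (by fun_prop)).mul hpsic)
      have hci2 : Continuous fun s => g1 (x + ρ x * s) * (s * ker s) :=
        (hg1c.comp (by fun_prop)).mul (by fun_prop)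
      have h3 := intervalIntegral.integral_eq_sub_of_hasDerivAt hder
        ((hci.sub hci2).intervalIntegrable _ _)
      rw [intervalIntegral.integral_sub (hci.intervalIntegrable _ _)
        (hci2.intervalIntegrable _ _), intervalIntegral.integral_const_mul,
        psi_zero 1 (by norm_num), psi_zero (-1) (by norm_num)] at h3
      linarith
    have hcA : Continuous fun s => g2 (x + ρ x * s) * ((1 + ρ1 x * s) ^ 2 * ker s) :=
      (hc2.comp (by fun_prop)).mul (by fun_prop)
    have hcB : Continuous fun s => ρ2 x * (g1 (x + ρ x * s) * (s * ker s)) :=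
      continuous_const.mul ((hg1c.comp (by fun_prop)).mul (by fun_prop))
    have hcC : Continuous fun s => g2 (x + ρ x * s) * psi s := (hc2.comp (by fun_prop)).mul hpsic
    have hcD : Continuous fun s => ρ2 x * ρ x * (g2 (x + ρ x * s) * psi s) :=
      continuous_const.mul hcC
    have e : m2 x = ∫ s in (-1 : ℝ)..1,
        g2 (x + ρ x * s) * ((1 + ρ1 x * s) ^ 2 * ker s + ρ x * ρ2 x * psi s) := by
      rw [hm2]
      simp only
      rw [intervalIntegral.integral_add (hcA.intervalIntegrable _ _) (hcB.intervalIntegrable _ _),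
        intervalIntegral.integral_const_mul, hparts, ← mul_assoc,
        ← intervalIntegral.integral_const_mul,
        ← intervalIntegral.integral_add (hcA.intervalIntegrable _ _)
          (hcD.intervalIntegrable _ _)]
      apply intervalIntegral.integral_congr
      intro s _
      simp only
      ring
    rw [e]
    apply intervalIntegral.integral_nonneg (by norm_num)
    intro s hs
    refine mul_nonneg (hpos _) ?_
    have hs1 : |s| ≤ 1 := abs_le.2 ⟨hs.1, hs.2⟩
    have hρx := h0 x hx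
    have k1 := hb1 x hx
    have k2 := hb2 x hx
    have k3 := psi_le s
    have k4 := psi_nonneg s
    have k5 := ker_nonneg s
    have k6 : |ρ1 x * s| ≤ 1 / 4 := by
      rw [abs_mul]
      calc |ρ1 x| * |s| ≤ 1 / 4 * 1 := mul_le_mul k1 hs1 (abs_nonneg _) (by norm_num)
        _ = 1 / 4 := by norm_num
    have k7 := (abs_le.1 k6).1
    have k8 : (9 / 16 : ℝ) ≤ (1 + ρ1 x * s) ^ 2 := by nlinarith
    have k9 : |ρ x * ρ2 x| ≤ 1 / 4 := by
      rw [abs_mul, abs_of_pos hρx]; exact k2
    have k10 := (abs_le.1 k9).1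
    have k11 : -(1 / 4 * (ker s / 8)) ≤ ρ x * ρ2 x * psi s := by nlinarith
    nlinarith
  have hcont : ContinuousOn (mol ρ g) (Ioo a b) := fun x hx =>
    (hd1 x hx).continuousAt.continuousWithinAt
  have hm1c : ContinuousOn m1 (Ioo a b) := fun x hx =>
    (hd2 x hx).continuousAt.continuousWithinAt
  have hmono : MonotoneOn m1 (Ioo a b) := by
    refine monotoneOn_of_deriv_nonneg (convex_Ioo a b) hm1c ?_ ?_
    · rw [interior_Ioo]
      exact fun x hx => (hd2 x hx).differentiableAt.differentiableWithinAt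
    · rw [interior_Ioo]
      intro x hx
      rw [(hd2 x hx).deriv]
      exact hm2pos x hx
  refine MonotoneOn.convexOn_of_deriv (convex_Ioo a b) hcont ?_ ?_
  · rw [interior_Ioo]
    exact fun x hx => (hd1 x hx).differentiableAt.differentiableWithinAt
  · rw [interior_Ioo]
    intro x hx y hy hxy
    rw [(hd1 x hx).deriv, (hd1 y hy).deriv]
    exact hmono hx hy hxy

/-- averages of order two of a convex function -/
private theorem approx (g : ℝ → ℝ) (hg : ConvexOn ℝ univ g) (hgc : Continuous g) (h : ℝ)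
    (hh : 0 < h) : ∃ q q1 q2 : ℝ → ℝ, (∀ x, HasDerivAt q (q1 x) x) ∧ (∀ x, HasDerivAt q1 (q2 x) x) ∧
      Continuous q2 ∧ (∀ x, 0 ≤ q2 x) ∧ ∀ x ε : ℝ, (∀ u ∈ Icc x (x + 2 * h), |g u - g x| ≤ ε) →
        |q x - g x| ≤ ε := by
  set G : ℝ → ℝ := fun x => ∫ u in (0 : ℝ)..x, g u with hG
  have hGd : ∀ x, HasDerivAt G (g x) x := fun x =>
    intervalIntegral.integral_hasDerivAt_right (hgc.intervalIntegrable _ _)
      (hgc.stronglyMeasurableAtFilter _ _) hgc.continuousAt
  have hGc : Continuous G := by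
    rw [continuous_iff_continuousAt]
    exact fun x => (hGd x).continuousAt
  set G2 : ℝ → ℝ := fun x => ∫ u in (0 : ℝ)..x, G u with hG2
  have hG2d : ∀ x, HasDerivAt G2 (G x) x := fun x =>
    intervalIntegral.integral_hasDerivAt_right (hGc.intervalIntegrable _ _)
      (hGc.stronglyMeasurableAtFilter _ _) hGc.continuousAt
  have hsh : ∀ (Q Q' : ℝ → ℝ) (c : ℝ), (∀ x, HasDerivAt Q (Q' x) x) →
      ∀ x, HasDerivAt (fun x => Q (x + c)) (Q' (x + c)) x := by
    intro Q Q' c hQ x
    exact (hQ (x + c)).comp_add_const x c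
  have hcomb : ∀ (Q Q' : ℝ → ℝ), (∀ x, HasDerivAt Q (Q' x) x) →
      ∀ x, HasDerivAt (fun x => (Q (x + 2 * h) - 2 * Q (x + h) + Q x) / h ^ 2)
        ((Q' (x + 2 * h) - 2 * Q' (x + h) + Q' x) / h ^ 2) x := by
    intro Q Q' hQ x
    exact (((hsh Q Q' (2 * h) hQ x).sub ((hsh Q Q' h hQ x).const_mul 2)).add (hQ x)).div_const _
  refine ⟨fun x => (G2 (x + 2 * h) - 2 * G2 (x + h) + G2 x) / h ^ 2,
    fun x => (G (x + 2 * h) - 2 * G (x + h) + G x) / h ^ 2,
    fun x => (g (x + 2 * h) - 2 * g (x + h) + g x) / h ^ 2, hcomb G2 G hG2d, hcomb G g hGd, ?_, ?_,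
    ?_⟩
  · fun_prop
  · intro x
    apply div_nonneg _ (by positivity)
    have h3 := hg.2 (mem_univ (x + 2 * h)) (mem_univ x) (by norm_num : (0 : ℝ) ≤ 1 / 2)
      (by norm_num : (0 : ℝ) ≤ 1 / 2) (by norm_num)
    have e : (1 / 2 : ℝ) • (x + 2 * h) + (1 / 2 : ℝ) • x = x + h := by
      simp only [smul_eq_mul]; ring
    rw [e] at h3
    simp only [smul_eq_mul] at h3
    linarith
  · intro x ε hε
    -- first differences of `G`
    have hfd : ∀ v ∈ Icc x (x + h), |G (v + h) - G v - h * g x| ≤ ε * h := by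
      intro v hv
      have e1 : G (v + h) - G v = ∫ u in v..(v + h), g u := by
        rw [hG]
        simp only
        rw [intervalIntegral.integral_interval_sub_left (hgc.intervalIntegrable _ _)
          (hgc.intervalIntegrable _ _)]
      have e2 : h * g x = ∫ u in v..(v + h), g x := by
        rw [intervalIntegral.integral_const]
        simp
      rw [e1, e2, ← intervalIntegral.integral_sub (hgc.intervalIntegrable _ _)
        intervalIntegrable_const]
      have h3 : ‖∫ u in v..(v + h), (g u - g x)‖ ≤ ε * |v + h - v| := by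
        apply intervalIntegral.norm_integral_le_of_norm_le_const
        intro u hu
        rw [uIoc_of_le (by linarith)] at hu
        rw [Real.norm_eq_abs]
        exact hε u ⟨by linarith [hu.1, hv.1], by linarith [hu.2, hv.2]⟩
      rw [Real.norm_eq_abs] at h3
      have e3 : |v + h - v| = h := by
        rw [add_sub_cancel_left]; exact abs_of_pos hh
      rw [e3] at h3
      exact h3
    have e4 : G2 (x + 2 * h) - 2 * G2 (x + h) + G2 x = ∫ v in x..(x + h), (G (v + h) - G v) := by
      have e5 : G2 (x + h) - G2 x = ∫ v in x..(x + h), G v := by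
        rw [hG2]
        simp only
        rw [intervalIntegral.integral_interval_sub_left (hGc.intervalIntegrable _ _)
          (hGc.intervalIntegrable _ _)]
      have e6 : G2 (x + 2 * h) - G2 (x + h) = ∫ v in (x + h)..(x + h + h), G v := by
        have e7 : x + 2 * h = x + h + h := by ring
        rw [e7, hG2]
        simp only
        rw [intervalIntegral.integral_interval_sub_left (hGc.intervalIntegrable _ _)
          (hGc.intervalIntegrable _ _)]
      have hGs : Continuous fun v => G (v + h) := by fun_prop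
      rw [intervalIntegral.integral_sub (hGs.intervalIntegrable _ _) (hGc.intervalIntegrable _ _),
        intervalIntegral.integral_comp_add_right (fun v => G v) h, ← e5, ← e6]
      ring
    have h8 : |(G2 (x + 2 * h) - 2 * G2 (x + h) + G2 x) - h * (h * g x)| ≤ ε * h * h := by
      rw [e4]
      have hGs : Continuous fun v => G (v + h) - G v := by fun_prop
      have e9 : h * (h * g x) = ∫ v in x..(x + h), h * g x := by
        rw [intervalIntegral.integral_const]
        simp
      rw [e9, ← intervalIntegral.integral_sub (hGs.intervalIntegrable _ _)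
        intervalIntegrable_const]
      have h10 : ‖∫ v in x..(x + h), (G (v + h) - G v - h * g x)‖ ≤ ε * h * |x + h - x| := by
        apply intervalIntegral.norm_integral_le_of_norm_le_const
        intro v hv
        rw [uIoc_of_le (by linarith)] at hv
        rw [Real.norm_eq_abs]
        exact hfd v ⟨hv.1.le, hv.2⟩
      rw [Real.norm_eq_abs] at h10
      have e11 : |x + h - x| = h := by
        rw [add_sub_cancel_left]; exact abs_of_pos hh
      rw [e11] at h10
      exact h10
    have e12 : (G2 (x + 2 * h) - 2 * G2 (x + h) + G2 x) / h ^ 2 - g x =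
        ((G2 (x + 2 * h) - 2 * G2 (x + h) + G2 x) - h * (h * g x)) / h ^ 2 := by
      field_simp
    show |(G2 (x + 2 * h) - 2 * G2 (x + h) + G2 x) / h ^ 2 - g x| ≤ ε
    rw [e12, abs_div, abs_of_pos (by positivity : (0 : ℝ) < h ^ 2), div_le_iff₀ (by positivity)]
    calc _ ≤ ε * h * h := h8
      _ = ε * h ^ 2 := by ring

theorem mol_convex (g : ℝ → ℝ) (hg : ConvexOn ℝ univ g) (ρ ρ1 ρ2 : ℝ → ℝ) (a b : ℝ)
    (h0 : ∀ x ∈ Ioo a b, 0 < ρ x) (h1 : ∀ x ∈ Ioo a b, HasDerivAt ρ (ρ1 x) x)
    (h2 : ∀ x ∈ Ioo a b, HasDerivAt ρ1 (ρ2 x) x) (hc : ContinuousOn ρ2 (Ioo a b))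
    (hb1 : ∀ x ∈ Ioo a b, |ρ1 x| ≤ 1 / 4) (hb2 : ∀ x ∈ Ioo a b, ρ x * |ρ2 x| ≤ 1 / 4) :
    ConvexOn ℝ (Ioo a b) (mol ρ g) := by
  have hgc : Continuous g := by
    rw [← continuousOn_univ]
    exact hg.continuousOn isOpen_univ
  refine ⟨convex_Ioo a b, ?_⟩
  intro x hx y hy s t hs ht hst
  have hz : s • x + t • y ∈ Ioo a b := convex_Ioo a b hx hy hs ht hst
  set z := s • x + t • y with hzdef
  -- it suffices to prove it up to `3 ε`
  refine le_of_forall_pos_le_add fun ε' hε' => ?_
  obtain ⟨ε, hε, hεε⟩ : ∃ ε : ℝ, 0 < ε ∧ 2 * ε = ε' := ⟨ε' / 2, by positivity, by ring⟩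
  -- a compact interval
  obtain ⟨R, hR1, hR2⟩ : ∃ R : ℝ, 1 ≤ R ∧ ∀ w ∈ ({x, y, z} : Set ℝ), |w| + ρ w ≤ R := by
    refine ⟨max 1 (max (|x| + ρ x) (max (|y| + ρ y) (|z| + ρ z))), le_max_left _ _, ?_⟩
    intro w hw
    simp only [mem_insert_iff, mem_singleton_iff] at hw
    rcases hw with rfl | rfl | rfl
    · exact (le_max_left _ _).trans (le_max_right _ _)
    · exact (le_max_left _ _).trans ((le_max_right _ _).trans (le_max_right _ _))
    · exact (le_max_right _ _).trans ((le_max_right _ _).trans (le_max_right _ _))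
  have huc : UniformContinuousOn g (Icc (-R) (R + 2)) :=
    isCompact_Icc.uniformContinuousOn_of_continuous hgc.continuousOn
  rw [Metric.uniformContinuousOn_iff] at huc
  obtain ⟨δ, hδ, huc⟩ := huc ε hε
  obtain ⟨h, hh, hh1, hh2⟩ : ∃ h : ℝ, 0 < h ∧ h ≤ 1 ∧ 2 * h < δ :=
    ⟨min 1 (δ / 4), lt_min one_pos (by positivity), min_le_left _ _, by
      have := min_le_right (1 : ℝ) (δ / 4)
      linarith⟩
  obtain ⟨q, q1, q2, hq1, hq2, hq2c, hq2p, hqa⟩ := approx g hg hgc h hh
  have hqc : Continuous q := by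
    rw [continuous_iff_continuousAt]
    exact fun x => (hq1 x).continuousAt
  have hnear : ∀ u ∈ Icc (-R) R, |q u - g u| ≤ ε := by
    intro u hu
    refine hqa u ε fun v hv => ?_
    have hv1 : v ∈ Icc (-R) (R + 2) := ⟨by linarith [hu.1, hv.1], by linarith [hu.2, hv.2]⟩
    have hu1 : u ∈ Icc (-R) (R + 2) := ⟨hu.1, by linarith [hu.2]⟩
    have h3 := huc v hv1 u hu1 (by
      rw [Real.dist_eq, abs_of_nonneg (by linarith [hv.1])]
      linarith [hv.2])
    rw [Real.dist_eq] at h3
    exact h3.le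
  have hm : ∀ w ∈ ({x, y, z} : Set ℝ), w ∈ Ioo a b → |mol ρ q w - mol ρ g w| ≤ ε := by
    intro w hw hwab
    have hρw := h0 w hwab
    have hRw := hR2 w hw
    have c1 : Continuous fun s => q (w + ρ w * s) * ker s :=
      (hqc.comp (by fun_prop)).mul ker_continuous
    have c2 : Continuous fun s => g (w + ρ w * s) * ker s :=
      (hgc.comp (by fun_prop)).mul ker_continuous
    have e : mol ρ q w - mol ρ g w =
        ∫ s in (-1 : ℝ)..1, (q (w + ρ w * s) * ker s - g (w + ρ w * s) * ker s) := by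
      unfold mol
      rw [intervalIntegral.integral_sub (c1.intervalIntegrable _ _) (c2.intervalIntegrable _ _)]
    rw [e]
    have h5 : ∀ s ∈ Icc (-1 : ℝ) 1, |q (w + ρ w * s) * ker s - g (w + ρ w * s) * ker s| ≤
        ε * ker s := by
      intro s hs
      have hk := ker_nonneg s
      have hmem : w + ρ w * s ∈ Icc (-R) R := by
        have ha1 := neg_abs_le w
        have ha2 := le_abs_self w
        constructor
        · nlinarith [hs.1, hs.2]
        · nlinarith [hs.1, hs.2]
      have h6 := hnear _ hmem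
      rw [← sub_mul, abs_mul, abs_of_nonneg hk]
      exact mul_le_mul_of_nonneg_right h6 hk
    have ck : Continuous fun s => ε * ker s := continuous_const.mul ker_continuous
    rw [abs_le]
    constructor
    · have h7 : ∫ s in (-1 : ℝ)..1, -(ε * ker s) ≤
          ∫ s in (-1 : ℝ)..1, (q (w + ρ w * s) * ker s - g (w + ρ w * s) * ker s) := by
        apply intervalIntegral.integral_mono_on (by norm_num) (ck.neg.intervalIntegrable _ _)
          ((c1.sub c2).intervalIntegrable _ _)
        intro s hs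
        exact (abs_le.1 (h5 s hs)).1
      rw [intervalIntegral.integral_neg, intervalIntegral.integral_const_mul, ker_int] at h7
      linarith
    · have h7 : ∫ s in (-1 : ℝ)..1, (q (w + ρ w * s) * ker s - g (w + ρ w * s) * ker s) ≤
          ∫ s in (-1 : ℝ)..1, ε * ker s := by
        apply intervalIntegral.integral_mono_on (by norm_num) ((c1.sub c2).intervalIntegrable _ _)
          (ck.intervalIntegrable _ _)
        intro s hs
        exact (abs_le.1 (h5 s hs)).2
      rw [intervalIntegral.integral_const_mul, ker_int] at h7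
      linarith
  have hconv := mol_convex_smooth q q1 q2 hq1 hq2 hq2c hq2p ρ ρ1 ρ2 a b h0 h1 h2 hc hb1 hb2
  have h9 := hconv.2 hx hy hs ht hst
  rw [← hzdef] at h9
  have k1 := abs_le.1 (hm x (by simp) hx)
  have k2 := abs_le.1 (hm y (by simp) hy)
  have k3 := abs_le.1 (hm z (by simp) hz)
  simp only [smul_eq_mul] at h9 ⊢
  have k4 : s * mol ρ q x ≤ s * (mol ρ g x + ε) := mul_le_mul_of_nonneg_left (by linarith [k1.2]) hs
  have k5 : t * mol ρ q y ≤ t * (mol ρ g y + ε) := mul_le_mul_of_nonneg_left (by linarith [k2.2]) ht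
  have k6 : s * ε + t * ε = ε := by rw [← add_mul, hst, one_mul]
  nlinarith [k3.1]

end Pool.Agent.MP_4eca41
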