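import Pool.Agent.Work.MP_4eca41_an.F.FC2
import Pool.Agent.Work.MP_4eca41_an.F.FMolCv

/-!
# F4: signs of the second derivatives of `w2` off `S3`

PROOFS.  `h22_nonneg`: `z = (p,t) ∉ S3`: on an open interval `I ∋ t` with `{p} × I ⊆ S3ᶜ`: `w2 (p, ·) = mol (fun t => rh (p,t)) (fun τ => W1 (p,τ))`, convex by `mol_convex` (`w1_convex`, `|rt| ≤ σ ≤ 1/4`, `rh |rtt| ≤ σ ≤ 1/4`); so `D2 w2 (0,k) z ≥ 0` for small `k`, and by `c2_local` `H22 z ≥ -κ` for all `κ`.
`h11_neg`: `GK z ≤ -1/(2M)` (`g1_upper`, `KK ≥ 0`, `∫ KK = 1`; `|G1| ≤ 2C` for integrability).  `|∫ D1 (z.1,τ) Kp z τ| = |∫ (D1 (z.1,τ) - D1 (z.1,z.2)) Kp z τ| ≤ L rh · CK |rp|/rh^2 · 2 rh = 2 L CK |rp|` (`kd_moments`, support `|τ - z.2| ≤ rh`, `w1_lip`).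
`|∫ W1 Kpp| = |∫ (W1 (z.1,τ) - W1 (z.1,z.2) - Dt1 (z.1,z.2)(τ - z.2)) Kpp| ≤ L rh^2 · CK (rp^2 + rh |rpp|)/rh^3 · 2 rh = 2 L CK (rp^2 + rh|rpp|)`.  With `|rp| ≤ σ ≤ 1`, `rh |rpp| ≤ σ`: the sum of the error terms is `≤ 8 L CK σ ≤ 1/(4M)` if `σ ≤ σ0 := 1/(32 L CK M + 1)`.
`L` depends on `W`, `C` only (`w1_lip`).
-/

set_option autoImplicit false

open Set MeasureTheory Filter Topology

namespace Pool.Agent.MP_4eca41

private theorem fs_int (f : ℝ → ℝ) (t ρ B : ℝ) (hρ : 0 ≤ ρ)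
    (h0 : ∀ τ, ρ ≤ |τ - t| → f τ = 0) (hB : ∀ τ, |τ - t| ≤ ρ → |f τ| ≤ B) :
    |∫ τ, f τ| ≤ B * (2 * ρ) := by
  have h1 : ∫ τ in Icc (t - ρ) (t + ρ), f τ = ∫ τ, f τ := by
    refine setIntegral_eq_integral_of_forall_compl_eq_zero fun τ hτ => h0 τ ?_
    rw [mem_Icc, not_and_or, not_le, not_le] at hτ
    rcases hτ with h | h
    · rw [abs_of_nonpos (by linarith)]
      linarith
    · rw [abs_of_nonneg (by linarith)]
      linarith
  rw [← h1, ← Real.norm_eq_abs]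
  have h2 := norm_setIntegral_le_of_norm_le_const (μ := volume) (f := f) (C := B)
    (s := Icc (t - ρ) (t + ρ)) (by rw [Real.volume_Icc]; exact ENNReal.ofReal_lt_top)
    (fun τ hτ => by
      rw [Real.norm_eq_abs]
      refine hB τ (abs_le.2 ⟨?_, ?_⟩)
      · linarith [hτ.1]
      · linarith [hτ.2])
  have h3 : volume.real (Icc (t - ρ) (t + ρ)) = 2 * ρ := by
    rw [Real.volume_real_Icc_of_le (by linarith)]
    ring
  rw [h3] at h2
  exact h2

theorem h22_nonneg (D : FData) (h : D.Ok) (z : ℝ × ℝ) (hz : z ∉ D.S3) : 0 ≤ D.H22 z := by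
  obtain ⟨p, t⟩ := z
  have hcl : IsClosed D.S3 := h.c3.isClosed
  have hev : ∀ᶠ τ in 𝓝 t, (p, τ) ∉ D.S3 := by
    have hc : Continuous fun τ : ℝ => (p, τ) := by fun_prop
    exact hc.continuousAt.preimage_mem_nhds (hcl.isOpen_compl.mem_nhds hz)
  obtain ⟨δ, hδ, hb⟩ := Metric.eventually_nhds_iff.1 hev
  have hIoo : ∀ x ∈ Ioo (t - δ) (t + δ), (p, x) ∉ D.S3 := by
    intro x hx
    refine hb ?_
    rw [Real.dist_eq, abs_lt]
    exact ⟨by linarith [hx.1], by linarith [hx.2]⟩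
  have hconv : ConvexOn ℝ (Ioo (t - δ) (t + δ)) (fun x => D.w2 (p, x)) := by
    have hm := mol_convex (fun τ => W1 D.r D.W (p, τ)) (w1_convex D.r D.W h.sm.cont h.sm.conv p)
      (fun x => D.rh (p, x)) (fun x => D.rt (p, x)) (fun x => D.rtt (p, x)) (t - δ) (t + δ)
      (fun x hx => h.rb.pos _ (hIoo x hx)) (fun x hx => h.rb.dt _ (hIoo x hx))
      (fun x hx => h.rb.dtt _ (hIoo x hx))
      (h.rb.ctt.comp (by fun_prop) fun x hx => hIoo x hx)
      (fun x hx => ((h.rb.b1 _ (hIoo x hx)).2).trans h.σ4)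
      (fun x hx => ((h.rb.b2 _ (hIoo x hx)).2.2).trans h.σ4)
    exact hm
  have key : ∀ κ : ℝ, 0 < κ → -κ ≤ D.H22 (p, t) := by
    intro κ hκ
    obtain ⟨ρ, hρ, hl⟩ := c2_local D h (p, t) hz κ hκ
    have hk : ∃ k : ℝ, 0 < k ∧ k < δ ∧ k ≤ ρ :=
      ⟨min (δ / 2) ρ, lt_min (by linarith) hρ, (min_le_left _ _).trans_lt (by linarith),
        min_le_right _ _⟩
    obtain ⟨k, hk0, hkδ, hkρ⟩ := hk
    have h1 := hl (0, k) (by
      unfold sq
      nlinarith)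
    have h2 : 0 ≤ D2 D.w2 (0, k) (p, t) := by
      have h3 := hconv.2 (x := t + k) ⟨by linarith, by linarith⟩ (y := t - k)
        ⟨by linarith, by linarith⟩ (show (0 : ℝ) ≤ 1 / 2 by norm_num)
        (show (0 : ℝ) ≤ 1 / 2 by norm_num) (by norm_num)
      simp only [smul_eq_mul] at h3
      have h4 : 1 / 2 * (t + k) + 1 / 2 * (t - k) = t := by ring
      rw [h4] at h3
      simp only [D2, Prod.mk_add_mk, Prod.mk_sub_mk, add_zero, sub_zero]
      linarith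
    have h5 := (abs_le.1 h1).2
    have h6 : sq (0, k) = k ^ 2 := by
      unfold sq
      ring
    rw [h6] at h5
    have h7 : D.H11 (p, t) * ((0, k) : ℝ × ℝ).1 ^ 2 +
        2 * D.H12 (p, t) * ((0, k) : ℝ × ℝ).1 * ((0, k) : ℝ × ℝ).2 +
        D.H22 (p, t) * ((0, k) : ℝ × ℝ).2 ^ 2 = D.H22 (p, t) * k ^ 2 := by
      simp
    rw [h7] at h5
    have hk2 : 0 < k ^ 2 := by positivity
    by_contra hcon
    push Not at hcon
    nlinarith
  by_contra hcon
  push Not at hcon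
  have := key (-D.H22 (p, t) / 2) (by linarith)
  linarith

theorem h11_neg (C : ℝ) (W : ℝ × ℝ → ℝ) (hC : C11 C W) (M CK : ℝ) (hM : 0 < M) (hCK : 0 < CK) :
    ∃ σ0 : ℝ, 0 < σ0 ∧ ∀ D : FData, D.Ok → D.W = W → D.C = C → D.M = M → D.CK = CK → D.σ ≤ σ0 →
      ∀ z, z ∉ D.S3 → D.H11 z ≤ -1 / (4 * M) := by
  obtain ⟨L, hL0, hL⟩ := w1_lip C W hC
  refine ⟨1 / (32 * L * CK * M + 1), by positivity, ?_⟩
  intro D hD hW hCC hMM hKK hσ z hz
  subst hW
  have hcl : IsClosed D.S3 := hD.c3.isClosed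
  have hrh : 0 < D.rh z := hD.rb.pos z hz
  have hσ1 : D.σ ≤ 1 := hD.σ4.trans (by norm_num)
  have hrc : Continuous D.r := hD.ra.cont
  have hr1c : Continuous D.r1 := hD.ra.c1
  have hr1b : ∀ x, |D.r1 x| ≤ 1 := fun x => (hD.ra.b1 x).trans hσ1
  obtain ⟨m1, -, m2, -, -, -, -, m3, -, -⟩ := kd_moments D.S3 hcl D.rh D.rp D.rt D.rpp D.rpt D.rtt
    hD.rb.cont hD.rb.pos D.Kp D.Kt D.Kpp D.Kpt D.Ktt D.CK hD.kd z hz
  have hlip := hL D.r D.r1 hrc hr1c hr1b
  -- continuity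
  have hcont : Continuous fun τ : ℝ => (z, τ) := by fun_prop
  have hmem : ∀ τ : ℝ, (z, τ) ∈ D.S3ᶜ ×ˢ (univ : Set ℝ) := fun τ => ⟨hz, mem_univ _⟩
  have cKp : Continuous (D.Kp z) := by
    have := hD.kd.cp.comp_continuous hcont hmem
    exact this
  have cKpp : Continuous (D.Kpp z) := by
    have := hD.kd.cpp.comp_continuous hcont hmem
    exact this
  have cKK : Continuous (KK D.rh z) := by
    have := hD.kd.c0.comp_continuous hcont hmem
    exact this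
  have hs : ∀ τ, τ ∉ Icc (z.2 - D.rh z) (z.2 + D.rh z) → D.rh z ≤ |τ - z.2| := by
    intro τ hτ
    rw [mem_Icc, not_and_or, not_le, not_le] at hτ
    rcases hτ with h | h
    · rw [abs_of_nonpos (by linarith)]
      linarith
    · rw [abs_of_nonneg (by linarith)]
      linarith
  have sKp : HasCompactSupport (D.Kp z) :=
    HasCompactSupport.intro isCompact_Icc fun τ hτ => (hD.kd.supp z hz τ (hs τ hτ)).2.1
  have sKpp : HasCompactSupport (D.Kpp z) :=
    HasCompactSupport.intro isCompact_Icc fun τ hτ => (hD.kd.supp z hz τ (hs τ hτ)).2.2.2.1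
  have sKK : HasCompactSupport (KK D.rh z) :=
    HasCompactSupport.intro isCompact_Icc fun τ hτ => (hD.kd.supp z hz τ (hs τ hτ)).1
  have cD1 : Continuous fun τ : ℝ => D1 D.r D.r1 D.W (z.1, τ) :=
    (d1_continuous C D.W hC D.r D.r1 hrc hr1c).comp (by fun_prop)
  have cW1 : Continuous fun τ : ℝ => W1 D.r D.W (z.1, τ) :=
    (w1_continuous D.r hrc D.W hC.cont).comp (by fun_prop)
  -- the main term
  have hGK : D.GK z ≤ -1 / (2 * M) := by
    have iKK : Integrable (KK D.rh z) := cKK.integrable_of_hasCompactSupport sKK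
    have hG1 := g1_upper C D.W hC M hM (by
      intro v y
      have := hD.upp v y
      rw [hMM] at this
      exact this) D.P hD.gl hD.pd D.r D.r1 D.r2 D.σ hD.σ4 hD.ra z.1
    have hGm := g1_meas C D.W hC D.P hD.gl D.r D.r1 D.r2 D.σ hD.σ4 hD.ra
    have hGb := g1_bd C D.W hC D.P hD.gl D.r D.r1 D.r2 D.σ hD.σ4 hD.ra
    have iG : Integrable fun τ => G1 D.r D.r1 D.r2 D.W (z.1, τ) * KK D.rh z τ := by
      refine iKK.bdd_mul (c := 2 * C) ?_ (Eventually.of_forall fun τ => ?_)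
      · exact (hGm.comp (by fun_prop : Measurable fun τ : ℝ => (z.1, τ))).aestronglyMeasurable
      · rw [Real.norm_eq_abs]
        exact hGb _
    have h1 : D.GK z ≤ ∫ τ, (-1 / (2 * M)) * KK D.rh z τ := by
      refine integral_mono_ae iG (iKK.const_mul _) ?_
      filter_upwards [hG1] with τ hτ
      exact mul_le_mul_of_nonneg_right hτ (kk_nonneg D.rh z hrh τ)
    rw [integral_const_mul, kk_one D.rh z hrh, mul_one] at h1
    exact h1
  -- the error term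
  set I : ℝ → ℝ := fun τ => 2 * (D1 D.r D.r1 D.W (z.1, τ) * D.Kp z τ) +
    W1 D.r D.W (z.1, τ) * D.Kpp z τ with hI
  set Jf : ℝ → ℝ := fun τ => 2 * ((D1 D.r D.r1 D.W (z.1, τ) - D1 D.r D.r1 D.W (z.1, z.2)) * D.Kp z τ) +
    (W1 D.r D.W (z.1, τ) - W1 D.r D.W (z.1, z.2) - Dt1 D.r D.W (z.1, z.2) * (τ - z.2)) *
      D.Kpp z τ with hJf
  have iKp : Integrable (D.Kp z) := cKp.integrable_of_hasCompactSupport sKp
  have iKpp : Integrable (D.Kpp z) := cKpp.integrable_of_hasCompactSupport sKpp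
  have itKpp : Integrable (fun τ => τ * D.Kpp z τ) :=
    (continuous_id.mul cKpp).integrable_of_hasCompactSupport sKpp.mul_left
  have iI : Integrable I :=
    (((cD1.mul cKp).integrable_of_hasCompactSupport sKp.mul_left).const_mul 2).add
      ((cW1.mul cKpp).integrable_of_hasCompactSupport sKpp.mul_left)
  have hIJ : ∫ τ, I τ = ∫ τ, Jf τ := by
    have h1 : ∀ τ, Jf τ = I τ - (2 * D1 D.r D.r1 D.W (z.1, z.2) * D.Kp z τ +
        ((W1 D.r D.W (z.1, z.2) - Dt1 D.r D.W (z.1, z.2) * z.2) * D.Kpp z τ +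
          Dt1 D.r D.W (z.1, z.2) * (τ * D.Kpp z τ))) := by
      intro τ
      simp only [hI, hJf]
      ring
    have h2 : ∫ τ, Jf τ = ∫ τ, (I τ - (2 * D1 D.r D.r1 D.W (z.1, z.2) * D.Kp z τ +
        ((W1 D.r D.W (z.1, z.2) - Dt1 D.r D.W (z.1, z.2) * z.2) * D.Kpp z τ +
          Dt1 D.r D.W (z.1, z.2) * (τ * D.Kpp z τ)))) := integral_congr_ae
            (Eventually.of_forall h1)
    have i1 : Integrable fun τ => 2 * D1 D.r D.r1 D.W (z.1, z.2) * D.Kp z τ := iKp.const_mul _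
    have i2 : Integrable fun τ => (W1 D.r D.W (z.1, z.2) - Dt1 D.r D.W (z.1, z.2) * z.2) *
        D.Kpp z τ := iKpp.const_mul _
    have i3 : Integrable fun τ => Dt1 D.r D.W (z.1, z.2) * (τ * D.Kpp z τ) := itKpp.const_mul _
    have i23 : Integrable fun τ => (W1 D.r D.W (z.1, z.2) - Dt1 D.r D.W (z.1, z.2) * z.2) *
        D.Kpp z τ + Dt1 D.r D.W (z.1, z.2) * (τ * D.Kpp z τ) := i2.add i3
    have i123 : Integrable fun τ => 2 * D1 D.r D.r1 D.W (z.1, z.2) * D.Kp z τ +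
        ((W1 D.r D.W (z.1, z.2) - Dt1 D.r D.W (z.1, z.2) * z.2) * D.Kpp z τ +
          Dt1 D.r D.W (z.1, z.2) * (τ * D.Kpp z τ)) := i1.add i23
    rw [h2, integral_sub iI i123, integral_add i1 i23, integral_add i2 i3, integral_const_mul,
      integral_const_mul, integral_const_mul, m1, m2, m3]
    ring
  have hrp : |D.rp z| ≤ D.σ := (hD.rb.b1 z hz).1
  have hrpp : D.rh z * |D.rpp z| ≤ D.σ := (hD.rb.b2 z hz).1
  have hσ0 : 0 < D.σ := hD.σ0
  have hJ : |∫ τ, Jf τ| ≤ 8 * L * CK * D.σ := by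
    have h1 := fs_int Jf z.2 (D.rh z)
      (2 * (L * D.rh z * (CK * D.σ / D.rh z ^ 2)) +
        L * D.rh z ^ 2 * (CK * (2 * D.σ) / D.rh z ^ 3)) hrh.le (fun τ hτ => by
        have h2 := hD.kd.supp z hz τ hτ
        simp only [hJf, h2.2.1, h2.2.2.2.1, mul_zero, add_zero]) (fun τ hτ => by
        obtain ⟨l1, -, l3⟩ := hlip z.1 τ z.2
        obtain ⟨-, -, l4⟩ := hlip z.1 z.2 τ
        have b1 := hD.kd.bp z hz τ
        have b2 := hD.kd.bpp z hz τ
        rw [hKK] at b1 b2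
        have b1' : |D.Kp z τ| ≤ CK * D.σ / D.rh z ^ 2 := b1.trans (by gcongr)
        have e1 : D.rp z ^ 2 + D.rh z * |D.rpp z| ≤ 2 * D.σ := by
          have : D.rp z ^ 2 ≤ D.σ := by
            have h3 : D.rp z ^ 2 = |D.rp z| ^ 2 := (sq_abs _).symm
            rw [h3]
            nlinarith [abs_nonneg (D.rp z)]
          linarith
        have b2' : |D.Kpp z τ| ≤ CK * (2 * D.σ) / D.rh z ^ 3 := b2.trans (by gcongr)
        have c1 : |D1 D.r D.r1 D.W (z.1, τ) - D1 D.r D.r1 D.W (z.1, z.2)| ≤ L * D.rh z :=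
          l1.trans (mul_le_mul_of_nonneg_left hτ hL0)
        have c2 : |W1 D.r D.W (z.1, τ) - W1 D.r D.W (z.1, z.2) -
            Dt1 D.r D.W (z.1, z.2) * (τ - z.2)| ≤ L * D.rh z ^ 2 := by
          refine l4.trans (mul_le_mul_of_nonneg_left ?_ hL0)
          rw [← sq_abs]
          exact pow_le_pow_left₀ (abs_nonneg _) hτ 2
        simp only [hJf]
        refine (abs_add_le _ _).trans (add_le_add ?_ ?_)
        · rw [abs_mul, abs_mul, abs_of_pos (by norm_num : (0 : ℝ) < 2)]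
          exact mul_le_mul_of_nonneg_left
            (mul_le_mul c1 b1' (abs_nonneg _) (by positivity)) (by norm_num)
        · rw [abs_mul]
          exact mul_le_mul c2 b2' (abs_nonneg _) (by positivity))
    refine h1.trans_eq ?_
    field_simp
    ring
  have h5 : 8 * L * CK * D.σ ≤ 1 / (4 * M) := by
    have h6 : 8 * L * CK * D.σ ≤ 8 * L * CK * (1 / (32 * L * CK * M + 1)) :=
      mul_le_mul_of_nonneg_left hσ (by positivity)
    refine h6.trans ?_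
    rw [mul_one_div, div_le_div_iff₀ (by positivity) (by positivity)]
    nlinarith
  have h7 : D.H11 z = D.GK z + ∫ τ, I τ := rfl
  rw [h7, hIJ]
  have h8 := (abs_le.1 hJ).2
  have h9 : -1 / (2 * M) + 1 / (4 * M) = -1 / (4 * M) := by
    field_simp
    ring
  linarith

end Pool.Agent.MP_4eca41
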