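import Pool.Agent.Work.MP_4eca41_an.F.FDefs2

/-!
# F5: upper bound of the main part at `S3` (off the lines of `P`)

PROOF.  `y0 = (p0,t0) ∈ S3`, `p0 ∈ P`, `κ1 = κ/8`, `g = Dpp W`, `|g| ≤ C` (`dpp_bd`), `M_l (p,t) = (1/2l) ∫_{t-l}^{t+l} g (p,·)`.  `Sm.est` at `y0` with `κ1` gives `l0`; `FData.Ok.leb` gives `0 < l < l0` with `|M_l y0 - J.a y0| ≤ κ1`; `Sm.est` gives `δe` for this `l`: for a.e. `z'` in `cb y0 δe`:
`g z' ≤ max (J.a y0 + κ1) (M_l z')`.  `R = |t0| + l + 1`, `κ2 = κ1 · 2 l/(1 + R^2)`.  Let `z = (p,t) ∉ S3`, `p ∉ P`, `dist z y0 ≤ δ` small: (i) `avg_near` for `κ1` and for `κ2`; (ii) `r p, rh z ≤ δe/4`, so `(p + r p s, τ) ∈ cb y0 δe` for `|s| ≤ 1`, `|τ - t| ≤ rh z`; (iii) `C |τ - t0|/l ≤ κ1` for these `τ`.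
`GK z ≤ ∫ (∫ g (p + r s, τ) ker s ds) KK z τ dτ + κ1` (`avg_near`, `∫ KK = 1`).  For a.e. `(s,τ)` in the relevant rectangle (the map `(s,τ) ↦ (p + r p s, τ)`, `r p > 0`, pulls null sets back to null sets): `g (p + r s, τ) ≤ max (J.a y0 + κ1) (M_l (p + r s, τ))`, and
`M_l (p', τ) ≤ M_l (p', t0) + C |τ - t0|/l ≤ M_l (p',t0) + κ1`, `M_l (p',t0) ≤ M_l (p0,t0) + (1/2l) ∫_{t0-l}^{t0+l} |g (p',σ) - g (p0,σ)| dσ ≤ J.a y0 + κ1 + ((1+R^2)/(2l)) wn (g (p',·) - g (p0,·))` (`local_le_wn`), `p' = p + r s`.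
So `g (p + r s, τ) ≤ J.a y0 + 2 κ1 + ((1+R^2)/(2l)) wn (g (p + r s,·) - g (p0,·))`.  Integrating against `ker s KK z τ`: `≤ J.a y0 + 2κ1 + ((1+R^2)/(2l)) κ2 = J.a y0 + 3 κ1`.  Total `≤ J.a y0 + 4 κ1 ≤ J.a y0 + κ`.
-/

set_option autoImplicit false

open Set MeasureTheory Filter Topology

namespace Pool.Agent.MP_4eca41

private theorem fup_qmp {ρ : ℝ} (hρ : ρ ≠ 0) (c : ℝ) :
    Measure.QuasiMeasurePreserving (fun u : ℝ => c + ρ * u) volume volume := by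
  have h1 : Measure.QuasiMeasurePreserving (fun u : ℝ => ρ * u) volume volume := by
    refine ⟨measurable_const_mul ρ, ?_⟩
    rw [Real.map_volume_mul_left hρ]
    exact Measure.smul_absolutelyContinuous
  have h2 := (measurePreserving_add_left (volume : Measure ℝ) c).quasiMeasurePreserving
  exact h2.comp h1

private theorem fup_ae {Q : ℝ × ℝ → Prop} (hQ : ∀ᵐ z : ℝ × ℝ, Q z) {ρ ρh : ℝ} (hρ : ρ ≠ 0)
    (hρh : ρh ≠ 0) (p t : ℝ) : ∀ᵐ u : ℝ, ∀ᵐ s : ℝ, Q (p + ρ * s, t + ρh * u) := by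
  have h1 : ∀ᵐ z : ℝ × ℝ ∂((volume : Measure ℝ).prod volume), Q z.swap :=
    (Measure.measurePreserving_swap (μ := (volume : Measure ℝ))
      (ν := (volume : Measure ℝ))).quasiMeasurePreserving.ae hQ
  have h2 : ∀ᵐ τ : ℝ, ∀ᵐ q : ℝ, Q (q, τ) := Measure.ae_ae_of_ae_prod h1
  have h3 := (fup_qmp hρh t).ae h2
  filter_upwards [h3] with u hu
  exact (fup_qmp hρ p).ae hu

private theorem fup_ii {φ : ℝ → ℝ} (hφ : Measurable φ) {B : ℝ} (hB : ∀ x, |φ x| ≤ B) (a b : ℝ) :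
    IntervalIntegrable φ volume a b := by
  have h1 : IntervalIntegrable (fun _ : ℝ => B) volume a b := intervalIntegrable_const
  refine h1.mono_fun hφ.aestronglyMeasurable (ae_of_all _ fun t => ?_)
  show |φ t| ≤ |B|
  exact (hB _).trans (le_abs_self B)

private theorem fup_shift {φ : ℝ → ℝ} (hφ : Measurable φ) {B : ℝ} (hB : ∀ x, |φ x| ≤ B)
    (l τ t0 : ℝ) (hl : 0 < l) :
    (∫ σ in (τ - l)..(τ + l), φ σ) / (2 * l) ≤
      (∫ σ in (t0 - l)..(t0 + l), φ σ) / (2 * l) + B * |τ - t0| / l := by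
  have hi := fup_ii hφ hB
  have h1 : (∫ σ in (τ - l)..(τ + l), φ σ) - (∫ σ in (t0 - l)..(t0 + l), φ σ) =
      (∫ σ in (τ - l)..(t0 - l), φ σ) - ∫ σ in (τ + l)..(t0 + l), φ σ :=
    intervalIntegral.integral_interval_sub_interval_comm (hi _ _) (hi _ _) (hi _ _)
  have h2 : |∫ σ in (τ - l)..(t0 - l), φ σ| ≤ B * |τ - t0| := by
    have h3 := intervalIntegral.norm_integral_le_of_norm_le_const (a := τ - l) (b := t0 - l)
      (f := φ) (C := B) (fun x _ => hB x)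
    have e : t0 - l - (τ - l) = -(τ - t0) := by ring
    rwa [e, abs_neg, Real.norm_eq_abs] at h3
  have h3 : |∫ σ in (τ + l)..(t0 + l), φ σ| ≤ B * |τ - t0| := by
    have h3 := intervalIntegral.norm_integral_le_of_norm_le_const (a := τ + l) (b := t0 + l)
      (f := φ) (C := B) (fun x _ => hB x)
    have e : t0 + l - (τ + l) = -(τ - t0) := by ring
    rwa [e, abs_neg, Real.norm_eq_abs] at h3
  have h4 := abs_le.1 h2
  have h5 := abs_le.1 h3
  have e2 : (∫ σ in (t0 - l)..(t0 + l), φ σ) / (2 * l) + B * |τ - t0| / l =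
      ((∫ σ in (t0 - l)..(t0 + l), φ σ) + 2 * (B * |τ - t0|)) / (2 * l) := by
    field_simp
  rw [e2]
  apply div_le_div_of_nonneg_right _ (by positivity)
  linarith [h4.1, h4.2, h5.1, h5.2]

private theorem fup_avg {g : ℝ × ℝ → ℝ} (hg : Measurable g) {C : ℝ} (hC : ∀ z, |g z| ≤ C)
    (p0 p' t0 τ l R a κ1 : ℝ) (hl : 0 < l) (hR1 : -R ≤ t0 - l) (hR2 : t0 + l ≤ R)
    (h0 : (∫ σ in (t0 - l)..(t0 + l), g (p0, σ)) / (2 * l) ≤ a + κ1)
    (hτ : C * |τ - t0| / l ≤ κ1) :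
    (∫ σ in (τ - l)..(τ + l), g (p', σ)) / (2 * l) ≤
      a + 2 * κ1 + (1 + R ^ 2) / (2 * l) * wn (fun t => g (p', t) - g (p0, t)) := by
  have hm : ∀ q : ℝ, Measurable fun t => g (q, t) := fun q => hg.comp measurable_prodMk_left
  have h1 := fup_shift (hm p') (fun x => hC (p', x)) l τ t0 hl
  have hB : ∀ t, |g (p', t) - g (p0, t)| ≤ 2 * C := fun t => by
    have := abs_sub (g (p', t)) (g (p0, t))
    linarith [hC (p', t), hC (p0, t)]
  have h2 := local_le_wn (fun t => g (p', t) - g (p0, t)) ((hm p').sub (hm p0)) (2 * C) hB R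
    (t0 - l) (t0 + l) hR1 (by linarith) hR2
  have h3 : (∫ σ in (t0 - l)..(t0 + l), g (p', σ)) - (∫ σ in (t0 - l)..(t0 + l), g (p0, σ)) ≤
      ∫ σ in (t0 - l)..(t0 + l), |g (p', σ) - g (p0, σ)| := by
    rw [← intervalIntegral.integral_sub (fup_ii (hm p') (fun x => hC (p', x)) _ _)
      (fup_ii (hm p0) (fun x => hC (p0, x)) _ _)]
    exact (le_abs_self _).trans
      (intervalIntegral.abs_integral_le_integral_abs (by linarith))
  have h4 : (∫ σ in (t0 - l)..(t0 + l), g (p', σ)) / (2 * l) ≤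
      (∫ σ in (t0 - l)..(t0 + l), g (p0, σ)) / (2 * l) +
        (1 + R ^ 2) / (2 * l) * wn (fun t => g (p', t) - g (p0, t)) := by
    have e : (∫ σ in (t0 - l)..(t0 + l), g (p0, σ)) / (2 * l) +
        (1 + R ^ 2) / (2 * l) * wn (fun t => g (p', t) - g (p0, t)) =
        ((∫ σ in (t0 - l)..(t0 + l), g (p0, σ)) +
          (1 + R ^ 2) * wn (fun t => g (p', t) - g (p0, t))) / (2 * l) := by ring
    rw [e]
    apply div_le_div_of_nonneg_right _ (by positivity)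
    linarith
  linarith

theorem f_up (D : FData) (h : D.Ok) (y0 : ℝ × ℝ) (hy : y0 ∈ D.S3) (κ : ℝ) (hκ : 0 < κ) :
    ∃ δ : ℝ, 0 < δ ∧ ∀ z : ℝ × ℝ, z ∉ D.S3 → z.1 ∉ D.P → dist z y0 ≤ δ → D.GK z ≤ D.J.a y0 + κ := by
  have hg : Measurable (Dpp D.W) := dpp_meas D.C D.W h.c11
  have hC : ∀ z, |Dpp D.W z| ≤ D.C := dpp_bd D.C D.W h.c11
  have hC0 : 0 ≤ D.C := h.c11.nn
  obtain ⟨κ1, hκ1, hκ4⟩ : ∃ κ1 : ℝ, 0 < κ1 ∧ 4 * κ1 = κ := ⟨κ / 4, by positivity, by ring⟩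
  have hp0 : y0.1 ∈ D.P := h.s3P y0 hy
  obtain ⟨l0, hl0, hest⟩ := h.sm.est y0 (h.s3 hy) κ1 hκ1
  -- choose `l`
  obtain ⟨l, hl, hll, hM⟩ : ∃ l : ℝ, 0 < l ∧ l < l0 ∧
      (∫ σ in (y0.2 - l)..(y0.2 + l), Dpp D.W (y0.1, σ)) / (2 * l) ≤ D.J.a y0 + κ1 := by
    have h1 := h.leb y0 hy
    have h2 : ∀ᶠ l in 𝓝[>] (0 : ℝ),
        (∫ σ in (y0.2 - l)..(y0.2 + l), Dpp D.W (y0.1, σ)) / (2 * l) < D.J.a y0 + κ1 :=
      h1.eventually_lt_const (by linarith)
    have h3 : ∀ᶠ l in 𝓝[>] (0 : ℝ), l ∈ Ioo 0 l0 := Ioo_mem_nhdsGT hl0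
    obtain ⟨l, h4, h5⟩ := (h2.and h3).exists
    exact ⟨l, h5.1, h5.2, h4.le⟩
  obtain ⟨δe, hδe, hae⟩ := hest l hl hll
  set R : ℝ := |y0.2| + l + 1 with hR
  have hR1 : -R ≤ y0.2 - l := by
    have := neg_abs_le y0.2
    rw [hR]
    linarith
  have hR2 : y0.2 + l ≤ R := by
    have := le_abs_self y0.2
    rw [hR]
    linarith
  set c : ℝ := (1 + R ^ 2) / (2 * l) with hc
  have hc0 : 0 < c := by positivity
  obtain ⟨δ1, hδ1, hav1⟩ := avg_near D.C D.W h.c11 D.P h.gl D.r D.r1 D.r2 D.σ h.σ4 h.ra y0.1 hp0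
    κ1 hκ1
  obtain ⟨δ2, hδ2, hav2⟩ := avg_near D.C D.W h.c11 D.P h.gl D.r D.r1 D.r2 D.σ h.σ4 h.ra y0.1 hp0
    (κ1 / c) (by positivity)
  obtain ⟨η, hη, hη1, hη2⟩ : ∃ η : ℝ, 0 < η ∧ η ≤ δe / 4 ∧ D.C * (2 * η) / l ≤ κ1 := by
    refine ⟨min (δe / 4) (κ1 * l / (2 * (D.C + 1))), by positivity, min_le_left _ _, ?_⟩
    rw [div_le_iff₀ hl]
    have h1 : min (δe / 4) (κ1 * l / (2 * (D.C + 1))) ≤ κ1 * l / (2 * (D.C + 1)) :=
      min_le_right _ _
    have h2 : 0 ≤ min (δe / 4) (κ1 * l / (2 * (D.C + 1))) := by positivity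
    calc D.C * (2 * min (δe / 4) (κ1 * l / (2 * (D.C + 1))))
        ≤ (D.C + 1) * (2 * min (δe / 4) (κ1 * l / (2 * (D.C + 1)))) := by nlinarith
      _ ≤ (D.C + 1) * (2 * (κ1 * l / (2 * (D.C + 1)))) := by gcongr
      _ = κ1 * l := by field_simp
  obtain ⟨δ3, hδ3, hr3⟩ : ∃ δ3 : ℝ, 0 < δ3 ∧ ∀ p, |p - y0.1| < δ3 → D.r p ≤ δe / 4 := by
    have h1 := Metric.continuous_iff.1 h.ra.cont y0.1 (δe / 4) (by positivity)
    obtain ⟨d, hd, h2⟩ := h1
    refine ⟨d, hd, fun p hp => ?_⟩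
    have h3 := h2 p (by rwa [Real.dist_eq])
    rw [Real.dist_eq, (h.ra.zero _ hp0).1, sub_zero] at h3
    exact (le_abs_self _).trans h3.le
  obtain ⟨δ4, hδ4, hr4⟩ : ∃ δ4 : ℝ, 0 < δ4 ∧ ∀ z, dist z y0 < δ4 → D.rh z ≤ η := by
    have h1 := Metric.continuous_iff.1 h.rb.cont y0 η hη
    obtain ⟨d, hd, h2⟩ := h1
    refine ⟨d, hd, fun z hz => ?_⟩
    have h3 := h2 z hz
    rw [Real.dist_eq, h.rb.zero _ hy, sub_zero] at h3
    exact (le_abs_self _).trans h3.le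
  obtain ⟨δ, hδ, hd1, hd2, hd3, hd4, hd5⟩ : ∃ δ : ℝ, 0 < δ ∧ δ ≤ δ1 ∧ δ ≤ δ2 ∧ δ < δ3 ∧ δ < δ4 ∧
      δ ≤ η := by
    have hpos : 0 < min δ1 (min δ2 (min δ3 (min δ4 η))) := by positivity
    have a1 : min δ1 (min δ2 (min δ3 (min δ4 η))) ≤ δ1 := min_le_left _ _
    have a2 : min δ1 (min δ2 (min δ3 (min δ4 η))) ≤ δ2 :=
      (min_le_right _ _).trans (min_le_left _ _)
    have a3 : min δ1 (min δ2 (min δ3 (min δ4 η))) ≤ δ3 :=
      (min_le_right _ _).trans ((min_le_right _ _).trans (min_le_left _ _))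
    have a4 : min δ1 (min δ2 (min δ3 (min δ4 η))) ≤ δ4 :=
      (min_le_right _ _).trans ((min_le_right _ _).trans ((min_le_right _ _).trans
        (min_le_left _ _)))
    have a5 : min δ1 (min δ2 (min δ3 (min δ4 η))) ≤ η :=
      (min_le_right _ _).trans ((min_le_right _ _).trans ((min_le_right _ _).trans
        (min_le_right _ _)))
    refine ⟨min δ1 (min δ2 (min δ3 (min δ4 η))) / 2, by positivity, ?_, ?_, ?_, ?_, ?_⟩ <;>
      linarith
  refine ⟨δ, hδ, fun z hz hzP hdz => ?_⟩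
  have hz1 : |z.1 - y0.1| ≤ δ := by
    have h1 : dist z.1 y0.1 ≤ dist z y0 := by
      rw [Prod.dist_eq]
      exact le_max_left _ _
    rw [← Real.dist_eq]
    exact h1.trans hdz
  have hz2 : |z.2 - y0.2| ≤ δ := by
    have h1 : dist z.2 y0.2 ≤ dist z y0 := by
      rw [Prod.dist_eq]
      exact le_max_right _ _
    rw [← Real.dist_eq]
    exact h1.trans hdz
  have hρ0 : 0 < D.r z.1 := h.ra.pos _ hzP
  have hρh0 : 0 < D.rh z := h.rb.pos _ hz
  have hρ : D.r z.1 ≤ δe / 4 := hr3 _ (lt_of_le_of_lt hz1 hd3)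
  have hρh : D.rh z ≤ η := hr4 _ (lt_of_le_of_lt hdz hd4)
  have hGA := (hav1 z.1 hzP (hz1.trans hd1)).2
  have hω := (hav2 z.1 hzP (hz1.trans hd2)).1
  have hkb : ∀ s, |ker s| ≤ 35 / 32 := fun s => by
    rw [abs_of_nonneg (ker_nonneg s)]
    exact ker_le s
  have hkm : Measurable ker := ker_continuous.measurable
  have hωm : Measurable fun s : ℝ => wn (fun t => Dpp D.W (z.1 + D.r z.1 * s, t) -
      Dpp D.W (y0.1, t)) :=
    (wn_measurable (Dpp D.W) hg y0.1).comp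
      (by fun_prop : Measurable fun s : ℝ => z.1 + D.r z.1 * s)
  have hωb : ∀ s : ℝ, |wn (fun t => Dpp D.W (z.1 + D.r z.1 * s, t) - Dpp D.W (y0.1, t))| ≤
      Real.pi * (2 * D.C) := fun s => by
    rw [abs_of_nonneg (wn_nonneg _)]
    have hm : ∀ q : ℝ, Measurable fun t => Dpp D.W (q, t) := fun q =>
      hg.comp measurable_prodMk_left
    apply wn_le (fun t => Dpp D.W (z.1 + D.r z.1 * s, t) - Dpp D.W (y0.1, t))
      ((hm _).sub (hm _)) (2 * D.C)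
    intro t
    have := abs_sub (Dpp D.W (z.1 + D.r z.1 * s, t)) (Dpp D.W (y0.1, t))
    linarith [hC (z.1 + D.r z.1 * s, t), hC (y0.1, t)]
  -- the inner integral
  have key : ∀ᵐ u : ℝ, u ∈ Icc (-1 : ℝ) 1 →
      G1 D.r D.r1 D.r2 D.W (z.1, z.2 + D.rh z * u) ≤ D.J.a y0 + κ := by
    filter_upwards [fup_ae hae hρ0.ne' hρh0.ne' z.1 z.2] with u hu hu1
    set τ : ℝ := z.2 + D.rh z * u with hτ
    have hτ1 : |τ - y0.2| ≤ 2 * η := by
      have e : τ - y0.2 = (z.2 - y0.2) + D.rh z * u := by rw [hτ]; ring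
      have h1 : |D.rh z * u| ≤ η := by
        rw [abs_mul, abs_of_pos hρh0]
        have : |u| ≤ 1 := abs_le.2 hu1
        calc D.rh z * |u| ≤ D.rh z * 1 := by gcongr
          _ ≤ η := by linarith
      rw [e]
      have := abs_add_le (z.2 - y0.2) (D.rh z * u)
      linarith
    have hτ2 : D.C * |τ - y0.2| / l ≤ κ1 := by
      refine le_trans ?_ hη2
      gcongr
    have hA : (∫ s in (-1 : ℝ)..1, Dpp D.W (z.1 + D.r z.1 * s, τ) * ker s) ≤
        D.J.a y0 + 3 * κ1 := by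
      have hB1 : ∀ s : ℝ, |Dpp D.W (z.1 + D.r z.1 * s, τ) * ker s| ≤ D.C * (35 / 32) := fun s => by
        rw [abs_mul]
        exact mul_le_mul (hC _) (hkb s) (abs_nonneg _) hC0
      have hm1 : Measurable fun s : ℝ => Dpp D.W (z.1 + D.r z.1 * s, τ) * ker s :=
        (hg.comp (by fun_prop : Measurable fun s : ℝ => (z.1 + D.r z.1 * s, τ))).mul hkm
      have hB2 : ∀ s : ℝ, |wn (fun t => Dpp D.W (z.1 + D.r z.1 * s, t) - Dpp D.W (y0.1, t)) *
          ker s| ≤ Real.pi * (2 * D.C) * (35 / 32) := fun s => by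
        rw [abs_mul]
        exact mul_le_mul (hωb s) (hkb s) (abs_nonneg _) (by positivity)
      have hi2 : IntervalIntegrable (fun s : ℝ => wn (fun t => Dpp D.W (z.1 + D.r z.1 * s, t) -
          Dpp D.W (y0.1, t)) * ker s) volume (-1) 1 := fup_ii (hωm.mul hkm) hB2 _ _
      have hi3 : IntervalIntegrable ker volume (-1) 1 := ker_continuous.intervalIntegrable _ _
      have hi4 : IntervalIntegrable (fun s : ℝ => (D.J.a y0 + 2 * κ1) * ker s + c *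
          (wn (fun t => Dpp D.W (z.1 + D.r z.1 * s, t) - Dpp D.W (y0.1, t)) * ker s))
          volume (-1) 1 := (hi3.const_mul _).add (hi2.const_mul _)
      have hle : (∫ s in (-1 : ℝ)..1, Dpp D.W (z.1 + D.r z.1 * s, τ) * ker s) ≤
          ∫ s in (-1 : ℝ)..1, ((D.J.a y0 + 2 * κ1) * ker s + c *
          (wn (fun t => Dpp D.W (z.1 + D.r z.1 * s, t) - Dpp D.W (y0.1, t)) * ker s)) := by
        apply intervalIntegral.integral_mono_ae_restrict (by norm_num) (fup_ii hm1 hB1 _ _) hi4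
        refine (ae_restrict_iff' measurableSet_Icc).2 (hu.mono fun s hs hs1 => ?_)
        have hmem : ((z.1 + D.r z.1 * s, τ) : ℝ × ℝ) ∈ cb y0 δe := by
          show sq ((z.1 + D.r z.1 * s, τ) - y0) ≤ δe ^ 2
          unfold sq
          simp only [Prod.fst_sub, Prod.snd_sub]
          have h1 : |z.1 + D.r z.1 * s - y0.1| ≤ δe / 2 := by
            have e : z.1 + D.r z.1 * s - y0.1 = (z.1 - y0.1) + D.r z.1 * s := by ring
            have h2 : |D.r z.1 * s| ≤ δe / 4 := by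
              rw [abs_mul, abs_of_pos hρ0]
              have : |s| ≤ 1 := abs_le.2 hs1
              calc D.r z.1 * |s| ≤ D.r z.1 * 1 := by gcongr
                _ ≤ δe / 4 := by linarith
            rw [e]
            have := abs_add_le (z.1 - y0.1) (D.r z.1 * s)
            linarith
          have h2 : |τ - y0.2| ≤ δe / 2 := by linarith
          have h3 : (z.1 + D.r z.1 * s - y0.1) ^ 2 ≤ (δe / 2) ^ 2 := by
            rw [← sq_abs]
            gcongr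
          have h4 : (τ - y0.2) ^ 2 ≤ (δe / 2) ^ 2 := by
            rw [← sq_abs]
            gcongr
          nlinarith
        have h5 := hs hmem
        have h6 := fup_avg hg hC y0.1 (z.1 + D.r z.1 * s) y0.2 τ l R (D.J.a y0) κ1 hl hR1 hR2 hM hτ2
        have h7 : 0 ≤ c * wn (fun t => Dpp D.W (z.1 + D.r z.1 * s, t) - Dpp D.W (y0.1, t)) :=
          mul_nonneg hc0.le (wn_nonneg _)
        have h8 : Dpp D.W (z.1 + D.r z.1 * s, τ) ≤ (D.J.a y0 + 2 * κ1) +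
            c * wn (fun t => Dpp D.W (z.1 + D.r z.1 * s, t) - Dpp D.W (y0.1, t)) := by
          refine h5.trans (max_le (by linarith) ?_)
          exact h6
        calc Dpp D.W (z.1 + D.r z.1 * s, τ) * ker s ≤ ((D.J.a y0 + 2 * κ1) +
            c * wn (fun t => Dpp D.W (z.1 + D.r z.1 * s, t) - Dpp D.W (y0.1, t))) * ker s :=
              mul_le_mul_of_nonneg_right h8 (ker_nonneg s)
          _ = _ := by ring
      have heq : (∫ s in (-1 : ℝ)..1, ((D.J.a y0 + 2 * κ1) * ker s + c *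
          (wn (fun t => Dpp D.W (z.1 + D.r z.1 * s, t) - Dpp D.W (y0.1, t)) * ker s))) =
          (D.J.a y0 + 2 * κ1) + c * ∫ s in (-1 : ℝ)..1, wn (fun t =>
            Dpp D.W (z.1 + D.r z.1 * s, t) - Dpp D.W (y0.1, t)) * ker s := by
        rw [intervalIntegral.integral_add (hi3.const_mul _) (hi2.const_mul _),
          intervalIntegral.integral_const_mul, intervalIntegral.integral_const_mul, ker_int, mul_one]
      rw [heq] at hle
      have h9 : c * ∫ s in (-1 : ℝ)..1, wn (fun t =>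
            Dpp D.W (z.1 + D.r z.1 * s, t) - Dpp D.W (y0.1, t)) * ker s ≤ κ1 := by
        calc _ ≤ c * (κ1 / c) := mul_le_mul_of_nonneg_left hω hc0.le
          _ = κ1 := by field_simp
      linarith
    have h10 := abs_le.1 (hGA τ)
    linarith [h10.2]
  -- the outer integral
  have hGm : Measurable (G1 D.r D.r1 D.r2 D.W) :=
    g1_meas D.C D.W h.c11 D.P h.gl D.r D.r1 D.r2 D.σ h.σ4 h.ra
  have hGb := g1_bd D.C D.W h.c11 D.P h.gl D.r D.r1 D.r2 D.σ h.σ4 h.ra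
  have e1 : D.GK z = ∫ u in (-1 : ℝ)..1, G1 D.r D.r1 D.r2 D.W (z.1, z.2 + D.rh z * u) * ker u :=
    kk_int D.rh z hρh0 (fun τ => G1 D.r D.r1 D.r2 D.W (z.1, τ))
  rw [e1]
  have hB3 : ∀ u : ℝ, |G1 D.r D.r1 D.r2 D.W (z.1, z.2 + D.rh z * u) * ker u| ≤
      2 * D.C * (35 / 32) := fun u => by
    rw [abs_mul]
    exact mul_le_mul (hGb _) (hkb u) (abs_nonneg _) (by positivity)
  have hm3 : Measurable fun u : ℝ => G1 D.r D.r1 D.r2 D.W (z.1, z.2 + D.rh z * u) * ker u :=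
    (hGm.comp (by fun_prop : Measurable fun u : ℝ => (z.1, z.2 + D.rh z * u))).mul hkm
  have hi5 : IntervalIntegrable ker volume (-1) 1 := ker_continuous.intervalIntegrable _ _
  calc (∫ u in (-1 : ℝ)..1, G1 D.r D.r1 D.r2 D.W (z.1, z.2 + D.rh z * u) * ker u)
      ≤ ∫ u in (-1 : ℝ)..1, (D.J.a y0 + κ) * ker u := by
        apply intervalIntegral.integral_mono_ae_restrict (by norm_num) (fup_ii hm3 hB3 _ _)
          (hi5.const_mul _)
        refine (ae_restrict_iff' measurableSet_Icc).2 (key.mono fun u hu hu1 => ?_)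
        exact mul_le_mul_of_nonneg_right (hu hu1) (ker_nonneg u)
    _ = D.J.a y0 + κ := by
        rw [intervalIntegral.integral_const_mul, ker_int, mul_one]

end Pool.Agent.MP_4eca41
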