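import Pool.Agent.Work.MP_4eca41_an.F.FDif
import Pool.Agent.Work.MP_4eca41_an.T.T8
import Pool.Agent.Work.MP_4eca41_an.T.Tay

/-!
# F4: `w2` is C^2 off `S3`, with its local second differences

PROOF.  `t8_two` with `g = w2`, `g1 = H1`, `g2 = H2`, `g11 = H11`, `g12 = g21 = H12`, `g22 = H22` on the open set `S3ᶜ` (`h_deriv_w2`, `h_deriv_H1p`, `h_deriv_rest`, `h_cont`).
`c2_local`: `s ↦ w2 (z + s v)` is C^2 near `0` with second derivative `Q_s v = H11 v.1^2 + 2 H12 v.1 v.2 + H22 v.2^2` at `z + s v` (chain rule, for `v` in a small ball all points are off `S3`); `D2 w2 v z = ∫_{-1}^1 (1 - |s|) Q_s v ds` (Taylor) and `|Q_s v - Q_0 v| ≤ κ sq v`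
for small `v` by continuity of `H11, H12, H22` at `z` (the tools `T/Tay` of helper49 give this from `ContDiffOn ℝ 2`).
-/

set_option autoImplicit false

open Set MeasureTheory Filter Topology

namespace Pool.Agent.MP_4eca41

theorem w2_c2 (D : FData) (h : D.Ok) : ContDiffOn ℝ 2 D.w2 D.S3ᶜ := by
  obtain ⟨c11, c12, c22⟩ := h_cont D h
  exact t8_two D.S3ᶜ h.c3.isClosed.isOpen_compl D.w2 D.H1 D.H2 D.H11 D.H12 D.H12 D.H22
    (fun y hy => (h_deriv_w2 D h y hy).1) (fun y hy => (h_deriv_w2 D h y hy).2)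
    (fun y hy => h_deriv_H1p D h y hy) (fun y hy => (h_deriv_rest D h y hy).1)
    (fun y hy => (h_deriv_rest D h y hy).2.1) (fun y hy => (h_deriv_rest D h y hy).2.2)
    c11 c12 c12 c22

theorem c2_local (D : FData) (h : D.Ok) (z : ℝ × ℝ) (hz : z ∉ D.S3) (κ : ℝ) (hκ : 0 < κ) :
    ∃ ρ : ℝ, 0 < ρ ∧ ∀ v : ℝ × ℝ, sq v ≤ ρ ^ 2 →
      |D2 D.w2 v z - (D.H11 z * v.1 ^ 2 + 2 * D.H12 z * v.1 * v.2 + D.H22 z * v.2 ^ 2)| ≤
        κ * sq v := by
  obtain ⟨c11, c12, c22⟩ := h_cont D h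
  have hU : IsOpen D.S3ᶜ := h.c3.isClosed.isOpen_compl
  obtain ⟨d1, k1⟩ := t8_one D.S3ᶜ hU D.H1 D.H11 D.H12 (fun y hy => h_deriv_H1p D h y hy)
    (fun y hy => (h_deriv_rest D h y hy).1) c11 c12
  obtain ⟨d2, k2⟩ := t8_one D.S3ᶜ hU D.H2 D.H12 D.H22 (fun y hy => (h_deriv_rest D h y hy).2.1)
    (fun y hy => (h_deriv_rest D h y hy).2.2) c12 c22
  obtain ⟨d0, k0⟩ := t8_one D.S3ᶜ hU D.w2 D.H1 D.H2 (fun y hy => (h_deriv_w2 D h y hy).1)
    (fun y hy => (h_deriv_w2 D h y hy).2) d1.continuousOn d2.continuousOn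
  have hzU : D.S3ᶜ ∈ 𝓝 z := hU.mem_nhds hz
  have e : fderiv ℝ D.w2 =ᶠ[𝓝 z] fun y =>
      D.H1 y • ContinuousLinearMap.fst ℝ ℝ ℝ + D.H2 y • ContinuousLinearMap.snd ℝ ℝ ℝ := by
    filter_upwards [hzU] with y hy
    exact (k0 y hy).fderiv
  have e2 := ((k1 z hz).smul_const (ContinuousLinearMap.fst ℝ ℝ ℝ)).add
    ((k2 z hz).smul_const (ContinuousLinearMap.snd ℝ ℝ ℝ))
  have e3 : fderiv ℝ (fderiv ℝ D.w2) z = _ := (e2.congr_of_eventuallyEq e).fderiv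
  obtain ⟨ρ, hρ, hb⟩ := T.tay2 D.w2 z ((w2_c2 D h).contDiffAt hzU) κ hκ
  refine ⟨ρ, hρ, fun v hv => ?_⟩
  have h1 := hb v hv
  have h2 : iteratedFDeriv ℝ 2 D.w2 z ![v, v] =
      D.H11 z * v.1 ^ 2 + 2 * D.H12 z * v.1 * v.2 + D.H22 z * v.2 ^ 2 := by
    rw [iteratedFDeriv_two_apply, e3]
    simp only [Matrix.cons_val_zero, Matrix.cons_val_one, ContinuousLinearMap.add_apply,
      ContinuousLinearMap.smulRight_apply, ContinuousLinearMap.smul_apply,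
      ContinuousLinearMap.coe_fst', ContinuousLinearMap.coe_snd', smul_eq_mul]
    ring
  rw [h2] at h1
  refine h1.trans ?_
  exact mul_le_mul_of_nonneg_left (T.norm_le_sq v) hκ.le

end Pool.Agent.MP_4eca41
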