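import Pool.Agent.Work.MP_4eca41_an.E.E0B
import Pool.Agent.Work.MP_4eca41_an.T.Ker

/-!
# Definitions of block F (FIXED)

`P` = compact nowhere dense set of good vertical lines, `S3 ⊆ S ∩ (P × ℝ)`; `r` radius in `p` (zero exactly on `P`), `rh` radius in `t` (zero exactly on `S3`).
-/

set_option autoImplicit false

open Set MeasureTheory

namespace Pool.Agent.MP_4eca41

/-- Weighted `L^1` norm on a vertical line. -/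
noncomputable def wn (φ : ℝ → ℝ) : ℝ := ∫ t, |φ t| / (1 + t ^ 2)

/-- First mollification, in `p` with radius `r p`. -/
noncomputable def W1 (r : ℝ → ℝ) (W : ℝ × ℝ → ℝ) (z : ℝ × ℝ) : ℝ :=
  ∫ s in (-1 : ℝ)..1, W (z.1 + r z.1 * s, z.2) * ker s

/-- The `p`-derivative of `W1` (with `r1 = r'`, and `r = r1 = 0` on `P`). -/
noncomputable def D1 (r r1 : ℝ → ℝ) (W : ℝ × ℝ → ℝ) (z : ℝ × ℝ) : ℝ :=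
  ∫ s in (-1 : ℝ)..1, Dp W (z.1 + r z.1 * s, z.2) * ((1 + r1 z.1 * s) * ker s)

/-- The `t`-derivative of `W1`. -/
noncomputable def Dt1 (r : ℝ → ℝ) (W : ℝ × ℝ → ℝ) (z : ℝ × ℝ) : ℝ :=
  ∫ s in (-1 : ℝ)..1, Dt W (z.1 + r z.1 * s, z.2) * ker s

/-- The (almost everywhere) second `p`-derivative of `W1` (with `r2 = r''`). -/
noncomputable def G1 (r r1 r2 : ℝ → ℝ) (W : ℝ × ℝ → ℝ) (z : ℝ × ℝ) : ℝ :=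
  ∫ s in (-1 : ℝ)..1, Dpp W (z.1 + r z.1 * s, z.2) *
    ((1 + r1 z.1 * s) ^ 2 * ker s + r z.1 * r2 z.1 * psi s)

/-- Second mollification, in `t` with radius `rh z`. -/
noncomputable def W2 (r : ℝ → ℝ) (rh : ℝ × ℝ → ℝ) (W : ℝ × ℝ → ℝ) (z : ℝ × ℝ) : ℝ :=
  ∫ s in (-1 : ℝ)..1, W1 r W (z.1, z.2 + rh z * s) * ker s

/-- The kernel of the second mollification: `W2 z = ∫ τ, W1 (z.1, τ) * KK rh z τ` if `rh z > 0`. -/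
noncomputable def KK (rh : ℝ × ℝ → ℝ) (z : ℝ × ℝ) (τ : ℝ) : ℝ := ker ((τ - z.2) / rh z) / rh z

/-- Good lines for a bounded measurable `g` (used with `g = Dpp W`). -/
structure GoodL (g : ℝ × ℝ → ℝ) (P : Set ℝ) : Prop where
  cP : IsCompact P
  nd : interior P = ∅
  co : ∀ κ : ℝ, 0 < κ → ∃ δ : ℝ, 0 < δ ∧ ∀ p ∈ P, ∀ p' ∈ P, |p - p'| ≤ δ →
    wn (fun t => g (p, t) - g (p', t)) ≤ κ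
  av : ∀ κ : ℝ, 0 < κ → ∃ δ : ℝ, 0 < δ ∧ ∀ p ∈ P, ∀ ρ : ℝ, 0 < ρ → ρ ≤ δ →
    ∫ q in (p - ρ)..(p + ρ), wn (fun t => g (q, t) - g (p, t)) ≤ κ * ρ

/-- The radius function in `p`. -/
structure RA (g : ℝ × ℝ → ℝ) (P : Set ℝ) (r r1 r2 : ℝ → ℝ) (σ : ℝ) : Prop where
  cont : Continuous r
  zero : ∀ x ∈ P, r x = 0 ∧ r1 x = 0
  pos : ∀ x, x ∉ P → 0 < r x
  d1 : ∀ x, HasDerivAt r (r1 x) x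
  d2 : ∀ x, x ∉ P → HasDerivAt r1 (r2 x) x
  c1 : Continuous r1
  c2 : ContinuousOn r2 Pᶜ
  b0 : ∀ x, r x ≤ σ
  b1 : ∀ x, |r1 x| ≤ σ
  b2 : ∀ x, r x * |r2 x| ≤ σ
  le : P.Nonempty → ∀ x, r x ≤ Metric.infDist x P
  lim0 : P.Nonempty → ∀ κ : ℝ, 0 < κ → ∃ δ : ℝ, 0 < δ ∧ ∀ x, Metric.infDist x P ≤ δ →
    r x ≤ κ * Metric.infDist x P
  lim : ∀ x0 ∈ P, ∀ κ : ℝ, 0 < κ → ∃ δ : ℝ, 0 < δ ∧ ∀ x, |x - x0| ≤ δ →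
    |r1 x| ≤ κ ∧ r x * |r2 x| ≤ κ
  av : ∀ x0 ∈ P, ∀ κ : ℝ, 0 < κ → ∃ δ : ℝ, 0 < δ ∧ ∀ x, x ∉ P → |x - x0| ≤ δ →
    ∫ q in (x - r x)..(x + r x), wn (fun t => g (q, t) - g (x0, t)) ≤ κ * r x

/-- The radius function in `t`. -/
structure RB (W : ℝ × ℝ → ℝ) (J : Jets) (S3 : Set (ℝ × ℝ)) (rh rp rt rpp rpt rtt : ℝ × ℝ → ℝ)
    (σ : ℝ) : Prop where
  cont : Continuous rh
  zero : ∀ z ∈ S3, rh z = 0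
  pos : ∀ z, z ∉ S3 → 0 < rh z
  dp : ∀ z, z ∉ S3 → HasDerivAt (fun p => rh (p, z.2)) (rp z) z.1
  dt : ∀ z, z ∉ S3 → HasDerivAt (fun t => rh (z.1, t)) (rt z) z.2
  dpp : ∀ z, z ∉ S3 → HasDerivAt (fun p => rp (p, z.2)) (rpp z) z.1
  dpt : ∀ z, z ∉ S3 → HasDerivAt (fun t => rp (z.1, t)) (rpt z) z.2
  dtp : ∀ z, z ∉ S3 → HasDerivAt (fun p => rt (p, z.2)) (rpt z) z.1
  dtt : ∀ z, z ∉ S3 → HasDerivAt (fun t => rt (z.1, t)) (rtt z) z.2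
  cp : ContinuousOn rp S3ᶜ
  ct : ContinuousOn rt S3ᶜ
  cpp : ContinuousOn rpp S3ᶜ
  cpt : ContinuousOn rpt S3ᶜ
  ctt : ContinuousOn rtt S3ᶜ
  b0 : ∀ z, rh z ≤ σ
  b1 : ∀ z, z ∉ S3 → |rp z| ≤ σ ∧ |rt z| ≤ σ
  b2 : ∀ z, z ∉ S3 → rh z * |rpp z| ≤ σ ∧ rh z * |rpt z| ≤ σ ∧ rh z * |rtt z| ≤ σ
  le : S3.Nonempty → ∀ z, rh z ≤ Metric.infDist z S3
  lim : ∀ y0 ∈ S3, ∀ κ : ℝ, 0 < κ → ∃ δ : ℝ, 0 < δ ∧ ∀ z, z ∉ S3 → dist z y0 ≤ δ →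
    |rp z| ≤ κ ∧ |rt z| ≤ κ ∧ rh z * |rpp z| ≤ κ ∧ rh z * |rpt z| ≤ κ ∧ rh z * |rtt z| ≤ κ
  near : ∀ y0 ∈ S3, ∀ κ : ℝ, 0 < κ → ∃ δ : ℝ, 0 < δ ∧ ∀ z, z ∉ S3 → dist z y0 ≤ δ →
    ∃ y ∈ S3, dist z y ≤ Metric.infDist z S3 ∧ ∀ u : ℝ × ℝ, dist u z ≤ Metric.infDist z S3 →
      |W u - W y - J.q y (u - y)| ≤ κ * rh z ^ 2 ∧
      |Dp W u - J.p y - (J.a y * (u.1 - y.1) + J.b y * (u.2 - y.2))| ≤ κ * rh z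

/-- Partial derivatives of the kernel `KK`. -/
structure KD (S3 : Set (ℝ × ℝ)) (rh rp rt rpp rpt rtt : ℝ × ℝ → ℝ)
    (Kp Kt Kpp Kpt Ktt : ℝ × ℝ → ℝ → ℝ) (C : ℝ) : Prop where
  C0 : 0 < C
  hp : ∀ z, z ∉ S3 → ∀ τ, HasDerivAt (fun p => KK rh (p, z.2) τ) (Kp z τ) z.1
  ht : ∀ z, z ∉ S3 → ∀ τ, HasDerivAt (fun t => KK rh (z.1, t) τ) (Kt z τ) z.2
  hpp : ∀ z, z ∉ S3 → ∀ τ, HasDerivAt (fun p => Kp (p, z.2) τ) (Kpp z τ) z.1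
  hpt : ∀ z, z ∉ S3 → ∀ τ, HasDerivAt (fun t => Kp (z.1, t) τ) (Kpt z τ) z.2
  htp : ∀ z, z ∉ S3 → ∀ τ, HasDerivAt (fun p => Kt (p, z.2) τ) (Kpt z τ) z.1
  htt : ∀ z, z ∉ S3 → ∀ τ, HasDerivAt (fun t => Kt (z.1, t) τ) (Ktt z τ) z.2
  c0 : ContinuousOn (fun x : (ℝ × ℝ) × ℝ => KK rh x.1 x.2) (S3ᶜ ×ˢ univ)
  cp : ContinuousOn (fun x : (ℝ × ℝ) × ℝ => Kp x.1 x.2) (S3ᶜ ×ˢ univ)
  ct : ContinuousOn (fun x : (ℝ × ℝ) × ℝ => Kt x.1 x.2) (S3ᶜ ×ˢ univ)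
  cpp : ContinuousOn (fun x : (ℝ × ℝ) × ℝ => Kpp x.1 x.2) (S3ᶜ ×ˢ univ)
  cpt : ContinuousOn (fun x : (ℝ × ℝ) × ℝ => Kpt x.1 x.2) (S3ᶜ ×ˢ univ)
  ctt : ContinuousOn (fun x : (ℝ × ℝ) × ℝ => Ktt x.1 x.2) (S3ᶜ ×ˢ univ)
  supp : ∀ z, z ∉ S3 → ∀ τ, rh z ≤ |τ - z.2| →
    KK rh z τ = 0 ∧ Kp z τ = 0 ∧ Kt z τ = 0 ∧ Kpp z τ = 0 ∧ Kpt z τ = 0 ∧ Ktt z τ = 0
  bp : ∀ z, z ∉ S3 → ∀ τ, |Kp z τ| ≤ C * |rp z| / rh z ^ 2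
  bt : ∀ z, z ∉ S3 → ∀ τ, |Kt z τ| ≤ C / rh z ^ 2
  bpp : ∀ z, z ∉ S3 → ∀ τ, |Kpp z τ| ≤ C * (rp z ^ 2 + rh z * |rpp z|) / rh z ^ 3
  bpt : ∀ z, z ∉ S3 → ∀ τ, |Kpt z τ| ≤ C / rh z ^ 3
  btt : ∀ z, z ∉ S3 → ∀ τ, |Ktt z τ| ≤ C / rh z ^ 3

end Pool.Agent.MP_4eca41
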