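import Pool.Agent.Work.MP_4eca41_an.F.FDefs

/-!
# F: derivatives of the kernel `KK rh z τ = ker ((τ - z.2)/rh z)/rh z`

PROOF.  Write `ρ = rh z`, `x = (τ - z.2)/ρ`, `k' = deriv ker x`, `k'' = deriv (deriv ker) x`; `ker` is C^2 (`ker_contDiff`), `|ker|, |k'|, |k''| ≤ C`, all vanish for `|x| ≥ 1` (also `k'`, `k''`: `ker` is C^2 and zero outside; at `|x| = 1` by continuity).
`x_p = -x ρ_p/ρ`, `x_t = -(1 + x ρ_t)/ρ`.  `Kp = -ρ_p (x k' + ker x)/ρ^2`, `Kt = -(k' (1 + x ρ_t) + ρ_t ker x)/ρ^2`.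
With `A x = x k' x + ker x` (C^1, `A' = 2 k' + x k''`): `Kpp = -ρ_pp A/ρ^2 + ρ_p^2 (x A')/ρ^3 + 2 ρ_p^2 A/ρ^3`, `Kpt = ∂_t Kp = -ρ_pt A/ρ^2 + ρ_p A' (1 + x ρ_t)/ρ^3 + 2 ρ_p ρ_t A/ρ^3` (and `∂_p Kt` is the same function: equality of mixed
partials, check by the explicit formula), `Ktt = ∂_t Kt` similarly: with `B = k' (1 + x ρ_t) + ρ_t ker x`: `∂_t B = k'' x_t (1 + x ρ_t) + k' (x_t ρ_t + x ρ_tt) + ρ_tt ker x + ρ_t k' x_t`, `Ktt = -(∂_t B)/ρ^2 + 2 ρ_t B/ρ^3`.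
Bounds for `|x| ≤ 1`, `|ρ_p|, |ρ_t| ≤ 1`, `ρ|ρ_..| ≤ 1`: `|Kp| ≤ C |ρ_p|/ρ^2`, `|Kt| ≤ C/ρ^2`, `|Kpp| ≤ C (ρ_p^2 + ρ |ρ_pp|)/ρ^3`, `|Kpt|, |Ktt| ≤ C/ρ^3`, with a universal `C`.  Continuity: compositions of continuous functions on `S3ᶜ`.
`KK` facts: `kk_int`: substitution `τ = z.2 + ρ s`; `∫ KK = 1`, `∫ τ KK = z.2` (even kernel); `KK ≥ 0`, `KK ≤ 2/ρ`.
-/

set_option autoImplicit false

open Set MeasureTheory

namespace Pool.Agent.MP_4eca41

/-! ### the one variable functions -/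

private theorem k_c1 : Continuous (deriv ker) := ker_contDiff.continuous_deriv (by norm_num)

private theorem k_cd1 : ContDiff ℝ 1 (deriv ker) := by
  have h : ContDiff ℝ (1 + 1) ker := by
    have h2 : (1 + 1 : WithTop ℕ∞) = 2 := by norm_num
    rw [h2]
    exact ker_contDiff
  exact (contDiff_succ_iff_deriv.1 h).2.2

private theorem k_c2 : Continuous (deriv (deriv ker)) := k_cd1.continuous_deriv le_rfl

private theorem k_h1 (x : ℝ) : HasDerivAt ker (deriv ker x) x :=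
  ((ker_contDiff.differentiable (by norm_num)) x).hasDerivAt

private theorem k_h2 (x : ℝ) : HasDerivAt (deriv ker) (deriv (deriv ker) x) x :=
  ((k_cd1.differentiable (by norm_num)) x).hasDerivAt

/-- a continuous function that vanishes for `1 < |x|` vanishes for `1 ≤ |x|` -/
private theorem k_cl {g : ℝ → ℝ} (hg : Continuous g) (h : ∀ x, 1 < |x| → g x = 0) (x : ℝ)
    (hx : 1 ≤ |x|) : g x = 0 := by
  rcases le_abs'.1 hx with h1 | h1
  · have h2 : EqOn g (fun _ => 0) (Iio (-1 : ℝ)) := by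
      intro y hy
      rw [mem_Iio] at hy
      refine h y ?_
      rw [abs_of_neg (by linarith)]
      linarith
    have h3 := h2.closure hg continuous_const
    rw [closure_Iio] at h3
    exact h3 h1
  · have h2 : EqOn g (fun _ => 0) (Ioi (1 : ℝ)) := by
      intro y hy
      rw [mem_Ioi] at hy
      refine h y ?_
      rw [abs_of_pos (by linarith)]
      exact hy
    have h3 := h2.closure hg continuous_const
    rw [closure_Ioi] at h3
    exact h3 h1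

private theorem k_ev {x : ℝ} (hx : 1 < |x|) : ∀ᶠ y in nhds x, 1 < |y| :=
  (isOpen_lt continuous_const continuous_abs).mem_nhds hx

private theorem k_z1 (x : ℝ) (hx : 1 ≤ |x|) : deriv ker x = 0 := by
  refine k_cl k_c1 (fun y hy => ?_) x hx
  have h1 : ker =ᶠ[nhds y] fun _ => 0 := by
    filter_upwards [k_ev hy] with z hz
    exact ker_zero z hz.le
  rw [h1.deriv_eq]
  simp

private theorem k_z2 (x : ℝ) (hx : 1 ≤ |x|) : deriv (deriv ker) x = 0 := by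
  refine k_cl k_c2 (fun y hy => ?_) x hx
  have h1 : deriv ker =ᶠ[nhds y] fun _ => 0 := by
    filter_upwards [k_ev hy] with z hz
    exact k_z1 z hz.le
  rw [h1.deriv_eq]
  simp

private noncomputable def kA (x : ℝ) : ℝ := x * deriv ker x + ker x

private noncomputable def kB (x : ℝ) : ℝ := 2 * deriv ker x + x * deriv (deriv ker) x

private theorem kA_h (x : ℝ) : HasDerivAt kA (kB x) x := by
  have h := ((hasDerivAt_id x).mul (k_h2 x)).add (k_h1 x)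
  have h1 : kB x = 1 * deriv ker x + id x * deriv (deriv ker) x + deriv ker x := by
    unfold kB
    simp only [id]
    ring
  rw [h1]
  exact h

private theorem kA_c : Continuous kA := (continuous_id.mul k_c1).add ker_continuous

private theorem kB_c : Continuous kB := (continuous_const.mul k_c1).add (continuous_id.mul k_c2)

private theorem kA_z (x : ℝ) (hx : 1 ≤ |x|) : kA x = 0 := by
  unfold kA
  rw [k_z1 x hx, ker_zero x hx]
  ring

private theorem kB_z (x : ℝ) (hx : 1 ≤ |x|) : kB x = 0 := by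
  unfold kB
  rw [k_z1 x hx, k_z2 x hx]
  ring

private theorem k_bd : ∃ C : ℝ, 0 < C ∧ ∀ x, |deriv ker x| ≤ C ∧ |deriv (deriv ker) x| ≤ C ∧
    |x * deriv (deriv ker) x| ≤ C ∧ |kA x| ≤ 2 * C ∧ |kB x| ≤ 3 * C ∧ |x * kB x| ≤ 3 * C := by
  obtain ⟨C, hC, h⟩ := ker_deriv_bound
  refine ⟨C + 2, by linarith, fun x => ?_⟩
  obtain ⟨h1, h2⟩ := h x
  by_cases hx : |x| ≤ 1
  · have hk : |ker x| ≤ 35 / 32 := by
      rw [abs_of_nonneg (ker_nonneg x)]
      exact ker_le x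
    have e1 : |x * deriv ker x| ≤ C := by
      rw [abs_mul]
      calc |x| * |deriv ker x| ≤ 1 * C := mul_le_mul hx h1 (abs_nonneg _) (by norm_num)
        _ = C := one_mul C
    have e2 : |x * deriv (deriv ker) x| ≤ C := by
      rw [abs_mul]
      calc |x| * |deriv (deriv ker) x| ≤ 1 * C := mul_le_mul hx h2 (abs_nonneg _) (by norm_num)
        _ = C := one_mul C
    have e3 : |kA x| ≤ 2 * (C + 2) := by
      unfold kA
      have := abs_add_le (x * deriv ker x) (ker x)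
      linarith
    have e4 : |kB x| ≤ 3 * (C + 2) := by
      unfold kB
      have h4 := abs_add_le (2 * deriv ker x) (x * deriv (deriv ker) x)
      have h5 : |2 * deriv ker x| = 2 * |deriv ker x| := by
        rw [abs_mul, abs_of_pos (by norm_num : (0 : ℝ) < 2)]
      linarith
    have e5 : |x * kB x| ≤ 3 * (C + 2) := by
      rw [abs_mul]
      calc |x| * |kB x| ≤ 1 * (3 * (C + 2)) := mul_le_mul hx e4 (abs_nonneg _) (by norm_num)
        _ = 3 * (C + 2) := one_mul _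
    exact ⟨by linarith, by linarith, by linarith, e3, e4, e5⟩
  · have hx' : 1 ≤ |x| := (not_le.1 hx).le
    rw [k_z1 x hx', k_z2 x hx', kA_z x hx', kB_z x hx']
    simp only [mul_zero, abs_zero]
    refine ⟨?_, ?_, ?_, ?_, ?_, ?_⟩ <;> linarith

/-! ### the kernels -/

/-- the argument -/
private noncomputable def kX (rh : ℝ × ℝ → ℝ) (z : ℝ × ℝ) (τ : ℝ) : ℝ := (τ - z.2) / rh z

private noncomputable def Kp0 (rh rp : ℝ × ℝ → ℝ) (z : ℝ × ℝ) (τ : ℝ) : ℝ :=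
  -(rp z * kA (kX rh z τ)) / rh z ^ 2

private noncomputable def Kt0 (rh rt : ℝ × ℝ → ℝ) (z : ℝ × ℝ) (τ : ℝ) : ℝ :=
  -(deriv ker (kX rh z τ) + rt z * kA (kX rh z τ)) / rh z ^ 2

private noncomputable def Kpp0 (rh rp rpp : ℝ × ℝ → ℝ) (z : ℝ × ℝ) (τ : ℝ) : ℝ :=
  (rp z ^ 2 * (kX rh z τ * kB (kX rh z τ) + 2 * kA (kX rh z τ)) -
    rh z * rpp z * kA (kX rh z τ)) / rh z ^ 3

private noncomputable def Kpt0 (rh rp rt rpt : ℝ × ℝ → ℝ) (z : ℝ × ℝ) (τ : ℝ) : ℝ :=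
  (rp z * (kB (kX rh z τ) + rt z * (kX rh z τ * kB (kX rh z τ)) + 2 * rt z * kA (kX rh z τ)) -
    rh z * rpt z * kA (kX rh z τ)) / rh z ^ 3

private noncomputable def Ktt0 (rh rt rtt : ℝ × ℝ → ℝ) (z : ℝ × ℝ) (τ : ℝ) : ℝ :=
  (deriv (deriv ker) (kX rh z τ) + rt z * kB (kX rh z τ) +
      rt z * (kX rh z τ * deriv (deriv ker) (kX rh z τ)) +
      rt z ^ 2 * (kX rh z τ * kB (kX rh z τ)) +
      2 * rt z * (deriv ker (kX rh z τ) + rt z * kA (kX rh z τ)) -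
    rh z * rtt z * kA (kX rh z τ)) / rh z ^ 3

/-- derivative of the argument -/
private theorem x_der {ρ y : ℝ → ℝ} {ρ' y' s : ℝ} (hρ : HasDerivAt ρ ρ' s)
    (hy : HasDerivAt y y' s) (h0 : ρ s ≠ 0) {g g' : ℝ → ℝ} (hg : ∀ x, HasDerivAt g (g' x) x) :
    HasDerivAt (fun u => g (y u / ρ u)) (g' (y s / ρ s) * ((y' * ρ s - y s * ρ') / ρ s ^ 2)) s :=
  (hg _).comp s (hy.div hρ h0)

private theorem hd_conv {f g : ℝ → ℝ} {a b x : ℝ} (h : HasDerivAt f a x) (hfg : ∀ y, f y = g y)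
    (hab : a = b) : HasDerivAt g b x := by
  have : f = g := funext hfg
  subst this
  subst hab
  exact h

private theorem kd_K {ρ y : ℝ → ℝ} {ρ' y' s : ℝ} (hρ : HasDerivAt ρ ρ' s)
    (hy : HasDerivAt y y' s) (h0 : ρ s ≠ 0) :
    HasDerivAt (fun u => ker (y u / ρ u) / ρ u)
      ((y' * deriv ker (y s / ρ s) - ρ' * kA (y s / ρ s)) / ρ s ^ 2) s := by
  refine hd_conv ((x_der hρ hy h0 k_h1).div hρ h0) (fun _ => rfl) ?_
  unfold kA
  field_simp
  ring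

private theorem kd_A {ρ y r : ℝ → ℝ} {ρ' y' r' s : ℝ} (hρ : HasDerivAt ρ ρ' s)
    (hy : HasDerivAt y y' s) (hr : HasDerivAt r r' s) (h0 : ρ s ≠ 0) :
    HasDerivAt (fun u => -(r u * kA (y u / ρ u)) / ρ u ^ 2)
      ((r s * (ρ' * (y s / ρ s * kB (y s / ρ s)) - y' * kB (y s / ρ s) + 2 * ρ' * kA (y s / ρ s)) -
        ρ s * r' * kA (y s / ρ s)) / ρ s ^ 3) s := by
  refine hd_conv (((hr.mul (x_der hρ hy h0 kA_h)).neg).div (hρ.pow 2) (pow_ne_zero 2 h0))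
    (fun _ => rfl) ?_
  simp only [Pi.pow_apply, Pi.neg_apply, Pi.mul_apply]
  field_simp
  ring

private theorem kd_k1 {ρ y : ℝ → ℝ} {ρ' y' s : ℝ} (hρ : HasDerivAt ρ ρ' s)
    (hy : HasDerivAt y y' s) (h0 : ρ s ≠ 0) :
    HasDerivAt (fun u => -(deriv ker (y u / ρ u)) / ρ u ^ 2)
      ((ρ' * (y s / ρ s * deriv (deriv ker) (y s / ρ s)) - y' * deriv (deriv ker) (y s / ρ s) +
        2 * ρ' * deriv ker (y s / ρ s)) / ρ s ^ 3) s := by
  refine hd_conv (((x_der hρ hy h0 k_h2).neg).div (hρ.pow 2) (pow_ne_zero 2 h0))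
    (fun _ => rfl) ?_
  simp only [Pi.pow_apply, Pi.neg_apply]
  field_simp
  ring

private theorem x_cont {S3 : Set (ℝ × ℝ)} {rh : ℝ × ℝ → ℝ} (hc : Continuous rh)
    (hpos : ∀ z, z ∉ S3 → 0 < rh z) :
    ContinuousOn (fun x : (ℝ × ℝ) × ℝ => kX rh x.1 x.2) (S3ᶜ ×ˢ univ) := by
  unfold kX
  refine ContinuousOn.div (by fun_prop) (by fun_prop) ?_
  rintro x ⟨hx, -⟩
  exact (hpos _ hx).ne'

private theorem c_fst {S3 : Set (ℝ × ℝ)} {g : ℝ × ℝ → ℝ} (hg : ContinuousOn g S3ᶜ) :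
    ContinuousOn (fun x : (ℝ × ℝ) × ℝ => g x.1) (S3ᶜ ×ˢ univ) :=
  hg.comp continuousOn_fst fun _ hx => hx.1

private theorem kb_le {a b C : ℝ} (h : |a| ≤ b * C) (hb : b ≤ 20) (hC : 0 < C) : |a| ≤ 20 * C :=
  h.trans (mul_le_mul_of_nonneg_right hb hC.le)

theorem exists_KD : ∃ CK : ℝ, 0 < CK ∧ ∀ (W : ℝ × ℝ → ℝ) (J : Jets) (S3 : Set (ℝ × ℝ))
    (rh rp rt rpp rpt rtt : ℝ × ℝ → ℝ) (σ : ℝ), IsClosed S3 → σ ≤ 1 →
    RB W J S3 rh rp rt rpp rpt rtt σ →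
    ∃ Kp Kt Kpp Kpt Ktt : ℝ × ℝ → ℝ → ℝ, KD S3 rh rp rt rpp rpt rtt Kp Kt Kpp Kpt Ktt CK := by
  obtain ⟨C, hC, hb⟩ := k_bd
  refine ⟨20 * C, by linarith, ?_⟩
  intro W J S3 rh rp rt rpp rpt rtt σ hcl hσ hB
  have hx := x_cont (S3 := S3) hB.cont hB.pos
  have hrh := c_fst (S3 := S3) hB.cont.continuousOn
  have hne : ∀ x ∈ (S3ᶜ ×ˢ univ : Set ((ℝ × ℝ) × ℝ)), rh x.1 ≠ 0 := by
    rintro x ⟨h, -⟩
    exact (hB.pos _ h).ne'
  have hX : ∀ z, z ∉ S3 → ∀ τ, rh z ≤ |τ - z.2| → 1 ≤ |kX rh z τ| := by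
    intro z hz τ h
    unfold kX
    rw [abs_div, abs_of_pos (hB.pos z hz), le_div_iff₀ (hB.pos z hz), one_mul]
    exact h
  refine ⟨Kp0 rh rp, Kt0 rh rt, Kpp0 rh rp rpp, Kpt0 rh rp rt rpt, Ktt0 rh rt rtt,
    { C0 := by linarith
      hp := ?_
      ht := ?_
      hpp := ?_
      hpt := ?_
      htp := ?_
      htt := ?_
      c0 := ?_
      cp := ?_
      ct := ?_
      cpp := ?_
      cpt := ?_
      ctt := ?_
      supp := ?_
      bp := ?_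
      bt := ?_
      bpp := ?_
      bpt := ?_
      btt := ?_ }⟩
  · intro z hz τ
    have h := kd_K (hB.dp z hz) (hasDerivAt_const z.1 (τ - z.2)) (hB.pos z hz).ne'
    refine hd_conv h (fun _ => rfl) ?_
    unfold Kp0 kX
    ring
  · intro z hz τ
    have h := kd_K (hB.dt z hz) ((hasDerivAt_id z.2).const_sub τ) (hB.pos z hz).ne'
    refine hd_conv h (fun _ => rfl) ?_
    unfold Kt0 kX
    simp only [id]
    ring
  · intro z hz τ
    have h := kd_A (hB.dp z hz) (hasDerivAt_const z.1 (τ - z.2)) (hB.dpp z hz) (hB.pos z hz).ne'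
    refine hd_conv h (fun _ => rfl) ?_
    unfold Kpp0 kX
    ring
  · intro z hz τ
    have h := kd_A (hB.dt z hz) ((hasDerivAt_id z.2).const_sub τ) (hB.dpt z hz) (hB.pos z hz).ne'
    refine hd_conv h (fun _ => rfl) ?_
    unfold Kpt0 kX
    simp only [id]
    ring
  · intro z hz τ
    have h := (kd_k1 (hB.dp z hz) (hasDerivAt_const z.1 (τ - z.2)) (hB.pos z hz).ne').add
      (kd_A (hB.dp z hz) (hasDerivAt_const z.1 (τ - z.2)) (hB.dtp z hz) (hB.pos z hz).ne')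
    refine hd_conv h (fun u => ?_) ?_
    · show -(deriv ker _) / _ + -(_ * kA _) / _ = Kt0 rh rt (u, z.2) τ
      unfold Kt0 kX
      ring
    · unfold Kpt0 kX kB
      ring
  · intro z hz τ
    have h := (kd_k1 (hB.dt z hz) ((hasDerivAt_id z.2).const_sub τ) (hB.pos z hz).ne').add
      (kd_A (hB.dt z hz) ((hasDerivAt_id z.2).const_sub τ) (hB.dtt z hz) (hB.pos z hz).ne')
    refine hd_conv h (fun u => ?_) ?_
    · show -(deriv ker _) / _ + -(_ * kA _) / _ = Kt0 rh rt (z.1, u) τ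
      unfold Kt0 kX
      simp only [id]
      ring
    · unfold Ktt0 kX
      simp only [id]
      ring
  · exact (ker_continuous.comp_continuousOn hx).div hrh hne
  · unfold Kp0
    exact ((((c_fst hB.cp).mul (kA_c.comp_continuousOn hx)).neg).div (hrh.pow 2)
      fun x h => pow_ne_zero 2 (hne x h))
  · unfold Kt0
    exact (((k_c1.comp_continuousOn hx).add ((c_fst hB.ct).mul (kA_c.comp_continuousOn hx))).neg).div
      (hrh.pow 2) fun x h => pow_ne_zero 2 (hne x h)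
  · unfold Kpp0
    refine ContinuousOn.div ?_ (hrh.pow 3) fun x h => pow_ne_zero 3 (hne x h)
    have a1 := kA_c.comp_continuousOn hx
    have a2 := kB_c.comp_continuousOn hx
    exact (((c_fst hB.cp).pow 2).mul ((hx.mul a2).add (continuousOn_const.mul a1))).sub
      ((hrh.mul (c_fst hB.cpp)).mul a1)
  · unfold Kpt0
    refine ContinuousOn.div ?_ (hrh.pow 3) fun x h => pow_ne_zero 3 (hne x h)
    have a1 := kA_c.comp_continuousOn hx
    have a2 := kB_c.comp_continuousOn hx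
    exact ((c_fst hB.cp).mul ((a2.add ((c_fst hB.ct).mul (hx.mul a2))).add
      ((continuousOn_const.mul (c_fst hB.ct)).mul a1))).sub ((hrh.mul (c_fst hB.cpt)).mul a1)
  · unfold Ktt0
    refine ContinuousOn.div ?_ (hrh.pow 3) fun x h => pow_ne_zero 3 (hne x h)
    have a1 := kA_c.comp_continuousOn hx
    have a2 := kB_c.comp_continuousOn hx
    have a3 := k_c1.comp_continuousOn hx
    have a4 := k_c2.comp_continuousOn hx
    have a5 := c_fst hB.ct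
    exact (((((a4.add (a5.mul a2)).add (a5.mul (hx.mul a4))).add ((a5.pow 2).mul (hx.mul a2))).add
      ((continuousOn_const.mul a5).mul (a3.add (a5.mul a1))))).sub
      ((hrh.mul (c_fst hB.ctt)).mul a1)
  · intro z hz τ h
    have h1 := hX z hz τ h
    have e1 := k_z1 _ h1
    have e2 := k_z2 _ h1
    have e3 := kA_z _ h1
    have e4 := kB_z _ h1
    refine ⟨?_, ?_, ?_, ?_, ?_, ?_⟩
    · show ker (kX rh z τ) / rh z = 0
      rw [ker_zero _ h1, zero_div]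
    · unfold Kp0
      rw [e3]
      simp
    · unfold Kt0
      rw [e1, e3]
      simp
    · unfold Kpp0
      rw [e3, e4]
      simp
    · unfold Kpt0
      rw [e3, e4]
      simp
    · unfold Ktt0
      rw [e1, e2, e3, e4]
      simp
  · intro z hz τ
    obtain ⟨-, -, -, h4, -, -⟩ := hb (kX rh z τ)
    have hr := hB.pos z hz
    unfold Kp0
    rw [abs_div, abs_neg, abs_mul, abs_of_pos (pow_pos hr 2)]
    refine div_le_div_of_nonneg_right ?_ (pow_pos hr 2).le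
    have := mul_le_mul_of_nonneg_left h4 (abs_nonneg (rp z))
    have h0 := mul_nonneg hC.le (abs_nonneg (rp z))
    nlinarith
  · intro z hz τ
    obtain ⟨h1, -, -, h4, -, -⟩ := hb (kX rh z τ)
    have hr := hB.pos z hz
    have hrt : |rt z| ≤ 1 := (hB.b1 z hz).2.trans hσ
    unfold Kt0
    rw [abs_div, abs_neg, abs_of_pos (pow_pos hr 2)]
    refine div_le_div_of_nonneg_right ?_ (pow_pos hr 2).le
    have e1 := abs_add_le (deriv ker (kX rh z τ)) (rt z * kA (kX rh z τ))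
    have e2 : |rt z * kA (kX rh z τ)| ≤ 2 * C := by
      rw [abs_mul]
      calc |rt z| * |kA (kX rh z τ)| ≤ 1 * (2 * C) := mul_le_mul hrt h4 (abs_nonneg _) (by norm_num)
        _ = 2 * C := one_mul _
    linarith
  · intro z hz τ
    obtain ⟨-, -, -, h4, -, h6⟩ := hb (kX rh z τ)
    have hr := hB.pos z hz
    unfold Kpp0
    rw [abs_div, abs_of_pos (pow_pos hr 3)]
    refine div_le_div_of_nonneg_right ?_ (pow_pos hr 3).le
    have e1 : |kX rh z τ * kB (kX rh z τ) + 2 * kA (kX rh z τ)| ≤ 7 * C := by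
      have := abs_add_le (kX rh z τ * kB (kX rh z τ)) (2 * kA (kX rh z τ))
      have h5 : |2 * kA (kX rh z τ)| = 2 * |kA (kX rh z τ)| := by
        rw [abs_mul, abs_of_pos (by norm_num : (0 : ℝ) < 2)]
      linarith
    have e2 : |rp z ^ 2 * (kX rh z τ * kB (kX rh z τ) + 2 * kA (kX rh z τ))| ≤ rp z ^ 2 * (7 * C) := by
      rw [abs_mul, abs_of_nonneg (sq_nonneg (rp z))]
      exact mul_le_mul_of_nonneg_left e1 (sq_nonneg _)
    have e3 : |rh z * rpp z * kA (kX rh z τ)| ≤ rh z * |rpp z| * (2 * C) := by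
      rw [abs_mul, abs_mul, abs_of_pos hr]
      exact mul_le_mul_of_nonneg_left h4 (mul_nonneg hr.le (abs_nonneg _))
    have e4 := abs_sub (rp z ^ 2 * (kX rh z τ * kB (kX rh z τ) + 2 * kA (kX rh z τ)))
      (rh z * rpp z * kA (kX rh z τ))
    have e5 : 0 ≤ rp z ^ 2 * C := mul_nonneg (sq_nonneg _) hC.le
    have e6 : 0 ≤ rh z * |rpp z| * C := mul_nonneg (mul_nonneg hr.le (abs_nonneg _)) hC.le
    nlinarith
  · intro z hz τ
    obtain ⟨-, -, -, h4, h5, h6⟩ := hb (kX rh z τ)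
    have hr := hB.pos z hz
    have hrt : |rt z| ≤ 1 := (hB.b1 z hz).2.trans hσ
    have hrp : |rp z| ≤ 1 := (hB.b1 z hz).1.trans hσ
    have hr2 : rh z * |rpt z| ≤ 1 := (hB.b2 z hz).2.1.trans hσ
    unfold Kpt0
    rw [abs_div, abs_of_pos (pow_pos hr 3)]
    refine div_le_div_of_nonneg_right ?_ (pow_pos hr 3).le
    have e1 : |rt z * (kX rh z τ * kB (kX rh z τ))| ≤ 3 * C := by
      rw [abs_mul]
      calc |rt z| * |kX rh z τ * kB (kX rh z τ)| ≤ 1 * (3 * C) :=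
            mul_le_mul hrt h6 (abs_nonneg _) (by norm_num)
        _ = 3 * C := one_mul _
    have e2 : |2 * rt z * kA (kX rh z τ)| ≤ 4 * C := by
      rw [abs_mul, abs_mul, abs_of_pos (by norm_num : (0 : ℝ) < 2)]
      calc 2 * |rt z| * |kA (kX rh z τ)| ≤ 2 * 1 * (2 * C) :=
            mul_le_mul (by linarith) h4 (abs_nonneg _) (by norm_num)
        _ = 4 * C := by ring
    have e3 : |kB (kX rh z τ) + rt z * (kX rh z τ * kB (kX rh z τ)) + 2 * rt z * kA (kX rh z τ)| ≤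
        10 * C := by
      have := abs_add_three (kB (kX rh z τ)) (rt z * (kX rh z τ * kB (kX rh z τ)))
        (2 * rt z * kA (kX rh z τ))
      linarith
    have e4 : |rp z * (kB (kX rh z τ) + rt z * (kX rh z τ * kB (kX rh z τ)) +
        2 * rt z * kA (kX rh z τ))| ≤ 10 * C := by
      rw [abs_mul]
      calc _ ≤ 1 * (10 * C) := mul_le_mul hrp e3 (abs_nonneg _) (by norm_num)
        _ = 10 * C := one_mul _
    have e5 : |rh z * rpt z * kA (kX rh z τ)| ≤ 2 * C := by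
      rw [abs_mul, abs_mul, abs_of_pos hr]
      calc _ ≤ 1 * (2 * C) := mul_le_mul hr2 h4 (abs_nonneg _) (by norm_num)
        _ = 2 * C := one_mul _
    have e6 := abs_sub (rp z * (kB (kX rh z τ) + rt z * (kX rh z τ * kB (kX rh z τ)) +
        2 * rt z * kA (kX rh z τ))) (rh z * rpt z * kA (kX rh z τ))
    linarith
  · intro z hz τ
    obtain ⟨h1, h2, h3, h4, h5, h6⟩ := hb (kX rh z τ)
    have hr := hB.pos z hz
    have hrt : |rt z| ≤ 1 := (hB.b1 z hz).2.trans hσ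
    have hr2 : rh z * |rtt z| ≤ 1 := (hB.b2 z hz).2.2.trans hσ
    unfold Ktt0
    rw [abs_div, abs_of_pos (pow_pos hr 3)]
    refine div_le_div_of_nonneg_right ?_ (pow_pos hr 3).le
    have m1 : ∀ {a b : ℝ}, |a| ≤ b → |rt z * a| ≤ b := by
      intro a b hab
      rw [abs_mul]
      have hb0 : 0 ≤ b := (abs_nonneg a).trans hab
      calc _ ≤ 1 * b := mul_le_mul hrt hab (abs_nonneg _) (by norm_num)
        _ = b := one_mul _
    have e1 := m1 h5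
    have e2 := m1 h3
    have e3 : |rt z ^ 2 * (kX rh z τ * kB (kX rh z τ))| ≤ 3 * C := by
      have := m1 (m1 h6)
      rw [← mul_assoc, ← pow_two] at this
      exact this
    have e4 : |2 * rt z * (deriv ker (kX rh z τ) + rt z * kA (kX rh z τ))| ≤ 6 * C := by
      have e5 := m1 h4
      have e6 := abs_add_le (deriv ker (kX rh z τ)) (rt z * kA (kX rh z τ))
      have e7 := m1 (e6.trans (add_le_add h1 e5))
      have e8 : |2 * rt z * (deriv ker (kX rh z τ) + rt z * kA (kX rh z τ))| =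
          2 * |rt z * (deriv ker (kX rh z τ) + rt z * kA (kX rh z τ))| := by
        rw [mul_assoc, abs_mul, abs_of_pos (by norm_num : (0 : ℝ) < 2)]
      rw [e8]
      linarith
    have e9 : |rh z * rtt z * kA (kX rh z τ)| ≤ 2 * C := by
      rw [abs_mul, abs_mul, abs_of_pos hr]
      calc _ ≤ 1 * (2 * C) := mul_le_mul hr2 h4 (abs_nonneg _) (by norm_num)
        _ = 2 * C := one_mul _
    set q1 := deriv (deriv ker) (kX rh z τ)
    set q2 := rt z * kB (kX rh z τ)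
    set q3 := rt z * (kX rh z τ * q1)
    set q4 := rt z ^ 2 * (kX rh z τ * kB (kX rh z τ))
    set q5 := 2 * rt z * (deriv ker (kX rh z τ) + rt z * kA (kX rh z τ))
    set q6 := rh z * rtt z * kA (kX rh z τ)
    have f1 := abs_sub (q1 + q2 + q3 + q4 + q5) q6
    have f2 := abs_add_le (q1 + q2 + q3 + q4) q5
    have f3 := abs_add_le (q1 + q2 + q3) q4
    have f4 := abs_add_three q1 q2 q3
    linarith

theorem kk_nonneg (rh : ℝ × ℝ → ℝ) (z : ℝ × ℝ) (hz : 0 < rh z) (τ : ℝ) : 0 ≤ KK rh z τ :=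
  div_nonneg (ker_nonneg _) hz.le

theorem kk_le (rh : ℝ × ℝ → ℝ) (z : ℝ × ℝ) (hz : 0 < rh z) (τ : ℝ) : KK rh z τ ≤ 2 / rh z := by
  unfold KK
  refine div_le_div_of_nonneg_right ((ker_le _).trans (by norm_num)) hz.le

theorem kk_int (rh : ℝ × ℝ → ℝ) (z : ℝ × ℝ) (hz : 0 < rh z) (φ : ℝ → ℝ) :
    ∫ τ, φ τ * KK rh z τ = ∫ s in (-1 : ℝ)..1, φ (z.2 + rh z * s) * ker s := by
  have h1 : ∫ s, φ (z.2 + rh z * s) * ker s = ∫ τ, φ τ * KK rh z τ := by
    have h2 : ∀ s, φ (z.2 + rh z * s) * ker s =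
        rh z * (fun u => φ (z.2 + u) * KK rh z (z.2 + u)) (rh z * s) := by
      intro s
      show φ (z.2 + rh z * s) * ker s =
        rh z * (φ (z.2 + rh z * s) * (ker ((z.2 + rh z * s - z.2) / rh z) / rh z))
      have h3 : (z.2 + rh z * s - z.2) / rh z = s := by
        field_simp
        ring
      rw [h3]
      field_simp
    simp_rw [h2]
    rw [integral_const_mul, Measure.integral_comp_mul_left
      (fun u => φ (z.2 + u) * KK rh z (z.2 + u)), smul_eq_mul, ← mul_assoc,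
      abs_of_pos (inv_pos.2 hz), mul_inv_cancel₀ hz.ne', one_mul,
      integral_add_left_eq_self (fun u => φ u * KK rh z u) z.2]
  rw [← h1, intervalIntegral.integral_of_le (by norm_num), ← integral_Icc_eq_integral_Ioc]
  refine (setIntegral_eq_integral_of_forall_compl_eq_zero fun s hs => ?_).symm
  rw [ker_zero s, mul_zero]
  by_contra h
  rw [not_le, abs_lt] at h
  exact hs ⟨h.1.le, h.2.le⟩

theorem kk_one (rh : ℝ × ℝ → ℝ) (z : ℝ × ℝ) (hz : 0 < rh z) : ∫ τ, KK rh z τ = 1 := by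
  have h := kk_int rh z hz (fun _ => 1)
  simp only [one_mul] at h
  rw [h, ker_int]

theorem kk_id (rh : ℝ × ℝ → ℝ) (z : ℝ × ℝ) (hz : 0 < rh z) : ∫ τ, τ * KK rh z τ = z.2 := by
  have h := kk_int rh z hz (fun u => u)
  rw [h]
  have h1 : ∀ s : ℝ, (z.2 + rh z * s) * ker s = z.2 * ker s + rh z * (s * ker s) := fun s => by ring
  simp_rw [h1]
  rw [intervalIntegral.integral_add, intervalIntegral.integral_const_mul,
    intervalIntegral.integral_const_mul, ker_int, ker_int1]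
  · ring
  · exact (continuous_const.mul ker_continuous).intervalIntegrable _ _
  · exact (continuous_const.mul (continuous_id.mul ker_continuous)).intervalIntegrable _ _

theorem w2_eq (r : ℝ → ℝ) (rh W : ℝ × ℝ → ℝ) (z : ℝ × ℝ) (hz : 0 < rh z) :
    W2 r rh W z = ∫ τ, W1 r W (z.1, τ) * KK rh z τ :=
  (kk_int rh z hz fun τ => W1 r W (z.1, τ)).symm

/-! ### differentiation under the integral -/

private theorem sl_cont {S3 : Set (ℝ × ℝ)} {F : ℝ × ℝ → ℝ → ℝ}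
    (hF : ContinuousOn (fun x : (ℝ × ℝ) × ℝ => F x.1 x.2) (S3ᶜ ×ˢ univ)) {z : ℝ × ℝ} (hz : z ∉ S3) :
    Continuous (F z) := by
  have h : Continuous fun τ : ℝ => ((z, τ) : (ℝ × ℝ) × ℝ) := by fun_prop
  have h1 := hF.comp_continuous h fun τ => ⟨hz, mem_univ _⟩
  exact h1

private theorem sl_comp {rh : ℝ × ℝ → ℝ} {F : ℝ × ℝ → ℝ → ℝ} {z : ℝ × ℝ}
    (hs : ∀ τ, rh z ≤ |τ - z.2| → F z τ = 0) (φ : ℝ → ℝ) :
    HasCompactSupport fun τ => φ τ * F z τ := by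
  refine HasCompactSupport.intro (isCompact_Icc (a := z.2 - rh z) (b := z.2 + rh z)) fun τ hτ => ?_
  rw [hs τ, mul_zero]
  by_contra h
  rw [not_le, abs_lt] at h
  exact hτ ⟨by linarith [h.1], by linarith [h.2]⟩

private theorem un_int (S3 : Set (ℝ × ℝ)) (h3 : IsClosed S3) (rh : ℝ × ℝ → ℝ) (hc : Continuous rh)
    (F F' : ℝ × ℝ → ℝ → ℝ) (φ : ℝ → ℝ) (hφ : Continuous φ)
    (c : ℝ → ℝ × ℝ) (hcc : Continuous c) (s0 : ℝ) (hs0 : c s0 ∉ S3)
    (hd : ∀ s, c s ∉ S3 → ∀ τ, HasDerivAt (fun u => F (c u) τ) (F' (c s) τ) s)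
    (hF : ContinuousOn (fun x : (ℝ × ℝ) × ℝ => F x.1 x.2) (S3ᶜ ×ˢ univ))
    (hF' : ContinuousOn (fun x : (ℝ × ℝ) × ℝ => F' x.1 x.2) (S3ᶜ ×ˢ univ))
    (hs : ∀ z, z ∉ S3 → ∀ τ, rh z ≤ |τ - z.2| → F z τ = 0)
    (hs' : ∀ z, z ∉ S3 → ∀ τ, rh z ≤ |τ - z.2| → F' z τ = 0) :
    HasDerivAt (fun u => ∫ τ, φ τ * F (c u) τ) (∫ τ, φ τ * F' (c s0) τ) s0 := by
  have ho : IsOpen (c ⁻¹' S3ᶜ) := h3.isOpen_compl.preimage hcc
  obtain ⟨δ, hδ, hδs⟩ := Metric.isOpen_iff.1 ho s0 hs0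
  have hI : ∀ s ∈ Icc (s0 - δ / 2) (s0 + δ / 2), c s ∉ S3 := by
    intro s h
    refine hδs ?_
    rw [Metric.mem_ball, Real.dist_eq, abs_lt]
    constructor <;> linarith [h.1, h.2]
  have hcI : IsCompact (Icc (s0 - δ / 2) (s0 + δ / 2)) := isCompact_Icc
  obtain ⟨R, hR⟩ := hcI.exists_bound_of_continuousOn
    (f := fun s => rh (c s) + |(c s).2|) (by fun_prop)
  have hcont : ContinuousOn (fun x : ℝ × ℝ => φ x.2 * F' (c x.1) x.2)
      (Icc (s0 - δ / 2) (s0 + δ / 2) ×ˢ Icc (-R) R) := by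
    refine ContinuousOn.mul (by fun_prop) ?_
    have h1 : ContinuousOn (fun x : ℝ × ℝ => ((c x.1, x.2) : (ℝ × ℝ) × ℝ))
        (Icc (s0 - δ / 2) (s0 + δ / 2) ×ˢ Icc (-R) R) := by fun_prop
    exact hF'.comp h1 fun x hx => ⟨hI _ hx.1, mem_univ _⟩
  obtain ⟨M, hM⟩ := (hcI.prod isCompact_Icc).exists_bound_of_continuousOn hcont
  have hz0 : ∀ s ∈ Icc (s0 - δ / 2) (s0 + δ / 2), ∀ τ, τ ∉ Icc (-R) R → F' (c s) τ = 0 := by
    intro s h τ hτ
    refine hs' _ (hI s h) τ ?_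
    have h1 := hR s h
    rw [Real.norm_eq_abs] at h1
    have h2 := (le_abs_self _).trans h1
    have h3 : R < |τ| := by
      by_contra h4
      rw [not_lt] at h4
      exact hτ (abs_le.1 h4)
    have h5 := abs_sub_abs_le_abs_sub τ (c s).2
    linarith
  have hbi : Integrable ((Icc (-R) R).indicator fun _ : ℝ => M) := by
    rw [integrable_indicator_iff measurableSet_Icc]
    exact integrableOn_const (by simp)
  refine (hasDerivAt_integral_of_dominated_loc_of_deriv_le (μ := volume)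
    (F := fun u τ => φ τ * F (c u) τ) (F' := fun u τ => φ τ * F' (c u) τ)
    (s := Ioo (s0 - δ / 2) (s0 + δ / 2)) (bound := (Icc (-R) R).indicator fun _ => M)
    (Ioo_mem_nhds (by linarith) (by linarith)) ?_ ?_ ?_ ?_ hbi ?_).2
  · filter_upwards [Ioo_mem_nhds (show s0 - δ / 2 < s0 by linarith) (show s0 < s0 + δ / 2 by linarith)]
      with s h
    exact (hφ.mul (sl_cont hF (hI s (Ioo_subset_Icc_self h)))).aestronglyMeasurable
  · exact (hφ.mul (sl_cont hF hs0)).integrable_of_hasCompactSupport (sl_comp (hs _ hs0) φ)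
  · exact (hφ.mul (sl_cont hF' hs0)).aestronglyMeasurable
  · refine Filter.Eventually.of_forall fun τ s h => ?_
    have h' := Ioo_subset_Icc_self h
    by_cases hτ : τ ∈ Icc (-R) R
    · rw [indicator_of_mem hτ]
      exact hM (s, τ) ⟨h', hτ⟩
    · rw [indicator_of_notMem hτ, hz0 s h' τ hτ, mul_zero, norm_zero]
  · refine Filter.Eventually.of_forall fun τ s h => ?_
    exact (hd s (hI s (Ioo_subset_Icc_self h)) τ).const_mul (φ τ)

private theorem mom (S3 : Set (ℝ × ℝ)) (h3 : IsClosed S3) (rh : ℝ × ℝ → ℝ) (hc : Continuous rh)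
    (F F' : ℝ × ℝ → ℝ → ℝ) (φ : ℝ → ℝ) (hφ : Continuous φ)
    (c : ℝ → ℝ × ℝ) (hcc : Continuous c) (s0 : ℝ) (hs0 : c s0 ∉ S3)
    (hd : ∀ s, c s ∉ S3 → ∀ τ, HasDerivAt (fun u => F (c u) τ) (F' (c s) τ) s)
    (hF : ContinuousOn (fun x : (ℝ × ℝ) × ℝ => F x.1 x.2) (S3ᶜ ×ˢ univ))
    (hF' : ContinuousOn (fun x : (ℝ × ℝ) × ℝ => F' x.1 x.2) (S3ᶜ ×ˢ univ))
    (hs : ∀ z, z ∉ S3 → ∀ τ, rh z ≤ |τ - z.2| → F z τ = 0)
    (hs' : ∀ z, z ∉ S3 → ∀ τ, rh z ≤ |τ - z.2| → F' z τ = 0)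
    (g : ℝ × ℝ → ℝ) (hg : ∀ z, z ∉ S3 → ∫ τ, φ τ * F z τ = g z) (g' : ℝ)
    (hgd : HasDerivAt (fun u => g (c u)) g' s0) :
    ∫ τ, φ τ * F' (c s0) τ = g' := by
  have h1 := un_int S3 h3 rh hc F F' φ hφ c hcc s0 hs0 hd hF hF' hs hs'
  have h2 : (fun u => ∫ τ, φ τ * F (c u) τ) =ᶠ[nhds s0] fun u => g (c u) := by
    filter_upwards [(h3.isOpen_compl.preimage hcc).mem_nhds hs0] with u hu
    exact hg _ hu
  exact (h1.congr_of_eventuallyEq h2.symm).unique hgd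

/-- Moments of the differentiated kernels (differentiate `∫ K = 1`, `∫ τ K = t`). -/
theorem kd_moments (S3 : Set (ℝ × ℝ)) (h3 : IsClosed S3) (rh rp rt rpp rpt rtt : ℝ × ℝ → ℝ)
    (hc : Continuous rh) (hpos : ∀ z, z ∉ S3 → 0 < rh z)
    (Kp Kt Kpp Kpt Ktt : ℝ × ℝ → ℝ → ℝ) (C : ℝ)
    (h : KD S3 rh rp rt rpp rpt rtt Kp Kt Kpp Kpt Ktt C) (z : ℝ × ℝ) (hz : z ∉ S3) :
    (∫ τ, Kp z τ = 0) ∧ (∫ τ, Kt z τ = 0) ∧ (∫ τ, Kpp z τ = 0) ∧ (∫ τ, Kpt z τ = 0) ∧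
      (∫ τ, Ktt z τ = 0) ∧ (∫ τ, τ * Kp z τ = 0) ∧ (∫ τ, τ * Kt z τ = 1) ∧
      (∫ τ, τ * Kpp z τ = 0) ∧ (∫ τ, τ * Kpt z τ = 0) ∧ ∫ τ, τ * Ktt z τ = 0 := by
  have cp : ∀ z : ℝ × ℝ, Continuous fun u : ℝ => ((u, z.2) : ℝ × ℝ) := fun z => by fun_prop
  have ct : ∀ z : ℝ × ℝ, Continuous fun u : ℝ => ((z.1, u) : ℝ × ℝ) := fun z => by fun_prop
  have s0 : ∀ z, z ∉ S3 → ∀ τ, rh z ≤ |τ - z.2| → KK rh z τ = 0 := fun z hz τ ht => (h.supp z hz τ ht).1
  have s1 : ∀ z, z ∉ S3 → ∀ τ, rh z ≤ |τ - z.2| → Kp z τ = 0 := fun z hz τ ht => (h.supp z hz τ ht).2.1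
  have s2 : ∀ z, z ∉ S3 → ∀ τ, rh z ≤ |τ - z.2| → Kt z τ = 0 := fun z hz τ ht => (h.supp z hz τ ht).2.2.1
  have s3 : ∀ z, z ∉ S3 → ∀ τ, rh z ≤ |τ - z.2| → Kpp z τ = 0 :=
    fun z hz τ ht => (h.supp z hz τ ht).2.2.2.1
  have s4 : ∀ z, z ∉ S3 → ∀ τ, rh z ≤ |τ - z.2| → Kpt z τ = 0 :=
    fun z hz τ ht => (h.supp z hz τ ht).2.2.2.2.1
  have s5 : ∀ z, z ∉ S3 → ∀ τ, rh z ≤ |τ - z.2| → Ktt z τ = 0 :=
    fun z hz τ ht => (h.supp z hz τ ht).2.2.2.2.2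
  have one : Continuous fun _ : ℝ => (1 : ℝ) := continuous_const
  have idc : Continuous fun τ : ℝ => τ := continuous_id
  have b0 : ∀ z, z ∉ S3 → ∫ τ, (fun _ : ℝ => (1 : ℝ)) τ * KK rh z τ = (fun _ : ℝ × ℝ => (1 : ℝ)) z := by
    intro z hz
    simp only [one_mul]
    exact kk_one rh z (hpos z hz)
  have b1 : ∀ z, z ∉ S3 → ∫ τ, τ * KK rh z τ = (fun z : ℝ × ℝ => z.2) z :=
    fun z hz => kk_id rh z (hpos z hz)
  have p0 : ∀ z, z ∉ S3 → ∫ τ, (fun _ : ℝ => (1 : ℝ)) τ * Kp z τ = (fun _ : ℝ × ℝ => (0 : ℝ)) z :=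
    fun z hz => mom S3 h3 rh hc (KK rh) Kp _ one (fun u => (u, z.2)) (cp z) z.1 hz
      (fun s hs τ => h.hp (s, z.2) hs τ) h.c0 h.cp s0 s1 _ b0 0 (hasDerivAt_const _ _)
  have t0 : ∀ z, z ∉ S3 → ∫ τ, (fun _ : ℝ => (1 : ℝ)) τ * Kt z τ = (fun _ : ℝ × ℝ => (0 : ℝ)) z :=
    fun z hz => mom S3 h3 rh hc (KK rh) Kt _ one (fun u => (z.1, u)) (ct z) z.2 hz
      (fun s hs τ => h.ht (z.1, s) hs τ) h.c0 h.ct s0 s2 _ b0 0 (hasDerivAt_const _ _)
  have p1 : ∀ z, z ∉ S3 → ∫ τ, τ * Kp z τ = (fun _ : ℝ × ℝ => (0 : ℝ)) z :=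
    fun z hz => mom S3 h3 rh hc (KK rh) Kp _ idc (fun u => (u, z.2)) (cp z) z.1 hz
      (fun s hs τ => h.hp (s, z.2) hs τ) h.c0 h.cp s0 s1 _ b1 0 (hasDerivAt_const _ _)
  have t1 : ∀ z, z ∉ S3 → ∫ τ, τ * Kt z τ = (fun _ : ℝ × ℝ => (1 : ℝ)) z :=
    fun z hz => mom S3 h3 rh hc (KK rh) Kt _ idc (fun u => (z.1, u)) (ct z) z.2 hz
      (fun s hs τ => h.ht (z.1, s) hs τ) h.c0 h.ct s0 s2 _ b1 1 (hasDerivAt_id z.2)
  have e1 := p0 z hz
  have e2 := t0 z hz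
  have e3 := mom S3 h3 rh hc Kp Kpp _ one (fun u => (u, z.2)) (cp z) z.1 hz
      (fun s hs τ => h.hpp (s, z.2) hs τ) h.cp h.cpp s1 s3 _ p0 0 (hasDerivAt_const _ _)
  have e4 := mom S3 h3 rh hc Kp Kpt _ one (fun u => (z.1, u)) (ct z) z.2 hz
      (fun s hs τ => h.hpt (z.1, s) hs τ) h.cp h.cpt s1 s4 _ p0 0 (hasDerivAt_const _ _)
  have e5 := mom S3 h3 rh hc Kt Ktt _ one (fun u => (z.1, u)) (ct z) z.2 hz
      (fun s hs τ => h.htt (z.1, s) hs τ) h.ct h.ctt s2 s5 _ t0 0 (hasDerivAt_const _ _)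
  have e6 := mom S3 h3 rh hc Kp Kpp _ idc (fun u => (u, z.2)) (cp z) z.1 hz
      (fun s hs τ => h.hpp (s, z.2) hs τ) h.cp h.cpp s1 s3 _ p1 0 (hasDerivAt_const _ _)
  have e7 := mom S3 h3 rh hc Kp Kpt _ idc (fun u => (z.1, u)) (ct z) z.2 hz
      (fun s hs τ => h.hpt (z.1, s) hs τ) h.cp h.cpt s1 s4 _ p1 0 (hasDerivAt_const _ _)
  have e8 := mom S3 h3 rh hc Kt Ktt _ idc (fun u => (z.1, u)) (ct z) z.2 hz
      (fun s hs τ => h.htt (z.1, s) hs τ) h.ct h.ctt s2 s5 _ t1 0 (hasDerivAt_const _ _)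
  simp only [one_mul] at e1 e2 e3 e4 e5
  exact ⟨e1, e2, e3, e4, e5, p1 z hz, t1 z hz, e6, e7, e8⟩

end Pool.Agent.MP_4eca41
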