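import Pool.Agent.Work.MP_4eca41_an.F.FW1B
import Pool.Agent.Work.MP_4eca41_an.F.FKK

/-!
# Bundled data of block F (FIXED)
-/

set_option autoImplicit false

open Set MeasureTheory Filter Topology

namespace Pool.Agent.MP_4eca41

/-- All data of block F. -/
structure FData where
  /-- function on the Legendre side -/
  W : ℝ × ℝ → ℝ
  /-- lower bound of the second derivative -/
  β : ℝ × ℝ → ℝ
  /-- jets -/
  J : Jets
  /-- the good set of block B -/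
  S : Set (ℝ × ℝ)
  /-- the final set -/
  S3 : Set (ℝ × ℝ)
  /-- good lines -/
  P : Set ℝ
  /-- radius in `p` -/
  r : ℝ → ℝ
  /-- its derivative -/
  r1 : ℝ → ℝ
  /-- its second derivative -/
  r2 : ℝ → ℝ
  /-- radius in `t` -/
  rh : ℝ × ℝ → ℝ
  /-- partial derivative -/
  rp : ℝ × ℝ → ℝ
  /-- partial derivative -/
  rt : ℝ × ℝ → ℝ
  /-- partial derivative -/
  rpp : ℝ × ℝ → ℝ
  /-- partial derivative -/
  rpt : ℝ × ℝ → ℝ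
  /-- partial derivative -/
  rtt : ℝ × ℝ → ℝ
  /-- kernel derivative -/
  Kp : ℝ × ℝ → ℝ → ℝ
  /-- kernel derivative -/
  Kt : ℝ × ℝ → ℝ → ℝ
  /-- kernel derivative -/
  Kpp : ℝ × ℝ → ℝ → ℝ
  /-- kernel derivative -/
  Kpt : ℝ × ℝ → ℝ → ℝ
  /-- kernel derivative -/
  Ktt : ℝ × ℝ → ℝ → ℝ
  /-- `C^{1,1}` constant -/
  C : ℝ
  /-- constant of the upper bound -/
  M : ℝ
  /-- kernel constant -/
  CK : ℝ
  /-- smallness of the radii -/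
  σ : ℝ

/-- The hypotheses on the data. -/
structure FData.Ok (D : FData) : Prop where
  sm : Sm D.W D.β D.S D.J
  c11 : C11 D.C D.W
  M0 : 0 < D.M
  upp : ∀ v y : ℝ × ℝ, D2 D.W v y ≤ D.M * v.2 ^ 2 - v.1 ^ 2 / D.M
  gl : GoodL (Dpp D.W) D.P
  c3 : IsCompact D.S3
  s3 : D.S3 ⊆ D.S
  s3P : ∀ z ∈ D.S3, z.1 ∈ D.P
  pd : ∀ p ∈ D.P, ∀ᵐ t : ℝ, HasDerivAt (fun p' => Dp D.W (p', t)) (Dpp D.W (p, t)) p
  leb : ∀ z ∈ D.S3, Tendsto (fun l : ℝ => (∫ σ in (z.2 - l)..(z.2 + l), Dpp D.W (z.1, σ)) / (2 * l))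
    (𝓝[>] 0) (𝓝 (D.J.a z))
  σ0 : 0 < D.σ
  σ4 : D.σ ≤ 1 / 4
  ra : RA (Dpp D.W) D.P D.r D.r1 D.r2 D.σ
  rb : RB D.W D.J D.S3 D.rh D.rp D.rt D.rpp D.rpt D.rtt D.σ
  kd : KD D.S3 D.rh D.rp D.rt D.rpp D.rpt D.rtt D.Kp D.Kt D.Kpp D.Kpt D.Ktt D.CK

/-- The smoothed function. -/
noncomputable def FData.w2 (D : FData) : ℝ × ℝ → ℝ := W2 D.r D.rh D.W

/-- first `p`-derivative -/
noncomputable def FData.H1 (D : FData) (z : ℝ × ℝ) : ℝ :=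
  ∫ τ, (D1 D.r D.r1 D.W (z.1, τ) * KK D.rh z τ + W1 D.r D.W (z.1, τ) * D.Kp z τ)

/-- first `t`-derivative -/
noncomputable def FData.H2 (D : FData) (z : ℝ × ℝ) : ℝ := ∫ τ, W1 D.r D.W (z.1, τ) * D.Kt z τ

/-- the main part of `H11` -/
noncomputable def FData.GK (D : FData) (z : ℝ × ℝ) : ℝ :=
  ∫ τ, G1 D.r D.r1 D.r2 D.W (z.1, τ) * KK D.rh z τ

/-- second derivative -/
noncomputable def FData.H11 (D : FData) (z : ℝ × ℝ) : ℝ :=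
  D.GK z + ∫ τ, (2 * (D1 D.r D.r1 D.W (z.1, τ) * D.Kp z τ) + W1 D.r D.W (z.1, τ) * D.Kpp z τ)

/-- second derivative -/
noncomputable def FData.H12 (D : FData) (z : ℝ × ℝ) : ℝ :=
  ∫ τ, (D1 D.r D.r1 D.W (z.1, τ) * D.Kt z τ + W1 D.r D.W (z.1, τ) * D.Kpt z τ)

/-- second derivative -/
noncomputable def FData.H22 (D : FData) (z : ℝ × ℝ) : ℝ := ∫ τ, W1 D.r D.W (z.1, τ) * D.Ktt z τ

end Pool.Agent.MP_4eca41
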