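import Pool.Agent.Work.MP_4eca41_an.F.FDefs2

/-!
# F4: differentiation under the integral sign and continuity of the `H`-functions

PROOFS.  Let `z0 ∉ S3` (open complement), `U` a closed box around `z0` inside `S3ᶜ`; for `z ∈ U` all kernels vanish for `|τ| ≥ R` (support `|τ - z.2| ≤ rh z ≤ σ`).
`h_cont`: the integrands of `H1, H2, H12, H22` and the second part of `H11` are continuous in `(z, τ)` on `U × ℝ` (`d1_continuous`, `w1_continuous`, `KD`), supported in `|τ| ≤ R`, hence bounded: dominated convergence.  `GK`: `|GK z - GK z0| ≤ ∫ |G1 (z.1,τ) - G1 (z0.1,τ)| KK z τ dτ + ∫ |G1 (z0.1,τ)| |KK z τ - KK z0 τ| dτ`; the first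
term is `≤ (2/min rh)(1 + R^2) wn (G1 (z.1,·) - G1 (z0.1,·)) → 0` (`kk_le`, `local_le_wn`, `g1_cont`, `g1_bd`, `g1_meas`), the second tends to `0` (uniform convergence of `KK` on `|τ| ≤ R`).
Derivatives.  (a) `p ↦ ∫ W1 (p,τ) L (p,τ) dτ`, where `L = KK rh (p,t) τ` resp. `Kt (p,t) τ` and `t = z0.2` is fixed: derivative `∫ (D1 L + W1 L_p)` (Leibniz rule, dominated; `w1_hasDeriv_p`, `KD.hp`, `KD.htp`).  (b) `t`-derivatives: `∫ φ (τ) L (t,τ) dτ`, only the kernel depends on `t`.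
(c) `p`-derivative of `∫ D1 (p,τ) KK rh (p,t) τ dτ` at `p0`: `= ∫ D1 (p,τ)(KK (p,t) τ - KK (p0,t) τ) dτ + ∫ (D1 (p,τ) - D1 (p0,τ)) KK (p0,t) τ dτ`; the first divided by `p - p0` tends to `∫ D1 (p0,τ) Kp (z0) τ` (dominated convergence, `D1` continuous); the second is, by `d1_int` and Fubini, `∫_{p0}^{p} (∫ G1 (q,τ) KK (p0,t) τ dτ) dq`
and `q ↦ ∫ G1 (q,τ) KK (p0,t) τ dτ` is continuous at `p0` (as for `GK`), so the quotient tends to `GK z0`.  So the `p`-derivative of `H1` is `GK + ∫ D1 Kp + ∫ (D1 Kp + W1 Kpp) = H11`.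
-/

set_option autoImplicit false

open Set MeasureTheory Filter Topology

namespace Pool.Agent.MP_4eca41

/-- kernels which are continuous off `S3` and supported near `z.2` -/
private structure FdKn (D : FData) (L : ℝ × ℝ → ℝ → ℝ) : Prop where
  c : ContinuousOn (fun x : (ℝ × ℝ) × ℝ => L x.1 x.2) (D.S3ᶜ ×ˢ univ)
  s : ∀ z, z ∉ D.S3 → ∀ τ, D.rh z ≤ |τ - z.2| → L z τ = 0

private theorem fd_mul {D : FData} {L : ℝ × ℝ → ℝ → ℝ} (hL : FdKn D L) {φ : ℝ × ℝ → ℝ}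
    (hφ : Continuous φ) : FdKn D (fun z τ => φ (z.1, τ) * L z τ) where
  c := by
    refine ContinuousOn.mul ?_ hL.c
    exact (hφ.comp ((continuous_fst.comp continuous_fst).prodMk continuous_snd)).continuousOn
  s := fun z hz τ h => by rw [hL.s z hz τ h, mul_zero]

private theorem fd_add {D : FData} {L L' : ℝ × ℝ → ℝ → ℝ} (hL : FdKn D L) (hL' : FdKn D L') :
    FdKn D (fun z τ => L z τ + L' z τ) where
  c := hL.c.add hL'.c
  s := fun z hz τ h => by rw [hL.s z hz τ h, hL'.s z hz τ h, add_zero]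

private theorem fd_K {D : FData} (h : D.Ok) : FdKn D (KK D.rh) ∧ FdKn D D.Kp ∧ FdKn D D.Kt ∧
    FdKn D D.Kpp ∧ FdKn D D.Kpt ∧ FdKn D D.Ktt :=
  ⟨⟨h.kd.c0, fun z hz τ ht => (h.kd.supp z hz τ ht).1⟩,
    ⟨h.kd.cp, fun z hz τ ht => (h.kd.supp z hz τ ht).2.1⟩,
    ⟨h.kd.ct, fun z hz τ ht => (h.kd.supp z hz τ ht).2.2.1⟩,
    ⟨h.kd.cpp, fun z hz τ ht => (h.kd.supp z hz τ ht).2.2.2.1⟩,
    ⟨h.kd.cpt, fun z hz τ ht => (h.kd.supp z hz τ ht).2.2.2.2.1⟩,
    ⟨h.kd.ctt, fun z hz τ ht => (h.kd.supp z hz τ ht).2.2.2.2.2⟩⟩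

private theorem fd_far {D : FData} (h : D.Ok) {L : ℝ × ℝ → ℝ → ℝ} (hL : FdKn D L) {z0 z : ℝ × ℝ}
    (hz : z ∉ D.S3) (hd : dist z z0 < 1) {τ : ℝ} (hτ : |z0.2| + 2 < |τ|) : L z τ = 0 := by
  apply hL.s z hz τ
  have h1 : D.rh z ≤ 1 / 4 := (h.rb.b0 z).trans h.σ4
  have h2 : |z.2 - z0.2| < 1 := by
    have : dist z.2 z0.2 ≤ dist z z0 := by
      rw [Prod.dist_eq]
      exact le_max_right _ _
    rw [Real.dist_eq] at this
    linarith
  have h3 : |τ| ≤ |τ - z.2| + |z.2 - z0.2| + |z0.2| := by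
    have e : τ = (τ - z.2) + (z.2 - z0.2) + z0.2 := by ring
    calc |τ| = |(τ - z.2) + (z.2 - z0.2) + z0.2| := by rw [← e]
      _ ≤ |(τ - z.2) + (z.2 - z0.2)| + |z0.2| := abs_add_le _ _
      _ ≤ |τ - z.2| + |z.2 - z0.2| + |z0.2| := by
          have := abs_add_le (τ - z.2) (z.2 - z0.2)
          linarith
  linarith

private theorem fd_nb {D : FData} (h : D.Ok) {z0 : ℝ × ℝ} (hz : z0 ∉ D.S3) :
    ∃ ε : ℝ, 0 < ε ∧ ε ≤ 1 ∧ ∀ z, dist z z0 < ε → z ∉ D.S3 := by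
  obtain ⟨ε, hε, hb⟩ := Metric.isOpen_iff.1 h.c3.isClosed.isOpen_compl z0 hz
  refine ⟨min ε 1, lt_min hε one_pos, min_le_right _ _, fun z hd => ?_⟩
  exact hb (Metric.mem_ball.2 (hd.trans_le (min_le_left _ _)))

private theorem fd_slice {D : FData} {L : ℝ × ℝ → ℝ → ℝ} (hL : FdKn D L)
    {z : ℝ × ℝ} (hz : z ∉ D.S3) : Continuous (L z) := by
  have h1 := hL.c.comp_continuous (f := fun τ : ℝ => (z, τ))
    (continuous_const.prodMk continuous_id) (fun τ => ⟨hz, mem_univ _⟩)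
  exact h1

private theorem fd_hcs {D : FData} (h : D.Ok) {L : ℝ × ℝ → ℝ → ℝ} (hL : FdKn D L)
    {z : ℝ × ℝ} (hz : z ∉ D.S3) : HasCompactSupport (L z) := by
  refine HasCompactSupport.intro (isCompact_Icc (a := -(|z.2| + 2)) (b := |z.2| + 2)) ?_
  intro τ hτ
  apply fd_far h hL hz (z0 := z) (by rw [dist_self]; exact one_pos)
  by_contra hcon
  push Not at hcon
  exact hτ (abs_le.1 hcon)

private theorem fd_int {D : FData} (h : D.Ok) {L : ℝ × ℝ → ℝ → ℝ} (hL : FdKn D L)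
    {z : ℝ × ℝ} (hz : z ∉ D.S3) : Integrable (L z) :=
  (fd_slice hL hz).integrable_of_hasCompactSupport (fd_hcs h hL hz)

private theorem fd_contA {D : FData} (h : D.Ok) {L : ℝ × ℝ → ℝ → ℝ} (hL : FdKn D L) :
    ContinuousOn (fun z => ∫ τ, L z τ) D.S3ᶜ := by
  intro z0 hz0
  obtain ⟨ε, hε, hε1, hb⟩ := fd_nb h (z0 := z0) hz0
  have h1 : ContinuousOn (fun z => ∫ τ, L z τ) (Metric.ball z0 ε) := by
    refine continuousOn_integral_of_compact_support
      (isCompact_Icc (a := -(|z0.2| + 2)) (b := |z0.2| + 2)) ?_ ?_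
    · refine hL.c.mono ?_
      rintro ⟨z, τ⟩ ⟨h2, -⟩
      exact ⟨hb z (Metric.mem_ball.1 h2), mem_univ _⟩
    · intro z τ hz hτ
      apply fd_far h hL (hb z (Metric.mem_ball.1 hz)) ((Metric.mem_ball.1 hz).trans_le hε1)
      by_contra hcon
      push Not at hcon
      exact hτ (abs_le.1 hcon)
  exact (h1.continuousAt (Metric.ball_mem_nhds z0 hε)).continuousWithinAt

/-- Leibniz rule. -/
private theorem fd_leib (g g' : ℝ → ℝ → ℝ) (x0 ε R : ℝ) (hε : 0 < ε)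
    (hd : ∀ x, |x - x0| < ε → ∀ τ, HasDerivAt (fun x => g x τ) (g' x τ) x)
    (hc : ∀ x, |x - x0| < ε → Continuous (g x))
    (hc' : ContinuousOn (fun q : ℝ × ℝ => g' q.1 q.2) (Metric.ball x0 ε ×ˢ univ))
    (hs : ∀ x, |x - x0| < ε → ∀ τ, R < |τ| → g x τ = 0 ∧ g' x τ = 0) :
    HasDerivAt (fun x => ∫ τ, g x τ) (∫ τ, g' x0 τ) x0 := by
  have hcomp : IsCompact (Metric.closedBall x0 (ε / 2) ×ˢ Icc (-R) R) :=
    (isCompact_closedBall x0 (ε / 2)).prod isCompact_Icc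
  obtain ⟨B, hB⟩ := hcomp.exists_bound_of_continuousOn (hc'.mono (by
    rintro ⟨x, τ⟩ ⟨h1, -⟩
    refine ⟨Metric.mem_ball.2 ?_, mem_univ _⟩
    have := Metric.mem_closedBall.1 h1
    linarith))
  have hx0 : |x0 - x0| < ε := by rw [sub_self, abs_zero]; exact hε
  refine (hasDerivAt_integral_of_dominated_loc_of_deriv_le (F := g) (F' := g')
    (bound := (Icc (-R) R).indicator fun _ => |B|) (Metric.ball_mem_nhds x0 (half_pos hε))
    ?_ ?_ ?_ ?_ ?_ ?_).2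
  · filter_upwards [Metric.ball_mem_nhds x0 hε] with x hx
    exact (hc x (by rw [← Real.dist_eq]; exact hx)).aestronglyMeasurable
  · refine (hc x0 hx0).integrable_of_hasCompactSupport ?_
    refine HasCompactSupport.intro (isCompact_Icc (a := -R) (b := R)) ?_
    intro τ hτ
    refine (hs x0 hx0 τ ?_).1
    by_contra hcon
    push Not at hcon
    exact hτ (abs_le.1 hcon)
  · have h1 := hc'.comp_continuous (f := fun τ : ℝ => (x0, τ))
      (continuous_const.prodMk continuous_id)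
      (fun τ => ⟨Metric.mem_ball_self hε, mem_univ _⟩)
    exact h1.aestronglyMeasurable
  · refine Filter.Eventually.of_forall fun τ x hx => ?_
    have hx' : |x - x0| < ε / 2 := by rw [← Real.dist_eq]; exact hx
    by_cases hτ : τ ∈ Icc (-R) R
    · rw [indicator_of_mem hτ]
      refine (hB (x, τ) ⟨Metric.mem_closedBall.2 ?_, hτ⟩).trans (le_abs_self B)
      rw [Real.dist_eq]
      exact hx'.le
    · rw [indicator_of_notMem hτ, (hs x (by linarith) τ ?_).2, norm_zero]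
      by_contra hcon
      push Not at hcon
      exact hτ (abs_le.1 hcon)
  · exact (integrable_indicator_iff measurableSet_Icc).2
      (integrableOn_const (by simp) )
  · refine Filter.Eventually.of_forall fun τ x hx => ?_
    have hx' : |x - x0| < ε / 2 := by rw [← Real.dist_eq]; exact hx
    exact hd x (by linarith) τ

private theorem fd_dp {D : FData} (h : D.Ok) {φ φ' : ℝ × ℝ → ℝ} (hφ : Continuous φ)
    (hφ' : Continuous φ') (hd : ∀ z : ℝ × ℝ, HasDerivAt (fun p => φ (p, z.2)) (φ' z) z.1)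
    {L Lp : ℝ × ℝ → ℝ → ℝ} (hL : FdKn D L) (hLp : FdKn D Lp)
    (hLd : ∀ z, z ∉ D.S3 → ∀ τ, HasDerivAt (fun p => L (p, z.2) τ) (Lp z τ) z.1)
    {z : ℝ × ℝ} (hz : z ∉ D.S3) :
    HasDerivAt (fun p => ∫ τ, φ (p, τ) * L (p, z.2) τ)
      (∫ τ, (φ' (z.1, τ) * L z τ + φ (z.1, τ) * Lp z τ)) z.1 := by
  obtain ⟨ε, hε, hε1, hb⟩ := fd_nb h (z0 := z) hz
  have hdist : ∀ x : ℝ, |x - z.1| < ε → dist (x, z.2) z < ε := by
    intro x hx
    rw [Prod.dist_eq, max_lt_iff]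
    constructor
    · rw [Real.dist_eq]; exact hx
    · show dist z.2 z.2 < ε
      rw [dist_self]; exact hε
  have hoff : ∀ x : ℝ, |x - z.1| < ε → ((x, z.2) : ℝ × ℝ) ∉ D.S3 := fun x hx => hb _ (hdist x hx)
  have hfar : ∀ M : ℝ × ℝ → ℝ → ℝ, FdKn D M → ∀ x : ℝ, |x - z.1| < ε → ∀ τ,
      |z.2| + 2 < |τ| → M (x, z.2) τ = 0 := fun M hM x hx τ hτ =>
    fd_far h hM (hoff x hx) ((hdist x hx).trans_le hε1) hτ
  refine fd_leib (fun p τ => φ (p, τ) * L (p, z.2) τ)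
    (fun p τ => φ' (p, τ) * L (p, z.2) τ + φ (p, τ) * Lp (p, z.2) τ) z.1 ε (|z.2| + 2) hε
    ?_ ?_ ?_ ?_
  · intro x hx τ
    exact (hd (x, τ)).mul (hLd (x, z.2) (hoff x hx) τ)
  · intro x hx
    exact (hφ.comp (continuous_const.prodMk continuous_id)).mul (fd_slice hL (hoff x hx))
  · have hm : ∀ M : ℝ × ℝ → ℝ → ℝ, FdKn D M →
        ContinuousOn (fun q : ℝ × ℝ => M (q.1, z.2) q.2) (Metric.ball z.1 ε ×ˢ univ) := by
      intro M hM
      refine hM.c.comp (f := fun q : ℝ × ℝ => ((q.1, z.2), q.2)) ?_ ?_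
      · exact ((continuous_fst.prodMk continuous_const).prodMk continuous_snd).continuousOn
      · rintro ⟨x, τ⟩ ⟨h1, -⟩
        refine ⟨hoff x ?_, mem_univ _⟩
        rw [← Real.dist_eq]
        exact h1
    exact (hφ'.continuousOn.mul (hm L hL)).add (hφ.continuousOn.mul (hm Lp hLp))
  · intro x hx τ hτ
    constructor
    · show φ (x, τ) * L (x, z.2) τ = 0
      rw [hfar L hL x hx τ hτ, mul_zero]
    · show φ' (x, τ) * L (x, z.2) τ + φ (x, τ) * Lp (x, z.2) τ = 0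
      rw [hfar L hL x hx τ hτ, hfar Lp hLp x hx τ hτ, mul_zero, mul_zero, add_zero]

private theorem fd_dt {D : FData} (h : D.Ok) {φ ψ : ℝ → ℝ} (hφ : Continuous φ)
    (hψ : Continuous ψ) {L Lt N Nt : ℝ × ℝ → ℝ → ℝ} (hL : FdKn D L) (hLt : FdKn D Lt)
    (hN : FdKn D N) (hNt : FdKn D Nt)
    (hLd : ∀ z, z ∉ D.S3 → ∀ τ, HasDerivAt (fun t => L (z.1, t) τ) (Lt z τ) z.2)
    (hNd : ∀ z, z ∉ D.S3 → ∀ τ, HasDerivAt (fun t => N (z.1, t) τ) (Nt z τ) z.2)
    {z : ℝ × ℝ} (hz : z ∉ D.S3) :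
    HasDerivAt (fun t => ∫ τ, (φ τ * L (z.1, t) τ + ψ τ * N (z.1, t) τ))
      (∫ τ, (φ τ * Lt z τ + ψ τ * Nt z τ)) z.2 := by
  obtain ⟨ε, hε, hε1, hb⟩ := fd_nb h (z0 := z) hz
  have hdist : ∀ x : ℝ, |x - z.2| < ε → dist (z.1, x) z < ε := by
    intro x hx
    rw [Prod.dist_eq, max_lt_iff]
    constructor
    · show dist z.1 z.1 < ε
      rw [dist_self]; exact hε
    · rw [Real.dist_eq]; exact hx
  have hoff : ∀ x : ℝ, |x - z.2| < ε → ((z.1, x) : ℝ × ℝ) ∉ D.S3 := fun x hx => hb _ (hdist x hx)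
  have hfar : ∀ M : ℝ × ℝ → ℝ → ℝ, FdKn D M → ∀ x : ℝ, |x - z.2| < ε → ∀ τ,
      |z.2| + 2 < |τ| → M (z.1, x) τ = 0 := fun M hM x hx τ hτ =>
    fd_far h hM (hoff x hx) ((hdist x hx).trans_le hε1) hτ
  refine fd_leib (fun t τ => φ τ * L (z.1, t) τ + ψ τ * N (z.1, t) τ)
    (fun t τ => φ τ * Lt (z.1, t) τ + ψ τ * Nt (z.1, t) τ) z.2 ε (|z.2| + 2) hε
    ?_ ?_ ?_ ?_
  · intro x hx τ
    exact ((hLd (z.1, x) (hoff x hx) τ).const_mul (φ τ)).add
      ((hNd (z.1, x) (hoff x hx) τ).const_mul (ψ τ))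
  · intro x hx
    exact (hφ.mul (fd_slice hL (hoff x hx))).add (hψ.mul (fd_slice hN (hoff x hx)))
  · have hm : ∀ M : ℝ × ℝ → ℝ → ℝ, FdKn D M →
        ContinuousOn (fun q : ℝ × ℝ => M (z.1, q.1) q.2) (Metric.ball z.2 ε ×ˢ univ) := by
      intro M hM
      refine hM.c.comp (f := fun q : ℝ × ℝ => ((z.1, q.1), q.2)) ?_ ?_
      · exact ((continuous_const.prodMk continuous_fst).prodMk continuous_snd).continuousOn
      · rintro ⟨x, τ⟩ ⟨h1, -⟩
        refine ⟨hoff x ?_, mem_univ _⟩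
        rw [← Real.dist_eq]
        exact h1
    exact ((hφ.comp continuous_snd).continuousOn.mul (hm Lt hLt)).add
      ((hψ.comp continuous_snd).continuousOn.mul (hm Nt hNt))
  · intro x hx τ hτ
    constructor
    · show φ τ * L (z.1, x) τ + ψ τ * N (z.1, x) τ = 0
      rw [hfar L hL x hx τ hτ, hfar N hN x hx τ hτ, mul_zero, mul_zero, add_zero]
    · show φ τ * Lt (z.1, x) τ + ψ τ * Nt (z.1, x) τ = 0
      rw [hfar Lt hLt x hx τ hτ, hfar Nt hNt x hx τ hτ, mul_zero, mul_zero, add_zero]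

private theorem fd_pos {D : FData} (h : D.Ok) {z : ℝ × ℝ} (hz : z ∉ D.S3) : 0 < D.rh z :=
  h.rb.pos z hz

private theorem fd_w1c {D : FData} (h : D.Ok) : Continuous (W1 D.r D.W) :=
  w1_continuous D.r h.ra.cont D.W h.c11.cont

private theorem fd_d1c {D : FData} (h : D.Ok) : Continuous (D1 D.r D.r1 D.W) :=
  d1_continuous D.C D.W h.c11 D.r D.r1 h.ra.cont h.ra.c1

private theorem fd_w1d {D : FData} (h : D.Ok) (z : ℝ × ℝ) :
    HasDerivAt (fun p => W1 D.r D.W (p, z.2)) (D1 D.r D.r1 D.W z) z.1 :=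
  w1_hasDeriv_p D.C D.W h.c11 D.r D.r1 h.ra.d1 h.ra.c1 z

private theorem fd_eta {D : FData} (h : D.Ok) {z : ℝ × ℝ} (hz : z ∉ D.S3) :
    Tendsto (fun z' => ∫ τ, |KK D.rh z' τ - KK D.rh z τ|) (𝓝 z) (𝓝 0) := by
  obtain ⟨ε, hε, hε1, hb⟩ := fd_nb h (z0 := z) hz
  obtain ⟨hK, -⟩ := fd_K h
  have h1 : ContinuousOn (fun z' => ∫ τ, |KK D.rh z' τ - KK D.rh z τ|) (Metric.ball z ε) := by
    refine continuousOn_integral_of_compact_support
      (isCompact_Icc (a := -(|z.2| + 2)) (b := |z.2| + 2)) ?_ ?_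
    · refine ContinuousOn.abs (ContinuousOn.sub ?_ ?_)
      · refine hK.c.mono ?_
        rintro ⟨z', τ⟩ ⟨h2, -⟩
        exact ⟨hb z' (Metric.mem_ball.1 h2), mem_univ _⟩
      · exact ((fd_slice hK hz).comp continuous_snd).continuousOn
    · intro z' τ hz' hτ
      have hτ' : |z.2| + 2 < |τ| := by
        by_contra hcon
        push Not at hcon
        exact hτ (abs_le.1 hcon)
      show |KK D.rh z' τ - KK D.rh z τ| = 0
      rw [fd_far h hK (hb z' (Metric.mem_ball.1 hz')) ((Metric.mem_ball.1 hz').trans_le hε1) hτ',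
        fd_far h hK hz (by rw [dist_self]; exact one_pos) hτ', sub_zero, abs_zero]
  have h2 := (h1.continuousAt (Metric.ball_mem_nhds z hε)).tendsto
  simpa using h2

private theorem fd_wn (φ K : ℝ → ℝ) (hφ : Measurable φ) (B : ℝ) (hB : ∀ t, |φ t| ≤ B) (c R : ℝ)
    (hK0 : ∀ τ, 0 ≤ K τ) (hK : ∀ τ, K τ ≤ c) (hs : ∀ τ, R < |τ| → K τ = 0) :
    |∫ τ, φ τ * K τ| ≤ c * (1 + R ^ 2) * wn φ := by
  have hc : 0 ≤ c := (hK0 0).trans (hK 0)
  have h1 := wn_integrable φ hφ B hB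
  have h2 : ‖∫ τ, φ τ * K τ‖ ≤ ∫ τ, c * (1 + R ^ 2) * (|φ τ| / (1 + τ ^ 2)) := by
    refine norm_integral_le_of_norm_le (h1.const_mul _) (Filter.Eventually.of_forall fun τ => ?_)
    rw [norm_mul, Real.norm_eq_abs, Real.norm_of_nonneg (hK0 τ)]
    rcases lt_or_ge R |τ| with h3 | h3
    · rw [hs τ h3, mul_zero]
      positivity
    · have h4 : τ ^ 2 ≤ R ^ 2 := by
        rw [← sq_abs τ]
        exact pow_le_pow_left₀ (abs_nonneg τ) h3 2
      have h5 : |φ τ| ≤ (1 + R ^ 2) * (|φ τ| / (1 + τ ^ 2)) := by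
        rw [mul_div_assoc', le_div_iff₀ (by positivity)]
        have := abs_nonneg (φ τ)
        nlinarith
      calc |φ τ| * K τ ≤ |φ τ| * c := mul_le_mul_of_nonneg_left (hK τ) (abs_nonneg _)
        _ ≤ (1 + R ^ 2) * (|φ τ| / (1 + τ ^ 2)) * c := mul_le_mul_of_nonneg_right h5 hc
        _ = c * (1 + R ^ 2) * (|φ τ| / (1 + τ ^ 2)) := by ring
  rw [integral_const_mul] at h2
  exact h2

private theorem fd_g1m {D : FData} (h : D.Ok) : Measurable (G1 D.r D.r1 D.r2 D.W) :=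
  g1_meas D.C D.W h.c11 D.P h.gl D.r D.r1 D.r2 D.σ h.σ4 h.ra

private theorem fd_g1b {D : FData} (h : D.Ok) (z : ℝ × ℝ) :
    |G1 D.r D.r1 D.r2 D.W z| ≤ 2 * D.C :=
  g1_bd D.C D.W h.c11 D.P h.gl D.r D.r1 D.r2 D.σ h.σ4 h.ra z

private theorem fd_g1s {D : FData} (h : D.Ok) (q : ℝ) :
    Measurable fun τ => G1 D.r D.r1 D.r2 D.W (q, τ) :=
  (fd_g1m h).comp measurable_prodMk_left

private theorem fd_g1int {D : FData} (h : D.Ok) (q : ℝ) {K : ℝ → ℝ} (hK : Integrable K) :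
    Integrable fun τ => G1 D.r D.r1 D.r2 D.W (q, τ) * K τ := by
  refine hK.bdd_mul (c := 2 * D.C) (fd_g1s h q).aestronglyMeasurable
    (Filter.Eventually.of_forall fun τ => ?_)
  rw [Real.norm_eq_abs]
  exact fd_g1b h _

private theorem fd_diff {D : FData} (h : D.Ok) (p p' : ℝ) {z : ℝ × ℝ} (hz : z ∉ D.S3) (z0 : ℝ × ℝ)
    (hd : dist z z0 < 1) :
    |(∫ τ, G1 D.r D.r1 D.r2 D.W (p, τ) * KK D.rh z τ) -
      ∫ τ, G1 D.r D.r1 D.r2 D.W (p', τ) * KK D.rh z τ| ≤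
      2 / D.rh z * (1 + (|z0.2| + 2) ^ 2) *
        wn (fun t => G1 D.r D.r1 D.r2 D.W (p, t) - G1 D.r D.r1 D.r2 D.W (p', t)) := by
  obtain ⟨hK, -⟩ := fd_K h
  have hKi := fd_int h hK hz
  rw [← integral_sub (fd_g1int h p hKi) (fd_g1int h p' hKi)]
  have e : (fun τ => G1 D.r D.r1 D.r2 D.W (p, τ) * KK D.rh z τ -
      G1 D.r D.r1 D.r2 D.W (p', τ) * KK D.rh z τ) = fun τ =>
      (G1 D.r D.r1 D.r2 D.W (p, τ) - G1 D.r D.r1 D.r2 D.W (p', τ)) * KK D.rh z τ := by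
    funext τ; ring
  rw [e]
  refine fd_wn (fun τ => G1 D.r D.r1 D.r2 D.W (p, τ) - G1 D.r D.r1 D.r2 D.W (p', τ)) (KK D.rh z)
    ((fd_g1s h p).sub (fd_g1s h p')) (2 * D.C + 2 * D.C) ?_ _ _
    (kk_nonneg D.rh z (fd_pos h hz)) (kk_le D.rh z (fd_pos h hz)) ?_
  · intro t
    exact (abs_sub _ _).trans (add_le_add (fd_g1b h _) (fd_g1b h _))
  · intro τ hτ
    exact fd_far h hK hz hd hτ

private theorem fd_gkc {D : FData} (h : D.Ok) : ContinuousOn D.GK D.S3ᶜ := by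
  intro z hz
  refine ContinuousAt.continuousWithinAt ?_
  obtain ⟨ε, hε, hε1, hb⟩ := fd_nb h (z0 := z) hz
  obtain ⟨hK, -⟩ := fd_K h
  have hr := fd_pos h hz
  set E : ℝ := 2 / (D.rh z / 2) * (1 + (|z.2| + 2) ^ 2) with hE
  have hE0 : 0 < E := by positivity
  rw [ContinuousAt, Metric.tendsto_nhds]
  intro κ hκ
  obtain ⟨δ, hδ, hg⟩ := g1_cont D.C D.W h.c11 D.P h.gl D.r D.r1 D.r2 D.σ h.σ4 h.ra z.1
    (κ / (3 * E)) (by positivity)
  have hη := fd_eta h (z := z) hz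
  have hη' := (hη.const_mul (2 * D.C)).eventually_lt_const (u := κ / 3) (by
    rw [mul_zero]; positivity)
  have hrh : ∀ᶠ z' in 𝓝 z, D.rh z / 2 < D.rh z' :=
    h.rb.cont.continuousAt.eventually_const_lt (by linarith)
  filter_upwards [Metric.ball_mem_nhds z hε, Metric.ball_mem_nhds z hδ, hη', hrh]
    with z' h1 h2 h3 h4
  have hz' : z' ∉ D.S3 := hb z' (Metric.mem_ball.1 h1)
  have hd1 : dist z' z < 1 := (Metric.mem_ball.1 h1).trans_le hε1
  have h5 : |z'.1 - z.1| ≤ δ := by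
    have : dist z'.1 z.1 ≤ dist z' z := by
      rw [Prod.dist_eq]; exact le_max_left _ _
    rw [Real.dist_eq] at this
    exact this.trans (Metric.mem_ball.1 h2).le
  have h6 := hg z'.1 h5
  have h7 := fd_diff h z'.1 z.1 hz' z hd1
  have h8 : 2 / D.rh z' * (1 + (|z.2| + 2) ^ 2) *
      wn (fun t => G1 D.r D.r1 D.r2 D.W (z'.1, t) - G1 D.r D.r1 D.r2 D.W (z.1, t)) ≤
      E * (κ / (3 * E)) := by
    refine mul_le_mul ?_ h6 (wn_nonneg _) hE0.le
    refine mul_le_mul_of_nonneg_right ?_ (by positivity)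
    exact div_le_div_of_nonneg_left (by norm_num) (by positivity) h4.le
  have h9 : E * (κ / (3 * E)) = κ / 3 := by field_simp
  have hKi := fd_int h hK hz
  have hKi' := fd_int h hK hz'
  have h10 : |(∫ τ, G1 D.r D.r1 D.r2 D.W (z.1, τ) * KK D.rh z' τ) -
      ∫ τ, G1 D.r D.r1 D.r2 D.W (z.1, τ) * KK D.rh z τ| ≤
      2 * D.C * ∫ τ, |KK D.rh z' τ - KK D.rh z τ| := by
    rw [← integral_sub (fd_g1int h z.1 hKi') (fd_g1int h z.1 hKi), ← integral_const_mul,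
      ← Real.norm_eq_abs]
    refine norm_integral_le_of_norm_le ((hKi'.sub hKi).abs.const_mul _)
      (Filter.Eventually.of_forall fun τ => ?_)
    have e : G1 D.r D.r1 D.r2 D.W (z.1, τ) * KK D.rh z' τ -
        G1 D.r D.r1 D.r2 D.W (z.1, τ) * KK D.rh z τ =
        G1 D.r D.r1 D.r2 D.W (z.1, τ) * (KK D.rh z' τ - KK D.rh z τ) := by ring
    rw [e, norm_mul, Real.norm_eq_abs, Real.norm_eq_abs]
    exact mul_le_mul_of_nonneg_right (fd_g1b h _) (abs_nonneg _)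
  rw [Real.dist_eq]
  have h11 : |D.GK z' - D.GK z| ≤
      |(∫ τ, G1 D.r D.r1 D.r2 D.W (z'.1, τ) * KK D.rh z' τ) -
        ∫ τ, G1 D.r D.r1 D.r2 D.W (z.1, τ) * KK D.rh z' τ| +
      |(∫ τ, G1 D.r D.r1 D.r2 D.W (z.1, τ) * KK D.rh z' τ) -
        ∫ τ, G1 D.r D.r1 D.r2 D.W (z.1, τ) * KK D.rh z τ| := abs_sub_le _ _ _
  linarith

/-- the derivative of the first term of `H1` -/
private theorem fd_special {D : FData} (h : D.Ok) {z : ℝ × ℝ} (hz : z ∉ D.S3) :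
    HasDerivAt (fun p => ∫ τ, D1 D.r D.r1 D.W (p, τ) * KK D.rh (p, z.2) τ)
      (D.GK z + ∫ τ, D1 D.r D.r1 D.W (z.1, τ) * D.Kp z τ) z.1 := by
  obtain ⟨ε, hε, hε1, hb⟩ := fd_nb h (z0 := z) hz
  obtain ⟨hK, hKp, -⟩ := fd_K h
  have hr := fd_pos h hz
  have hdc := fd_d1c h
  have hKi := fd_int h hK hz
  have hdint : ∀ p1 p2 t : ℝ, D1 D.r D.r1 D.W (p2, t) - D1 D.r D.r1 D.W (p1, t) =
      ∫ p in p1..p2, G1 D.r D.r1 D.r2 D.W (p, t) := fun p1 p2 t =>
    d1_int D.C D.W h.c11 D.P h.gl D.r D.r1 D.r2 D.σ h.σ4 h.ra t p1 p2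
  have hi : ∀ (p : ℝ) {M : ℝ × ℝ → ℝ → ℝ}, FdKn D M → ∀ z' : ℝ × ℝ, z' ∉ D.S3 →
      Integrable fun τ => D1 D.r D.r1 D.W (p, τ) * M z' τ := by
    intro p M hM z' hz'
    have hc : Continuous fun τ => D1 D.r D.r1 D.W (p, τ) * M z' τ :=
      (hdc.comp (continuous_const.prodMk continuous_id)).mul (fd_slice hM hz')
    exact hc.integrable_of_hasCompactSupport ((fd_hcs h hM hz').mul_left)
  -- first part
  set γ : ℝ → ℝ := fun q => ∫ τ, G1 D.r D.r1 D.r2 D.W (q, τ) * KK D.rh z τ with hγ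
  have hT1 : HasDerivAt (fun p => ∫ τ, D1 D.r D.r1 D.W (p, τ) * KK D.rh z τ) (D.GK z) z.1 := by
    have hmeas : Measurable (fun x : ℝ × ℝ => G1 D.r D.r1 D.r2 D.W x * KK D.rh z x.2) :=
      (fd_g1m h).mul ((fd_slice hK hz).measurable.comp measurable_snd)
    have e1 : ∀ p, ∫ τ, D1 D.r D.r1 D.W (p, τ) * KK D.rh z τ =
        (∫ τ, D1 D.r D.r1 D.W (z.1, τ) * KK D.rh z τ) + ∫ q in z.1..p, γ q := by
      intro p
      have e2 : ∫ q in z.1..p, γ q =
          ∫ τ, ∫ q in z.1..p, G1 D.r D.r1 D.r2 D.W (q, τ) * KK D.rh z τ := by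
        refine intervalIntegral_integral_swap
          (f := fun q τ => G1 D.r D.r1 D.r2 D.W (q, τ) * KK D.rh z τ) ?_
        have h1 : Integrable (fun _ : ℝ => 2 * D.C) (volume.restrict (uIoc z.1 p)) := by
          refine integrable_const_iff.2 (Or.inr ?_)
          refine ⟨?_⟩
          rw [Measure.restrict_apply_univ]
          rw [uIoc]
          exact measure_Ioc_lt_top
        have h2 := h1.mul_prod (hKi.abs)
        refine h2.mono' hmeas.aestronglyMeasurable (Filter.Eventually.of_forall fun x => ?_)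
        show ‖G1 D.r D.r1 D.r2 D.W x * KK D.rh z x.2‖ ≤ 2 * D.C * |KK D.rh z x.2|
        rw [norm_mul, Real.norm_eq_abs, Real.norm_eq_abs]
        exact mul_le_mul_of_nonneg_right (fd_g1b h _) (abs_nonneg _)
      rw [e2, ← sub_eq_iff_eq_add', ← integral_sub (hi p hK z hz) (hi z.1 hK z hz)]
      congr 1
      funext τ
      rw [intervalIntegral.integral_mul_const, ← hdint z.1 p τ]
      ring
    have e3 : (fun p => ∫ τ, D1 D.r D.r1 D.W (p, τ) * KK D.rh z τ) = fun p =>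
        (∫ τ, D1 D.r D.r1 D.W (z.1, τ) * KK D.rh z τ) + ∫ q in z.1..p, γ q := funext e1
    rw [e3]
    have hγz : γ z.1 = D.GK z := rfl
    rw [← hγz]
    refine HasDerivAt.const_add _ ?_
    refine intervalIntegral.integral_hasDerivAt_right IntervalIntegrable.refl ?_ ?_
    · have hsm : StronglyMeasurable γ :=
        StronglyMeasurable.integral_prod_right
          (f := fun q τ => G1 D.r D.r1 D.r2 D.W (q, τ) * KK D.rh z τ) hmeas.stronglyMeasurable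
      exact hsm.stronglyMeasurableAtFilter
    · rw [ContinuousAt, Metric.tendsto_nhds]
      intro κ hκ
      set E : ℝ := 2 / D.rh z * (1 + (|z.2| + 2) ^ 2) with hE
      have hE0 : 0 < E := by positivity
      obtain ⟨δ, hδ, hg⟩ := g1_cont D.C D.W h.c11 D.P h.gl D.r D.r1 D.r2 D.σ h.σ4 h.ra z.1
        (κ / (2 * E)) (by positivity)
      filter_upwards [Metric.ball_mem_nhds z.1 hδ] with q hq
      have h5 : |q - z.1| ≤ δ := by rw [← Real.dist_eq]; exact (Metric.mem_ball.1 hq).le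
      have h6 := hg q h5
      have h7 := fd_diff h q z.1 hz z (by rw [dist_self]; exact one_pos)
      have h8 : E * wn (fun t => G1 D.r D.r1 D.r2 D.W (q, t) - G1 D.r D.r1 D.r2 D.W (z.1, t)) ≤
          E * (κ / (2 * E)) := mul_le_mul_of_nonneg_left h6 hE0.le
      have h9 : E * (κ / (2 * E)) = κ / 2 := by field_simp
      rw [Real.dist_eq]
      have h10 : |γ q - γ z.1| ≤ κ / 2 := by
        rw [← h9]
        exact h7.trans h8
      linarith
  -- second part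
  have hT2 : HasDerivAt (fun p => ∫ τ, D1 D.r D.r1 D.W (z.1, τ) * KK D.rh (p, z.2) τ)
      (∫ τ, D1 D.r D.r1 D.W (z.1, τ) * D.Kp z τ) z.1 := by
    have h1 := fd_dp h (φ := fun x => D1 D.r D.r1 D.W (z.1, x.2)) (φ' := fun _ => 0)
      (hdc.comp (continuous_const.prodMk continuous_snd)) continuous_const
      (fun y => by exact hasDerivAt_const y.1 (D1 D.r D.r1 D.W (z.1, y.2))) hK hKp h.kd.hp hz
    simpa using h1
  -- third part
  have hT3 : HasDerivAt (fun p => ∫ τ, (D1 D.r D.r1 D.W (p, τ) - D1 D.r D.r1 D.W (z.1, τ)) *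
      (KK D.rh (p, z.2) τ - KK D.rh z τ)) 0 z.1 := by
    rw [hasDerivAt_iff_isLittleO]
    simp only [sub_self, zero_mul, integral_zero, sub_zero, smul_zero]
    rw [Asymptotics.isLittleO_iff]
    intro c hc
    have hη := fd_eta h (z := z) hz
    have hcont : Tendsto (fun p : ℝ => ((p, z.2) : ℝ × ℝ)) (𝓝 z.1) (𝓝 z) := by
      have : Continuous fun p : ℝ => ((p, z.2) : ℝ × ℝ) := continuous_id.prodMk continuous_const
      exact this.tendsto z.1
    have hη2 := ((hη.comp hcont).const_mul (2 * D.C)).eventually_lt_const (u := c) (by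
      rw [mul_zero]; exact hc)
    filter_upwards [hη2, Metric.ball_mem_nhds z.1 hε] with p h1 h2
    have hp : ((p, z.2) : ℝ × ℝ) ∉ D.S3 := by
      apply hb
      rw [Prod.dist_eq, max_lt_iff]
      constructor
      · exact h2
      · show dist z.2 z.2 < ε
        rw [dist_self]; exact hε
    have hKi' := fd_int h hK hp
    have h3 : ∀ τ, |D1 D.r D.r1 D.W (p, τ) - D1 D.r D.r1 D.W (z.1, τ)| ≤
        2 * D.C * |p - z.1| := by
      intro τ
      rw [hdint z.1 p τ, ← Real.norm_eq_abs]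
      exact intervalIntegral.norm_integral_le_of_norm_le_const (fun q _ => by
        rw [Real.norm_eq_abs]; exact fd_g1b h _)
    have h4 : ‖∫ τ, (D1 D.r D.r1 D.W (p, τ) - D1 D.r D.r1 D.W (z.1, τ)) *
        (KK D.rh (p, z.2) τ - KK D.rh z τ)‖ ≤
        ∫ τ, 2 * D.C * |p - z.1| * |KK D.rh (p, z.2) τ - KK D.rh z τ| := by
      refine norm_integral_le_of_norm_le ((hKi'.sub hKi).abs.const_mul _)
        (Filter.Eventually.of_forall fun τ => ?_)
      rw [norm_mul, Real.norm_eq_abs, Real.norm_eq_abs]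
      exact mul_le_mul_of_nonneg_right (h3 τ) (abs_nonneg _)
    rw [integral_const_mul] at h4
    refine h4.trans ?_
    have h5 : 2 * D.C * ∫ τ, |KK D.rh (p, z.2) τ - KK D.rh z τ| < c := h1
    rw [Real.norm_eq_abs]
    calc 2 * D.C * |p - z.1| * ∫ τ, |KK D.rh (p, z.2) τ - KK D.rh z τ|
        = (2 * D.C * ∫ τ, |KK D.rh (p, z.2) τ - KK D.rh z τ|) * |p - z.1| := by ring
      _ ≤ c * |p - z.1| := mul_le_mul_of_nonneg_right h5.le (abs_nonneg _)
  have hall := ((hT1.add hT2).add hT3).sub_const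
    (∫ τ, D1 D.r D.r1 D.W (z.1, τ) * KK D.rh z τ)
  rw [add_zero] at hall
  refine hall.congr_of_eventuallyEq ?_
  filter_upwards [Metric.ball_mem_nhds z.1 hε] with p h2
  have hp : ((p, z.2) : ℝ × ℝ) ∉ D.S3 := by
    apply hb
    rw [Prod.dist_eq, max_lt_iff]
    constructor
    · exact h2
    · show dist z.2 z.2 < ε
      rw [dist_self]; exact hε
  have i1 := hi p hK z hz
  have i2 := hi z.1 hK (p, z.2) hp
  have i3 := hi p hK (p, z.2) hp
  have i4 := hi z.1 hK z hz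
  have e : (fun τ => (D1 D.r D.r1 D.W (p, τ) - D1 D.r D.r1 D.W (z.1, τ)) *
      (KK D.rh (p, z.2) τ - KK D.rh z τ)) = fun τ =>
      (D1 D.r D.r1 D.W (p, τ) * KK D.rh (p, z.2) τ - D1 D.r D.r1 D.W (z.1, τ) *
        KK D.rh (p, z.2) τ) - (D1 D.r D.r1 D.W (p, τ) * KK D.rh z τ -
        D1 D.r D.r1 D.W (z.1, τ) * KK D.rh z τ) := by
    funext τ; ring
  show _ = (∫ τ, D1 D.r D.r1 D.W (p, τ) * KK D.rh z τ) +
    (∫ τ, D1 D.r D.r1 D.W (z.1, τ) * KK D.rh (p, z.2) τ) +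
    (∫ τ, (D1 D.r D.r1 D.W (p, τ) - D1 D.r D.r1 D.W (z.1, τ)) *
      (KK D.rh (p, z.2) τ - KK D.rh z τ)) - _
  have s1 := integral_sub (i3.sub i2) (i1.sub i4)
  have s2 := integral_sub i3 i2
  have s3 := integral_sub i1 i4
  simp only [Pi.sub_apply] at s1
  rw [e, s1, s2, s3]
  ring

theorem h_cont (D : FData) (h : D.Ok) :
    ContinuousOn D.H11 D.S3ᶜ ∧ ContinuousOn D.H12 D.S3ᶜ ∧ ContinuousOn D.H22 D.S3ᶜ := by
  obtain ⟨hK, hKp, hKt, hKpp, hKpt, hKtt⟩ := fd_K h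
  have hd := fd_d1c h
  have hw := fd_w1c h
  refine ⟨?_, ?_, ?_⟩
  · refine (fd_gkc h).add ?_
    refine (fd_contA h (fd_add (fd_mul hKp (hd.const_mul 2)) (fd_mul hKpp hw))).congr ?_
    intro z _
    show (∫ τ, (2 * (D1 D.r D.r1 D.W (z.1, τ) * D.Kp z τ) + W1 D.r D.W (z.1, τ) * D.Kpp z τ)) =
      ∫ τ, (2 * D1 D.r D.r1 D.W (z.1, τ) * D.Kp z τ + W1 D.r D.W (z.1, τ) * D.Kpp z τ)
    congr 1
    funext τ
    ring
  · exact fd_contA h (fd_add (fd_mul hKt hd) (fd_mul hKpt hw))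
  · exact fd_contA h (fd_mul hKtt hw)

theorem h_deriv_w2 (D : FData) (h : D.Ok) (z : ℝ × ℝ) (hz : z ∉ D.S3) :
    HasDerivAt (fun p => D.w2 (p, z.2)) (D.H1 z) z.1 ∧
      HasDerivAt (fun t => D.w2 (z.1, t)) (D.H2 z) z.2 := by
  obtain ⟨hK, hKp, hKt, hKpp, hKpt, hKtt⟩ := fd_K h
  have hd := fd_d1c h
  have hw := fd_w1c h
  obtain ⟨ε, hε, hε1, hb⟩ := fd_nb h (z0 := z) hz
  constructor
  · refine (fd_dp h hw hd (fd_w1d h) hK hKp h.kd.hp hz).congr_of_eventuallyEq ?_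
    filter_upwards [Metric.ball_mem_nhds z.1 hε] with p h2
    have hp : ((p, z.2) : ℝ × ℝ) ∉ D.S3 := by
      apply hb
      rw [Prod.dist_eq, max_lt_iff]
      constructor
      · exact h2
      · show dist z.2 z.2 < ε
        rw [dist_self]; exact hε
    exact w2_eq D.r D.rh D.W (p, z.2) (fd_pos h hp)
  · have h1 := fd_dt h (φ := fun τ => W1 D.r D.W (z.1, τ)) (ψ := fun _ => 0)
      (hw.comp (continuous_const.prodMk continuous_id)) continuous_const hK hKt hK hKt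
      h.kd.ht h.kd.ht hz
    simp only [zero_mul, add_zero] at h1
    refine h1.congr_of_eventuallyEq ?_
    filter_upwards [Metric.ball_mem_nhds z.2 hε] with t h2
    have hp : ((z.1, t) : ℝ × ℝ) ∉ D.S3 := by
      apply hb
      rw [Prod.dist_eq, max_lt_iff]
      constructor
      · show dist z.1 z.1 < ε
        rw [dist_self]; exact hε
      · exact h2
    exact w2_eq D.r D.rh D.W (z.1, t) (fd_pos h hp)

theorem h_deriv_H1p (D : FData) (h : D.Ok) (z : ℝ × ℝ) (hz : z ∉ D.S3) :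
    HasDerivAt (fun p => D.H1 (p, z.2)) (D.H11 z) z.1 := by
  obtain ⟨hK, hKp, hKt, hKpp, hKpt, hKtt⟩ := fd_K h
  have hd := fd_d1c h
  have hw := fd_w1c h
  obtain ⟨ε, hε, hε1, hb⟩ := fd_nb h (z0 := z) hz
  have h1 := (fd_special h hz).add (fd_dp h hw hd (fd_w1d h) hKp hKpp h.kd.hpp hz)
  have ia : Integrable fun τ => D1 D.r D.r1 D.W (z.1, τ) * D.Kp z τ :=
    fd_int h (fd_mul hKp hd) hz
  have ib : Integrable fun τ => W1 D.r D.W (z.1, τ) * D.Kpp z τ :=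
    fd_int h (fd_mul hKpp hw) hz
  have e1 : D.GK z + (∫ τ, D1 D.r D.r1 D.W (z.1, τ) * D.Kp z τ) +
      (∫ τ, (D1 D.r D.r1 D.W (z.1, τ) * D.Kp z τ + W1 D.r D.W (z.1, τ) * D.Kpp z τ)) =
      D.H11 z := by
    unfold FData.H11
    have s1 := integral_add ia (ia.add ib)
    simp only [Pi.add_apply] at s1
    rw [add_assoc, ← s1]
    congr 2
    funext τ
    ring
  rw [e1] at h1
  refine h1.congr_of_eventuallyEq ?_
  filter_upwards [Metric.ball_mem_nhds z.1 hε] with p h2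
  have hp : ((p, z.2) : ℝ × ℝ) ∉ D.S3 := by
    apply hb
    rw [Prod.dist_eq, max_lt_iff]
    constructor
    · exact h2
    · show dist z.2 z.2 < ε
      rw [dist_self]; exact hε
  exact integral_add (fd_int h (fd_mul hK hd) hp) (fd_int h (fd_mul hKp hw) hp)

theorem h_deriv_rest (D : FData) (h : D.Ok) (z : ℝ × ℝ) (hz : z ∉ D.S3) :
    HasDerivAt (fun t => D.H1 (z.1, t)) (D.H12 z) z.2 ∧
      HasDerivAt (fun p => D.H2 (p, z.2)) (D.H12 z) z.1 ∧
      HasDerivAt (fun t => D.H2 (z.1, t)) (D.H22 z) z.2 := by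
  obtain ⟨hK, hKp, hKt, hKpp, hKpt, hKtt⟩ := fd_K h
  have hd := fd_d1c h
  have hw := fd_w1c h
  have hdz : Continuous fun τ => D1 D.r D.r1 D.W (z.1, τ) :=
    hd.comp (continuous_const.prodMk continuous_id)
  have hwz : Continuous fun τ => W1 D.r D.W (z.1, τ) :=
    hw.comp (continuous_const.prodMk continuous_id)
  refine ⟨?_, ?_, ?_⟩
  · exact fd_dt h hdz hwz hK hKt hKp hKpt h.kd.ht h.kd.hpt hz
  · exact fd_dp h hw hd (fd_w1d h) hKt hKpt h.kd.htp hz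
  · have h1 := fd_dt h (ψ := fun _ => 0) hwz continuous_const hKt hKtt hKt hKtt
      h.kd.htt h.kd.htt hz
    simp only [zero_mul, add_zero] at h1
    exact h1

end Pool.Agent.MP_4eca41
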