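import Pool.Agent.Work.MP_4eca41_an.F.FDefs

/-!
# F1a: good vertical lines (measure theory)

`exists_lines`: `g` bounded measurable on the plane, `Q` a property which holds a.e.; `T > 0`.  There is a compact `P ⊆ [-T, T]` with empty interior, `volume ([-T,T] \ P) < ε`, `GoodL g P`, and for every
`p ∈ P`, `Q (p, t)` holds for a.e. `t`.

PROOF.  Put `μ = dt/(1+t^2)` (finite measure on the line), `‖φ‖ = wn φ`.  For each `n` choose a continuous, compactly supported (hence uniformly continuous, bounded) `g_n : ℝ × ℝ → ℝ` with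
`∫_{|p| ≤ T+1} ∫ |g - g_n| dμ(t) dp ≤ 4^(-n)` (density of `C_c` in `L^1` of the finite measure `dp|_{[-T-1,T+1]} ⊗ μ`; `MemLp.exists_hasCompactSupport_eLpNorm_sub_le` or
`Integrable.exists_hasCompactSupport_integral_sub_le`).  `e_n p = wn (g (p,·) - g_n (p,·))`: measurable (Fubini), `∫_{|p|≤T+1} e_n ≤ 4^(-n)`, so `∑ e_n < ∞` a.e. and `e_n p → 0` for a.e. `p ∈ [-T,T]`.  By the one-dimensional Lebesgue differentiation theorem
(`IsUnifLocDoublingMeasure.ae_tendsto_average` or `Besicovitch`/`VitaliFamily`), for every `n` and a.e. `p`: `(1/2ρ) ∫_{p-ρ}^{p+ρ} e_n → e_n p` as `ρ → 0`.  Egorov (for the sequence `e_n`, and for each `n` for the functions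
`m ↦ sup_{ρ rational ≤ 1/m} |average - e_n|`, with measure loss `ε 2^(-n-3)`): there is a measurable set `P0 ⊆ [-T,T]`, `|[-T,T] \ P0| < ε/4`, on which all these convergences are uniform.  Remove the null set of `p` for which `Q (p,t)` fails on a non null set of `t`
(Fubini) and, for the empty interior, an open set of measure `< ε/4` containing all rationals; take a compact subset `P` (inner regularity) losing `< ε/4` more.
`co`: `‖g(p) - g(p')‖ ≤ e_n p + e_n p' + ‖g_n (p,·) - g_n (p',·)‖ ≤ 2 sup_P e_n + π sup|g_n (p,t) - g_n (p',t)|`: choose `n` then `δ` (uniform continuity of `g_n`).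
`av`: `∫_{p-ρ}^{p+ρ} ‖g(q) - g(p)‖ dq ≤ ∫ e_n q dq + 2ρ e_n p + ∫ ‖g_n (q,·) - g_n (p,·)‖ dq ≤ 2ρ (e_n p + κ') + 2ρ e_n p + 2ρ κ'` for `ρ ≤ δ`: choose `n` with `sup_P e_n` small, then `δ`.
(For `T ≤ 0` or whatever degenerate case take `P = ∅` if allowed; here `0 < T`.)
-/

set_option autoImplicit false

open Set MeasureTheory

namespace Pool.Agent.MP_4eca41


private theorem inv_int : Integrable fun t : ℝ => (1 + t ^ 2)⁻¹ := integrable_inv_one_add_sq

/-- Elementary facts on the weighted norm. -/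
theorem wn_integrable (φ : ℝ → ℝ) (hφ : Measurable φ) (B : ℝ) (hB : ∀ t, |φ t| ≤ B) :
    Integrable fun t => |φ t| / (1 + t ^ 2) := by
  have h := inv_int.const_mul B
  refine h.mono' ?_ ?_
  · exact (hφ.abs.div (by fun_prop)).aestronglyMeasurable
  · refine Filter.Eventually.of_forall fun t => ?_
    have ht : 0 < 1 + t ^ 2 := by positivity
    rw [Real.norm_eq_abs, abs_of_nonneg (by positivity), div_eq_mul_inv]
    exact mul_le_mul_of_nonneg_right (hB t) (by positivity)

theorem wn_nonneg (φ : ℝ → ℝ) : 0 ≤ wn φ :=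
  integral_nonneg fun t => by positivity

theorem wn_le (φ : ℝ → ℝ) (hφ : Measurable φ) (B : ℝ) (hB : ∀ t, |φ t| ≤ B) :
    wn φ ≤ Real.pi * B := by
  have h := inv_int.const_mul B
  have h1 : wn φ ≤ ∫ t : ℝ, B * (1 + t ^ 2)⁻¹ := by
    refine integral_mono (wn_integrable φ hφ B hB) h fun t => ?_
    show |φ t| / (1 + t ^ 2) ≤ B * (1 + t ^ 2)⁻¹
    rw [div_eq_mul_inv]
    exact mul_le_mul_of_nonneg_right (hB t) (by positivity)
  rw [integral_const_mul, integral_univ_inv_one_add_sq] at h1
  linarith [mul_comm B Real.pi]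

theorem wn_add (φ ψ : ℝ → ℝ) (hφ : Measurable φ) (hψ : Measurable ψ) (B : ℝ)
    (hB : ∀ t, |φ t| ≤ B) (hB' : ∀ t, |ψ t| ≤ B) : wn (fun t => φ t + ψ t) ≤ wn φ + wn ψ := by
  unfold wn
  rw [← integral_add (wn_integrable φ hφ B hB) (wn_integrable ψ hψ B hB')]
  refine integral_mono (wn_integrable _ (hφ.add hψ) (B + B) fun t => ?_)
    ((wn_integrable φ hφ B hB).add (wn_integrable ψ hψ B hB')) fun t => ?_
  · exact (abs_add_le _ _).trans (add_le_add (hB t) (hB' t))
  · show |φ t + ψ t| / (1 + t ^ 2) ≤ |φ t| / (1 + t ^ 2) + |ψ t| / (1 + t ^ 2)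
    rw [← add_div]
    exact div_le_div_of_nonneg_right (abs_add_le _ _) (by positivity)

/-- Local `L^1` norms are controlled by the weighted norm. -/
theorem local_le_wn (φ : ℝ → ℝ) (hφ : Measurable φ) (B : ℝ) (hB : ∀ t, |φ t| ≤ B) (R a b : ℝ)
    (ha : -R ≤ a) (hab : a ≤ b) (hb : b ≤ R) : ∫ t in a..b, |φ t| ≤ (1 + R ^ 2) * wn φ := by
  have hi := wn_integrable φ hφ B hB
  rw [intervalIntegral.integral_of_le hab]
  have h1 : ∫ t in Ioc a b, |φ t| ≤ ∫ t in Ioc a b, (1 + R ^ 2) * (|φ t| / (1 + t ^ 2)) := by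
    refine setIntegral_mono_on ?_ (hi.const_mul _).integrableOn measurableSet_Ioc ?_
    · refine Integrable.mono' (g := fun _ => B) ?_ hφ.abs.aestronglyMeasurable ?_
      · exact integrableOn_const (by simp)
      · exact Filter.Eventually.of_forall fun t => by
          rw [Real.norm_eq_abs, abs_abs]; exact hB t
    · intro t ht
      have ht2 : t ^ 2 ≤ R ^ 2 := sq_le_sq' (by linarith [ht.1]) (by linarith [ht.2])
      have hpos : 0 < 1 + t ^ 2 := by positivity
      rw [mul_div_assoc', le_div_iff₀ hpos, mul_comm]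
      exact mul_le_mul_of_nonneg_right (by linarith) (abs_nonneg _)
  refine h1.trans ?_
  rw [integral_const_mul]
  refine mul_le_mul_of_nonneg_left ?_ (by positivity)
  exact setIntegral_le_integral hi (Filter.Eventually.of_forall fun t => by positivity)

/-- joint measurability of the distance of two lines. -/
private theorem F_meas (g : ℝ × ℝ → ℝ) (hg : Measurable g) :
    StronglyMeasurable fun x : ℝ × ℝ => wn (fun t => g (x.2, t) - g (x.1, t)) := by
  unfold wn
  refine StronglyMeasurable.integral_prod_right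
    (f := fun x : ℝ × ℝ => fun t : ℝ => |g (x.2, t) - g (x.1, t)| / (1 + t ^ 2)) ?_
  refine Measurable.stronglyMeasurable ?_
  unfold Function.uncurry
  fun_prop

theorem wn_measurable (g : ℝ × ℝ → ℝ) (hg : Measurable g) (p0 : ℝ) :
    Measurable fun q => wn (fun t => g (q, t) - g (p0, t)) :=
  (F_meas g hg).measurable.comp (measurable_const.prodMk measurable_id)

open Filter Topology Metric in
/-- Lebesgue points: for almost every `p` the means of the distances to the line `p` tend to `0`. -/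
private theorem leb (g : ℝ × ℝ → ℝ) (hg : Measurable g) (B : ℝ) (hB : ∀ z, |g z| ≤ B) :
    ∀ᵐ p : ℝ, Tendsto (fun k : ℕ => ((k : ℝ) + 1) *
      ∫ q in (p - 1 / ((k : ℝ) + 1))..(p + 1 / ((k : ℝ) + 1)), wn (fun t => g (q, t) - g (p, t)))
      atTop (𝓝 0) := by
  haveI : Fact ((1 : ENNReal) ≤ 1) := ⟨le_rfl⟩
  haveI : Fact ((1 : ENNReal) ≠ ⊤) := ⟨ENNReal.one_ne_top⟩
  have hgm : ∀ q : ℝ, Measurable fun t : ℝ => g (q, t) := fun q => hg.comp measurable_prodMk_left
  set h : ℝ → ℝ → ℝ := fun q t => g (q, t) / (1 + t ^ 2) with hh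
  have hhm : ∀ q, Measurable (h q) := fun q => (hgm q).div (by fun_prop)
  have hhi : ∀ q, Integrable (h q) := by
    intro q
    refine (wn_integrable (fun t => g (q, t)) (hgm q) B fun t => hB _).mono'
      (hhm q).aestronglyMeasurable (Eventually.of_forall fun t => ?_)
    have ht : 0 < 1 + t ^ 2 := by positivity
    rw [hh, Real.norm_eq_abs, abs_div, abs_of_pos ht]
  have hF : ∀ p q, wn (fun t => g (q, t) - g (p, t)) = ∫ t, |h q t - h p t| := by
    intro p q
    unfold wn
    refine integral_congr_ae (Eventually.of_forall fun t => ?_)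
    have ht : 0 < 1 + t ^ 2 := by positivity
    show |g (q, t) - g (p, t)| / (1 + t ^ 2) = |g (q, t) / (1 + t ^ 2) - g (p, t) / (1 + t ^ 2)|
    rw [← sub_div, abs_div, abs_of_pos ht]
  -- the dense sequence
  let ψ : ℕ → Lp ℝ 1 (volume : Measure ℝ) := TopologicalSpace.denseSeq _
  have hψi : ∀ j, Integrable (fun t => (ψ j : ℝ → ℝ) t) := fun j => L1.integrable_coeFn (ψ j)
  have hψm : ∀ j, Measurable (fun t => (ψ j : ℝ → ℝ) t) := fun j =>
    (Lp.stronglyMeasurable (ψ j)).measurable
  let d : ℕ → ℝ → ℝ := fun j q => ∫ t, |h q t - (ψ j : ℝ → ℝ) t|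
  have hdi : ∀ j q, Integrable fun t => |h q t - (ψ j : ℝ → ℝ) t| := fun j q =>
    ((hhi q).sub (hψi j)).abs
  have hdm : ∀ j, Measurable (d j) := by
    intro j
    refine StronglyMeasurable.measurable ?_
    refine StronglyMeasurable.integral_prod_right
      (f := fun q : ℝ => fun t : ℝ => |h q t - (ψ j : ℝ → ℝ) t|) ?_
    refine Measurable.stronglyMeasurable ?_
    unfold Function.uncurry
    have h1 : Measurable fun a : ℝ × ℝ => (ψ j : ℝ → ℝ) a.2 := (hψm j).comp measurable_snd
    have h2 : Measurable fun a : ℝ × ℝ => h a.1 a.2 := by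
      show Measurable fun a : ℝ × ℝ => g (a.1, a.2) / (1 + a.2 ^ 2)
      fun_prop
    exact measurable_abs.comp (h2.sub h1)
  have hd0 : ∀ j q, 0 ≤ d j q := fun j q => integral_nonneg fun t => abs_nonneg _
  have hdb : ∀ j q, d j q ≤ Real.pi * B + ∫ t, |(ψ j : ℝ → ℝ) t| := by
    intro j q
    have h1 : d j q ≤ ∫ t, (|g (q, t)| / (1 + t ^ 2) + |(ψ j : ℝ → ℝ) t|) := by
      refine integral_mono (hdi j q)
        ((wn_integrable (fun t => g (q, t)) (hgm q) B fun t => hB _).add (hψi j).abs) fun t => ?_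
      have ht : 0 < 1 + t ^ 2 := by positivity
      show |g (q, t) / (1 + t ^ 2) - (ψ j : ℝ → ℝ) t| ≤ |g (q, t)| / (1 + t ^ 2) + |(ψ j : ℝ → ℝ) t|
      refine (abs_sub _ _).trans ?_
      rw [abs_div, abs_of_pos ht]
    rw [integral_add (wn_integrable (fun t => g (q, t)) (hgm q) B fun t => hB _) (hψi j).abs] at h1
    have h2 := wn_le (fun t => g (q, t)) (hgm q) B fun t => hB _
    unfold wn at h2
    linarith
  have hdl : ∀ j, LocallyIntegrable (d j) := by
    intro j
    refine (locallyIntegrable_const (Real.pi * B + ∫ t, |(ψ j : ℝ → ℝ) t|)).mono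
      (hdm j).aestronglyMeasurable (Eventually.of_forall fun q => ?_)
    rw [Real.norm_eq_abs, Real.norm_eq_abs, abs_of_nonneg (hd0 j q)]
    exact (hdb j q).trans (le_abs_self _)
  have hae : ∀ᵐ p : ℝ, ∀ j, Tendsto (fun k : ℕ => ⨍ y in closedBall p (1 / ((k : ℝ) + 1)), d j y)
      atTop (𝓝 (d j p)) := by
    rw [ae_all_iff]
    intro j
    filter_upwards [IsUnifLocDoublingMeasure.ae_tendsto_average (μ := (volume : Measure ℝ)) (hdl j) 1] with p hp
    refine hp (fun _ => p) (fun k : ℕ => 1 / ((k : ℝ) + 1)) ?_ ?_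
    · refine tendsto_nhdsWithin_iff.2 ⟨tendsto_one_div_add_atTop_nhds_zero_nat,
        Eventually.of_forall fun k => ?_⟩
      show (0 : ℝ) < 1 / ((k : ℝ) + 1)
      positivity
    · refine Eventually.of_forall fun k => ?_
      rw [one_mul]
      exact mem_closedBall_self (by positivity)
  filter_upwards [hae] with p hp
  rw [Metric.tendsto_atTop]
  intro ε hε
  -- choose `j`
  obtain ⟨j, hj⟩ : ∃ j, d j p < ε / 8 := by
    have hdense := TopologicalSpace.denseRange_denseSeq (Lp ℝ 1 (volume : Measure ℝ))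
    obtain ⟨j, hj⟩ := hdense.exists_dist_lt ((hhi p).toL1 (h p)) (by positivity : (0 : ℝ) < ε / 8)
    refine ⟨j, ?_⟩
    have h1 : d j p = dist ((hhi p).toL1 (h p)) (ψ j) := by
      rw [dist_eq_norm, L1.norm_eq_integral_norm]
      refine integral_congr_ae ?_
      filter_upwards [Lp.coeFn_sub ((hhi p).toL1 (h p)) (ψ j), (hhi p).coeFn_toL1] with t h1 h2
      rw [h1, Pi.sub_apply, h2, Real.norm_eq_abs]
    rw [h1]
    exact hj
  have hj' := hp j
  rw [Metric.tendsto_atTop] at hj'
  obtain ⟨N, hN⟩ := hj' (ε / 8) (by positivity)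
  refine ⟨N, fun k hk => ?_⟩
  have hk1 := hN k hk
  have hδ : (0 : ℝ) < 1 / ((k : ℝ) + 1) := by positivity
  set δ : ℝ := 1 / ((k : ℝ) + 1) with hδdef
  have hle : p - δ ≤ p + δ := by linarith
  have hint : IntervalIntegrable (d j) volume (p - δ) (p + δ) :=
    ((hdl j).integrableOn_isCompact isCompact_uIcc).intervalIntegrable
  have havg : ⨍ y in closedBall p δ, d j y = (2 * δ)⁻¹ * ∫ y in (p - δ)..(p + δ), d j y := by
    rw [setAverage_eq, Real.closedBall_eq_Icc, intervalIntegral.integral_of_le hle,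
      integral_Icc_eq_integral_Ioc, Measure.real, Real.volume_Icc, smul_eq_mul]
    congr 2
    rw [ENNReal.toReal_ofReal (by linarith)]
    ring
  have hI : ∫ y in (p - δ)..(p + δ), d j y ≤ 2 * δ * (ε / 4) := by
    rw [Real.dist_eq, havg] at hk1
    have h1 := (abs_lt.1 hk1).2
    have h2 : (2 * δ)⁻¹ * ∫ y in (p - δ)..(p + δ), d j y ≤ ε / 4 := by linarith
    rwa [inv_mul_le_iff₀ (by positivity)] at h2
  have hFm : Measurable fun q => wn (fun t => g (q, t) - g (p, t)) := wn_measurable g hg p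
  have hF0 : ∀ q, 0 ≤ wn (fun t => g (q, t) - g (p, t)) := fun q => wn_nonneg _
  have hFle : ∀ q, wn (fun t => g (q, t) - g (p, t)) ≤ d j q + d j p := by
    intro q
    rw [hF p q, ← integral_add (hdi j q) (hdi j p)]
    refine integral_mono ((hhi q).sub (hhi p)).abs ((hdi j q).add (hdi j p)) fun t => ?_
    show |h q t - h p t| ≤ |h q t - (ψ j : ℝ → ℝ) t| + |h p t - (ψ j : ℝ → ℝ) t|
    have := abs_sub_le (h q t) ((ψ j : ℝ → ℝ) t) (h p t)
    rwa [abs_sub_comm ((ψ j : ℝ → ℝ) t) (h p t)] at this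
  have hint2 : IntervalIntegrable (fun q => d j q + d j p) volume (p - δ) (p + δ) :=
    hint.add intervalIntegrable_const
  have hintF : IntervalIntegrable (fun q => wn (fun t => g (q, t) - g (p, t))) volume
      (p - δ) (p + δ) := by
    refine hint2.mono_fun hFm.aestronglyMeasurable (Eventually.of_forall fun q => ?_)
    show ‖wn (fun t => g (q, t) - g (p, t))‖ ≤ ‖d j q + d j p‖
    rw [Real.norm_eq_abs, Real.norm_eq_abs, abs_of_nonneg (hF0 q)]
    exact (hFle q).trans (le_abs_self _)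
  have hI2 : ∫ q in (p - δ)..(p + δ), wn (fun t => g (q, t) - g (p, t)) ≤ 2 * δ * (3 * ε / 8) := by
    refine (intervalIntegral.integral_mono_on hle hintF hint2 fun q _ => hFle q).trans ?_
    rw [intervalIntegral.integral_add hint intervalIntegrable_const, intervalIntegral.integral_const,
      smul_eq_mul]
    have : (p + δ - (p - δ)) * d j p ≤ 2 * δ * (ε / 8) := by
      have : p + δ - (p - δ) = 2 * δ := by ring
      rw [this]
      exact mul_le_mul_of_nonneg_left hj.le (by positivity)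
    linarith
  have h0 : 0 ≤ ∫ q in (p - δ)..(p + δ), wn (fun t => g (q, t) - g (p, t)) :=
    intervalIntegral.integral_nonneg hle fun q _ => hF0 q
  have hkpos : (0 : ℝ) < (k : ℝ) + 1 := by positivity
  rw [Real.dist_eq, sub_zero, abs_of_nonneg (by positivity)]
  have h3 : ((k : ℝ) + 1) * ∫ q in (p - δ)..(p + δ), wn (fun t => g (q, t) - g (p, t)) ≤
      ((k : ℝ) + 1) * (2 * δ * (3 * ε / 8)) := mul_le_mul_of_nonneg_left hI2 hkpos.le
  have h4 : ((k : ℝ) + 1) * (2 * δ * (3 * ε / 8)) = 3 * ε / 4 := by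
    rw [hδdef]
    field_simp
    ring
  rw [h4] at h3
  linarith

/-- Measurability of the means. -/
private theorem mean_meas (g : ℝ × ℝ → ℝ) (hg : Measurable g) (ρ : ℝ) :
    Measurable fun p : ℝ => ∫ q in (p - ρ)..(p + ρ), wn (fun t => g (q, t) - g (p, t)) := by
  have h1 : ∀ p : ℝ, ∫ q in (p - ρ)..(p + ρ), wn (fun t => g (q, t) - g (p, t)) =
      ∫ s in (-ρ)..ρ, wn (fun t => g (p + s, t) - g (p, t)) := by
    intro p
    have := intervalIntegral.integral_comp_add_left (a := -ρ) (b := ρ)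
      (fun q => wn (fun t => g (q, t) - g (p, t))) p
    rw [this]
    rfl
  simp_rw [h1]
  have hF : StronglyMeasurable fun x : ℝ × ℝ => wn (fun t => g (x.1 + x.2, t) - g (x.1, t)) :=
    ((F_meas g hg).measurable.comp
      (measurable_fst.prodMk (measurable_fst.add measurable_snd))).stronglyMeasurable
  simp only [intervalIntegral]
  refine Measurable.sub ?_ ?_
  · exact (hF.integral_prod_right' (ν := volume.restrict (Ioc (-ρ) ρ))).measurable
  · exact (hF.integral_prod_right' (ν := volume.restrict (Ioc ρ (-ρ)))).measurable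

open Filter Topology Metric in
theorem exists_lines (g : ℝ × ℝ → ℝ) (hg : Measurable g) (B : ℝ) (hB : ∀ z, |g z| ≤ B)
    (Q : ℝ × ℝ → Prop) (hQ : ∀ᵐ z : ℝ × ℝ, Q z) (T ε : ℝ) (hT : 0 < T) (hε : 0 < ε) :
    ∃ P : Set ℝ, GoodL g P ∧ P ⊆ Icc (-T) T ∧ volume (Icc (-T) T \ P) < ENNReal.ofReal ε ∧
      ∀ p ∈ P, ∀ᵐ t : ℝ, Q (p, t) := by
  have hgm : ∀ q : ℝ, Measurable fun t : ℝ => g (q, t) := fun q => hg.comp measurable_prodMk_left
  -- Egorov
  obtain ⟨E, hE1, hE2, hE3, hE4⟩ := tendstoUniformlyOn_of_ae_tendsto (μ := (volume : Measure ℝ))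
    (f := fun (k : ℕ) (p : ℝ) => ((k : ℝ) + 1) *
      ∫ q in (p - 1 / ((k : ℝ) + 1))..(p + 1 / ((k : ℝ) + 1)), wn (fun t => g (q, t) - g (p, t)))
    (g := fun _ => (0 : ℝ)) (s := Icc (-T) T)
    (fun k => ((mean_meas g hg _).const_mul _).stronglyMeasurable) stronglyMeasurable_const
    measurableSet_Icc (by simp) (by
      filter_upwards [leb g hg B hB] with p hp _ using hp) (ε := ε / 4) (by positivity)
  -- Fubini for `Q`
  have hQ' : ∀ᵐ p : ℝ, ∀ᵐ t : ℝ, Q (p, t) := by
    rw [Measure.volume_eq_prod] at hQ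
    exact Measure.ae_ae_of_ae_prod hQ
  set N1 : Set ℝ := {p | ¬ ∀ᵐ t : ℝ, Q (p, t)} with hN1
  have hN0 : volume N1 = 0 := hQ'
  set N := toMeasurable volume N1 with hN
  have hNm : MeasurableSet N := measurableSet_toMeasurable _ _
  have hNz : volume N = 0 := by rw [hN, measure_toMeasurable, hN0]
  -- the rationals
  obtain ⟨U, hU1, hU2, hU3⟩ := Set.exists_isOpen_lt_of_lt (μ := (volume : Measure ℝ))
    (Set.range ((↑) : ℚ → ℝ)) (ENNReal.ofReal (ε / 4)) (by
      rw [(Set.countable_range _).measure_zero]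
      exact ENNReal.ofReal_pos.2 (by positivity))
  set A : Set ℝ := Icc (-T) T \ (E ∪ (N ∪ U)) with hA
  have hAm : MeasurableSet A :=
    measurableSet_Icc.diff (hE2.union (hNm.union hU2.measurableSet))
  have hAf : volume A ≠ ⊤ := by
    refine ne_top_of_le_ne_top ?_ (measure_mono sdiff_subset)
    simp
  obtain ⟨P, hPA, hPc, hPv⟩ := hAm.exists_isCompact_diff_lt hAf
    (ε := ENNReal.ofReal (ε / 4)) (by
      rw [Ne, ENNReal.ofReal_eq_zero, not_le]; positivity)
  -- uniform averages
  have hav : ∀ κ : ℝ, 0 < κ → ∃ δ : ℝ, 0 < δ ∧ ∀ p ∈ P, ∀ ρ : ℝ, 0 < ρ → ρ ≤ δ →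
      ∫ q in (p - ρ)..(p + ρ), wn (fun t => g (q, t) - g (p, t)) ≤ κ * ρ := by
    intro κ hκ
    have h1 := Metric.tendstoUniformlyOn_iff.1 hE4 (κ / 2) (by positivity)
    obtain ⟨k0, hk0⟩ := eventually_atTop.1 h1
    refine ⟨1 / ((k0 : ℝ) + 1), by positivity, fun p hp ρ hρ hρ1 => ?_⟩
    have hpA := hPA hp
    have hpE : p ∈ Icc (-T) T \ E := ⟨hpA.1, fun h => hpA.2 (Or.inl h)⟩
    -- the index
    set m : ℕ := ⌊1 / ρ⌋₊ with hm
    have hm1 : k0 + 1 ≤ m := by
      refine Nat.le_floor ?_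
      rw [le_div_iff₀ hρ]
      rw [le_div_iff₀ (by positivity)] at hρ1
      push_cast
      linarith
    have hm2 : (m : ℝ) ≤ 1 / ρ := Nat.floor_le (by positivity)
    have hm3 : 1 / ρ < m + 1 := Nat.lt_floor_add_one _
    obtain ⟨k, hk⟩ : ∃ k, m = k + 1 := ⟨m - 1, by omega⟩
    have hkk : k0 ≤ k := by omega
    have h2 := hk0 k hkk p hpE
    rw [Real.dist_eq, zero_sub, abs_neg] at h2
    have h2' := (abs_lt.1 h2).2
    have hkp : (0 : ℝ) < (k : ℝ) + 1 := by positivity
    have hmk : (m : ℝ) = (k : ℝ) + 1 := by rw [hk]; push_cast; ring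
    rw [hmk] at hm2 hm3
    set δ : ℝ := 1 / ((k : ℝ) + 1) with hδ
    have hρδ : ρ ≤ δ := by
      rw [hδ, le_div_iff₀ hkp]
      rw [le_div_iff₀ hρ] at hm2
      linarith
    have hδρ : δ ≤ 2 * ρ := by
      rw [hδ, div_le_iff₀ hkp]
      rw [div_lt_iff₀ hρ] at hm3
      have : (1 : ℝ) ≤ (k : ℝ) + 1 := by
        have := Nat.cast_nonneg (α := ℝ) k
        linarith
      nlinarith
    have hFm : Measurable fun q => wn (fun t => g (q, t) - g (p, t)) := wn_measurable g hg p
    have hF0 : ∀ q, 0 ≤ wn (fun t => g (q, t) - g (p, t)) := fun q => wn_nonneg _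
    have hFb : ∀ q, wn (fun t => g (q, t) - g (p, t)) ≤ Real.pi * (B + B) := by
      intro q
      refine wn_le _ ((hgm q).sub (hgm p)) (B + B) fun t => ?_
      exact (abs_sub _ _).trans (add_le_add (hB _) (hB _))
    have hFi : ∀ a b : ℝ, IntervalIntegrable (fun q => wn (fun t => g (q, t) - g (p, t)))
        volume a b := by
      intro a b
      refine (intervalIntegrable_const (c := Real.pi * (B + B))).mono_fun hFm.aestronglyMeasurable
        (Eventually.of_forall fun q => ?_)
      show ‖wn (fun t => g (q, t) - g (p, t))‖ ≤ ‖Real.pi * (B + B)‖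
      rw [Real.norm_eq_abs, Real.norm_eq_abs, abs_of_nonneg (hF0 q)]
      exact (hFb q).trans (le_abs_self _)
    have h3 : ∫ q in (p - ρ)..(p + ρ), wn (fun t => g (q, t) - g (p, t)) ≤
        ∫ q in (p - δ)..(p + δ), wn (fun t => g (q, t) - g (p, t)) := by
      refine intervalIntegral.integral_mono_interval (by linarith) (by linarith) (by linarith)
        (Eventually.of_forall fun q => hF0 q) (hFi _ _)
    have h4 : ∫ q in (p - δ)..(p + δ), wn (fun t => g (q, t) - g (p, t)) ≤ κ / 2 * δ := by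
      rw [hδ, mul_one_div, le_div_iff₀ hkp, mul_comm]
      exact h2'.le
    nlinarith
  have hFi : ∀ p a b : ℝ, IntervalIntegrable (fun q => wn (fun t => g (q, t) - g (p, t)))
      volume a b := by
    intro p a b
    refine (intervalIntegrable_const (c := Real.pi * (B + B))).mono_fun
      (wn_measurable g hg p).aestronglyMeasurable (Eventually.of_forall fun q => ?_)
    show ‖wn (fun t => g (q, t) - g (p, t))‖ ≤ ‖Real.pi * (B + B)‖
    rw [Real.norm_eq_abs, Real.norm_eq_abs, abs_of_nonneg (wn_nonneg _)]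
    refine (wn_le _ ((hgm q).sub (hgm p)) (B + B) fun t => ?_).trans (le_abs_self _)
    exact (abs_sub _ _).trans (add_le_add (hB _) (hB _))
  refine ⟨P, ⟨hPc, ?_, ?_, hav⟩, ?_, ?_, ?_⟩
  · -- empty interior
    rw [interior_eq_empty_iff_dense_compl]
    refine Dense.mono ?_ (Rat.denseRange_cast (𝕜 := ℝ))
    rintro _ ⟨x, rfl⟩ hx
    exact (hPA hx).2 (Or.inr (Or.inr (hU1 ⟨x, rfl⟩)))
  · -- continuity on `P`
    intro κ hκ
    obtain ⟨δ, hδ, h⟩ := hav (κ / 2) (by positivity)
    refine ⟨δ, hδ, fun p hp p' hp' hpp => ?_⟩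
    -- wlog p ≤ p'
    have key : ∀ a ∈ P, ∀ b ∈ P, a ≤ b → b - a ≤ δ → wn (fun t => g (a, t) - g (b, t)) ≤ κ := by
      intro a ha b hb hab hba
      have ha' := h a ha δ hδ le_rfl
      have hb' := h b hb δ hδ le_rfl
      have h0 : ∀ x q, 0 ≤ wn (fun t => g (q, t) - g (x, t)) := fun x q => wn_nonneg _
      have hA1 : ∫ q in (b - δ)..(a + δ), wn (fun t => g (q, t) - g (a, t)) ≤
          ∫ q in (a - δ)..(a + δ), wn (fun t => g (q, t) - g (a, t)) :=
        intervalIntegral.integral_mono_interval (by linarith) (by linarith) le_rfl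
          (Eventually.of_forall fun q => h0 a q) (hFi _ _ _)
      have hB1 : ∫ q in (b - δ)..(a + δ), wn (fun t => g (q, t) - g (b, t)) ≤
          ∫ q in (b - δ)..(b + δ), wn (fun t => g (q, t) - g (b, t)) :=
        intervalIntegral.integral_mono_interval le_rfl (by linarith) (by linarith)
          (Eventually.of_forall fun q => h0 b q) (hFi _ _ _)
      have htri : ∀ q, wn (fun t => g (a, t) - g (b, t)) ≤
          wn (fun t => g (q, t) - g (a, t)) + wn (fun t => g (q, t) - g (b, t)) := by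
        intro q
        have h1 := wn_add (fun t => -(g (q, t) - g (a, t))) (fun t => g (q, t) - g (b, t))
          ((hgm q).sub (hgm a)).neg ((hgm q).sub (hgm b)) (B + B)
          (fun t => by
            rw [abs_neg]; exact (abs_sub _ _).trans (add_le_add (hB _) (hB _)))
          (fun t => (abs_sub _ _).trans (add_le_add (hB _) (hB _)))
        have h2 : (fun t => -(g (q, t) - g (a, t)) + (g (q, t) - g (b, t))) =
            fun t => g (a, t) - g (b, t) := by
          funext t; ring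
        have h3 : wn (fun t => -(g (q, t) - g (a, t))) = wn (fun t => g (q, t) - g (a, t)) := by
          unfold wn
          simp only [abs_neg]
        rw [h2, h3] at h1
        exact h1
      have hC : (a + δ - (b - δ)) * wn (fun t => g (a, t) - g (b, t)) ≤
          ∫ q in (b - δ)..(a + δ), (wn (fun t => g (q, t) - g (a, t)) +
            wn (fun t => g (q, t) - g (b, t))) := by
        have h1 := intervalIntegral.integral_mono_on (a := b - δ) (b := a + δ) (by linarith)
          (intervalIntegrable_const (c := wn (fun t => g (a, t) - g (b, t))))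
          ((hFi a _ _).add (hFi b _ _)) (fun q _ => htri q)
        rwa [intervalIntegral.integral_const, smul_eq_mul] at h1
      rw [intervalIntegral.integral_add (hFi a _ _) (hFi b _ _)] at hC
      have hw : 0 ≤ wn (fun t => g (a, t) - g (b, t)) := wn_nonneg _
      have hD : δ * wn (fun t => g (a, t) - g (b, t)) ≤ δ * κ := by
        have : δ * wn (fun t => g (a, t) - g (b, t)) ≤
            (a + δ - (b - δ)) * wn (fun t => g (a, t) - g (b, t)) :=
          mul_le_mul_of_nonneg_right (by linarith) hw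
        linarith
      exact le_of_mul_le_mul_left hD hδ
    rcases le_total p p' with hle | hle
    · exact key p hp p' hp' hle (by rw [abs_sub_comm] at hpp; exact (le_abs_self _).trans hpp)
    · have h1 := key p' hp' p hp hle ((le_abs_self _).trans hpp)
      have h2 : wn (fun t => g (p, t) - g (p', t)) = wn (fun t => g (p', t) - g (p, t)) := by
        unfold wn
        simp only [abs_sub_comm]
      rw [h2]
      exact h1
  · exact fun p hp => (hPA hp).1
  · have hsub : Icc (-T) T \ P ⊆ E ∪ (N ∪ (U ∪ (A \ P))) := by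
      rintro x ⟨hx1, hx2⟩
      by_cases hxE : x ∈ E
      · exact Or.inl hxE
      by_cases hxN : x ∈ N
      · exact Or.inr (Or.inl hxN)
      by_cases hxU : x ∈ U
      · exact Or.inr (Or.inr (Or.inl hxU))
      refine Or.inr (Or.inr (Or.inr ⟨⟨hx1, ?_⟩, hx2⟩))
      rintro (h | h | h)
      · exact hxE h
      · exact hxN h
      · exact hxU h
    have h4 : (0 : ℝ) ≤ ε / 4 := by positivity
    calc volume (Icc (-T) T \ P) ≤ volume (E ∪ (N ∪ (U ∪ (A \ P)))) := measure_mono hsub
      _ ≤ volume E + (volume N + (volume U + volume (A \ P))) := by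
        refine (measure_union_le _ _).trans (add_le_add le_rfl ?_)
        refine (measure_union_le _ _).trans (add_le_add le_rfl ?_)
        exact measure_union_le _ _
      _ ≤ ENNReal.ofReal (ε / 4) + (0 + (ENNReal.ofReal (ε / 4) + ENNReal.ofReal (ε / 4))) := by
        refine add_le_add hE3 (add_le_add hNz.le (add_le_add hU3.le hPv.le))
      _ = ENNReal.ofReal (ε / 4 + (ε / 4 + ε / 4)) := by
        rw [zero_add, ← ENNReal.ofReal_add h4 h4, ← ENNReal.ofReal_add h4 (by positivity)]
      _ < ENNReal.ofReal ε := by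
        rw [ENNReal.ofReal_lt_ofReal_iff hε]
        linarith
  · intro p hp
    by_contra hcon
    exact (hPA hp).2 (Or.inr (Or.inl (subset_toMeasurable _ _ hcon)))

end Pool.Agent.MP_4eca41
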