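import Pool.Agent.Work.MP_4eca41_an.F.FLines

/-!
# F1b: choice of `P` and `S3`

PROOF.  `C11 C W` by `c11_of_ext` (fields of `Sm`).  `g = Dpp W` is measurable and bounded (`dpp_meas`, `dpp_bd`).  `S` is compact: `S ⊆ (-T,T) × (-T,T)`, `T > 0`.  Let `Q z` be: `HasDerivAt (fun p => Dp W (p, z.2)) (Dpp W z) z.1`
(a.e. by `dpp_ae_plane`).  `exists_lines` with `ε/(4 T)`: `P`; `volume (S \ (P ×ˢ univ)) ≤ 2T · volume ([-T,T] \ P) < ε/2` (slices).  For a.e. `z ∈ S`: (i) one-dimensional Lebesgue differentiation in `t` on the line `{z.1}` (Fubini):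
`(1/2l) ∫_{z.2-l}^{z.2+l} g (z.1, σ) dσ → g z`; the set of such `z` is measurable up to a null set; (ii) `g z = J.a z`: by `dpp_eq` and `Sm.con` with `v = (k,0)`: `W (z+(k,0)) + W (z-(k,0)) - 2 W z = J.a z k^2 + o(k^2)`.
So the set `A` of `z ∈ S ∩ (P × ℝ)` with both properties has `volume (S \ A) < ε/2`; `A` contains (null measurable; inner regularity) a compact `S3` with `volume (S \ S3) < ε`.
(Inner regularity: `A` equals a.e. a measurable set; take a compact subset of a measurable subset of `A` of full measure.)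
-/

set_option autoImplicit false

open Set MeasureTheory Filter Topology

namespace Pool.Agent.MP_4eca41

/-- from rational radii to real radii -/
private theorem fs3_rat {A : ℝ → ℝ} (hA : ContinuousOn A (Ioi 0)) {c : ℝ}
    (h : Tendsto (fun q : ℚ => A (q : ℝ)) (comap (fun q : ℚ => (q : ℝ)) (𝓝[>] 0)) (𝓝 c)) :
    Tendsto A (𝓝[>] 0) (𝓝 c) := by
  rw [Metric.tendsto_nhds]
  intro ε hε
  rw [Metric.tendsto_nhds] at h
  have h1 := h (ε / 2) (by positivity)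
  rw [eventually_comap] at h1
  obtain ⟨δ, hδ, h2⟩ := (mem_nhdsGT_iff_exists_Ioo_subset (a := (0 : ℝ))).1 h1
  rw [Filter.Eventually, mem_nhdsGT_iff_exists_Ioo_subset]
  refine ⟨δ, hδ, fun l hl => ?_⟩
  have hl0 : 0 < l := hl.1
  have hc : ContinuousAt A l := hA.continuousAt (Ioi_mem_nhds hl0)
  have h3 : ∀ᶠ x in 𝓝 l, dist (A x) (A l) < ε / 2 := (Metric.tendsto_nhds.1 hc) (ε / 2) (by positivity)
  have h4 : ∀ᶠ x in 𝓝 l, x ∈ Ioo 0 δ := Ioo_mem_nhds hl.1 hl.2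
  obtain ⟨q, hq1, hq2⟩ : ∃ q : ℚ, dist (A (q : ℝ)) (A l) < ε / 2 ∧ (q : ℝ) ∈ Ioo 0 δ := by
    obtain ⟨U, hU, hUo, hUl⟩ := mem_nhds_iff.1 (h3.and h4)
    obtain ⟨q, hq⟩ := Rat.denseRange_cast.exists_mem_open hUo ⟨l, hUl⟩
    exact ⟨q, hU hq⟩
  have h5 : dist (A (q : ℝ)) c < ε / 2 := h2 hq2 q rfl
  show dist (A l) c < ε
  calc dist (A l) c ≤ dist (A l) (A (q : ℝ)) + dist (A (q : ℝ)) c := dist_triangle _ _ _
    _ < ε / 2 + ε / 2 := add_lt_add (by rw [dist_comm]; exact hq1) h5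
    _ = ε := by ring

private theorem fs3_int {g : ℝ × ℝ → ℝ} (hg : Measurable g) {B : ℝ} (hB : ∀ z, |g z| ≤ B) (p : ℝ) :
    LocallyIntegrable (fun t => g (p, t)) volume := by
  have h1 : LocallyIntegrable (fun _ : ℝ => B) (volume : Measure ℝ) := locallyIntegrable_const B
  refine h1.mono (hg.comp measurable_prodMk_left).aestronglyMeasurable (ae_of_all _ fun t => ?_)
  rw [Real.norm_eq_abs, Real.norm_eq_abs]
  exact (hB _).trans (le_abs_self B)

private theorem fs3_ii {g : ℝ × ℝ → ℝ} (hg : Measurable g) {B : ℝ} (hB : ∀ z, |g z| ≤ B)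
    (p a b : ℝ) : IntervalIntegrable (fun t => g (p, t)) volume a b :=
  intervalIntegrable_iff.mpr <|
    ((fs3_int hg hB p).integrableOn_isCompact isCompact_uIcc).mono_set uIoc_subset_uIcc

private theorem fs3_cont {g : ℝ × ℝ → ℝ} (hg : Measurable g) {B : ℝ} (hB : ∀ z, |g z| ≤ B)
    (p t : ℝ) : ContinuousOn (fun l : ℝ => (∫ σ in (t - l)..(t + l), g (p, σ)) / (2 * l)) (Ioi 0) := by
  have h1 : Continuous fun x : ℝ => ∫ σ in (0 : ℝ)..x, g (p, σ) :=
    intervalIntegral.continuous_primitive (fun a b => fs3_ii hg hB p a b) 0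
  have h2 : ∀ l : ℝ, (∫ σ in (t - l)..(t + l), g (p, σ)) =
      (∫ σ in (0 : ℝ)..(t + l), g (p, σ)) - ∫ σ in (0 : ℝ)..(t - l), g (p, σ) := by
    intro l
    rw [intervalIntegral.integral_interval_sub_left (fs3_ii hg hB p _ _) (fs3_ii hg hB p _ _)]
  simp only [h2]
  have h3 : Continuous fun l : ℝ => (∫ σ in (0 : ℝ)..(t + l), g (p, σ)) -
      ∫ σ in (0 : ℝ)..(t - l), g (p, σ) :=
    (h1.comp (by fun_prop : Continuous fun l : ℝ => t + l)).sub
      (h1.comp (by fun_prop : Continuous fun l : ℝ => t - l))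
  refine h3.continuousOn.div (by fun_prop) ?_
  intro l hl
  have : (0 : ℝ) < l := hl
  positivity

/-- one dimensional differentiation, symmetric averages -/
private theorem fs3_line {g : ℝ × ℝ → ℝ} (hg : Measurable g) {B : ℝ} (hB : ∀ z, |g z| ≤ B) (p : ℝ) :
    ∀ᵐ t : ℝ, Tendsto (fun l : ℝ => (∫ σ in (t - l)..(t + l), g (p, σ)) / (2 * l))
      (𝓝[>] 0) (𝓝 (g (p, t))) := by
  filter_upwards [_root_.LocallyIntegrable.ae_hasDerivAt_integral (fs3_int hg hB p)] with t ht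
  have h0 := ht 0
  set G : ℝ → ℝ := fun x => ∫ σ in (0 : ℝ)..x, g (p, σ) with hG
  have h2 : ∀ l : ℝ, (∫ σ in (t - l)..(t + l), g (p, σ)) = G (t + l) - G (t - l) := by
    intro l
    rw [hG]
    simp only
    rw [intervalIntegral.integral_interval_sub_left (fs3_ii hg hB p _ _) (fs3_ii hg hB p _ _)]
  have h3 : HasDerivAt (fun l : ℝ => G (t + l) - G (t - l)) (g (p, t) + g (p, t)) 0 := by
    have a1 : HasDerivAt (fun l : ℝ => G (t + l)) (g (p, t)) 0 := by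
      have : HasDerivAt G (g (p, t)) (t + 0) := by rw [add_zero]; exact h0
      exact this.comp_const_add t 0
    have a2 : HasDerivAt (fun l : ℝ => G (t - l)) (-(g (p, t))) 0 := by
      have : HasDerivAt G (g (p, t)) (t - 0) := by rw [sub_zero]; exact h0
      exact this.comp_const_sub t 0
    have := a1.sub a2
    rwa [sub_neg_eq_add] at this
  rw [hasDerivAt_iff_tendsto_slope] at h3
  have h4 : Tendsto (slope (fun l : ℝ => G (t + l) - G (t - l)) 0) (𝓝[>] 0)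
      (𝓝 (g (p, t) + g (p, t))) :=
    h3.mono_left (nhdsWithin_mono _ fun x hx => ne_of_gt hx)
  have h5 := h4.div_const 2
  have e1 : (g (p, t) + g (p, t)) / 2 = g (p, t) := by ring
  rw [e1] at h5
  refine h5.congr' ?_
  filter_upwards [self_mem_nhdsWithin] with l hl
  have hl0 : (0 : ℝ) < l := hl
  rw [h2, slope_def_field, add_zero, sub_zero, sub_self, sub_zero, sub_zero]
  field_simp

private theorem fs3_meas {g : ℝ × ℝ → ℝ} (hg : Measurable g) (l : ℝ) :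
    Measurable fun z : ℝ × ℝ => (∫ σ in (z.2 - l)..(z.2 + l), g (z.1, σ)) / (2 * l) := by
  have h1 : ∀ z : ℝ × ℝ, (∫ σ in (z.2 - l)..(z.2 + l), g (z.1, σ)) =
      ∫ s in (-l)..l, g (z.1, z.2 + s) := by
    intro z
    rw [intervalIntegral.integral_comp_add_left (fun σ => g (z.1, σ)) z.2, ← sub_eq_add_neg]
  simp only [h1]
  apply Measurable.div_const
  have h2 : StronglyMeasurable fun w : (ℝ × ℝ) × ℝ => g (w.1.1, w.1.2 + w.2) := by
    apply Measurable.stronglyMeasurable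
    exact hg.comp (by fun_prop)
  unfold intervalIntegral
  exact (h2.integral_prod_right' (ν := volume.restrict (Ioc (-l) l))).measurable.sub
    (h2.integral_prod_right' (ν := volume.restrict (Ioc l (-l)))).measurable

private theorem fs3_plane {g : ℝ × ℝ → ℝ} (hg : Measurable g) {B : ℝ} (hB : ∀ z, |g z| ≤ B) :
    ∀ᵐ z : ℝ × ℝ, Tendsto (fun l : ℝ => (∫ σ in (z.2 - l)..(z.2 + l), g (z.1, σ)) / (2 * l))
      (𝓝[>] 0) (𝓝 (g z)) := by
  have hm : MeasurableSet {z : ℝ × ℝ |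
      Tendsto (fun q : ℚ => (∫ σ in (z.2 - (q : ℝ))..(z.2 + (q : ℝ)), g (z.1, σ)) / (2 * (q : ℝ)))
        (comap (fun q : ℚ => (q : ℝ)) (𝓝[>] 0)) (𝓝 (g z))} :=
    measurableSet_tendsto_fun (f := fun (q : ℚ) (z : ℝ × ℝ) =>
      (∫ σ in (z.2 - (q : ℝ))..(z.2 + (q : ℝ)), g (z.1, σ)) / (2 * (q : ℝ)))
      (fun q => fs3_meas hg q) hg
  have h1 : ∀ᵐ z : ℝ × ℝ ∂((volume : Measure ℝ).prod volume), z ∈ {z : ℝ × ℝ |
      Tendsto (fun q : ℚ => (∫ σ in (z.2 - (q : ℝ))..(z.2 + (q : ℝ)), g (z.1, σ)) / (2 * (q : ℝ)))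
        (comap (fun q : ℚ => (q : ℝ)) (𝓝[>] 0)) (𝓝 (g z))} := by
    rw [Measure.ae_prod_mem_iff_ae_ae_mem hm]
    refine ae_of_all _ fun p => ?_
    filter_upwards [fs3_line hg hB p] with t ht
    exact ht.comp tendsto_comap
  rw [Measure.volume_eq_prod]
  filter_upwards [h1] with z hz
  exact fs3_rat (A := fun l : ℝ => (∫ σ in (z.2 - l)..(z.2 + l), g (z.1, σ)) / (2 * l))
    (fs3_cont hg hB z.1 z.2) hz

private theorem fs3_coef {W β : ℝ × ℝ → ℝ} {S : Set (ℝ × ℝ)} {J : Jets} (h : Sm W β S J)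
    {C : ℝ} (hC : C11 C W) {z : ℝ × ℝ} (hz : z ∈ S)
    (hd : HasDerivAt (fun p => Dp W (p, z.2)) (Dpp W z) z.1) : Dpp W z = J.a z := by
  apply dpp_eq C W hC z _ _ hd
  intro κ hκ
  obtain ⟨δ, hδ, h1⟩ := h.con (κ / 2) (by positivity)
  refine ⟨δ, hδ, fun k hk => ?_⟩
  have hk2 : k ^ 2 ≤ δ ^ 2 := by
    rw [← sq_abs]
    exact pow_le_pow_left₀ (abs_nonneg k) hk 2
  have hs1 : sq ((k, 0) : ℝ × ℝ) = k ^ 2 := by unfold sq; simp
  have hs2 : sq (-((k, 0) : ℝ × ℝ)) = k ^ 2 := by unfold sq; simp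
  have a1 := h1 z hz (k, 0) (by rw [hs1]; exact hk2)
  have a2 := h1 z hz (-(k, 0)) (by rw [hs2]; exact hk2)
  rw [hs1] at a1
  rw [hs2] at a2
  have e : J.q z (k, 0) + J.q z (-(k, 0)) = J.a z * k ^ 2 := by
    unfold Jets.q
    simp only [Prod.fst_neg, Prod.snd_neg]
    ring
  have b1 := abs_le.1 a1
  have b2 := abs_le.1 a2
  unfold D2
  rw [sub_eq_add_neg z]
  rw [abs_le]
  constructor <;> nlinarith [b1.1, b1.2, b2.1, b2.2]

theorem exists_P_S3 (W β : ℝ × ℝ → ℝ) (S : Set (ℝ × ℝ)) (J : Jets) (h : Sm W β S J)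
    (ε : ℝ) (hε : 0 < ε) :
    ∃ (P : Set ℝ) (S3 : Set (ℝ × ℝ)), GoodL (Dpp W) P ∧ IsCompact S3 ∧ S3 ⊆ S ∧
      (∀ z ∈ S3, z.1 ∈ P) ∧ volume (S \ S3) < ENNReal.ofReal ε ∧
      (∀ p ∈ P, ∀ᵐ t : ℝ, HasDerivAt (fun p' => Dp W (p', t)) (Dpp W (p, t)) p) ∧
      ∀ z ∈ S3, Tendsto (fun l : ℝ => (∫ σ in (z.2 - l)..(z.2 + l), Dpp W (z.1, σ)) / (2 * l))
        (𝓝[>] 0) (𝓝 (J.a z)) := by
  obtain ⟨Cβ, c, hc, hb⟩ := h.bdβ
  obtain ⟨C, hC⟩ := c11_of_ext W β h.cont h.contβ ⟨Cβ, fun y => (hb y).1⟩ h.cls h.upp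
  have hg := dpp_meas C W hC
  have hB := dpp_bd C W hC
  obtain ⟨T0, hT0⟩ := h.cS.isBounded.subset_closedBall (0 : ℝ × ℝ)
  set T : ℝ := |T0| + 1 with hTd
  have hT : 0 < T := by positivity
  have hST : ∀ z ∈ S, z.1 ∈ Icc (-T) T ∧ z.2 ∈ Icc (-T) T := by
    intro z hz
    have h1 := hT0 hz
    rw [mem_closedBall_zero_iff, Prod.norm_def] at h1
    have h2 := (le_max_left ‖z.1‖ ‖z.2‖).trans h1
    have h3 := (le_max_right ‖z.1‖ ‖z.2‖).trans h1
    rw [Real.norm_eq_abs] at h2 h3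
    have h4 := le_abs_self T0
    have h5 := abs_le.1 h2
    have h6 := abs_le.1 h3
    refine ⟨⟨by linarith, by linarith⟩, ⟨by linarith, by linarith⟩⟩
  obtain ⟨P, hP, hPT, hPv, hPQ⟩ := exists_lines (Dpp W) hg C hB
    (fun z => HasDerivAt (fun p => Dp W (p, z.2)) (Dpp W z) z.1) (dpp_ae_plane C W hC) T
    (ε / (8 * T)) hT (by positivity)
  -- the null set
  have hR : ∀ᵐ z : ℝ × ℝ, HasDerivAt (fun p => Dp W (p, z.2)) (Dpp W z) z.1 ∧
      Tendsto (fun l : ℝ => (∫ σ in (z.2 - l)..(z.2 + l), Dpp W (z.1, σ)) / (2 * l))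
        (𝓝[>] 0) (𝓝 (Dpp W z)) := (dpp_ae_plane C W hC).and (fs3_plane hg hB)
  rw [ae_iff] at hR
  set bad : Set (ℝ × ℝ) := {z | ¬ (HasDerivAt (fun p => Dp W (p, z.2)) (Dpp W z) z.1 ∧
      Tendsto (fun l : ℝ => (∫ σ in (z.2 - l)..(z.2 + l), Dpp W (z.1, σ)) / (2 * l))
        (𝓝[>] 0) (𝓝 (Dpp W z)))} with hbad
  set N : Set (ℝ × ℝ) := toMeasurable volume bad with hN
  have hN0 : volume N = 0 := by rw [hN, measure_toMeasurable]; exact hR
  have hNm : MeasurableSet N := measurableSet_toMeasurable _ _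
  set A : Set (ℝ × ℝ) := (S ∩ (P ×ˢ univ)) \ N with hA
  have hAm : MeasurableSet A :=
    (h.cS.measurableSet.inter (hP.cP.measurableSet.prod MeasurableSet.univ)).diff hNm
  have hAS : A ⊆ S := fun z hz => hz.1.1
  have hAfin : volume A ≠ ⊤ := ((measure_mono hAS).trans_lt h.cS.measure_lt_top).ne
  have hε2 : ENNReal.ofReal (ε / 2) ≠ 0 := by
    rw [Ne, ENNReal.ofReal_eq_zero, not_le]
    positivity
  obtain ⟨K, hKA, hKc, hKv⟩ := hAm.exists_isCompact_sdiff_lt hAfin hε2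
  refine ⟨P, K, hP, hKc, hKA.trans hAS, fun z hz => (hKA hz).1.2.1, ?_, hPQ, ?_⟩
  · have h1 : S \ K ⊆ (N ∪ ((Icc (-T) T \ P) ×ˢ Icc (-T) T)) ∪ (A \ K) := by
      rintro z ⟨hzS, hzK⟩
      by_cases hzA : z ∈ A
      · exact Or.inr ⟨hzA, hzK⟩
      · left
        by_cases hzN : z ∈ N
        · exact Or.inl hzN
        · right
          have hzP : z.1 ∉ P := fun hp => hzA ⟨⟨hzS, hp, mem_univ _⟩, hzN⟩
          exact ⟨⟨(hST z hzS).1, hzP⟩, (hST z hzS).2⟩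
    have h2 : volume ((Icc (-T) T \ P) ×ˢ Icc (-T) T) ≤ ENNReal.ofReal (ε / 4) := by
      rw [Measure.volume_eq_prod, Measure.prod_prod, Real.volume_Icc]
      calc volume (Icc (-T) T \ P) * ENNReal.ofReal (T - -T)
          ≤ ENNReal.ofReal (ε / (8 * T)) * ENNReal.ofReal (T - -T) := by
            gcongr
        _ = ENNReal.ofReal (ε / (8 * T) * (T - -T)) := (ENNReal.ofReal_mul (by positivity)).symm
        _ = ENNReal.ofReal (ε / 4) := by
            congr 1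
            field_simp
            ring
    calc volume (S \ K) ≤ volume ((N ∪ ((Icc (-T) T \ P) ×ˢ Icc (-T) T)) ∪ (A \ K)) := measure_mono h1
      _ ≤ volume (N ∪ ((Icc (-T) T \ P) ×ˢ Icc (-T) T)) + volume (A \ K) := measure_union_le _ _
      _ ≤ (volume N + volume ((Icc (-T) T \ P) ×ˢ Icc (-T) T)) + volume (A \ K) := by
          gcongr
          exact measure_union_le _ _
      _ ≤ (0 + ENNReal.ofReal (ε / 4)) + ENNReal.ofReal (ε / 2) := by
          gcongr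
          exact hN0.le
      _ = ENNReal.ofReal (ε / 4 + ε / 2) := by
          rw [zero_add, ENNReal.ofReal_add (by positivity) (by positivity)]
      _ < ENNReal.ofReal ε := by
          rw [ENNReal.ofReal_lt_ofReal_iff hε]
          linarith
  · intro z hz
    have hzN : z ∉ bad := fun hb => (hKA hz).2 (subset_toMeasurable _ _ hb)
    rw [hbad, Set.mem_ofPred_eq, not_not] at hzN
    rw [← fs3_coef h hC (hAS (hKA hz)) hzN.1]
    exact hzN.2

end Pool.Agent.MP_4eca41
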