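import Pool.Agent.Work.MP_4eca41_an.F.FDefs

/-!
# F3a: first mollification, pointwise facts

PROOFS.  All integrals are over the compact interval `[-1,1]` with continuous integrands.  `w1_hasDeriv_p`: `p ↦ W (p + r p s, t)` has derivative `Dp W (p + r p s, t) (1 + r1 p s)`, continuous in `(p, s)`; differentiate under the integral sign
(`intervalIntegral.hasDerivAt_integral_of_dominated_loc_of_deriv_le` / `hasDerivAt_integral_of_dominated...`).  Same for `t`.  Convexity in `t`: positive kernel.  `w1_sub`: `|W (z.1 + ρ s, t) - W z - Dp W z ρ s| ≤ C ρ^2` (`c11_grad`) and `∫ s ker = 0`: `|W1 - W| ≤ C r^2`.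
Lipschitz: `|Dp W y - Dp W y'| ≤ L (…)`; `D1` in `t`: `|D1 (p,t) - D1 (p,t')| ≤ L |t - t'| (1 + σ)`, `|1 + r1 s| ≤ 1 + σ ≤ 2`.  Continuity: continuity of parametric integrals.
`w1_affine`: second order: for `|τ - t| ≤ ρ`: `|W1 (p,τ) - W1 (p,t) - Dt1 (p,t) (τ - t)| ≤ L ρ^2` (`Dt1` Lipschitz in `t`).
-/

set_option autoImplicit false

open Set MeasureTheory

namespace Pool.Agent.MP_4eca41

private theorem fw_deriv {F F' : ℝ → ℝ → ℝ} (hF : Continuous (Function.uncurry F))
    (hF' : Continuous (Function.uncurry F'))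
    (hd : ∀ x s, HasDerivAt (fun x => F x s) (F' x s) x) (x : ℝ) :
    HasDerivAt (fun x => ∫ s in (-1 : ℝ)..1, F x s) (∫ s in (-1 : ℝ)..1, F' x s) x := by
  have hK : IsCompact (Metric.closedBall x 1 ×ˢ Icc (-1 : ℝ) 1) :=
    (isCompact_closedBall x 1).prod isCompact_Icc
  obtain ⟨M, hM⟩ := (hK.image (hF'.norm)).bddAbove
  have hM' : ∀ y ∈ Metric.closedBall x 1, ∀ s ∈ Icc (-1 : ℝ) 1, ‖F' y s‖ ≤ M := by
    intro y hy s hs
    exact hM ⟨(y, s), ⟨hy, hs⟩, rfl⟩
  have hFc : ∀ y, Continuous (F y) := fun y => hF.comp (Continuous.prodMk_right y)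
  have hFc' : ∀ y, Continuous (F' y) := fun y => hF'.comp (Continuous.prodMk_right y)
  refine (intervalIntegral.hasDerivAt_integral_of_dominated_loc_of_deriv_le (F := F) (F' := F')
    (s := Metric.ball x 1) (bound := fun _ => M) (Metric.ball_mem_nhds x one_pos)
    (Filter.Eventually.of_forall fun y => (hFc y).aestronglyMeasurable)
    ((hFc x).intervalIntegrable _ _) (hFc' x).aestronglyMeasurable ?_
    intervalIntegrable_const ?_).2
  · refine Filter.Eventually.of_forall fun s hs y hy => ?_
    rw [uIoc_of_le (by norm_num)] at hs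
    exact hM' y (Metric.ball_subset_closedBall hy) s ⟨hs.1.le, hs.2⟩
  · exact Filter.Eventually.of_forall fun s _ y _ => hd y s

private theorem fw_bound {f : ℝ → ℝ} {K : ℝ} (hf : Continuous f)
    (hb : ∀ s : ℝ, |s| ≤ 1 → |f s| ≤ K) : |∫ s in (-1 : ℝ)..1, f s * ker s| ≤ K := by
  have h1 : |∫ s in (-1 : ℝ)..1, f s * ker s| ≤ ∫ s in (-1 : ℝ)..1, |f s * ker s| :=
    intervalIntegral.abs_integral_le_integral_abs (by norm_num)
  have h2 : ∫ s in (-1 : ℝ)..1, |f s * ker s| ≤ ∫ s in (-1 : ℝ)..1, K * ker s := by
    apply intervalIntegral.integral_mono_on (by norm_num)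
    · exact (hf.mul ker_continuous).abs.intervalIntegrable _ _
    · exact (continuous_const.mul ker_continuous).intervalIntegrable _ _
    · intro s hs
      rw [abs_mul, abs_of_nonneg (ker_nonneg s)]
      exact mul_le_mul_of_nonneg_right (hb s (abs_le.2 hs)) (ker_nonneg s)
  rw [intervalIntegral.integral_const_mul, ker_int, mul_one] at h2
  exact h1.trans h2

private theorem fw_lineP {W : ℝ × ℝ → ℝ} (hW : Continuous W) (p ρ t : ℝ) :
    Continuous fun s : ℝ => W (p + ρ * s, t) :=
  hW.comp (by fun_prop)

theorem w1_continuous (r : ℝ → ℝ) (hr : Continuous r) (W : ℝ × ℝ → ℝ) (hW : Continuous W) :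
    Continuous (W1 r W) := by
  unfold W1
  apply intervalIntegral.continuous_parametric_intervalIntegral_of_continuous'
  have h1 : Continuous fun q : (ℝ × ℝ) × ℝ => (q.1.1 + r q.1.1 * q.2, q.1.2) := by
    fun_prop
  exact (hW.comp h1).mul (ker_continuous.comp continuous_snd)

theorem w1_convex (r : ℝ → ℝ) (W : ℝ × ℝ → ℝ) (hW : Continuous W)
    (hc : ∀ p, ConvexOn ℝ univ fun t => W (p, t)) (p : ℝ) :
    ConvexOn ℝ univ fun t => W1 r W (p, t) := by
  refine ⟨convex_univ, fun x _ y _ a b ha hb hab => ?_⟩
  simp only [smul_eq_mul, W1]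
  rw [← intervalIntegral.integral_const_mul, ← intervalIntegral.integral_const_mul,
    ← intervalIntegral.integral_add]
  · apply intervalIntegral.integral_mono_on (by norm_num)
    · exact ((fw_lineP hW p (r p) _).mul ker_continuous).intervalIntegrable _ _
    · exact ((continuous_const.mul ((fw_lineP hW p (r p) x).mul ker_continuous)).add
        (continuous_const.mul ((fw_lineP hW p (r p) y).mul ker_continuous))).intervalIntegrable _ _
    · intro s _
      have h1 := (hc (p + r p * s)).2 (mem_univ x) (mem_univ y) ha hb hab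
      simp only [smul_eq_mul] at h1
      have h2 := mul_le_mul_of_nonneg_right h1 (ker_nonneg s)
      linarith
  · exact (continuous_const.mul ((fw_lineP hW p (r p) x).mul
      ker_continuous)).intervalIntegrable _ _
  · exact (continuous_const.mul ((fw_lineP hW p (r p) y).mul
      ker_continuous)).intervalIntegrable _ _

theorem w1_sub (C : ℝ) (W : ℝ × ℝ → ℝ) (h : C11 C W) (r : ℝ → ℝ) (z : ℝ × ℝ) :
    |W1 r W z - W z| ≤ C * r z.1 ^ 2 := by
  obtain ⟨-, -, hexp, -⟩ := c11_grad C W h
  have hW := h.cont
  have hc := fw_lineP hW z.1 (r z.1) z.2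
  have h1 : |∫ s in (-1 : ℝ)..1, (W (z.1 + r z.1 * s, z.2) - W z - Dp W z * (r z.1 * s)) * ker s| ≤
      C * r z.1 ^ 2 := by
    apply fw_bound
    · fun_prop
    · intro s hs
      have h2 := hexp z (r z.1 * s, 0)
      have e1 : z + (r z.1 * s, 0) = (z.1 + r z.1 * s, z.2) := by ext <;> simp
      have e2 : sq ((r z.1 * s, 0) : ℝ × ℝ) = (r z.1 * s) ^ 2 := by simp [sq]
      rw [e1, e2] at h2
      simp only [mul_zero, add_zero] at h2
      refine h2.trans (mul_le_mul_of_nonneg_left ?_ h.nn)
      rw [mul_pow]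
      have h3 : s ^ 2 ≤ 1 := (sq_le_one_iff_abs_le_one s).2 hs
      nlinarith [sq_nonneg (r z.1)]
  have h2 : ∫ s in (-1 : ℝ)..1, (W (z.1 + r z.1 * s, z.2) - W z - Dp W z * (r z.1 * s)) * ker s =
      W1 r W z - W z := by
    have e : ∀ s : ℝ, (W (z.1 + r z.1 * s, z.2) - W z - Dp W z * (r z.1 * s)) * ker s =
        W (z.1 + r z.1 * s, z.2) * ker s - W z * ker s - (Dp W z * r z.1) * (s * ker s) := by
      intro s
      ring
    simp only [e]
    rw [intervalIntegral.integral_sub, intervalIntegral.integral_sub,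
      intervalIntegral.integral_const_mul, intervalIntegral.integral_const_mul, ker_int, ker_int1]
    · unfold W1
      ring
    · exact (hc.mul ker_continuous).intervalIntegrable _ _
    · exact (continuous_const.mul ker_continuous).intervalIntegrable _ _
    · exact ((hc.mul ker_continuous).sub
        (continuous_const.mul ker_continuous)).intervalIntegrable _ _
    · exact (continuous_const.mul (continuous_id.mul ker_continuous)).intervalIntegrable _ _
  rw [← h2]
  exact h1

theorem w1_hasDeriv_p (C : ℝ) (W : ℝ × ℝ → ℝ) (h : C11 C W) (r r1 : ℝ → ℝ)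
    (hr : ∀ x, HasDerivAt r (r1 x) x) (h1 : Continuous r1) (z : ℝ × ℝ) :
    HasDerivAt (fun p => W1 r W (p, z.2)) (D1 r r1 W z) z.1 := by
  obtain ⟨hdp, -⟩ := c11_grad C W h
  have hrc : Continuous r := continuous_iff_continuousAt.2 fun x => (hr x).continuousAt
  have hW := h.cont
  have hDp := dp_continuous C W h
  have hmap : Continuous fun q : ℝ × ℝ => (q.1 + r q.1 * q.2, z.2) := by fun_prop
  exact fw_deriv (F := fun p s => W (p + r p * s, z.2) * ker s)
    (F' := fun p s => Dp W (p + r p * s, z.2) * ((1 + r1 p * s) * ker s))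
    ((hW.comp hmap).mul (ker_continuous.comp continuous_snd))
    ((hDp.comp hmap).mul (((continuous_const.add ((h1.comp continuous_fst).mul
      continuous_snd))).mul (ker_continuous.comp continuous_snd)))
    (fun x s => by
      have e1 : HasDerivAt (fun p => p + r p * s) (1 + r1 x * s) x :=
        (hasDerivAt_id x).add ((hr x).mul_const s)
      have e2 := hdp (x + r x * s, z.2)
      have e3 : HasDerivAt (fun p => W (p + r p * s, z.2))
          (Dp W (x + r x * s, z.2) * (1 + r1 x * s)) x :=
        HasDerivAt.comp (h₂ := fun q => W (q, z.2)) x e2 e1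
      have e4 := e3.mul_const (ker s)
      rw [mul_assoc] at e4
      exact e4) z.1

theorem w1_hasDeriv_t (C : ℝ) (W : ℝ × ℝ → ℝ) (h : C11 C W) (r : ℝ → ℝ) (hr : Continuous r)
    (z : ℝ × ℝ) : HasDerivAt (fun t => W1 r W (z.1, t)) (Dt1 r W z) z.2 := by
  obtain ⟨-, hdt, -⟩ := c11_grad C W h
  have hW := h.cont
  have hDt := dt_continuous C W h
  have hmap : Continuous fun q : ℝ × ℝ => (z.1 + r z.1 * q.2, q.1) := by fun_prop
  exact fw_deriv (F := fun t s => W (z.1 + r z.1 * s, t) * ker s)
    (F' := fun t s => Dt W (z.1 + r z.1 * s, t) * ker s)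
    ((hW.comp hmap).mul (ker_continuous.comp continuous_snd))
    ((hDt.comp hmap).mul (ker_continuous.comp continuous_snd))
    (fun t s => (hdt (z.1 + r z.1 * s, t)).mul_const (ker s)) z.2

theorem d1_continuous (C : ℝ) (W : ℝ × ℝ → ℝ) (h : C11 C W) (r r1 : ℝ → ℝ)
    (hr : Continuous r) (h1 : Continuous r1) : Continuous (D1 r r1 W) := by
  unfold D1
  apply intervalIntegral.continuous_parametric_intervalIntegral_of_continuous'
  have hm : Continuous fun q : (ℝ × ℝ) × ℝ => (q.1.1 + r q.1.1 * q.2, q.1.2) := by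
    fun_prop
  exact ((dp_continuous C W h).comp hm).mul ((continuous_const.add
    ((h1.comp (continuous_fst.comp continuous_fst)).mul continuous_snd)).mul
    (ker_continuous.comp continuous_snd))

theorem dt1_continuous (C : ℝ) (W : ℝ × ℝ → ℝ) (h : C11 C W) (r : ℝ → ℝ)
    (hr : Continuous r) : Continuous (Dt1 r W) := by
  unfold Dt1
  apply intervalIntegral.continuous_parametric_intervalIntegral_of_continuous'
  have hm : Continuous fun q : (ℝ × ℝ) × ℝ => (q.1.1 + r q.1.1 * q.2, q.1.2) := by
    fun_prop
  exact ((dt_continuous C W h).comp hm).mul (ker_continuous.comp continuous_snd)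

/-- Lipschitz bounds in `t`, with a constant depending on `W` only. -/
theorem w1_lip (C : ℝ) (W : ℝ × ℝ → ℝ) (h : C11 C W) :
    ∃ L : ℝ, 0 ≤ L ∧ ∀ (r r1 : ℝ → ℝ), Continuous r → Continuous r1 → (∀ x, |r1 x| ≤ 1) →
      ∀ p t t' : ℝ, |D1 r r1 W (p, t) - D1 r r1 W (p, t')| ≤ L * |t - t'| ∧
        |Dt1 r W (p, t) - Dt1 r W (p, t')| ≤ L * |t - t'| ∧
        |W1 r W (p, t') - W1 r W (p, t) - Dt1 r W (p, t) * (t' - t)| ≤ L * (t' - t) ^ 2 := by
  obtain ⟨-, -, hexp, L, hL, hlip⟩ := c11_grad C W h
  have hC := h.nn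
  have hW := h.cont
  have hDp := dp_continuous C W h
  have hDt := dt_continuous C W h
  refine ⟨2 * L + C, by positivity, fun r r1 hr hr1 hb p t t' => ⟨?_, ?_, ?_⟩⟩
  · have k1 : |∫ s in (-1 : ℝ)..1, ((Dp W (p + r p * s, t) - Dp W (p + r p * s, t')) *
        (1 + r1 p * s)) * ker s| ≤ (L * |t - t'|) * 2 := by
      apply fw_bound
      · exact ((fw_lineP hDp p (r p) t).sub (fw_lineP hDp p (r p) t')).mul (by fun_prop)
      · intro s hs
        rw [abs_mul]
        have a1 := (hlip (p + r p * s, t) (p + r p * s, t')).1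
        simp only [sub_self, abs_zero, zero_add] at a1
        have a2 : |1 + r1 p * s| ≤ 2 := by
          have b1 : |r1 p * s| ≤ 1 * 1 := by
            rw [abs_mul]
            exact mul_le_mul (hb p) hs (abs_nonneg _) (by norm_num)
          have b2 := abs_add_le 1 (r1 p * s)
          rw [abs_one] at b2
          linarith
        exact mul_le_mul a1 a2 (abs_nonneg _) (by positivity)
    have k2 : ∫ s in (-1 : ℝ)..1, ((Dp W (p + r p * s, t) - Dp W (p + r p * s, t')) *
        (1 + r1 p * s)) * ker s = D1 r r1 W (p, t) - D1 r r1 W (p, t') := by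
      unfold D1
      simp only
      rw [← intervalIntegral.integral_sub]
      · apply intervalIntegral.integral_congr
        intro s _
        ring
      · exact ((fw_lineP hDp p (r p) t).mul ((by fun_prop : Continuous fun s : ℝ =>
          1 + r1 p * s).mul ker_continuous)).intervalIntegrable _ _
      · exact ((fw_lineP hDp p (r p) t').mul ((by fun_prop : Continuous fun s : ℝ =>
          1 + r1 p * s).mul ker_continuous)).intervalIntegrable _ _
    rw [k2] at k1
    have k3 : 0 ≤ C * |t - t'| := by positivity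
    linarith
  · have k1 : |∫ s in (-1 : ℝ)..1, (Dt W (p + r p * s, t) - Dt W (p + r p * s, t')) * ker s| ≤
        L * |t - t'| := by
      apply fw_bound
      · exact (fw_lineP hDt p (r p) t).sub (fw_lineP hDt p (r p) t')
      · intro s hs
        have a1 := (hlip (p + r p * s, t) (p + r p * s, t')).2
        simp only [sub_self, abs_zero, zero_add] at a1
        exact a1
    have k2 : ∫ s in (-1 : ℝ)..1, (Dt W (p + r p * s, t) - Dt W (p + r p * s, t')) * ker s =
        Dt1 r W (p, t) - Dt1 r W (p, t') := by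
      unfold Dt1
      simp only
      rw [← intervalIntegral.integral_sub]
      · apply intervalIntegral.integral_congr
        intro s _
        ring
      · exact ((fw_lineP hDt p (r p) t).mul ker_continuous).intervalIntegrable _ _
      · exact ((fw_lineP hDt p (r p) t').mul ker_continuous).intervalIntegrable _ _
    rw [k2] at k1
    have k3 : 0 ≤ C * |t - t'| := by positivity
    have k4 : 0 ≤ L * |t - t'| := by positivity
    linarith
  · have k1 : |∫ s in (-1 : ℝ)..1, (W (p + r p * s, t') - W (p + r p * s, t) -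
        Dt W (p + r p * s, t) * (t' - t)) * ker s| ≤ C * (t' - t) ^ 2 := by
      apply fw_bound
      · exact ((fw_lineP hW p (r p) t').sub (fw_lineP hW p (r p) t)).sub
          ((fw_lineP hDt p (r p) t).mul continuous_const)
      · intro s _
        have h2 := hexp (p + r p * s, t) (0, t' - t)
        have e1 : ((p + r p * s, t) : ℝ × ℝ) + (0, t' - t) = (p + r p * s, t') := by
          ext <;> simp
        have e2 : sq ((0, t' - t) : ℝ × ℝ) = (t' - t) ^ 2 := by simp [sq]
        rw [e1, e2] at h2
        simp only [mul_zero, zero_add] at h2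
        exact h2
    have k2 : ∫ s in (-1 : ℝ)..1, (W (p + r p * s, t') - W (p + r p * s, t) -
        Dt W (p + r p * s, t) * (t' - t)) * ker s =
        W1 r W (p, t') - W1 r W (p, t) - Dt1 r W (p, t) * (t' - t) := by
      unfold W1 Dt1
      simp only
      rw [← intervalIntegral.integral_sub, ← intervalIntegral.integral_mul_const,
        ← intervalIntegral.integral_sub]
      · apply intervalIntegral.integral_congr
        intro s _
        ring
      · exact (((fw_lineP hW p (r p) t').mul ker_continuous).sub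
          ((fw_lineP hW p (r p) t).mul ker_continuous)).intervalIntegrable _ _
      · exact (((fw_lineP hDt p (r p) t).mul ker_continuous).mul
          continuous_const).intervalIntegrable _ _
      · exact ((fw_lineP hW p (r p) t').mul ker_continuous).intervalIntegrable _ _
      · exact ((fw_lineP hW p (r p) t).mul ker_continuous).intervalIntegrable _ _
    rw [k2] at k1
    have k3 : 0 ≤ L * (t' - t) ^ 2 := by positivity
    linarith

end Pool.Agent.MP_4eca41
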