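import Pool.Agent.Work.MP_4eca41_an.F.FW1A
import Pool.Agent.Work.MP_4eca41_an.F.FLines

/-!
# F3b: the second `p`-derivative of the first mollification

Setting: `RA (Dpp W) P r r1 r2 σ`, `σ ≤ 1/4`.

PROOFS.
`g1_ftc`: for fixed `t`, `d1_int`: `D1 (p2,t) - D1 (p1,t) = ∫_{p1}^{p2} G1 (p,t) dp`.  The function `φ p = D1 (p,t)` is locally Lipschitz in `p`: on compact sets `|Dp W (p + r p s, t) - Dp W (p' + r p' s,t)| ≤ L (1+σ)|p-p'|`; the factor `(1 + r1 p s)`: `r1` is locally Lipschitz off `P` only, so write off `P`: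
`φ` is differentiable at a.e. `p ∉ P` with derivative `G1 (p,t)`: near such `p`, with `u = p + r p s`, `φ p = ∫ Dp W (u,t) (1 + r1 s) ker s ds`; integrate by parts: let `ψ_p (u) ` be the kernel; cleaner: for `p ∉ P` (open set) write `W1 (p,t) = ∫ W (u,t) ker ((u-p)/r p)/r p du` (C^2 kernel in `p`), so `W1 (·,t)` is C^2 on the open set
`Pᶜ` and its second derivative is obtained by differentiating `D1`; using `Dp W (u,t) = Dp W (u0,t) + ∫_{u0}^u Dpp W` one gets `G1`: precisely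
`(d/dp)^2 ∫ W (p + r s,t) ker s = ∫ Dpp W (p + r s,t) (1+r1 s)^2 ker s + r2 ∫ Dp W (p + r s,t) s ker s`, and `∫ Dp W (p + r s,t) s ker s ds = r ∫ Dpp W (p + r s,t) psi s ds` (integration by parts with `psi' = - s ker`, `Dp W (·,t)` Lipschitz).  So on `Pᶜ`: `HasDerivAt φ (G1 (p,t)) p` holds for EVERY `p ∉ P`
(`G1 (·,t)` is continuous on `Pᶜ`: `G1 (p,t) = ∫ Dpp W (u,t) [((1 + r1 s)^2 ker s + r r2 psi s)/r]_{s = (u-p)/r} du`, continuous kernel, bounded `Dpp W`).
On `P`: `φ - Dp W (·,t)` vanishes on `P` and `|φ p - Dp W (p,t)| ≤ L r p + C r1-term`: precisely `D1 (p,t) - Dp W (p,t) = ∫ (Dp W (p + r s,t) - Dp W (p,t)) (1 + r1 s) ker s ds` (as `∫ s ker = 0`), so `|…| ≤ 2 L r p ≤ κ' d(p,P)`, hence at every `p0 ∈ P` the function `φ - Dp W (·,t)` has derivative `0`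
(`RA.lim0`).  So at `p0 ∈ P` where `Dp W (·,t)` has derivative `Dpp W (p0,t)` (a.e.), `HasDerivAt φ (Dpp W (p0,t)) p0`, and `G1 (p0,t) = Dpp W (p0,t)` (`r = r1 = 0`, `∫ ker = 1`).  `φ` is locally Lipschitz: it is `Dp W (·,t) + ` (function with bounded derivative everywhere off `P`, vanishing and with zero derivative on `P`).
So `φ` is locally Lipschitz (hence absolutely continuous) with `φ' = G1` a.e.: `d1_int`.
`g1_bd`: `|G1| ≤ 2 C` (as `(1+σ)^2 + σ ≤ 2`).  `g1_upper`: `k1 s = (1 + r1 s)^2 ker s + r r2 psi s ≥ 0` (`psi ≤ ker/8`, `(3/4)^2 ≥ 1/32`), `∫ k1 = 1 + (r1^2 + r r2)/9 ≥ 1/2`; `Dpp W ≤ -c` a.e. on horizontal lines, so `G1 ≤ -c/2` for `p ∉ P`, all `t`; for `p ∈ P`: `G1 (p,t) = Dpp W (p,t) ≤ -c` for a.e. `t`.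
`g1_cont`: `κ`, `p0`.  Case `p0 ∉ P`: `wn (G1 (p,·) - G1 (p0,·)) ≤ ∫ |k̃ (p,u) - k̃ (p0,u)| wn (Dpp W (u,·)) du ≤ π C ∫ |k̃ (p,u) - k̃ (p0,u)| du → 0` (`k̃` the continuous kernel above).  Case `p0 ∈ P`, `p ∈ P`: `GoodL.co`.  Case `p0 ∈ P`, `p ∉ P`: `G1 (p,t) - Dpp W (p0,t) = ∫ (Dpp W (p + r s,t) - Dpp W (p0,t)) k1 s ds + Dpp W (p0,t) (∫ k1 - 1)`,
so `wn ≤ 2 · (35/32) (1/r) ∫_{p-r}^{p+r} wn (Dpp W (q,·) - Dpp W (p0,·)) dq + π C (|r1|^2 + r|r2|)`, small by `RA.av`, `RA.lim`.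
`g1_meas`: measurability of `G1` (jointly): `G1` is an integral of a jointly measurable function (`StronglyMeasurable.integral_prod_right`), `r2` replaced by `0` on `P`... `r p * r2 p` is measurable because `r r2` restricted to the open set `Pᶜ` is continuous and it is `0` on `P`.
-/

set_option autoImplicit false

open Set MeasureTheory

namespace Pool.Agent.MP_4eca41

/-- the kernel of `G1` -/
private noncomputable def w1b_k (ρ q s : ℝ) : ℝ := (1 + ρ * s) ^ 2 * ker s + q * psi s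

private theorem w1b_psi_cont : Continuous psi :=
  continuous_iff_continuousAt.2 fun s => (psi_hasDerivAt s).continuousAt

private theorem w1b_k_cont (ρ q : ℝ) : Continuous (w1b_k ρ q) := by
  unfold w1b_k
  have h1 := ker_continuous
  have h2 := w1b_psi_cont
  fun_prop

private theorem w1b_k_zero (ρ q s : ℝ) (hs : 1 ≤ |s|) : w1b_k ρ q s = 0 := by
  unfold w1b_k
  rw [ker_zero s hs, psi_zero s hs]
  ring

private theorem w1b_k_bd {ρ q : ℝ} (hρ : |ρ| ≤ 1 / 4) (hq : |q| ≤ 1 / 4) (s : ℝ) :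
    0 ≤ w1b_k ρ q s ∧ w1b_k ρ q s ≤ 2 * ker s := by
  by_cases hs : 1 ≤ |s|
  · rw [w1b_k_zero ρ q s hs, ker_zero s hs]
    simp
  · push Not at hs
    have h0 := ker_nonneg s
    have h1 := psi_nonneg s
    have h2 := psi_le s
    have h3 : |ρ * s| ≤ 1 / 4 := by
      rw [abs_mul]
      calc |ρ| * |s| ≤ 1 / 4 * 1 := mul_le_mul hρ hs.le (abs_nonneg _) (by norm_num)
        _ = 1 / 4 := mul_one _
    obtain ⟨h4, h5⟩ := abs_le.1 h3
    obtain ⟨h6, h7⟩ := abs_le.1 hq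
    have h8 : 9 / 16 ≤ (1 + ρ * s) ^ 2 := by nlinarith
    have h9 : (1 + ρ * s) ^ 2 ≤ 25 / 16 := by nlinarith
    have h10 : 9 / 16 * ker s ≤ (1 + ρ * s) ^ 2 * ker s := mul_le_mul_of_nonneg_right h8 h0
    have h11 : (1 + ρ * s) ^ 2 * ker s ≤ 25 / 16 * ker s := mul_le_mul_of_nonneg_right h9 h0
    have h12 : -(1 / 4) * psi s ≤ q * psi s := mul_le_mul_of_nonneg_right (by linarith) h1
    have h13 : q * psi s ≤ 1 / 4 * psi s := mul_le_mul_of_nonneg_right h7 h1
    unfold w1b_k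
    constructor <;> linarith

private theorem w1b_psi_int : ∫ s in (-1 : ℝ)..1, psi s = 1 / 9 := by
  have h1 : ∫ s in (-1 : ℝ)..1, psi s = ∫ s in (-1 : ℝ)..1, (35 / 256) * (1 - s ^ 2) ^ 4 := by
    refine intervalIntegral.integral_congr fun s hs => ?_
    rw [uIcc_of_le (by norm_num)] at hs
    show psi s = _
    unfold psi
    rw [if_pos (abs_le.2 hs)]
  rw [h1, intervalIntegral.integral_eq_sub_of_hasDerivAt
    (f := fun s : ℝ => (35 / 256) * (s - 4 / 3 * s ^ 3 + 6 / 5 * s ^ 5 - 4 / 7 * s ^ 7 + s ^ 9 / 9))]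
  · norm_num
  · intro x _
    have h2 := ((((((hasDerivAt_id x).sub ((hasDerivAt_pow 3 x).const_mul (4 / 3))).add
      ((hasDerivAt_pow 5 x).const_mul (6 / 5))).sub ((hasDerivAt_pow 7 x).const_mul (4 / 7))).add
      ((hasDerivAt_pow 9 x).div_const 9))).const_mul (35 / 256)
    convert! h2 using 1
    push_cast
    ring
  · apply Continuous.intervalIntegrable
    fun_prop

private theorem w1b_k_int (ρ q : ℝ) : ∫ s in (-1 : ℝ)..1, w1b_k ρ q s = 1 + (ρ ^ 2 + q) / 9 := by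
  have h1 := ker_continuous
  have h2 := w1b_psi_cont
  have e : ∀ s, w1b_k ρ q s = ker s + (2 * ρ) * (s * ker s) + ρ ^ 2 * (s ^ 2 * ker s) + q * psi s := by
    intro s
    unfold w1b_k
    ring
  simp_rw [e]
  rw [intervalIntegral.integral_add, intervalIntegral.integral_add, intervalIntegral.integral_add,
    intervalIntegral.integral_const_mul, intervalIntegral.integral_const_mul,
    intervalIntegral.integral_const_mul, ker_int, ker_int1, ker_int2, w1b_psi_int]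
  · ring
  all_goals
    apply Continuous.intervalIntegrable
    fun_prop

private theorem w1b_G1 (r r1 r2 : ℝ → ℝ) (W : ℝ × ℝ → ℝ) (z : ℝ × ℝ) : G1 r r1 r2 W z =
    ∫ s in (-1 : ℝ)..1, Dpp W (z.1 + r z.1 * s, z.2) * w1b_k (r1 z.1) (r z.1 * r2 z.1) s := rfl

private theorem w1b_ii {f : ℝ → ℝ} (hf : Measurable f) {B : ℝ} (hB : ∀ x, |f x| ≤ B) (a b : ℝ) :
    IntervalIntegrable f volume a b := by
  refine (intervalIntegrable_const (c := B)).mono_fun' hf.aestronglyMeasurable ?_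
  exact Filter.Eventually.of_forall fun x => by
    simpa only [Real.norm_eq_abs] using hB x

/-- data of `RA` at one point -/
private theorem w1b_ra {g : ℝ × ℝ → ℝ} {P : Set ℝ} {r r1 r2 : ℝ → ℝ} {σ : ℝ} (hσ : σ ≤ 1 / 4)
    (hr : RA g P r r1 r2 σ) (x : ℝ) : 0 ≤ r x ∧ |r1 x| ≤ 1 / 4 ∧ |r x * r2 x| ≤ 1 / 4 := by
  have h0 : 0 ≤ r x := by
    by_cases hx : x ∈ P
    · rw [(hr.zero x hx).1]
    · exact (hr.pos x hx).le
  refine ⟨h0, (hr.b1 x).trans hσ, ?_⟩
  rw [abs_mul, abs_of_nonneg h0]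
  exact (hr.b2 x).trans hσ

private theorem w1b_line {C : ℝ} {W : ℝ × ℝ → ℝ} (h : C11 C W) (p ρ t : ℝ) :
    Measurable fun s => Dpp W (p + ρ * s, t) := by
  have h1 : Measurable fun s : ℝ => (p + ρ * s, t) := by fun_prop
  exact (dpp_meas C W h).comp h1

/-- integrability of the integrand of `G1` and of similar functions -/
private theorem w1b_int {f g : ℝ → ℝ} (hf : Measurable f) {B : ℝ} (hB : ∀ x, |f x| ≤ B)
    (hg : Continuous g) (a b : ℝ) : IntervalIntegrable (fun s => f s * g s) volume a b :=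
  (w1b_ii hf hB a b).mul_continuousOn hg.continuousOn

/-- substitution `u = p + ρ s` for kernels vanishing outside of `[-1, 1]` -/
private theorem w1b_sub {F : ℝ → ℝ} {p ρ : ℝ} (hρ : 0 < ρ) (hF : ∀ s, 1 ≤ |s| → F s = 0) (G : ℝ → ℝ)
    {a b : ℝ} (ha : a ≤ p - ρ) (hb : p + ρ ≤ b) :
    ∫ u in a..b, G u * (F ((u - p) / ρ) / ρ) = ∫ s in (-1 : ℝ)..1, G (p + ρ * s) * F s := by
  have hsupp : Function.support (fun u => G u * (F ((u - p) / ρ) / ρ)) ⊆ Ioc (p - ρ) (p + ρ) := by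
    intro u hu
    by_contra hn
    apply hu
    have h1 : 1 ≤ |(u - p) / ρ| := by
      rw [abs_div, abs_of_pos hρ, le_div_iff₀ hρ, one_mul]
      by_contra h2
      push Not at h2
      obtain ⟨h3, h4⟩ := abs_lt.1 h2
      exact hn ⟨by linarith, by linarith⟩
    simp only [hF _ h1, zero_div, mul_zero]
  have hsupp2 : Function.support (fun u => G u * (F ((u - p) / ρ) / ρ)) ⊆ Ioc a b :=
    hsupp.trans (Ioc_subset_Ioc ha hb)
  rw [intervalIntegral.integral_eq_integral_of_support_subset hsupp2,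
    ← intervalIntegral.integral_eq_integral_of_support_subset hsupp]
  have h1 := intervalIntegral.integral_comp_add_mul (a := -1) (b := 1)
    (fun u => G u * (F ((u - p) / ρ) / ρ)) hρ.ne' p
  have e1 : p + ρ * -1 = p - ρ := by ring
  have e2 : p + ρ * 1 = p + ρ := by ring
  rw [e1, e2] at h1
  have h2 : (∫ x in (-1 : ℝ)..1, G (p + ρ * x) * (F ((p + ρ * x - p) / ρ) / ρ)) =
      ρ⁻¹ * ∫ s in (-1 : ℝ)..1, G (p + ρ * s) * F s := by
    rw [← intervalIntegral.integral_const_mul]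
    refine intervalIntegral.integral_congr fun s _ => ?_
    have e3 : (p + ρ * s - p) / ρ = s := by
      field_simp
      ring
    simp only [e3]
    field_simp
  rw [h2, smul_eq_mul] at h1
  exact (mul_left_cancel₀ (inv_ne_zero hρ.ne') h1).symm

/-- the transported kernel -/
private noncomputable def w1b_K (r r1 r2 : ℝ → ℝ) (p u : ℝ) : ℝ :=
  w1b_k (r1 p) (r p * r2 p) ((u - p) / r p) / r p

private theorem w1b_G1_ker {P : Set ℝ} {g : ℝ × ℝ → ℝ} {r r1 r2 : ℝ → ℝ} {σ : ℝ}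
    (hr : RA g P r r1 r2 σ) (W : ℝ × ℝ → ℝ) {p t a b : ℝ} (hp : p ∉ P)
    (ha : a ≤ p - r p) (hb : p + r p ≤ b) :
    G1 r r1 r2 W (p, t) = ∫ u in a..b, Dpp W (u, t) * w1b_K r r1 r2 p u := by
  unfold w1b_K
  rw [w1b_sub (F := w1b_k (r1 p) (r p * r2 p)) (hr.pos p hp)
    (fun s hs => w1b_k_zero _ _ s hs) (fun u => Dpp W (u, t)) ha hb]
  rfl

private theorem w1b_G1_P {P : Set ℝ} {g : ℝ × ℝ → ℝ} {r r1 r2 : ℝ → ℝ} {σ : ℝ}
    (hr : RA g P r r1 r2 σ) (W : ℝ × ℝ → ℝ) {p t : ℝ} (hp : p ∈ P) :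
    G1 r r1 r2 W (p, t) = Dpp W (p, t) := by
  rw [w1b_G1]
  obtain ⟨h0, h1⟩ := hr.zero p hp
  simp only [h0, h1, zero_mul, add_zero]
  rw [intervalIntegral.integral_const_mul, w1b_k_int]
  ring

theorem g1_meas (C : ℝ) (W : ℝ × ℝ → ℝ) (h : C11 C W) (P : Set ℝ) (hP : GoodL (Dpp W) P)
    (r r1 r2 : ℝ → ℝ) (σ : ℝ) (hσ : σ ≤ 1 / 4) (hr : RA (Dpp W) P r r1 r2 σ) :
    Measurable (G1 r r1 r2 W) := by
  classical
  have hq : Measurable fun p => r p * r2 p := by
    have h1 : (fun p => r p * r2 p) = P.piecewise (fun _ => (0 : ℝ)) (fun p => r p * r2 p) := by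
      funext p
      by_cases hp : p ∈ P
      · rw [Set.piecewise_eq_of_mem _ _ _ hp, (hr.zero p hp).1, zero_mul]
      · rw [Set.piecewise_eq_of_notMem _ _ _ hp]
    rw [h1]
    exact ContinuousOn.measurable_piecewise continuousOn_const
      (hr.cont.continuousOn.mul hr.c2) hP.cP.isClosed.measurableSet
  have hr1 : Measurable r1 := hr.c1.measurable
  have hr0 : Measurable r := hr.cont.measurable
  have hk : Measurable ker := ker_continuous.measurable
  have hps : Measurable psi := w1b_psi_cont.measurable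
  have hD : Measurable (Dpp W) := dpp_meas C W h
  have hF : Measurable fun x : (ℝ × ℝ) × ℝ => Dpp W (x.1.1 + r x.1.1 * x.2, x.1.2) *
      ((1 + r1 x.1.1 * x.2) ^ 2 * ker x.2 + r x.1.1 * r2 x.1.1 * psi x.2) := by
    have e1 : Measurable fun x : (ℝ × ℝ) × ℝ => (x.1.1 + r x.1.1 * x.2, x.1.2) := by
      have := hr0.comp (measurable_fst.comp measurable_fst : Measurable fun x : (ℝ × ℝ) × ℝ => x.1.1)
      exact ((measurable_fst.comp measurable_fst).add (this.mul measurable_snd)).prodMk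
        (measurable_snd.comp measurable_fst)
    have e2 : Measurable fun x : (ℝ × ℝ) × ℝ => r1 x.1.1 :=
      hr1.comp (measurable_fst.comp measurable_fst)
    have e3 : Measurable fun x : (ℝ × ℝ) × ℝ => r x.1.1 * r2 x.1.1 :=
      hq.comp (measurable_fst.comp measurable_fst)
    have e4 : Measurable fun x : (ℝ × ℝ) × ℝ => ker x.2 := hk.comp measurable_snd
    have e5 : Measurable fun x : (ℝ × ℝ) × ℝ => psi x.2 := hps.comp measurable_snd
    exact (hD.comp e1).mul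
      ((((measurable_const.add (e2.mul measurable_snd)).pow_const 2).mul e4).add (e3.mul e5))
  have hG : G1 r r1 r2 W = fun z => ∫ s in Ioc (-1 : ℝ) 1, Dpp W (z.1 + r z.1 * s, z.2) *
      ((1 + r1 z.1 * s) ^ 2 * ker s + r z.1 * r2 z.1 * psi s) := by
    funext z
    unfold G1
    exact intervalIntegral.integral_of_le (by norm_num)
  rw [hG]
  exact (StronglyMeasurable.integral_prod_right (f := fun (z : ℝ × ℝ) (s : ℝ) =>
    Dpp W (z.1 + r z.1 * s, z.2) * ((1 + r1 z.1 * s) ^ 2 * ker s + r z.1 * r2 z.1 * psi s))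
    hF.stronglyMeasurable).measurable

theorem g1_bd (C : ℝ) (W : ℝ × ℝ → ℝ) (h : C11 C W) (P : Set ℝ) (hP : GoodL (Dpp W) P)
    (r r1 r2 : ℝ → ℝ) (σ : ℝ) (hσ : σ ≤ 1 / 4) (hr : RA (Dpp W) P r r1 r2 σ) (z : ℝ × ℝ) :
    |G1 r r1 r2 W z| ≤ 2 * C := by
  obtain ⟨h0, h1, h2⟩ := w1b_ra hσ hr z.1
  rw [w1b_G1]
  have hi := w1b_int (w1b_line h z.1 (r z.1) z.2) (fun x => dpp_bd C W h _)
    (w1b_k_cont (r1 z.1) (r z.1 * r2 z.1)) (-1) 1
  have hk := ker_continuous
  calc |∫ s in (-1 : ℝ)..1, Dpp W (z.1 + r z.1 * s, z.2) * w1b_k (r1 z.1) (r z.1 * r2 z.1) s|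
      ≤ ∫ s in (-1 : ℝ)..1, |Dpp W (z.1 + r z.1 * s, z.2) * w1b_k (r1 z.1) (r z.1 * r2 z.1) s| :=
        intervalIntegral.abs_integral_le_integral_abs (by norm_num)
    _ ≤ ∫ s in (-1 : ℝ)..1, (2 * C) * ker s := by
        refine intervalIntegral.integral_mono_on (by norm_num) hi.abs
          ((continuous_const.mul hk).intervalIntegrable _ _) fun s _ => ?_
        obtain ⟨h3, h4⟩ := w1b_k_bd h1 h2 s
        rw [abs_mul, abs_of_nonneg h3]
        calc |Dpp W (z.1 + r z.1 * s, z.2)| * w1b_k (r1 z.1) (r z.1 * r2 z.1) s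
            ≤ C * (2 * ker s) := mul_le_mul (dpp_bd C W h _) h4 h3 h.nn
          _ = 2 * C * ker s := by ring
    _ = 2 * C := by
        rw [intervalIntegral.integral_const_mul, ker_int, mul_one]

/-- comparison of `G1` with a constant, on horizontal lines -/
private theorem w1b_cmp {C : ℝ} {W : ℝ × ℝ → ℝ} (h : C11 C W) {P : Set ℝ}
    {r r1 r2 : ℝ → ℝ} {σ : ℝ} (hσ : σ ≤ 1 / 4) (hr : RA (Dpp W) P r r1 r2 σ) {p t : ℝ}
    (hp : p ∉ P) (m : ℝ) :
    ((∀ᵐ u : ℝ, |u - p| ≤ r p → Dpp W (u, t) ≤ m) →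
      G1 r r1 r2 W (p, t) ≤ m * (1 + (r1 p ^ 2 + r p * r2 p) / 9)) ∧
    ((∀ᵐ u : ℝ, |u - p| ≤ r p → m ≤ Dpp W (u, t)) →
      m * (1 + (r1 p ^ 2 + r p * r2 p) / 9) ≤ G1 r r1 r2 W (p, t)) := by
  obtain ⟨h0, h1, h2⟩ := w1b_ra hσ hr p
  have hpos := hr.pos p hp
  have hle : p - r p ≤ p + r p := by linarith
  have hKc : Continuous (w1b_K r r1 r2 p) := by
    unfold w1b_K
    have := w1b_k_cont (r1 p) (r p * r2 p)
    fun_prop
  have hK0 : ∀ u, 0 ≤ w1b_K r r1 r2 p u := fun u =>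
    div_nonneg (w1b_k_bd h1 h2 _).1 h0
  have hGk := w1b_G1_ker hr W (p := p) (t := t) hp le_rfl le_rfl
  have hDm : Measurable fun u => Dpp W (u, t) := (dpp_meas C W h).comp (by fun_prop)
  have hi : IntervalIntegrable (fun u => Dpp W (u, t) * w1b_K r r1 r2 p u) volume (p - r p)
      (p + r p) := w1b_int hDm (fun x => dpp_bd C W h _) hKc _ _
  have hi2 : IntervalIntegrable (fun u => m * w1b_K r r1 r2 p u) volume (p - r p) (p + r p) :=
    (continuous_const.mul hKc).intervalIntegrable _ _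
  have hc : ∫ u in (p - r p)..(p + r p), m * w1b_K r r1 r2 p u =
      m * (1 + (r1 p ^ 2 + r p * r2 p) / 9) := by
    unfold w1b_K
    rw [w1b_sub (F := w1b_k (r1 p) (r p * r2 p)) hpos (fun s hs => w1b_k_zero _ _ s hs)
      (fun _ => m) le_rfl le_rfl, intervalIntegral.integral_const_mul, w1b_k_int]
  rw [hGk, ← hc]
  constructor
  · intro hae
    refine intervalIntegral.integral_mono_ae_restrict hle hi hi2 ?_
    rw [Filter.EventuallyLE, ae_restrict_iff' measurableSet_Icc]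
    filter_upwards [hae] with u hu hmem
    exact mul_le_mul_of_nonneg_right (hu (abs_le.2 ⟨by linarith [hmem.1], by linarith [hmem.2]⟩))
      (hK0 u)
  · intro hae
    refine intervalIntegral.integral_mono_ae_restrict hle hi2 hi ?_
    rw [Filter.EventuallyLE, ae_restrict_iff' measurableSet_Icc]
    filter_upwards [hae] with u hu hmem
    exact mul_le_mul_of_nonneg_right (hu (abs_le.2 ⟨by linarith [hmem.1], by linarith [hmem.2]⟩))
      (hK0 u)

theorem g1_upper (C : ℝ) (W : ℝ × ℝ → ℝ) (h : C11 C W) (M : ℝ) (hM : 0 < M)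
    (hu : ∀ v y : ℝ × ℝ, D2 W v y ≤ M * v.2 ^ 2 - v.1 ^ 2 / M) (P : Set ℝ)
    (hP : GoodL (Dpp W) P)
    (hPd : ∀ p ∈ P, ∀ᵐ t : ℝ, HasDerivAt (fun p' => Dp W (p', t)) (Dpp W (p, t)) p)
    (r r1 r2 : ℝ → ℝ) (σ : ℝ) (hσ : σ ≤ 1 / 4) (hr : RA (Dpp W) P r r1 r2 σ) (p : ℝ) :
    ∀ᵐ t : ℝ, G1 r r1 r2 W (p, t) ≤ -1 / (2 * M) := by
  have e1 : -1 / (2 * M) = -1 / M * (1 / 2) := by
    field_simp
  have hneg : -1 / M < 0 := div_neg_of_neg_of_pos (by norm_num) hM
  by_cases hp : p ∈ P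
  · filter_upwards [hPd p hp] with t ht
    rw [w1b_G1_P hr W hp]
    have h1 := dpp_le C M W h hM hu (p, t) _ ht
    rw [e1]
    linarith
  · refine Filter.Eventually.of_forall fun t => ?_
    obtain ⟨h0, h1, h2⟩ := w1b_ra hσ hr p
    have h3 := (w1b_cmp h hσ hr (t := t) hp (-1 / M)).1 (by
      filter_upwards [dpp_ae C W h t] with u hu' _
      exact dpp_le C M W h hM hu (u, t) _ hu')
    refine h3.trans ?_
    rw [e1]
    obtain ⟨h4, h5⟩ := abs_le.1 h2
    have h6 : (1 : ℝ) / 2 ≤ 1 + (r1 p ^ 2 + r p * r2 p) / 9 := by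
      have := sq_nonneg (r1 p)
      linarith
    exact mul_le_mul_of_nonpos_left h6 hneg.le

/-- Lower bound near a point by a lower bound `m ≤ 0` of `β`. -/
theorem g1_lower (C : ℝ) (W β : ℝ × ℝ → ℝ) (h : C11 C W) (hβ : Continuous β) (hc : Cls β W)
    (P : Set ℝ) (hP : GoodL (Dpp W) P)
    (hPd : ∀ p ∈ P, ∀ᵐ t : ℝ, HasDerivAt (fun p' => Dp W (p', t)) (Dpp W (p, t)) p)
    (r r1 r2 : ℝ → ℝ) (σ : ℝ) (hσ : σ ≤ 1 / 4) (hr : RA (Dpp W) P r r1 r2 σ) (p m : ℝ)
    (a b : ℝ) (hm : ∀ p' t : ℝ, |p' - p| ≤ r p → a ≤ t → t ≤ b → m ≤ β (p', t)) :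
    ∀ᵐ t : ℝ, a ≤ t → t ≤ b →
      m * (1 + (r1 p ^ 2 + r p * r2 p) / 9) ≤ G1 r r1 r2 W (p, t) := by
  by_cases hp : p ∈ P
  · filter_upwards [hPd p hp] with t ht hat htb
    rw [w1b_G1_P hr W hp, (hr.zero p hp).1, (hr.zero p hp).2]
    have h1 := dpp_ge C W β h hβ hc (p, t) _ ht
    have h2 := hm p t (by rw [sub_self, abs_zero, (hr.zero p hp).1]) hat htb
    have e : m * (1 + ((0 : ℝ) ^ 2 + 0 * r2 p) / 9) = m := by ring
    rw [e]
    exact h2.trans h1
  · refine Filter.Eventually.of_forall fun t hat htb => ?_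
    refine (w1b_cmp h hσ hr (t := t) hp m).2 ?_
    filter_upwards [dpp_ae C W h t] with u hu hle
    exact (hm u t hle hat htb).trans (dpp_ge C W β h hβ hc (u, t) _ hu)

private theorem w1b_k_ker (ρ q s : ℝ) :
    |w1b_k ρ q s - ker s| ≤ (2 * |ρ| + |ρ| ^ 2 + |q|) * ker s := by
  by_cases hs : 1 ≤ |s|
  · rw [w1b_k_zero ρ q s hs, ker_zero s hs]
    simp
  · push Not at hs
    have h0 := ker_nonneg s
    have h1 := psi_nonneg s
    have h2 := psi_le s
    have e : w1b_k ρ q s - ker s = (2 * ρ * s + ρ ^ 2 * s ^ 2) * ker s + q * psi s := by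
      unfold w1b_k
      ring
    rw [e]
    have h3 : |2 * ρ * s + ρ ^ 2 * s ^ 2| ≤ 2 * |ρ| + |ρ| ^ 2 := by
      refine (abs_add_le _ _).trans (add_le_add ?_ ?_)
      · rw [abs_mul, abs_mul, abs_two]
        exact mul_le_of_le_one_right (by positivity) hs.le
      · rw [abs_mul, abs_pow, abs_pow]
        exact mul_le_of_le_one_right (by positivity) (pow_le_one₀ (abs_nonneg _) hs.le)
    calc |(2 * ρ * s + ρ ^ 2 * s ^ 2) * ker s + q * psi s|
        ≤ |2 * ρ * s + ρ ^ 2 * s ^ 2| * ker s + |q| * psi s := by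
          refine (abs_add_le _ _).trans (le_of_eq ?_)
          rw [abs_mul, abs_mul, abs_of_nonneg h0, abs_of_nonneg h1]
      _ ≤ (2 * |ρ| + |ρ| ^ 2) * ker s + |q| * ker s := by
          refine add_le_add (mul_le_mul_of_nonneg_right h3 h0)
            (mul_le_mul_of_nonneg_left (by linarith) (abs_nonneg _))
      _ = _ := by ring

/-- `G1` and the plain average -/
private theorem w1b_avg {C : ℝ} {W : ℝ × ℝ → ℝ} (h : C11 C W) (r r1 r2 : ℝ → ℝ) (p t : ℝ) :
    |G1 r r1 r2 W (p, t) - ∫ s in (-1 : ℝ)..1, Dpp W (p + r p * s, t) * ker s| ≤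
      C * (2 * |r1 p| + |r1 p| ^ 2 + |r p * r2 p|) := by
  rw [w1b_G1]
  simp only
  have hk := ker_continuous
  have hkc := w1b_k_cont (r1 p) (r p * r2 p)
  have hm := w1b_line h p (r p) t
  have hb : ∀ x, |Dpp W (p + r p * x, t)| ≤ C := fun x => dpp_bd C W h _
  rw [← intervalIntegral.integral_sub (w1b_int hm hb hkc _ _) (w1b_int hm hb hk _ _)]
  have e : ∀ s, Dpp W (p + r p * s, t) * w1b_k (r1 p) (r p * r2 p) s -
      Dpp W (p + r p * s, t) * ker s =
      Dpp W (p + r p * s, t) * (w1b_k (r1 p) (r p * r2 p) s - ker s) := fun s => by ring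
  simp_rw [e]
  have hi := w1b_int hm hb (hkc.sub hk) (-1) 1
  calc |∫ s in (-1 : ℝ)..1, Dpp W (p + r p * s, t) * (w1b_k (r1 p) (r p * r2 p) s - ker s)|
      ≤ ∫ s in (-1 : ℝ)..1, |Dpp W (p + r p * s, t) * (w1b_k (r1 p) (r p * r2 p) s - ker s)| :=
        intervalIntegral.abs_integral_le_integral_abs (by norm_num)
    _ ≤ ∫ s in (-1 : ℝ)..1, (C * (2 * |r1 p| + |r1 p| ^ 2 + |r p * r2 p|)) * ker s := by
        refine intervalIntegral.integral_mono_on (by norm_num) hi.abs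
          ((continuous_const.mul hk).intervalIntegrable _ _) fun s _ => ?_
        rw [abs_mul, mul_assoc]
        exact mul_le_mul (hb s) (w1b_k_ker _ _ s) (abs_nonneg _) h.nn
    _ = _ := by
        rw [intervalIntegral.integral_const_mul, ker_int, mul_one]

private theorem w1b_wn_bd {C : ℝ} {W : ℝ × ℝ → ℝ} (h : C11 C W) (q p0 : ℝ) :
    |wn (fun t => Dpp W (q, t) - Dpp W (p0, t))| ≤ Real.pi * (2 * C) := by
  rw [abs_of_nonneg (wn_nonneg _)]
  have h1 : Measurable fun t => Dpp W (q, t) := (dpp_meas C W h).comp (by fun_prop)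
  have h2 : Measurable fun t => Dpp W (p0, t) := (dpp_meas C W h).comp (by fun_prop)
  refine wn_le _ (h1.sub h2) _ fun t => ?_
  have h3 := dpp_bd C W h (q, t)
  have h4 := dpp_bd C W h (p0, t)
  have h5 := abs_sub (Dpp W (q, t)) (Dpp W (p0, t))
  show |Dpp W (q, t) - Dpp W (p0, t)| ≤ 2 * C
  linarith

/-- Comparison with `Dpp W` on a line of `P` (`p0 ∈ P`, `p ∉ P` near `p0`), also for the plain average. -/
theorem avg_near (C : ℝ) (W : ℝ × ℝ → ℝ) (h : C11 C W) (P : Set ℝ) (hP : GoodL (Dpp W) P)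
    (r r1 r2 : ℝ → ℝ) (σ : ℝ) (hσ : σ ≤ 1 / 4) (hr : RA (Dpp W) P r r1 r2 σ) (p0 : ℝ)
    (hp0 : p0 ∈ P) (κ : ℝ) (hκ : 0 < κ) : ∃ δ : ℝ, 0 < δ ∧ ∀ p, p ∉ P → |p - p0| ≤ δ →
      (∫ s in (-1 : ℝ)..1, wn (fun t => Dpp W (p + r p * s, t) - Dpp W (p0, t)) * ker s) ≤ κ ∧
      ∀ t, |G1 r r1 r2 W (p, t) - ∫ s in (-1 : ℝ)..1, Dpp W (p + r p * s, t) * ker s| ≤ κ := by
  have hC := h.nn
  obtain ⟨δ1, hδ1, h1⟩ := hr.av p0 hp0 (κ / 2) (by positivity)
  obtain ⟨ε, hε⟩ : ∃ ε : ℝ, ε = min 1 (κ / (4 * (C + 1))) := ⟨_, rfl⟩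
  have hε0 : 0 < ε := by
    rw [hε]
    positivity
  have hε1 : ε ≤ 1 := by
    rw [hε]
    exact min_le_left _ _
  have hε2 : ε * (4 * (C + 1)) ≤ κ := by
    rw [← le_div_iff₀ (by positivity), hε]
    exact min_le_right _ _
  obtain ⟨δ2, hδ2, h2⟩ := hr.lim p0 hp0 ε hε0
  refine ⟨min δ1 δ2, lt_min hδ1 hδ2, fun p hp hpp => ⟨?_, fun t => ?_⟩⟩
  · have h3 := h1 p hp (hpp.trans (min_le_left _ _))
    have hpos := hr.pos p hp
    set N : ℝ → ℝ := fun q => wn (fun t => Dpp W (q, t) - Dpp W (p0, t)) with hN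
    have hNm : Measurable N := wn_measurable _ (dpp_meas C W h) p0
    have hNb : ∀ q, |N q| ≤ Real.pi * (2 * C) := fun q => w1b_wn_bd h q p0
    have hN0 : ∀ q, 0 ≤ N q := fun q => wn_nonneg _
    have hNm2 : Measurable fun s => N (p + r p * s) := hNm.comp (by fun_prop)
    have hk := ker_continuous
    have h4 : ∫ s in (-1 : ℝ)..1, N (p + r p * s) * ker s ≤
        ∫ s in (-1 : ℝ)..1, (35 / 32) * N (p + r p * s) := by
      refine intervalIntegral.integral_mono_on (by norm_num)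
        (w1b_int hNm2 (fun x => hNb _) hk _ _)
        ((w1b_ii hNm2 (fun x => hNb _) _ _).const_mul _) fun s _ => ?_
      rw [mul_comm (35 / 32 : ℝ)]
      exact mul_le_mul_of_nonneg_left (ker_le s) (hN0 _)
    have h5 : ∫ s in (-1 : ℝ)..1, N (p + r p * s) =
        (r p)⁻¹ * ∫ q in (p - r p)..(p + r p), N q := by
      have h6 := intervalIntegral.integral_comp_add_mul (a := -1) (b := 1) N hpos.ne' p
      have e1 : p + r p * -1 = p - r p := by ring
      have e2 : p + r p * 1 = p + r p := by ring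
      rw [e1, e2] at h6
      exact h6
    have h6 : ∫ s in (-1 : ℝ)..1, N (p + r p * s) ≤ κ / 2 := by
      rw [h5]
      calc (r p)⁻¹ * ∫ q in (p - r p)..(p + r p), N q ≤ (r p)⁻¹ * (κ / 2 * r p) :=
            mul_le_mul_of_nonneg_left h3 (by positivity)
        _ = κ / 2 := by field_simp
    rw [intervalIntegral.integral_const_mul] at h4
    calc ∫ s in (-1 : ℝ)..1, N (p + r p * s) * ker s
        ≤ 35 / 32 * ∫ s in (-1 : ℝ)..1, N (p + r p * s) := h4
      _ ≤ 35 / 32 * (κ / 2) := by linarith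
      _ ≤ κ := by linarith
  · have h3 := w1b_avg h r r1 r2 p t
    refine h3.trans ?_
    obtain ⟨h4, h5⟩ := h2 p (hpp.trans (min_le_right _ _))
    have h0 := hr.pos p hp
    have h6 : |r p * r2 p| ≤ ε := by
      rw [abs_mul, abs_of_pos h0]
      exact h5
    have h7 : |r1 p| ^ 2 ≤ ε := by
      have : |r1 p| ^ 2 ≤ ε ^ 2 := pow_le_pow_left₀ (abs_nonneg _) h4 2
      nlinarith
    calc C * (2 * |r1 p| + |r1 p| ^ 2 + |r p * r2 p|) ≤ C * (4 * ε) :=
          mul_le_mul_of_nonneg_left (by linarith) hC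
      _ ≤ ε * (4 * (C + 1)) := by nlinarith
      _ ≤ κ := hε2

private theorem w1b_avg_meas {C : ℝ} {W : ℝ × ℝ → ℝ} (h : C11 C W) (p ρ : ℝ) :
    Measurable fun t => ∫ s in (-1 : ℝ)..1, Dpp W (p + ρ * s, t) * ker s := by
  have hG : (fun t => ∫ s in (-1 : ℝ)..1, Dpp W (p + ρ * s, t) * ker s) =
      fun t => ∫ s in Ioc (-1 : ℝ) 1, Dpp W (p + ρ * s, t) * ker s := by
    funext t
    exact intervalIntegral.integral_of_le (by norm_num)
  rw [hG]
  have hF : Measurable fun x : ℝ × ℝ => Dpp W (p + ρ * x.2, x.1) * ker x.2 := by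
    have hk : Measurable fun x : ℝ × ℝ => ker x.2 := ker_continuous.measurable.comp measurable_snd
    exact ((dpp_meas C W h).comp (by fun_prop)).mul hk
  exact (StronglyMeasurable.integral_prod_right (f := fun (t s : ℝ) =>
    Dpp W (p + ρ * s, t) * ker s) hF.stronglyMeasurable).measurable

/-- Minkowski's inequality -/
private theorem w1b_mink {C : ℝ} {W : ℝ × ℝ → ℝ} (h : C11 C W) (p ρ p0 : ℝ) :
    wn (fun t => (∫ s in (-1 : ℝ)..1, Dpp W (p + ρ * s, t) * ker s) - Dpp W (p0, t)) ≤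
      ∫ s in (-1 : ℝ)..1, wn (fun t => Dpp W (p + ρ * s, t) - Dpp W (p0, t)) * ker s := by
  have hk := ker_continuous
  have hC := h.nn
  -- the integrand
  have hm : Measurable fun x : ℝ × ℝ => (|Dpp W (p + ρ * x.2, x.1) - Dpp W (p0, x.1)| /
      (1 + x.1 ^ 2)) * ker x.2 := by
    have h1 : Measurable fun x : ℝ × ℝ => Dpp W (p + ρ * x.2, x.1) :=
      (dpp_meas C W h).comp (by fun_prop)
    have h2 : Measurable fun x : ℝ × ℝ => Dpp W (p0, x.1) := (dpp_meas C W h).comp (by fun_prop)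
    have h3 : Measurable fun x : ℝ × ℝ => ker x.2 := hk.measurable.comp measurable_snd
    have h4 : Measurable fun x : ℝ × ℝ => |Dpp W (p + ρ * x.2, x.1) - Dpp W (p0, x.1)| :=
      (h1.sub h2).abs
    exact (h4.div (by fun_prop)).mul h3
  have hint : Integrable (fun x : ℝ × ℝ => (|Dpp W (p + ρ * x.2, x.1) - Dpp W (p0, x.1)| /
      (1 + x.1 ^ 2)) * ker x.2) (volume.prod (volume.restrict (Ioc (-1 : ℝ) 1))) := by
    have h1 : Integrable (fun t : ℝ => 2 * C * (1 + t ^ 2)⁻¹) :=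
      integrable_inv_one_add_sq.const_mul _
    have h2 : Integrable ker (volume.restrict (Ioc (-1 : ℝ) 1)) :=
      (hk.integrableOn_Icc (a := -1) (b := 1)).mono_set Ioc_subset_Icc_self
    refine (h1.mul_prod h2).mono' hm.aestronglyMeasurable (Filter.Eventually.of_forall fun x => ?_)
    have h3 := dpp_bd C W h (p + ρ * x.2, x.1)
    have h4 := dpp_bd C W h (p0, x.1)
    have h5 := abs_sub (Dpp W (p + ρ * x.2, x.1)) (Dpp W (p0, x.1))
    have h6 : 0 < 1 + x.1 ^ 2 := by positivity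
    have h7 := ker_nonneg x.2
    rw [Real.norm_eq_abs, abs_of_nonneg (mul_nonneg (div_nonneg (abs_nonneg _) h6.le) h7),
      div_eq_mul_inv]
    refine mul_le_mul_of_nonneg_right (mul_le_mul_of_nonneg_right (by linarith) ?_) h7
    positivity
  have hswap := integral_integral_swap (f := fun (t s : ℝ) =>
    (|Dpp W (p + ρ * s, t) - Dpp W (p0, t)| / (1 + t ^ 2)) * ker s) hint
  have hrhs : (∫ s in (-1 : ℝ)..1, wn (fun t => Dpp W (p + ρ * s, t) - Dpp W (p0, t)) * ker s) =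
      ∫ s in Ioc (-1 : ℝ) 1, ∫ t, (|Dpp W (p + ρ * s, t) - Dpp W (p0, t)| / (1 + t ^ 2)) * ker s := by
    rw [intervalIntegral.integral_of_le (by norm_num)]
    refine integral_congr_ae (Filter.Eventually.of_forall fun s => ?_)
    simp only [wn]
    rw [← integral_mul_const]
  rw [hrhs, ← hswap]
  unfold wn
  have hm2 : Measurable fun t => (∫ s in (-1 : ℝ)..1, Dpp W (p + ρ * s, t) * ker s) -
      Dpp W (p0, t) := (w1b_avg_meas h p ρ).sub ((dpp_meas C W h).comp (by fun_prop))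
  have hpt : ∀ t, |(∫ s in (-1 : ℝ)..1, Dpp W (p + ρ * s, t) * ker s) - Dpp W (p0, t)| / (1 + t ^ 2) ≤
      ∫ s in Ioc (-1 : ℝ) 1, (|Dpp W (p + ρ * s, t) - Dpp W (p0, t)| / (1 + t ^ 2)) * ker s := by
    intro t
    have hml := w1b_line h p ρ t
    have hbl : ∀ x, |Dpp W (p + ρ * x, t)| ≤ C := fun x => dpp_bd C W h _
    have h1 : (∫ s in (-1 : ℝ)..1, Dpp W (p + ρ * s, t) * ker s) - Dpp W (p0, t) =
        ∫ s in (-1 : ℝ)..1, (Dpp W (p + ρ * s, t) - Dpp W (p0, t)) * ker s := by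
      have e : ∀ s, (Dpp W (p + ρ * s, t) - Dpp W (p0, t)) * ker s =
          Dpp W (p + ρ * s, t) * ker s - Dpp W (p0, t) * ker s := fun s => by ring
      have hi2 : IntervalIntegrable (fun s => Dpp W (p0, t) * ker s) volume (-1) 1 :=
        Continuous.intervalIntegrable (by fun_prop) _ _
      simp_rw [e]
      rw [intervalIntegral.integral_sub (w1b_int hml hbl hk _ _) hi2,
        intervalIntegral.integral_const_mul, ker_int, mul_one]
    have h2 : |∫ s in (-1 : ℝ)..1, (Dpp W (p + ρ * s, t) - Dpp W (p0, t)) * ker s| ≤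
        ∫ s in (-1 : ℝ)..1, |Dpp W (p + ρ * s, t) - Dpp W (p0, t)| * ker s := by
      refine (intervalIntegral.abs_integral_le_integral_abs (by norm_num)).trans (le_of_eq ?_)
      refine intervalIntegral.integral_congr fun s _ => ?_
      show |(Dpp W (p + ρ * s, t) - Dpp W (p0, t)) * ker s| = _
      rw [abs_mul, abs_of_nonneg (ker_nonneg s)]
    rw [h1]
    have h3 : ∫ s in Ioc (-1 : ℝ) 1, (|Dpp W (p + ρ * s, t) - Dpp W (p0, t)| / (1 + t ^ 2)) * ker s =
        (∫ s in (-1 : ℝ)..1, |Dpp W (p + ρ * s, t) - Dpp W (p0, t)| * ker s) / (1 + t ^ 2) := by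
      rw [intervalIntegral.integral_of_le (by norm_num), ← integral_div]
      refine integral_congr_ae (Filter.Eventually.of_forall fun s => ?_)
      show |Dpp W (p + ρ * s, t) - Dpp W (p0, t)| / (1 + t ^ 2) * ker s =
        |Dpp W (p + ρ * s, t) - Dpp W (p0, t)| * ker s / (1 + t ^ 2)
      ring
    rw [h3]
    exact div_le_div_of_nonneg_right h2 (by positivity)
  refine integral_mono ?_ hint.integral_prod_left hpt
  -- integrability of the left side
  refine wn_integrable _ hm2 (2 * C) fun t => ?_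
  have h1 : |∫ s in (-1 : ℝ)..1, Dpp W (p + ρ * s, t) * ker s| ≤ C := by
    have h2 := w1b_int (w1b_line h p ρ t) (fun x => dpp_bd C W h _) hk (-1) 1
    calc |∫ s in (-1 : ℝ)..1, Dpp W (p + ρ * s, t) * ker s|
        ≤ ∫ s in (-1 : ℝ)..1, |Dpp W (p + ρ * s, t) * ker s| :=
          intervalIntegral.abs_integral_le_integral_abs (by norm_num)
      _ ≤ ∫ s in (-1 : ℝ)..1, C * ker s := by
          refine intervalIntegral.integral_mono_on (by norm_num) h2.abs
            ((continuous_const.mul hk).intervalIntegrable _ _) fun s _ => ?_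
          rw [abs_mul, abs_of_nonneg (ker_nonneg s)]
          exact mul_le_mul_of_nonneg_right (dpp_bd C W h _) (ker_nonneg s)
      _ = C := by rw [intervalIntegral.integral_const_mul, ker_int, mul_one]
  have h2 := dpp_bd C W h (p0, t)
  have h3 := abs_sub (∫ s in (-1 : ℝ)..1, Dpp W (p + ρ * s, t) * ker s) (Dpp W (p0, t))
  linarith

private theorem w1b_K_cont {g : ℝ × ℝ → ℝ} {P : Set ℝ} {r r1 r2 : ℝ → ℝ} {σ : ℝ}
    (hr : RA g P r r1 r2 σ) :
    ContinuousOn (fun x : ℝ × ℝ => w1b_K r r1 r2 x.1 x.2) (Pᶜ ×ˢ univ) := by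
  have c0 : ContinuousOn (fun x : ℝ × ℝ => r x.1) (Pᶜ ×ˢ univ) :=
    (hr.cont.comp continuous_fst).continuousOn
  have c1 : ContinuousOn (fun x : ℝ × ℝ => r1 x.1) (Pᶜ ×ˢ univ) :=
    (hr.c1.comp continuous_fst).continuousOn
  have c2 : ContinuousOn (fun x : ℝ × ℝ => r2 x.1) (Pᶜ ×ˢ univ) :=
    hr.c2.comp continuous_fst.continuousOn fun x hx => hx.1
  have hne : ∀ x ∈ (Pᶜ ×ˢ univ : Set (ℝ × ℝ)), r x.1 ≠ 0 := fun x hx => (hr.pos x.1 hx.1).ne'
  have cs : ContinuousOn (fun x : ℝ × ℝ => (x.2 - x.1) / r x.1) (Pᶜ ×ˢ univ) :=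
    (continuous_snd.sub continuous_fst).continuousOn.div c0 hne
  have ck : ContinuousOn (fun x : ℝ × ℝ => ker ((x.2 - x.1) / r x.1)) (Pᶜ ×ˢ univ) :=
    ker_continuous.comp_continuousOn cs
  have cp : ContinuousOn (fun x : ℝ × ℝ => psi ((x.2 - x.1) / r x.1)) (Pᶜ ×ˢ univ) :=
    w1b_psi_cont.comp_continuousOn cs
  unfold w1b_K w1b_k
  exact ((((continuousOn_const.add (c1.mul cs)).pow 2).mul ck).add ((c0.mul c2).mul cp)).div c0 hne

private theorem w1b_nbhd {g : ℝ × ℝ → ℝ} {P : Set ℝ} (hP : IsCompact P) {r r1 r2 : ℝ → ℝ} {σ : ℝ}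
    (hσ : σ ≤ 1 / 4) (hr : RA g P r r1 r2 σ) {p0 : ℝ} (hp0 : p0 ∉ P) :
    ∃ δ0 a b : ℝ, 0 < δ0 ∧ a ≤ b ∧ (∀ p, |p - p0| ≤ δ0 → p ∉ P ∧ a ≤ p - r p ∧ p + r p ≤ b) ∧
      ∀ ε : ℝ, 0 < ε → ∃ δ : ℝ, 0 < δ ∧ δ ≤ δ0 ∧ ∀ p, |p - p0| ≤ δ → ∀ u ∈ Icc a b,
        |w1b_K r r1 r2 p u - w1b_K r r1 r2 p0 u| ≤ ε := by
  have hopen : IsOpen Pᶜ := hP.isClosed.isOpen_compl
  obtain ⟨δ1, hδ1, h1⟩ := Metric.isOpen_iff.1 hopen p0 hp0
  have hball : ∀ p, |p - p0| ≤ δ1 / 2 → p ∉ P := by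
    intro p hp
    apply h1
    rw [Metric.mem_ball, Real.dist_eq]
    linarith
  refine ⟨δ1 / 2, p0 - δ1 / 2 - 1, p0 + δ1 / 2 + 1, by positivity, by linarith, fun p hp => ?_,
    fun ε hε => ?_⟩
  · have h2 := hr.b0 p
    obtain ⟨h3, h4⟩ := abs_le.1 hp
    exact ⟨hball p hp, by linarith, by linarith⟩
  · have hQ : IsCompact (Metric.closedBall p0 (δ1 / 2) ×ˢ Icc (p0 - δ1 / 2 - 1) (p0 + δ1 / 2 + 1)) :=
      (isCompact_closedBall _ _).prod isCompact_Icc
    have hsub : Metric.closedBall p0 (δ1 / 2) ×ˢ Icc (p0 - δ1 / 2 - 1) (p0 + δ1 / 2 + 1) ⊆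
        Pᶜ ×ˢ univ := by
      rintro ⟨p, u⟩ ⟨hp, _⟩
      refine ⟨hball p ?_, mem_univ _⟩
      rw [← Real.dist_eq]
      exact hp
    have huc := hQ.uniformContinuousOn_of_continuous ((w1b_K_cont hr).mono hsub)
    obtain ⟨δ, hδ, h2⟩ := Metric.uniformContinuousOn_iff.1 huc ε hε
    refine ⟨min (δ / 2) (δ1 / 2), by positivity, min_le_right _ _, fun p hp u hu => ?_⟩
    have h3 := h2 (p, u) ⟨by
      rw [Metric.mem_closedBall, Real.dist_eq]
      exact hp.trans (min_le_right _ _), hu⟩ (p0, u) ⟨Metric.mem_closedBall_self (by positivity), hu⟩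
      (by
        rw [Prod.dist_eq, dist_self, max_eq_left dist_nonneg, Real.dist_eq]
        have := hp.trans (min_le_left _ _)
        linarith)
    rw [Real.dist_eq] at h3
    exact h3.le

theorem g1_cont (C : ℝ) (W : ℝ × ℝ → ℝ) (h : C11 C W) (P : Set ℝ) (hP : GoodL (Dpp W) P)
    (r r1 r2 : ℝ → ℝ) (σ : ℝ) (hσ : σ ≤ 1 / 4) (hr : RA (Dpp W) P r r1 r2 σ) (p0 κ : ℝ)
    (hκ : 0 < κ) : ∃ δ : ℝ, 0 < δ ∧ ∀ p, |p - p0| ≤ δ →
      wn (fun t => G1 r r1 r2 W (p, t) - G1 r r1 r2 W (p0, t)) ≤ κ := by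
  have hC := h.nn
  have hπ := Real.pi_pos
  have hGm : ∀ p, Measurable fun t => G1 r r1 r2 W (p, t) := fun p =>
    (g1_meas C W h P hP r r1 r2 σ hσ hr).comp (by fun_prop)
  by_cases hp0 : p0 ∈ P
  · obtain ⟨δ1, hδ1, h1⟩ := hP.co κ hκ
    obtain ⟨ε, hε⟩ : ∃ ε : ℝ, ε = κ / (Real.pi + 1) := ⟨_, rfl⟩
    have hε0 : 0 < ε := by
      rw [hε]
      positivity
    have hε1 : (Real.pi + 1) * ε = κ := by
      rw [hε]
      field_simp
    obtain ⟨δ2, hδ2, h2⟩ := avg_near C W h P hP r r1 r2 σ hσ hr p0 hp0 ε hε0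
    refine ⟨min δ1 δ2, lt_min hδ1 hδ2, fun p hp => ?_⟩
    by_cases hpP : p ∈ P
    · have e : (fun t => G1 r r1 r2 W (p, t) - G1 r r1 r2 W (p0, t)) =
          fun t => Dpp W (p, t) - Dpp W (p0, t) := by
        funext t
        rw [w1b_G1_P hr W hpP, w1b_G1_P hr W hp0]
      rw [e]
      exact h1 p hpP p0 hp0 (hp.trans (min_le_left _ _))
    · obtain ⟨h3, h4⟩ := h2 p hpP (hp.trans (min_le_right _ _))
      have h5 := w1b_mink h p (r p) p0
      have hAm := w1b_avg_meas h p (r p)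
      have hDm : Measurable fun t => Dpp W (p0, t) := (dpp_meas C W h).comp (by fun_prop)
      have hAb : ∀ t, |∫ s in (-1 : ℝ)..1, Dpp W (p + r p * s, t) * ker s| ≤ 2 * C + ε := by
        intro t
        have h6 := h4 t
        have h7 := g1_bd C W h P hP r r1 r2 σ hσ hr (p, t)
        rw [abs_sub_comm] at h6
        have h8 := abs_sub_abs_le_abs_sub (∫ s in (-1 : ℝ)..1, Dpp W (p + r p * s, t) * ker s)
          (G1 r r1 r2 W (p, t))
        linarith
      have e : (fun t => G1 r r1 r2 W (p, t) - G1 r r1 r2 W (p0, t)) = fun t =>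
          (G1 r r1 r2 W (p, t) - ∫ s in (-1 : ℝ)..1, Dpp W (p + r p * s, t) * ker s) +
          ((∫ s in (-1 : ℝ)..1, Dpp W (p + r p * s, t) * ker s) - Dpp W (p0, t)) := by
        funext t
        rw [w1b_G1_P hr W hp0]
        ring
      rw [e]
      have h6 := wn_add (fun t => G1 r r1 r2 W (p, t) - ∫ s in (-1 : ℝ)..1,
          Dpp W (p + r p * s, t) * ker s)
        (fun t => (∫ s in (-1 : ℝ)..1, Dpp W (p + r p * s, t) * ker s) - Dpp W (p0, t))
        ((hGm p).sub hAm) (hAm.sub hDm) (3 * C + ε)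
        (fun t => (h4 t).trans (by linarith))
        (fun t => by
          have h7 := hAb t
          have h8 := dpp_bd C W h (p0, t)
          have h9 := abs_sub (∫ s in (-1 : ℝ)..1, Dpp W (p + r p * s, t) * ker s) (Dpp W (p0, t))
          linarith)
      have h7 := wn_le (fun t => G1 r r1 r2 W (p, t) - ∫ s in (-1 : ℝ)..1,
        Dpp W (p + r p * s, t) * ker s) ((hGm p).sub hAm) ε h4
      calc _ ≤ _ := h6
        _ ≤ Real.pi * ε + ε := add_le_add h7 (h5.trans h3)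
        _ = (Real.pi + 1) * ε := by ring
        _ = κ := hε1
  · obtain ⟨δ0, a, b, hδ0, hab, h1, h2⟩ := w1b_nbhd hP.cP hσ hr hp0
    obtain ⟨ε, hε⟩ : ∃ ε : ℝ, ε = κ / (Real.pi * (C + 1) * (b - a + 1)) := ⟨_, rfl⟩
    have hba : 0 ≤ b - a := by linarith
    have hε0 : 0 < ε := by
      rw [hε]
      positivity
    have hε1 : Real.pi * (C + 1) * (b - a + 1) * ε = κ := by
      rw [hε]
      field_simp
    obtain ⟨δ, hδ, hδδ, h3⟩ := h2 ε hε0
    refine ⟨δ, hδ, fun p hp => ?_⟩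
    obtain ⟨hpP, hpa, hpb⟩ := h1 p (hp.trans hδδ)
    obtain ⟨_, hpa0, hpb0⟩ := h1 p0 (by rw [sub_self, abs_zero]; exact hδ0.le)
    have hKc : ∀ q, q ∉ P → Continuous (w1b_K r r1 r2 q) := by
      intro q _
      unfold w1b_K
      have := w1b_k_cont (r1 q) (r q * r2 q)
      fun_prop
    have h4 : ∀ t, |G1 r r1 r2 W (p, t) - G1 r r1 r2 W (p0, t)| ≤ C * ε * (b - a) := by
      intro t
      have hDm : Measurable fun u => Dpp W (u, t) := (dpp_meas C W h).comp (by fun_prop)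
      have hDb : ∀ u, |Dpp W (u, t)| ≤ C := fun u => dpp_bd C W h _
      rw [w1b_G1_ker hr W hpP hpa hpb, w1b_G1_ker hr W hp0 hpa0 hpb0,
        ← intervalIntegral.integral_sub (w1b_int hDm hDb (hKc p hpP) _ _)
          (w1b_int hDm hDb (hKc p0 hp0) _ _)]
      have h5 := intervalIntegral.norm_integral_le_of_norm_le_const (a := a) (b := b)
        (f := fun u => Dpp W (u, t) * w1b_K r r1 r2 p u - Dpp W (u, t) * w1b_K r r1 r2 p0 u)
        (C := C * ε) (fun u hu => by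
          rw [uIoc_of_le hab] at hu
          rw [Real.norm_eq_abs, ← mul_sub, abs_mul]
          exact mul_le_mul (hDb u) (h3 p hp u ⟨hu.1.le, hu.2⟩) (abs_nonneg _) hC)
      rw [Real.norm_eq_abs, abs_of_nonneg hba] at h5
      exact h5
    have h5 := wn_le (fun t => G1 r r1 r2 W (p, t) - G1 r r1 r2 W (p0, t))
      ((hGm p).sub (hGm p0)) _ h4
    refine h5.trans ?_
    calc Real.pi * (C * ε * (b - a)) = Real.pi * C * (b - a) * ε := by ring
      _ ≤ Real.pi * (C + 1) * (b - a + 1) * ε := by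
          apply mul_le_mul_of_nonneg_right _ hε0.le
          apply mul_le_mul _ (by linarith) hba (by positivity)
          exact mul_le_mul_of_nonneg_left (by linarith) hπ.le
      _ = κ := hε1

private noncomputable def w1b_A (s : ℝ) : ℝ := ∫ x in s..1, ker x

private theorem w1b_A_deriv (s : ℝ) : HasDerivAt w1b_A (-ker s) s := by
  have h1 : w1b_A = fun s => -∫ x in (1 : ℝ)..s, ker x := by
    funext s
    exact intervalIntegral.integral_symm _ _
  rw [h1]
  exact (ker_continuous.integral_hasStrictDerivAt 1 s).hasDerivAt.neg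

private theorem w1b_A_one {s : ℝ} (hs : 1 ≤ s) : w1b_A s = 0 := by
  unfold w1b_A
  have h1 : ∫ x in s..1, ker x = ∫ x in s..1, (0 : ℝ) := by
    refine intervalIntegral.integral_congr fun x hx => ?_
    rw [uIcc_of_ge hs] at hx
    exact ker_zero x (hx.1.trans (le_abs_self x))
  rw [h1]
  simp

private theorem w1b_A_neg {s : ℝ} (hs : s ≤ -1) : w1b_A s = 1 := by
  unfold w1b_A
  have hi : ∀ a b : ℝ, IntervalIntegrable ker volume a b := fun a b =>
    ker_continuous.intervalIntegrable a b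
  rw [← intervalIntegral.integral_add_adjacent_intervals (hi s (-1)) (hi (-1) 1), ker_int]
  have h1 : ∫ x in s..(-1), ker x = ∫ x in s..(-1), (0 : ℝ) := by
    refine intervalIntegral.integral_congr fun x hx => ?_
    rw [uIcc_of_le hs] at hx
    exact ker_zero x ((by linarith [hx.2] : 1 ≤ -x).trans (neg_le_abs x))
  rw [h1]
  simp

private noncomputable def w1b_T (ρ1 s : ℝ) : ℝ := w1b_A s + ρ1 * psi s

private theorem w1b_T_deriv (ρ1 s : ℝ) : HasDerivAt (w1b_T ρ1) (-((1 + ρ1 * s) * ker s)) s := by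
  have h1 := (w1b_A_deriv s).add ((psi_hasDerivAt s).const_mul ρ1)
  convert! h1 using 1
  ring

private theorem w1b_T_cont (ρ1 : ℝ) : Continuous (w1b_T ρ1) :=
  continuous_iff_continuousAt.2 fun s => (w1b_T_deriv ρ1 s).continuousAt

private theorem w1b_rep {C : ℝ} {W : ℝ × ℝ → ℝ} (h : C11 C W) {ρ ρ1 p t a b : ℝ} (hρ : 0 < ρ)
    (ha : a ≤ p - ρ) (hb : p + ρ ≤ b) :
    ∫ s in (-1 : ℝ)..1, Dp W (p + ρ * s, t) * ((1 + ρ1 * s) * ker s) =
      Dp W (a, t) + ∫ u in a..b, Dpp W (u, t) * w1b_T ρ1 ((u - p) / ρ) := by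
  obtain ⟨-, -, -, L, hL, hl⟩ := c11_grad C W h
  have hk := ker_continuous
  have hd : ∀ u, HasDerivAt (fun u => w1b_T ρ1 ((u - p) / ρ))
      (-((1 + ρ1 * ((u - p) / ρ)) * ker ((u - p) / ρ) / ρ)) u := by
    intro u
    have h1 : HasDerivAt (fun u : ℝ => (u - p) / ρ) (1 / ρ) u :=
      ((hasDerivAt_id u).sub_const p).div_const ρ
    have h2 := (w1b_T_deriv ρ1 ((u - p) / ρ)).comp u h1
    convert! h2 using 1
    ring
  have hac1 : AbsolutelyContinuousOnInterval (fun u => w1b_T ρ1 ((u - p) / ρ)) a b := by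
    apply ContDiffOn.absolutelyContinuousOnInterval
    apply ContDiff.contDiffOn
    rw [contDiff_one_iff_deriv]
    refine ⟨fun u => (hd u).differentiableAt, ?_⟩
    have e : deriv (fun u => w1b_T ρ1 ((u - p) / ρ)) =
        fun u => -((1 + ρ1 * ((u - p) / ρ)) * ker ((u - p) / ρ) / ρ) :=
      funext fun u => (hd u).deriv
    rw [e]
    fun_prop
  have hlip : LipschitzWith ⟨L, hL⟩ (fun p => Dp W (p, t)) := by
    refine LipschitzWith.of_dist_le_mul fun x y => ?_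
    have h1 : |Dp W (x, t) - Dp W (y, t)| ≤ L * (|x - y| + |t - t|) := (hl (x, t) (y, t)).1
    rw [sub_self, abs_zero, add_zero] at h1
    rw [Real.dist_eq, Real.dist_eq]
    exact h1
  have hac2 : AbsolutelyContinuousOnInterval (fun p => Dp W (p, t)) a b :=
    (hlip.lipschitzOnWith (s := uIcc a b)).absolutelyContinuousOnInterval
  have key := hac1.integral_mul_deriv_eq_deriv_mul hac2
  have e1 : (∫ x in a..b, w1b_T ρ1 ((x - p) / ρ) * deriv (fun p => Dp W (p, t)) x) =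
      ∫ u in a..b, Dpp W (u, t) * w1b_T ρ1 ((u - p) / ρ) := by
    refine intervalIntegral.integral_congr fun u _ => ?_
    show w1b_T ρ1 ((u - p) / ρ) * Dpp W (u, t) = _
    ring
  have e2 : (∫ x in a..b, deriv (fun u => w1b_T ρ1 ((u - p) / ρ)) x * Dp W (x, t)) =
      -∫ s in (-1 : ℝ)..1, Dp W (p + ρ * s, t) * ((1 + ρ1 * s) * ker s) := by
    rw [← w1b_sub (F := fun s => (1 + ρ1 * s) * ker s) hρ
      (fun s hs => by simp only [ker_zero s hs, mul_zero]) (fun u => Dp W (u, t)) ha hb,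
      ← intervalIntegral.integral_neg]
    refine intervalIntegral.integral_congr fun u _ => ?_
    show deriv (fun u => w1b_T ρ1 ((u - p) / ρ)) u * Dp W (u, t) = _
    rw [(hd u).deriv]
    ring
  have e3 : w1b_T ρ1 ((b - p) / ρ) = 0 := by
    have h1 : 1 ≤ (b - p) / ρ := by
      rw [le_div_iff₀ hρ]
      linarith
    unfold w1b_T
    rw [w1b_A_one h1, psi_zero _ (h1.trans (le_abs_self _))]
    ring
  have e4 : w1b_T ρ1 ((a - p) / ρ) = 1 := by
    have h1 : (a - p) / ρ ≤ -1 := by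
      rw [div_le_iff₀ hρ]
      linarith
    have h2 : 1 ≤ |(a - p) / ρ| := (by linarith : 1 ≤ -((a - p) / ρ)).trans (neg_le_abs _)
    unfold w1b_T
    rw [w1b_A_neg h1, psi_zero _ h2]
    ring
  rw [e1, e2] at key
  simp only [e3, e4] at key
  linarith

private theorem w1b_T_deriv_p {g : ℝ × ℝ → ℝ} {P : Set ℝ} {r r1 r2 : ℝ → ℝ} {σ : ℝ}
    (hr : RA g P r r1 r2 σ) {p : ℝ} (hp : p ∉ P) (u : ℝ) :
    HasDerivAt (fun p => w1b_T (r1 p) ((u - p) / r p)) (w1b_K r r1 r2 p u) p := by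
  have hpos := hr.pos p hp
  have h1 : HasDerivAt (fun p => (u - p) / r p) ((-1 * r p - (u - p) * r1 p) / r p ^ 2) p :=
    ((hasDerivAt_id p).const_sub u).div (hr.d1 p) hpos.ne'
  have h2 : HasDerivAt (fun p => w1b_A ((u - p) / r p))
      (-ker ((u - p) / r p) * ((-1 * r p - (u - p) * r1 p) / r p ^ 2)) p :=
    (w1b_A_deriv _).comp p h1
  have h3 : HasDerivAt (fun p => psi ((u - p) / r p))
      (-(((u - p) / r p) * ker ((u - p) / r p)) * ((-1 * r p - (u - p) * r1 p) / r p ^ 2)) p :=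
    (psi_hasDerivAt _).comp p h1
  have h4 := h2.add ((hr.d2 p hp).mul h3)
  unfold w1b_T
  convert! h4 using 1
  unfold w1b_K w1b_k
  field_simp
  ring

private theorem w1b_D1_deriv {C : ℝ} {W : ℝ × ℝ → ℝ} (h : C11 C W) {P : Set ℝ} (hP : IsCompact P)
    {g : ℝ × ℝ → ℝ} {r r1 r2 : ℝ → ℝ} {σ : ℝ} (hσ : σ ≤ 1 / 4) (hr : RA g P r r1 r2 σ) (t : ℝ)
    {p0 : ℝ} (hp0 : p0 ∉ P) :
    HasDerivAt (fun p => D1 r r1 W (p, t)) (G1 r r1 r2 W (p0, t)) p0 := by
  obtain ⟨δ0, a, b, hδ0, hab, h1, h2⟩ := w1b_nbhd hP hσ hr hp0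
  obtain ⟨δ, hδ, hδδ, h3⟩ := h2 1 one_pos
  have hK0c : Continuous (w1b_K r r1 r2 p0) := by
    unfold w1b_K
    have := w1b_k_cont (r1 p0) (r p0 * r2 p0)
    fun_prop
  obtain ⟨B, hB⟩ := (isCompact_Icc (a := a) (b := b)).exists_bound_of_continuousOn
    hK0c.continuousOn
  have hDm : Measurable fun u => Dpp W (u, t) := (dpp_meas C W h).comp (by fun_prop)
  have hDb : ∀ u, |Dpp W (u, t)| ≤ C := fun u => dpp_bd C W h _
  have hTc : ∀ p, Continuous fun u => w1b_T (r1 p) ((u - p) / r p) := by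
    intro p
    have := w1b_T_cont (r1 p)
    fun_prop
  have key := intervalIntegral.hasDerivAt_integral_of_dominated_loc_of_deriv_le
    (μ := volume) (a := a) (b := b) (bound := fun _ => C * (B + 1))
    (F := fun p u => Dpp W (u, t) * w1b_T (r1 p) ((u - p) / r p))
    (F' := fun p u => Dpp W (u, t) * w1b_K r r1 r2 p u) (x₀ := p0) (s := Metric.ball p0 δ)
    (Metric.ball_mem_nhds p0 hδ)
    (Filter.Eventually.of_forall fun p =>
      (hDm.mul (hTc p).measurable).aestronglyMeasurable)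
    (w1b_int hDm hDb (hTc p0) a b)
    (hDm.mul hK0c.measurable).aestronglyMeasurable
    (Filter.Eventually.of_forall fun u hu p hp => by
      rw [uIoc_of_le hab] at hu
      rw [Metric.mem_ball, Real.dist_eq] at hp
      rw [Real.norm_eq_abs, abs_mul]
      refine mul_le_mul (hDb u) ?_ (abs_nonneg _) h.nn
      have h4 := h3 p hp.le u ⟨hu.1.le, hu.2⟩
      have h5 := hB u ⟨hu.1.le, hu.2⟩
      rw [Real.norm_eq_abs] at h5
      have h6 := abs_sub_abs_le_abs_sub (w1b_K r r1 r2 p u) (w1b_K r r1 r2 p0 u)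
      linarith)
    intervalIntegrable_const
    (Filter.Eventually.of_forall fun u _ p hp => by
      rw [Metric.mem_ball, Real.dist_eq] at hp
      exact (w1b_T_deriv_p hr (h1 p (hp.le.trans hδδ)).1 u).const_mul _)
  have h4 := key.2
  have h5 : (∫ u in a..b, Dpp W (u, t) * w1b_K r r1 r2 p0 u) = G1 r r1 r2 W (p0, t) := by
    obtain ⟨_, ha0, hb0⟩ := h1 p0 (by rw [sub_self, abs_zero]; exact hδ0.le)
    exact (w1b_G1_ker hr W hp0 ha0 hb0).symm
  rw [h5] at h4
  refine (h4.const_add (Dp W (a, t))).congr_of_eventuallyEq ?_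
  filter_upwards [Metric.ball_mem_nhds p0 hδ] with p hp
  rw [Metric.mem_ball, Real.dist_eq] at hp
  obtain ⟨hpP, ha, hb⟩ := h1 p (hp.le.trans hδδ)
  exact w1b_rep h (hr.pos p hpP) ha hb

private theorem w1b_D1_P {C : ℝ} {W : ℝ × ℝ → ℝ} (h : C11 C W) {P : Set ℝ}
    {g : ℝ × ℝ → ℝ} {r r1 r2 : ℝ → ℝ} {σ : ℝ} (hσ : σ ≤ 1 / 4) (hr : RA g P r r1 r2 σ) (t : ℝ)
    {p0 : ℝ} (hp0 : p0 ∈ P) (κ : ℝ) (hκ : 0 < κ) :
    ∃ δ : ℝ, 0 < δ ∧ ∀ p, |p - p0| < δ → |D1 r r1 W (p, t) - Dp W (p, t)| ≤ κ * |p - p0| := by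
  obtain ⟨-, -, -, L, hL, hl⟩ := c11_grad C W h
  have hk := ker_continuous
  have hDc := dp_continuous C W h
  obtain ⟨δ, hδ, h1⟩ := hr.lim0 ⟨p0, hp0⟩ (κ / (2 * L + 1)) (by positivity)
  refine ⟨δ, hδ, fun p hp => ?_⟩
  obtain ⟨h0, h2, -⟩ := w1b_ra hσ hr p
  have hinf : Metric.infDist p P ≤ |p - p0| := by
    rw [← Real.dist_eq]
    exact Metric.infDist_le_dist_of_mem hp0
  have h3 := h1 p (hinf.trans hp.le)
  have hc1 : Continuous fun s => Dp W (p + r p * s, t) * ((1 + r1 p * s) * ker s) := by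
    have : Continuous fun s : ℝ => Dp W (p + r p * s, t) := hDc.comp (by fun_prop)
    fun_prop
  have hc2 : Continuous fun s => Dp W (p, t) * ((1 + r1 p * s) * ker s) := by fun_prop
  have e1 : ∫ s in (-1 : ℝ)..1, (1 + r1 p * s) * ker s = 1 := by
    have e : ∀ s, (1 + r1 p * s) * ker s = ker s + r1 p * (s * ker s) := fun s => by ring
    simp_rw [e]
    rw [intervalIntegral.integral_add (hk.intervalIntegrable _ _)
      (Continuous.intervalIntegrable (by fun_prop) _ _), intervalIntegral.integral_const_mul,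
      ker_int, ker_int1]
    ring
  have e2 : D1 r r1 W (p, t) - Dp W (p, t) =
      ∫ s in (-1 : ℝ)..1, (Dp W (p + r p * s, t) - Dp W (p, t)) * ((1 + r1 p * s) * ker s) := by
    have e3 : ∀ s, (Dp W (p + r p * s, t) - Dp W (p, t)) * ((1 + r1 p * s) * ker s) =
        Dp W (p + r p * s, t) * ((1 + r1 p * s) * ker s) -
          Dp W (p, t) * ((1 + r1 p * s) * ker s) := fun s => by ring
    simp_rw [e3]
    rw [intervalIntegral.integral_sub (hc1.intervalIntegrable _ _) (hc2.intervalIntegrable _ _),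
      intervalIntegral.integral_const_mul, e1, mul_one]
    rfl
  have hc3 : Continuous fun s => (Dp W (p + r p * s, t) - Dp W (p, t)) *
      ((1 + r1 p * s) * ker s) := by
    have : Continuous fun s : ℝ => Dp W (p + r p * s, t) := hDc.comp (by fun_prop)
    fun_prop
  have h4 : |D1 r r1 W (p, t) - Dp W (p, t)| ≤ 2 * L * r p := by
    rw [e2]
    calc |∫ s in (-1 : ℝ)..1, (Dp W (p + r p * s, t) - Dp W (p, t)) * ((1 + r1 p * s) * ker s)|
        ≤ ∫ s in (-1 : ℝ)..1,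
            |(Dp W (p + r p * s, t) - Dp W (p, t)) * ((1 + r1 p * s) * ker s)| :=
          intervalIntegral.abs_integral_le_integral_abs (by norm_num)
      _ ≤ ∫ s in (-1 : ℝ)..1, (2 * L * r p) * ker s := by
          refine intervalIntegral.integral_mono_on (by norm_num)
            (hc3.abs.intervalIntegrable _ _)
            ((continuous_const.mul hk).intervalIntegrable _ _) fun s hs => ?_
          have hs1 : |s| ≤ 1 := abs_le.2 hs
          have h5 : |Dp W (p + r p * s, t) - Dp W (p, t)| ≤ L * r p := by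
            have h6 := (hl (p + r p * s, t) (p, t)).1
            simp only [add_sub_cancel_left, sub_self, abs_zero, add_zero] at h6
            refine h6.trans (mul_le_mul_of_nonneg_left ?_ hL)
            rw [abs_mul, abs_of_nonneg h0]
            exact mul_le_of_le_one_right h0 hs1
          have h7 : |1 + r1 p * s| ≤ 2 := by
            have h8 : |r1 p * s| ≤ 1 / 4 := by
              rw [abs_mul]
              calc |r1 p| * |s| ≤ 1 / 4 * 1 := mul_le_mul h2 hs1 (abs_nonneg _) (by norm_num)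
                _ = 1 / 4 := mul_one _
            obtain ⟨h9, h10⟩ := abs_le.1 h8
            exact abs_le.2 ⟨by linarith, by linarith⟩
          rw [abs_mul, abs_mul, abs_of_nonneg (ker_nonneg s)]
          calc |Dp W (p + r p * s, t) - Dp W (p, t)| * (|1 + r1 p * s| * ker s)
              ≤ (L * r p) * (2 * ker s) := by
                refine mul_le_mul h5 (mul_le_mul_of_nonneg_right h7 (ker_nonneg s)) ?_ (by positivity)
                exact mul_nonneg (abs_nonneg _) (ker_nonneg s)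
            _ = (2 * L * r p) * ker s := by ring
      _ = 2 * L * r p := by
          rw [intervalIntegral.integral_const_mul, ker_int, mul_one]
  have hd0 : 0 ≤ Metric.infDist p P := Metric.infDist_nonneg
  calc |D1 r r1 W (p, t) - Dp W (p, t)| ≤ 2 * L * r p := h4
    _ ≤ (2 * L + 1) * (κ / (2 * L + 1) * Metric.infDist p P) := by
        refine mul_le_mul (by linarith) h3 h0 (by positivity)
    _ = κ * Metric.infDist p P := by
        field_simp
    _ ≤ κ * |p - p0| := mul_le_mul_of_nonneg_left hinf hκ.le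

/-- a function with pointwise Lipschitz constant `K` everywhere is Lipschitz -/
private theorem w1b_lip {φ : ℝ → ℝ} {K : ℝ} (hK : 0 ≤ K)
    (h : ∀ x, ∃ δ : ℝ, 0 < δ ∧ ∀ y, |y - x| < δ → |φ y - φ x| ≤ K * |y - x|) (x y : ℝ) :
    |φ y - φ x| ≤ K * |y - x| := by
  have hcont : Continuous φ := by
    rw [Metric.continuous_iff]
    intro x ε hε
    obtain ⟨δ, hδ, h1⟩ := h x
    refine ⟨min δ (ε / (K + 1)), by positivity, fun y hy => ?_⟩
    rw [Real.dist_eq] at hy ⊢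
    obtain ⟨hy1, hy2⟩ := lt_min_iff.1 hy
    rw [lt_div_iff₀ (by positivity)] at hy2
    have h2 := h1 y hy1
    have h3 := abs_nonneg (y - x)
    nlinarith
  have main : ∀ x y, x ≤ y → |φ y - φ x| ≤ K * (y - x) := by
    intro x y hxy
    have hsub : Icc x y ⊆ {z | |φ z - φ x| ≤ K * (z - x)} := by
      apply IsClosed.Icc_subset_of_forall_exists_gt
      · apply IsClosed.inter _ isClosed_Icc
        exact isClosed_le (hcont.sub continuous_const).abs
          (continuous_const.mul (continuous_id.sub continuous_const))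
      · simp
      · rintro z ⟨hz, hzx⟩ w hw
        rw [mem_Ioi] at hw
        obtain ⟨δ, hδ, h1⟩ := h z
        refine ⟨min w (z + δ / 2), ?_, lt_min hw (by linarith), min_le_left _ _⟩
        have h2 : z < min w (z + δ / 2) := lt_min hw (by linarith)
        have h3 : min w (z + δ / 2) ≤ z + δ / 2 := min_le_right _ _
        have h4 := h1 (min w (z + δ / 2)) (by
          rw [abs_of_pos (by linarith)]
          linarith)
        rw [abs_of_pos (by linarith : 0 < min w (z + δ / 2) - z)] at h4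
        simp only [mem_setOf_eq] at hz ⊢
        have h5 := abs_add_le (φ (min w (z + δ / 2)) - φ z) (φ z - φ x)
        rw [sub_add_sub_cancel] at h5
        calc |φ (min w (z + δ / 2)) - φ x| ≤ K * (min w (z + δ / 2) - z) + K * (z - x) :=
              h5.trans (add_le_add h4 hz)
          _ = K * (min w (z + δ / 2) - x) := by ring
    exact hsub ⟨hxy, le_rfl⟩
  rcases le_total x y with hxy | hxy
  · rw [abs_of_nonneg (by linarith : 0 ≤ y - x)]
    exact main x y hxy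
  · rw [abs_sub_comm, abs_sub_comm y x, abs_of_nonneg (by linarith : 0 ≤ x - y)]
    exact main y x hxy

theorem d1_int (C : ℝ) (W : ℝ × ℝ → ℝ) (h : C11 C W) (P : Set ℝ) (hP : GoodL (Dpp W) P)
    (r r1 r2 : ℝ → ℝ) (σ : ℝ) (hσ : σ ≤ 1 / 4) (hr : RA (Dpp W) P r r1 r2 σ) (t p1 p2 : ℝ) :
    D1 r r1 W (p2, t) - D1 r r1 W (p1, t) = ∫ p in p1..p2, G1 r r1 r2 W (p, t) := by
  obtain ⟨-, -, -, L, hL, hl⟩ := c11_grad C W h
  have hC := h.nn
  have hDlip : ∀ x y, |Dp W (x, t) - Dp W (y, t)| ≤ L * |x - y| := by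
    intro x y
    have h1 := (hl (x, t) (y, t)).1
    simp only [sub_self, abs_zero, add_zero] at h1
    exact h1
  have hP0 : ∀ p ∈ P, D1 r r1 W (p, t) = Dp W (p, t) := by
    intro p hp
    obtain ⟨δ, hδ, h1⟩ := w1b_D1_P h hσ hr t hp 1 one_pos
    have h2 := h1 p (by rw [sub_self, abs_zero]; exact hδ)
    rw [sub_self, abs_zero, mul_zero] at h2
    exact sub_eq_zero.1 (abs_nonpos_iff.1 h2)
  obtain ⟨K, hK⟩ : ∃ K : ℝ, K = 2 * C + L + 1 := ⟨_, rfl⟩
  have hK0 : 0 ≤ K := by linarith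
  have hloc : ∀ x, ∃ δ : ℝ, 0 < δ ∧ ∀ y, |y - x| < δ →
      |D1 r r1 W (y, t) - D1 r r1 W (x, t)| ≤ K * |y - x| := by
    intro x
    by_cases hx : x ∈ P
    · obtain ⟨δ, hδ, h1⟩ := w1b_D1_P h hσ hr t hx 1 one_pos
      refine ⟨δ, hδ, fun y hy => ?_⟩
      have h2 := h1 y hy
      have h3 := hDlip y x
      rw [hP0 x hx]
      have h4 := abs_add_le (D1 r r1 W (y, t) - Dp W (y, t)) (Dp W (y, t) - Dp W (x, t))
      rw [sub_add_sub_cancel] at h4
      calc |D1 r r1 W (y, t) - Dp W (x, t)| ≤ 1 * |y - x| + L * |y - x| :=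
            h4.trans (add_le_add h2 h3)
        _ ≤ K * |y - x| := by
            rw [← add_mul]
            exact mul_le_mul_of_nonneg_right (by linarith) (abs_nonneg _)
    · have h1 := (w1b_D1_deriv h hP.cP hσ hr t hx).isLittleO
      rw [Asymptotics.isLittleO_iff] at h1
      have h2 := h1 one_pos
      rw [Metric.eventually_nhds_iff] at h2
      obtain ⟨δ, hδ, h3⟩ := h2
      refine ⟨δ, hδ, fun y hy => ?_⟩
      have h4 := h3 (y := y) (by rw [Real.dist_eq]; exact hy)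
      rw [smul_eq_mul, Real.norm_eq_abs, Real.norm_eq_abs, one_mul] at h4
      have h5 := g1_bd C W h P hP r r1 r2 σ hσ hr (x, t)
      have h6 := abs_add_le (D1 r r1 W (y, t) - D1 r r1 W (x, t) - (y - x) * G1 r r1 r2 W (x, t))
        ((y - x) * G1 r r1 r2 W (x, t))
      rw [sub_add_cancel, abs_mul] at h6
      have h7 : |y - x| * |G1 r r1 r2 W (x, t)| ≤ |y - x| * (2 * C) :=
        mul_le_mul_of_nonneg_left h5 (abs_nonneg _)
      calc |D1 r r1 W (y, t) - D1 r r1 W (x, t)| ≤ |y - x| + |y - x| * (2 * C) :=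
            h6.trans (add_le_add h4 h7)
        _ = (2 * C + 1) * |y - x| := by ring
        _ ≤ K * |y - x| := mul_le_mul_of_nonneg_right (by linarith) (abs_nonneg _)
  have hlip : LipschitzWith ⟨K, hK0⟩ (fun p => D1 r r1 W (p, t)) := by
    refine LipschitzWith.of_dist_le_mul fun x y => ?_
    rw [Real.dist_eq, Real.dist_eq]
    exact w1b_lip hK0 hloc y x
  have hac := (hlip.lipschitzOnWith (s := uIcc p1 p2)).absolutelyContinuousOnInterval
  have h1 := hac.integral_deriv_eq_sub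
  rw [← h1]
  refine intervalIntegral.integral_congr_ae ?_
  filter_upwards [dpp_ae C W h t] with p hp _
  by_cases hpP : p ∈ P
  · rw [w1b_G1_P hr W hpP]
    apply HasDerivAt.deriv
    have h2 : HasDerivAt (fun p => D1 r r1 W (p, t) - Dp W (p, t)) 0 p := by
      rw [hasDerivAt_iff_isLittleO, Asymptotics.isLittleO_iff]
      intro κ hκ
      obtain ⟨δ, hδ, h3⟩ := w1b_D1_P h hσ hr t hpP κ hκ
      rw [Metric.eventually_nhds_iff]
      refine ⟨δ, hδ, fun y hy => ?_⟩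
      rw [Real.dist_eq] at hy
      rw [hP0 p hpP, sub_self, sub_zero, smul_zero, sub_zero, Real.norm_eq_abs, Real.norm_eq_abs]
      exact h3 y hy
    have h3 := h2.add hp
    rw [zero_add] at h3
    refine h3.congr_of_eventuallyEq (Filter.Eventually.of_forall fun y => ?_)
    show D1 r r1 W (y, t) = D1 r r1 W (y, t) - Dp W (y, t) + Dp W (y, t)
    ring
  · exact (w1b_D1_deriv h hP.cP hσ hr t hpP).deriv

end Pool.Agent.MP_4eca41
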